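import Pool.Agent.H.MP_6c077c_gt.Cn.Lift
import Pool.Agent.H.MP_6c077c_gt.Family

/-! Canal spheres: isotopy of the slices below the first critical value. -/

set_option autoImplicit false

namespace Pool.Schoen

open Filter Set Metric
open scoped Topology RealInnerProductSpace ContDiff

variable {E V : Type*} [NormedAddCommGroup E] [InnerProductSpace ℝ E] [FiniteDimensional ℝ E]
  [NormedAddCommGroup V] [InnerProductSpace ℝ V] [FiniteDimensional ℝ V]
variable {c : ℝ → V} {B : ℝ → E →L[ℝ] V} {q : ℝ → ℝ} {a b : ℝ}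

/-- PROOF. `canal_lift`, then `family` for the function `(l, x) ↦ G (l * s₁, x)`, `l ∈ [0, 1]`: a
point with vanishing derivative would give `t` with `deriv q t = 0` and
`q t = (l s₁) ^ 2 ≤ s₁ ^ 2 < q t`. The compact set: closure of the bounded set `{G ≤ 0}`,
projected. -/
theorem CanalD.flow (h : CanalD c B q a b) (hE : 3 ≤ Module.finrank ℝ E)
    (hd : Module.finrank ℝ V = Module.finrank ℝ E + 1) {s₁ : ℝ}
    (hcrit : ∀ t ∈ Ioo a b, deriv q t = 0 → s₁ ^ 2 < q t) :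
    Carries (canalM c B q a b 0) (canalM c B q a b s₁) := by
  have : ProperSpace V := FiniteDimensional.proper ℝ V
  obtain ⟨G, hG, hbd, hzero, hder⟩ := canal_lift h hE hd
  obtain ⟨R, hR⟩ := hbd.subset_closedBall (0 : ℝ × V)
  have h1 : ContDiff ℝ ∞ (fun z : ℝ × V => G (z.1 * s₁, z.2)) :=
    hG.comp ((contDiff_fst.mul contDiff_const).prodMk contDiff_snd)
  have h2 := family (fun z : ℝ × V => G (z.1 * s₁, z.2)) h1 (closedBall (0 : V) R)
    (isCompact_closedBall _ _) (by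
      intro l hl x hx
      have hx' : G (l * s₁, x) = 0 := hx
      refine ⟨?_, ?_⟩
      · have h3 : (l * s₁, x) ∈ closedBall (0 : ℝ × V) R := hR (le_of_eq hx')
        rw [mem_closedBall_zero_iff] at h3 ⊢
        exact (norm_snd_le (l * s₁, x)).trans h3
      · intro h4
        obtain ⟨t, ht, -, ht2, ht3⟩ := hder (l * s₁) x hx' h4
        have h5 := hcrit t ht ht3
        rw [ht2, mul_pow] at h5
        have h6 : l ^ 2 ≤ 1 := by
          have := pow_le_one₀ (n := 2) hl.1 hl.2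
          exact this
        nlinarith [sq_nonneg s₁, mul_le_mul_of_nonneg_right h6 (sq_nonneg s₁)])
  have e0 : {x : V | (fun z : ℝ × V => G (z.1 * s₁, z.2)) (0, x) = 0} = canalM c B q a b 0 := by
    ext x
    have := hzero 0 x
    simp only [mem_setOf_eq, zero_mul]
    exact this
  have e1 : {x : V | (fun z : ℝ × V => G (z.1 * s₁, z.2)) (1, x) = 0} = canalM c B q a b s₁ := by
    ext x
    have := hzero s₁ x
    simp only [mem_setOf_eq, one_mul]
    exact this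
  rw [e0, e1] at h2
  exact h2

private theorem Flow_left {f : ℝ → ℝ} {x a : ℝ} (hf : DifferentiableAt ℝ f x) (hax : a < x)
    (hd : deriv f x < 0) : ∃ y, a < y ∧ y < x ∧ f x < f y := by
  have h1 := hasDerivAt_iff_tendsto_slope.1 hf.hasDerivAt
  have h2 : ∀ᶠ y in 𝓝[<] x, slope f x y < 0 :=
    (h1.mono_left (nhdsWithin_mono x (fun y hy => ne_of_lt hy))).eventually (gt_mem_nhds hd)
  have h3 : ∀ᶠ y in 𝓝[<] x, y ∈ Ioo a x := Ioo_mem_nhdsLT hax
  obtain ⟨y, h4, h5⟩ := (h2.and h3).exists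
  refine ⟨y, h5.1, h5.2, ?_⟩
  rw [slope_def_field] at h4
  have h6 : y - x < 0 := sub_neg.2 h5.2
  by_contra h7
  have h8 : 0 ≤ (f y - f x) / (y - x) := div_nonneg_of_nonpos (by linarith [not_lt.1 h7]) h6.le
  linarith

private theorem Flow_right {f : ℝ → ℝ} {x b : ℝ} (hf : DifferentiableAt ℝ f x) (hxb : x < b)
    (hd : 0 < deriv f x) : ∃ y, x < y ∧ y < b ∧ f x < f y := by
  have h1 := hasDerivAt_iff_tendsto_slope.1 hf.hasDerivAt
  have h2 : ∀ᶠ y in 𝓝[>] x, 0 < slope f x y :=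
    (h1.mono_left (nhdsWithin_mono x (fun y hy => ne_of_gt hy))).eventually (lt_mem_nhds hd)
  have h3 : ∀ᶠ y in 𝓝[>] x, y ∈ Ioo x b := Ioo_mem_nhdsGT hxb
  obtain ⟨y, h4, h5⟩ := (h2.and h3).exists
  refine ⟨y, h5.1, h5.2, ?_⟩
  rw [slope_def_field] at h4
  have h6 : 0 < y - x := sub_pos.2 h5.1
  have := (div_pos_iff_of_pos_right h6).1 h4
  linarith

/-- PROOF. If `s₁ = 0` take `a' = a`, `b' = b`. The set `{t ∈ [a, b] : q t = s₁ ^ 2}` is compact and
not empty (`q a = 0 < s₁ ^ 2 < q t₁`); let `a'` be its least and `b'` its greatest element. Then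
`q < s₁ ^ 2` on `[a, a')` and `(b', b]` (intermediate values), so `deriv q a' ≥ 0`, and it is not
zero by `hcrit` (`q a' = s₁ ^ 2`); the same at `b'`. `q > s₁ ^ 2` on `(a', b')`: otherwise the
minimum of `q` on `[a', b']` is attained at an inner point (near `a'` and `b'` inside the interval
`q > s₁ ^ 2`; if the minimum is `s₁ ^ 2` it is attained at an inner point too by assumption), where
`deriv q = 0` and `q ≤ s₁ ^ 2`: contradiction to `hcrit`. `a' < b'` because `q > s₁ ^ 2` at some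
point between them. -/
theorem CanalD.ends (h : CanalD c B q a b) {s₁ t₁ : ℝ} (ht₁ : t₁ ∈ Ioo a b)
    (hst : s₁ ^ 2 < q t₁) (hcrit : ∀ t ∈ Ioo a b, deriv q t = 0 → s₁ ^ 2 < q t) :
    ∃ a' b' : ℝ, a ≤ a' ∧ a' < b' ∧ b' ≤ b ∧ q a' = s₁ ^ 2 ∧ q b' = s₁ ^ 2 ∧
      0 < deriv q a' ∧ deriv q b' < 0 ∧ (∀ t ∈ Ioo a' b', s₁ ^ 2 < q t) ∧
      ∀ t ∈ Icc a b, s₁ ^ 2 ≤ q t → t ∈ Icc a' b' := by
  have hqc : Continuous q := h.sq.continuous
  have hqd : Differentiable ℝ q := h.sq.differentiable (by simp)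
  rcases eq_or_ne s₁ 0 with rfl | hs
  · refine ⟨a, b, le_rfl, h.lt, le_rfl, ?_, ?_, h.da, h.db, ?_, fun t ht _ => ht⟩
    · rw [h.za]; simp
    · rw [h.zb]; simp
    · intro t ht
      simpa using h.pos t ht
  · have hs2 : 0 < s₁ ^ 2 := by positivity
    set A : Set ℝ := Icc a b ∩ q ⁻¹' Ici (s₁ ^ 2) with hA
    have hAc : IsCompact A := isCompact_Icc.inter_right (isClosed_Ici.preimage hqc)
    have ht₁A : t₁ ∈ A := ⟨⟨ht₁.1.le, ht₁.2.le⟩, hst.le⟩
    obtain ⟨a', ha'A, ha'⟩ := hAc.exists_isLeast ⟨t₁, ht₁A⟩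
    obtain ⟨b', hb'A, hb'⟩ := hAc.exists_isGreatest ⟨t₁, ht₁A⟩
    have hqa' : q a' = s₁ ^ 2 := by
      obtain ⟨t, ht, hqt⟩ := intermediate_value_Icc ha'A.1.1 hqc.continuousOn
        (show s₁ ^ 2 ∈ Icc (q a) (q a') from ⟨by rw [h.za]; exact hs2.le, ha'A.2⟩)
      have htA : t ∈ A := ⟨⟨ht.1, ht.2.trans ha'A.1.2⟩, le_of_eq hqt.symm⟩
      have : t = a' := le_antisymm ht.2 (ha' htA)
      rw [← this]; exact hqt
    have hqb' : q b' = s₁ ^ 2 := by
      obtain ⟨t, ht, hqt⟩ := intermediate_value_Icc' hb'A.1.2 hqc.continuousOn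
        (show s₁ ^ 2 ∈ Icc (q b) (q b') from ⟨by rw [h.zb]; exact hs2.le, hb'A.2⟩)
      have htA : t ∈ A := ⟨⟨hb'A.1.1.trans ht.1, ht.2⟩, le_of_eq hqt.symm⟩
      have : t = b' := le_antisymm (hb' htA) ht.1
      rw [← this]; exact hqt
    have ha't : a' < t₁ := lt_of_le_of_ne (ha' ht₁A) (fun e => by
      rw [← e, hqa'] at hst; exact lt_irrefl _ hst)
    have hb't : t₁ < b' := lt_of_le_of_ne (hb' ht₁A) (fun e => by
      rw [e, hqb'] at hst; exact lt_irrefl _ hst)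
    have haa' : a < a' := lt_of_le_of_ne ha'A.1.1 (fun e => by
      rw [← e, h.za] at hqa'; exact hs2.ne hqa')
    have hbb' : b' < b := lt_of_le_of_ne hb'A.1.2 (fun e => by
      rw [e, h.zb] at hqb'; exact hs2.ne hqb')
    have ha'o : a' ∈ Ioo a b := ⟨haa', ha't.trans ht₁.2⟩
    have hb'o : b' ∈ Ioo a b := ⟨ht₁.1.trans hb't, hbb'⟩
    have hda : 0 < deriv q a' := by
      rcases lt_trichotomy (deriv q a') 0 with h1 | h1 | h1
      · exfalso
        obtain ⟨y, hy1, hy2, hy3⟩ := Flow_left (hqd a') haa' h1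
        have : y ∈ A := ⟨⟨hy1.le, (hy2.trans ha'o.2).le⟩, by
          rw [mem_preimage, mem_Ici, ← hqa']; exact hy3.le⟩
        exact absurd (ha' this) (not_le.2 hy2)
      · exfalso
        have := hcrit a' ha'o h1
        rw [hqa'] at this
        exact lt_irrefl _ this
      · exact h1
    have hdb : deriv q b' < 0 := by
      rcases lt_trichotomy (deriv q b') 0 with h1 | h1 | h1
      · exact h1
      · exfalso
        have := hcrit b' hb'o h1
        rw [hqb'] at this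
        exact lt_irrefl _ this
      · exfalso
        obtain ⟨y, hy1, hy2, hy3⟩ := Flow_right (hqd b') hbb' h1
        have : y ∈ A := ⟨⟨(hb'o.1.trans hy1).le, hy2.le⟩, by
          rw [mem_preimage, mem_Ici, ← hqb']; exact hy3.le⟩
        exact absurd (hb' this) (not_le.2 hy1)
    refine ⟨a', b', haa'.le, ha't.trans hb't, hbb'.le, hqa', hqb', hda, hdb, ?_,
      fun t ht hqt => ⟨ha' ⟨ht, hqt⟩, hb' ⟨ht, hqt⟩⟩⟩
    intro t ht
    by_contra hcon
    push Not at hcon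
    obtain ⟨m, hm, hmin⟩ := isCompact_Icc.exists_isMinOn (s := Icc a' b')
      ⟨a', ⟨le_rfl, (ha't.trans hb't).le⟩⟩ hqc.continuousOn
    have htI : t ∈ Icc a' b' := ⟨ht.1.le, ht.2.le⟩
    have hmt : q m ≤ q t := hmin htI
    have key : ∀ y ∈ Ioo a' b', IsMinOn q (Icc a' b') y → q y ≤ s₁ ^ 2 → False := by
      intro y hy hy2 hy3
      have h1 : IsLocalMin q y := hy2.isLocalMin (Icc_mem_nhds hy.1 hy.2)
      have h2 := hcrit y ⟨haa'.trans hy.1, hy.2.trans hbb'⟩ h1.deriv_eq_zero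
      linarith
    by_cases hmo : m ∈ Ioo a' b'
    · exact key m hmo hmin (hmt.trans hcon)
    · have hqm : q m = s₁ ^ 2 := by
        rcases eq_or_lt_of_le hm.1 with e | e
        · rw [← e]; exact hqa'
        · rcases eq_or_lt_of_le hm.2 with e' | e'
          · rw [e']; exact hqb'
          · exact absurd ⟨e, e'⟩ hmo
      have hqt : q t = q m := le_antisymm (by rw [hqm]; exact hcon) hmt
      refine key t ht (fun y hy => ?_) hcon
      have := hmin hy
      simp only [mem_setOf_eq] at this ⊢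
      rw [hqt]
      exact this

/-- PROOF. `CanalD.ends`, `CanalD.sub`, `CanalD.flow`; the slice at the height `s₁` is
`canalM c B (q - s₁ ^ 2) a' b' 0` (in it `s₁ ^ 2 ≤ q t`). -/
theorem CanalD.flow_sub (h : CanalD c B q a b) (hE : 3 ≤ Module.finrank ℝ E)
    (hd : Module.finrank ℝ V = Module.finrank ℝ E + 1) {s₁ t₁ : ℝ} (ht₁ : t₁ ∈ Ioo a b)
    (hst : s₁ ^ 2 < q t₁) (hcrit : ∀ t ∈ Ioo a b, deriv q t = 0 → s₁ ^ 2 < q t) :
    ∃ a' b' : ℝ, a ≤ a' ∧ b' ≤ b ∧ CanalD c B (fun t => q t - s₁ ^ 2) a' b' ∧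
      (∀ t ∈ Icc a b, s₁ ^ 2 ≤ q t → t ∈ Icc a' b') ∧
      Carries (canalM c B q a b 0) (canalM c B (fun t => q t - s₁ ^ 2) a' b' 0) := by
  obtain ⟨a', b', h1, h2, h3, h4, h5, h6, h7, h8, h9⟩ := h.ends ht₁ hst hcrit
  refine ⟨a', b', h1, h3, h.sub hE hd h1 h2 h3 h4 h5 h6 h7 h8, h9, ?_⟩
  have h10 := h.flow hE hd hcrit
  have e : canalM c B q a b s₁ = canalM c B (fun t => q t - s₁ ^ 2) a' b' 0 := by
    ext x
    constructor
    · rintro ⟨t, ht, w, hw, hx⟩
      refine ⟨t, h9 t ht (by rw [← hw]; linarith [sq_nonneg ‖w‖]), w, ?_, hx⟩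
      show (0 : ℝ) ^ 2 + ‖w‖ ^ 2 = q t - s₁ ^ 2
      linarith
    · rintro ⟨t, ht, w, hw, hx⟩
      refine ⟨t, ⟨h1.trans ht.1, ht.2.trans h3⟩, w, ?_, hx⟩
      have hw' : (0 : ℝ) ^ 2 + ‖w‖ ^ 2 = q t - s₁ ^ 2 := hw
      linarith
  rw [← e]
  exact h10

end Pool.Schoen
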