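import Pool.Agent.H.MP_6c077c_gt.Cn.Defs
import Pool.Agent.H.MP_6c077c_gt.IxB.Lift
import Pool.Agent.H.MP_6c077c_gt.IxB.LiftBall

/-! Canal spheres: unknotted sets and functions. -/

set_option autoImplicit false

namespace Pool.Schoen

open Filter Set Metric
open scoped Topology RealInnerProductSpace ContDiff

variable {V : Type*} [NormedAddCommGroup V] [InnerProductSpace ℝ V] [FiniteDimensional ℝ V]

theorem Unk.of_carries {M N : Set V} (h : Carries M N) (hN : Unk N) : Unk M := h.trans hN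

/-- PROOF. `carries_of_isBall` for `F` or `-F`. -/
theorem unk_of_rd {F : V → ℝ} (hF : ContDiff ℝ ∞ F) (h : Rd F) : Unk {x | F x = 0} := by
  rcases h with h | h
  · exact carries_of_isBall F hF h
  · have h1 := carries_of_isBall (fun x => -F x) hF.neg h
    have h2 : {x | -F x = 0} = {x | F x = 0} := by
      ext x
      exact neg_eq_zero
    rw [h2] at h1
    exact h1

omit [FiniteDimensional ℝ V] in
private theorem UnkL_sph (x : V) : ‖x‖ ^ 2 - 1 = 0 ↔ x ∈ sphere (0 : V) 1 := by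
  rw [mem_sphere_zero_iff_norm, sub_eq_zero]
  exact pow_eq_one_iff_of_nonneg (norm_nonneg x) two_ne_zero

omit [FiniteDimensional ℝ V] in
/-- An unknotted set is the preimage of the unit sphere. -/
private theorem UnkL_ex {M : Set V} (h : Unk M) :
    ∃ φ ψ : V → V, Dif φ ψ ∧ M = {x | ‖φ x‖ ^ 2 - 1 = 0} := by
  obtain ⟨φ, ψ, h1, h2, h3, h4, -, h6⟩ := h
  refine ⟨φ, ψ, ⟨h1, h2, h3, h4⟩, ?_⟩
  ext x
  rw [mem_setOf_eq, UnkL_sph, ← h6]
  constructor
  · exact fun hx => mem_image_of_mem φ hx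
  · rintro ⟨y, hy, hyx⟩
    have h7 : y = x := by rw [← h3 y, hyx, h3]
    rwa [← h7]

/-- Diffeomorphisms of `V` (not only compactly supported ones) preserve unknotted sets.
PROOF. `M = φ⁻¹ (sphere)`, `φ` a diffeomorphism (`Dif`), so
`Φ '' M = {x | ‖φ (Ψ x)‖ ^ 2 - 1 = 0}`; `isBall_dif` for the diffeomorphism `φ ∘ Ψ` and
`carries_of_isBall`. -/
theorem Unk.image_dif {Φ Ψ : V → V} (h : Dif Φ Ψ) {M : Set V} (hM : Unk M) : Unk (Φ '' M) := by
  obtain ⟨φ, ψ, hφ, rfl⟩ := UnkL_ex hM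
  have h1 : Dif (fun x => φ (Ψ x)) (fun x => Φ (ψ x)) :=
    ⟨hφ.smooth.comp h.smooth', h.smooth.comp hφ.smooth', fun x => by rw [hφ.left, h.right],
      fun x => by rw [h.left, hφ.right]⟩
  have h2 : Φ '' {x | ‖φ x‖ ^ 2 - 1 = 0} = {x | ‖φ (Ψ x)‖ ^ 2 - 1 = 0} :=
    (h.symm.preimage_eq {x | ‖φ x‖ ^ 2 - 1 = 0}).symm
  rw [h2]
  exact carries_of_isBall (fun x => ‖φ (Ψ x)‖ ^ 2 - 1)
    (((contDiff_norm_sq ℝ).comp h1.smooth).sub contDiff_const) (isBall_dif h1)

/-- The same for the preimage. -/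
theorem Unk.of_image_dif {Φ Ψ : V → V} (h : Dif Φ Ψ) {M : Set V} (hM : Unk (Φ '' M)) :
    Unk M := by
  have h1 := Unk.image_dif h.symm hM
  have h2 : Ψ '' (Φ '' M) = M := by
    rw [← image_comp]
    have h3 : Ψ ∘ Φ = id := funext h.left
    rw [h3, image_id]
  rwa [h2] at h1

omit [FiniteDimensional ℝ V] in
private theorem UnkL_fd (x v : V) : fderiv ℝ (fun y : V => ‖y‖ ^ 2 - 1) x v = 2 * ⟪x, v⟫ := by
  have h1 : HasFDerivAt (fun y : V => ‖y‖ ^ 2 - 1) (2 • (innerSL ℝ x)) x :=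
    (hasStrictFDerivAt_norm_sq x).hasFDerivAt.sub_const 1
  rw [h1.fderiv]
  simp only [ContinuousLinearMap.smul_apply, innerSL_apply_apply, nsmul_eq_mul]
  push_cast
  ring

/-- The derivative of a regular function with zero set the unit sphere: it does not vanish on the
radius. -/
private theorem UnkL_rad {G : V → ℝ} (hG : ContDiff ℝ ∞ G)
    (hr : ∀ x, G x = 0 → fderiv ℝ G x ≠ 0) (hz : ∀ x, G x = 0 ↔ ‖x‖ = 1) {x : V} (hx : ‖x‖ = 1) :
    fderiv ℝ G x x ≠ 0 := by
  intro h0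
  apply hr x ((hz x).2 hx)
  have hxx : ⟪x, x⟫ = (1 : ℝ) := by rw [real_inner_self_eq_norm_sq, hx, one_pow]
  -- tangent vectors
  have ht : ∀ w : V, ⟪x, w⟫ = (0 : ℝ) → ‖w‖ = 1 → fderiv ℝ G x w = 0 := by
    intro w hw hw1
    have h1 : HasDerivAt (fun s : ℝ => Real.cos s • x + Real.sin s • w) w 0 := by
      have h2 := ((Real.hasDerivAt_cos 0).smul_const x).add ((Real.hasDerivAt_sin 0).smul_const w)
      rw [Real.sin_zero, Real.cos_zero, neg_zero, zero_smul, one_smul, zero_add] at h2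
      exact h2
    have h3 : HasFDerivAt G (fderiv ℝ G x) (Real.cos 0 • x + Real.sin 0 • w) := by
      have h4 := ((hG.differentiable (by simp)) x).hasFDerivAt
      simpa using h4
    have h5 := h3.comp_hasDerivAt (0 : ℝ) h1
    have h6 : (G ∘ fun s : ℝ => Real.cos s • x + Real.sin s • w) = fun _ => (0 : ℝ) := by
      funext s
      show G (Real.cos s • x + Real.sin s • w) = 0
      rw [hz]
      have h7 : ‖Real.cos s • x + Real.sin s • w‖ ^ 2 = 1 := by
        rw [← real_inner_self_eq_norm_sq, inner_add_left, inner_add_right, inner_add_right,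
          real_inner_smul_left, real_inner_smul_left, real_inner_smul_left, real_inner_smul_left,
          real_inner_smul_right, real_inner_smul_right, real_inner_smul_right,
          real_inner_smul_right, real_inner_comm x w, hw, hxx, real_inner_self_eq_norm_sq, hw1]
        have := Real.sin_sq_add_cos_sq s
        nlinarith
      exact (pow_eq_one_iff_of_nonneg (norm_nonneg _) two_ne_zero).1 h7
    rw [h6] at h5
    exact h5.unique (hasDerivAt_const (0 : ℝ) (0 : ℝ))
  have ht' : ∀ w : V, ⟪x, w⟫ = (0 : ℝ) → fderiv ℝ G x w = 0 := by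
    intro w hw
    by_cases hw0 : w = 0
    · rw [hw0, map_zero]
    · have h1 : ‖w‖ ≠ 0 := norm_ne_zero_iff.2 hw0
      have h2 := ht (‖w‖⁻¹ • w) (by rw [real_inner_smul_right, hw, mul_zero])
        (by rw [norm_smul, norm_inv, norm_norm, inv_mul_cancel₀ h1])
      rw [map_smul, smul_eq_mul] at h2
      rcases mul_eq_zero.1 h2 with h3 | h3
      · exact absurd h3 (inv_ne_zero h1)
      · exact h3
  ext w
  have h1 : w = ⟪x, w⟫ • x + (w - ⟪x, w⟫ • x) := by abel
  have h2 : fderiv ℝ G x (w - ⟪x, w⟫ • x) = 0 := by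
    apply ht'
    rw [inner_sub_right, real_inner_smul_right, hxx, mul_one, sub_self]
  rw [h1, map_add, map_smul, h0, h2, smul_zero, add_zero]
  rfl

/-- The outside of the unit ball is connected. -/
private theorem UnkL_out (hn : 2 ≤ Module.finrank ℝ V) : IsPreconnected {x : V | 1 < ‖x‖} := by
  have h1 : IsPreconnected (Ioi (1 : ℝ) ×ˢ sphere (0 : V) 1) :=
    isPreconnected_Ioi.prod (isPreconnected_sphere (by
      rw [← Module.finrank_eq_rank]
      exact_mod_cast hn) 0 1)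
  have h2 := h1.image (fun p : ℝ × V => p.1 • p.2) (by fun_prop)
  have h3 : (fun p : ℝ × V => p.1 • p.2) '' (Ioi (1 : ℝ) ×ˢ sphere (0 : V) 1) =
      {x : V | 1 < ‖x‖} := by
    ext x
    constructor
    · rintro ⟨⟨s, y⟩, ⟨hs, hy⟩, rfl⟩
      have hs' : 1 < s := hs
      have hy' : ‖y‖ = 1 := mem_sphere_zero_iff_norm.1 hy
      show 1 < ‖s • y‖
      rw [norm_smul, hy', mul_one, Real.norm_of_nonneg (by linarith)]
      exact hs'
    · intro hx
      have hx' : 1 < ‖x‖ := hx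
      have h4 : ‖x‖ ≠ 0 := by linarith
      refine ⟨(‖x‖, ‖x‖⁻¹ • x), ⟨hx', ?_⟩, ?_⟩
      · show ‖x‖⁻¹ • x ∈ sphere (0 : V) 1
        rw [mem_sphere_zero_iff_norm, norm_smul, norm_inv, norm_norm, inv_mul_cancel₀ h4]
      · show ‖x‖ • ‖x‖⁻¹ • x = x
        rw [smul_smul, mul_inv_cancel₀ h4, one_smul]
  rwa [h3] at h2

/-- On a preconnected set a continuous function without zeros has constant sign. -/
private theorem UnkL_sign {G : V → ℝ} (hG : Continuous G) {S : Set V} (hS : IsPreconnected S)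
    (h0 : ∀ x ∈ S, G x ≠ 0) {a : V} (ha : a ∈ S) (hGa : 0 < G a) : ∀ x ∈ S, 0 < G x := by
  intro x hx
  by_contra hc
  obtain ⟨z, hz, hz'⟩ := hS.intermediate_value hx ha hG.continuousOn ⟨not_lt.1 hc, hGa.le⟩
  exact h0 z hz hz'

/-- A regular function, negative inside of the unit ball, with zero set the unit sphere. -/
private theorem UnkL_ball (hn : 2 ≤ Module.finrank ℝ V) {G : V → ℝ} (hG : ContDiff ℝ ∞ G)
    (hr : ∀ x, G x = 0 → fderiv ℝ G x ≠ 0) (hz : ∀ x, G x = 0 ↔ ‖x‖ = 1)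
    (hi : ∀ x, ‖x‖ < 1 → G x < 0) : IsBall G := by
  have hnt : Nontrivial V := Module.nontrivial_of_finrank_pos (R := ℝ) (by omega)
  have hline : ∀ x : V, HasDerivAt (fun s : ℝ => G (x + s • x)) (fderiv ℝ G x x) 0 := fun x =>
    (((hG.differentiable (by simp)) x).hasFDerivAt.hasLineDerivAt x)
  -- the derivative is positive on the radius
  have hpos : ∀ x, ‖x‖ = 1 → 0 < fderiv ℝ G x x := by
    intro x hx
    refine lt_of_le_of_ne ?_ (UnkL_rad hG hr hz hx).symm
    have hle : 𝓝[<] (0 : ℝ) ≤ 𝓝[≠] (0 : ℝ) := by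
      apply nhdsWithin_mono
      intro s hs
      exact ne_of_lt (mem_Iio.1 hs)
    have h3 := (hasDerivAt_iff_tendsto_slope.1 (hline x)).mono_left hle
    refine ge_of_tendsto h3 ?_
    filter_upwards [Ioo_mem_nhdsLT (show (-1 : ℝ) < 0 by norm_num)] with s hs
    rw [slope_def_field]
    simp only [zero_smul, add_zero, sub_zero]
    have h4 : G x = 0 := (hz x).2 hx
    have h5 : G (x + s • x) < 0 := by
      apply hi
      have h6 : x + s • x = (1 + s) • x := by rw [add_smul, one_smul]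
      rw [h6, norm_smul, hx, mul_one, Real.norm_of_nonneg (by linarith [hs.1])]
      linarith [hs.2]
    rw [h4, sub_zero]
    exact (div_pos_of_neg_of_neg h5 hs.2).le
  -- so the function is positive outside
  have ho : ∀ x, 1 < ‖x‖ → 0 < G x := by
    obtain ⟨e, he⟩ := exists_ne (0 : V)
    obtain ⟨x, hx⟩ : ∃ x : V, ‖x‖ = 1 :=
      ⟨‖e‖⁻¹ • e, by rw [norm_smul, norm_inv, norm_norm, inv_mul_cancel₀ (norm_ne_zero_iff.2 he)]⟩
    have hle : 𝓝[>] (0 : ℝ) ≤ 𝓝[≠] (0 : ℝ) := by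
      apply nhdsWithin_mono
      intro s hs
      exact ne_of_gt (mem_Ioi.1 hs)
    have h3 := (hasDerivAt_iff_tendsto_slope.1 (hline x)).mono_left hle
    have h4 := h3.eventually_const_lt (hpos x hx)
    obtain ⟨s, hs, hs0⟩ := (h4.and self_mem_nhdsWithin).exists
    have hs0' : (0 : ℝ) < s := hs0
    rw [slope_def_field] at hs
    simp only [zero_smul, add_zero, sub_zero] at hs
    rw [(hz x).2 hx, sub_zero] at hs
    have h5 : 0 < G (x + s • x) := (div_pos_iff_of_pos_right hs0').1 hs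
    have h6 : x + s • x ∈ {y : V | 1 < ‖y‖} := by
      have h7 : x + s • x = (1 + s) • x := by rw [add_smul, one_smul]
      show 1 < ‖x + s • x‖
      rw [h7, norm_smul, hx, mul_one, Real.norm_of_nonneg (by linarith)]
      linarith
    exact UnkL_sign hG.continuous (UnkL_out hn)
      (fun y hy hy0 => absurd ((hz y).1 hy0) (ne_of_gt hy)) h6 h5
  have hb : Bornology.IsBounded {x | G x = 0} := by
    refine (Metric.isBounded_closedBall (x := (0 : V)) (r := 1)).subset fun x hx => ?_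
    rw [mem_closedBall_zero_iff]
    exact ((hz x).1 hx).le
  have hlt : ∀ x : V, ‖x‖ ^ 2 - 1 < 0 ↔ ‖x‖ < 1 := fun x => by
    rw [sub_neg]
    exact pow_lt_one_iff_of_nonneg (norm_nonneg x) two_ne_zero
  have hle : ∀ x : V, ‖x‖ ^ 2 - 1 ≤ 0 ↔ ‖x‖ ≤ 1 := fun x => by
    rw [sub_nonpos]
    exact pow_le_one_iff_of_nonneg (norm_nonneg x) two_ne_zero
  refine Hom.of_sign (good_of_regular hG hb hr) (by fun_prop) (fun x => ?_) (fun x => ?_)
    (fun x hx => ⟨-x, ?_, ?_⟩)
  · rw [hlt]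
    refine ⟨fun hx => ?_, hi x⟩
    rcases lt_trichotomy ‖x‖ 1 with h | h | h
    · exact h
    · exact absurd ((hz x).2 h) hx.ne
    · exact absurd (ho x h) (not_lt.2 hx.le)
  · rw [hle]
    refine ⟨fun hx => ?_, fun hx => ?_⟩
    · by_contra hc
      exact absurd (ho x (not_le.1 hc)) (not_lt.2 hx)
    · rcases eq_or_lt_of_le hx with h | h
      · exact ((hz x).2 h).le
      · exact (hi x h).le
  · refine desc1_smooth (hG.contDiffAt.of_le (by exact_mod_cast le_top)) ?_
    rw [map_neg]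
    linarith [hpos x ((hz x).1 hx)]
  · refine desc1_smooth (((contDiff_norm_sq ℝ).sub contDiff_const).contDiffAt) ?_
    rw [UnkL_fd, inner_neg_right, real_inner_self_eq_norm_sq, (hz x).1 hx]
    norm_num

/-- PROOF. Let `φ` carry `{F = 0}` to the unit sphere, `ψ` its inverse, `F₁ = F ∘ ψ`: smooth, regular,
zero set the unit sphere. `F₁` has constant sign on `{‖x‖ < 1}` and on `{‖x‖ > 1}` (both connected as
`dim V ≥ 2`), and the signs are different because `F₁` is regular. If `F₁ < 0` inside: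
`Hom F₁ (‖x‖ ^ 2 - 1)` by `Hom.of_sign`; at a point of the sphere the gradient of `F₁` is a positive
multiple of `x` (it is orthogonal to the tangent vectors, not zero, and has the right sign), so `-x`
is a common descent direction (`desc1_smooth`). Otherwise the same for `-F₁`. Then
`Rd.comp_dif`. -/
theorem rd_of_unk (hn : 2 ≤ Module.finrank ℝ V) {F : V → ℝ} (hF : ContDiff ℝ ∞ F)
    (hr : ∀ x, F x = 0 → fderiv ℝ F x ≠ 0) (h : Unk {x | F x = 0}) : Rd F := by
  obtain ⟨φ, ψ, hφ, hM⟩ := UnkL_ex h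
  rw [← Rd.comp_dif hφ.symm]
  have hz : ∀ x, F (ψ x) = 0 ↔ ‖x‖ = 1 := by
    intro x
    have h1 : ψ x ∈ {x | F x = 0} ↔ ψ x ∈ {x | ‖φ x‖ ^ 2 - 1 = 0} := by rw [hM]
    rw [mem_setOf_eq, mem_setOf_eq, hφ.right, UnkL_sph, mem_sphere_zero_iff_norm] at h1
    exact h1
  have hG : ContDiff ℝ ∞ (fun x => F (ψ x)) := hF.comp hφ.smooth'
  have hr' : ∀ x, F (ψ x) = 0 → fderiv ℝ (fun y => F (ψ y)) x ≠ 0 := by
    intro x hx h0
    have h1 : gradient F (ψ x) ≠ 0 := by
      intro h2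
      rw [gradient, LinearIsometryEquiv.map_eq_zero_iff] at h2
      exact hr _ hx h2
    have h3 := hφ.symm.reg hF h1
    apply h3
    rw [gradient, h0, map_zero]
  have h0 : ∀ x ∈ ball (0 : V) 1, F (ψ x) ≠ 0 := by
    intro x hx hx0
    exact absurd ((hz x).1 hx0) (ne_of_lt (mem_ball_zero_iff.1 hx))
  have hc : IsPreconnected (ball (0 : V) 1) := (convex_ball (0 : V) 1).isPreconnected
  have h00 : (0 : V) ∈ ball (0 : V) 1 := mem_ball_self one_pos
  rcases lt_or_gt_of_ne (h0 0 h00) with h1 | h1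
  · refine Or.inl (UnkL_ball hn hG hr' hz fun x hx => ?_)
    have h2 := UnkL_sign hG.neg.continuous hc (fun y hy => neg_ne_zero.2 (h0 y hy)) h00
      (neg_pos.2 h1) x (mem_ball_zero_iff.2 hx)
    exact neg_pos.1 h2
  · refine Or.inr (UnkL_ball hn hG.neg ?_ ?_ fun x hx => ?_)
    · intro x hx h2
      apply hr' x (neg_eq_zero.1 hx)
      have h3 : fderiv ℝ (fun y => -F (ψ y)) x = -fderiv ℝ (fun y => F (ψ y)) x := fderiv_fun_neg
      rw [h3] at h2
      exact neg_eq_zero.1 h2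
    · intro x
      rw [neg_eq_zero]
      exact hz x
    · exact neg_neg_iff_pos.2 (UnkL_sign hG.continuous hc h0 h00 h1 x (mem_ball_zero_iff.2 hx))

/-- The side `{F ≤ 0}` is connected. -/
private theorem UnkL_conn {F : V → ℝ} (hF : Continuous F) (hc : IsConnected {x | F x = 0}) :
    IsConnected {x | F x ≤ 0} := by
  have key : ∀ A C : Set V, IsClosed A → IsClosed C → {x | F x ≤ 0} ⊆ A ∪ C →
      ({x | F x ≤ 0} ∩ C).Nonempty → ({x | F x ≤ 0} ∩ (A ∩ C)) = ∅ → {x | F x = 0} ⊆ A →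
      False := by
    intro A C hA hC hU hne hd hZ
    have h1 : {x | F x ≤ 0} ∩ C = {x | F x < 0} ∩ Aᶜ := by
      ext x
      constructor
      · rintro ⟨hx, hxC⟩
        have hxA : x ∉ A := fun hxA => by
          have : x ∈ {x | F x ≤ 0} ∩ (A ∩ C) := ⟨hx, hxA, hxC⟩
          rw [hd] at this
          exact this
        refine ⟨lt_of_le_of_ne hx fun h0 => hxA (hZ h0), hxA⟩
      · rintro ⟨hx, hxA⟩
        have hx' : F x < 0 := hx
        refine ⟨hx'.le, ?_⟩
        rcases hU (show x ∈ {x | F x ≤ 0} from hx'.le) with h | h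
        · exact absurd h hxA
        · exact h
    have h2 : IsClosed ({x | F x ≤ 0} ∩ C) := (isClosed_le hF continuous_const).inter hC
    have h3 : IsOpen ({x | F x ≤ 0} ∩ C) := by
      rw [h1]
      exact (isOpen_lt hF continuous_const).inter hA.isOpen_compl
    have h4 : {x | F x ≤ 0} ∩ C = univ := IsClopen.eq_univ ⟨h2, h3⟩ hne
    obtain ⟨z, hz⟩ := hc.nonempty
    have h5 : z ∈ {x | F x < 0} ∩ Aᶜ := by
      rw [← h1, h4]
      exact mem_univ z
    exact h5.2 (hZ hz)
  refine ⟨?_, ?_⟩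
  · obtain ⟨z, hz⟩ := hc.nonempty
    exact ⟨z, (show F z = 0 from hz).le⟩
  · rw [isPreconnected_closed_iff]
    intro A C hA hC hU hA1 hC1
    by_contra hne
    rw [Set.not_nonempty_iff_eq_empty] at hne
    have hZ : {x | F x = 0} ⊆ A ∪ C := fun x hx => hU (show F x ≤ 0 from (show F x = 0 from hx).le)
    have hsub : ∀ D : Set V, {x | F x = 0} ∩ D ⊆ {x | F x ≤ 0} ∩ D := fun D x hx =>
      ⟨(show F x = 0 from hx.1).le, hx.2⟩
    have hdz : {x | F x = 0} ∩ (A ∩ C) = ∅ := by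
      rw [← Set.subset_empty_iff, ← hne]
      exact hsub _
    rcases (isPreconnected_iff_subset_of_disjoint_closed.1 hc.isPreconnected) A C hA hC hZ hdz
      with h | h
    · exact key A C hA hC hU hC1 hne h
    · refine key C A hC hA ?_ hA1 ?_ h
      · rwa [union_comm]
      · rwa [inter_comm C A]

/-- PROOF. `univ = {F ≤ 0} ∪ {0 ≤ F}`, both closed, with intersection `{F = 0}` connected and with the
lifting property: `LiftS.of_union`, `liftS_univ` for the lifting property. Connected: the closure of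
every component of `{F < 0}` meets `{F = 0}` (else `V` would not be connected), so `{F ≤ 0}` is
connected, and the same on the other side (both are not empty because `F` is regular and `{F = 0}` is
not empty). See `domain_top` for the bounded side. -/
theorem sides_of_zero (hn : 3 ≤ Module.finrank ℝ V) {F : V → ℝ} (hF : ContDiff ℝ ∞ F)
    (hb : Bornology.IsBounded {x | F x = 0}) (hr : ∀ x, F x = 0 → fderiv ℝ F x ≠ 0)
    (hc : IsConnected {x | F x = 0}) (hl : LiftS {x | F x = 0}) :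
    IsConnected {x | F x ≤ 0} ∧ IsConnected {x | 0 ≤ F x} ∧ LiftS {x | F x ≤ 0} ∧
      LiftS {x | 0 ≤ F x} := by
  have c1 : IsClosed {x | F x ≤ 0} := isClosed_le hF.continuous continuous_const
  have c2 : IsClosed {x | 0 ≤ F x} := isClosed_le continuous_const hF.continuous
  have e1 : {x | F x ≤ 0} ∩ {x | 0 ≤ F x} = {x | F x = 0} := by
    ext x
    exact ⟨fun hx => le_antisymm hx.1 hx.2, fun hx => ⟨hx.le, hx.ge⟩⟩
  have e2 : {x | F x ≤ 0} ∪ {x | 0 ≤ F x} = univ := by
    rw [Set.eq_univ_iff_forall]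
    exact fun x => le_total (F x) 0
  have e3 : {x | -F x = 0} = {x | F x = 0} := by
    ext x
    exact neg_eq_zero
  have e4 : {x | -F x ≤ 0} = {x | 0 ≤ F x} := by
    ext x
    show -F x ≤ 0 ↔ 0 ≤ F x
    exact neg_nonpos
  refine ⟨UnkL_conn hF.continuous hc, ?_, ?_, ?_⟩
  · rw [← e4]
    refine UnkL_conn hF.neg.continuous ?_
    show IsConnected {x | -F x = 0}
    rw [e3]
    exact hc
  · refine LiftS.of_union c1 c2 ?_ ?_
    · rw [e2]
      exact liftS_univ V
    · rw [e1]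
      exact hl
  · refine LiftS.of_union c2 c1 ?_ ?_
    · rw [union_comm, e2]
      exact liftS_univ V
    · rw [inter_comm, e1]
      exact hl

/-- Every unknotted set is the zero set of a smooth regular function. PROOF. `‖φ x‖ ^ 2 - 1`. -/
theorem Unk.function {M : Set V} (h : Unk M) : ∃ F : V → ℝ, ContDiff ℝ ∞ F ∧
    Bornology.IsBounded {x | F x ≤ 0} ∧ (∀ x, F x = 0 → fderiv ℝ F x ≠ 0) ∧
    M = {x | F x = 0} ∧ IsBall F := by
  obtain ⟨φ, ψ, hφ, rfl⟩ := UnkL_ex h
  have hF : ContDiff ℝ ∞ (fun x : V => ‖x‖ ^ 2 - 1) := (contDiff_norm_sq ℝ).sub contDiff_const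
  refine ⟨fun x => ‖φ x‖ ^ 2 - 1, hF.comp hφ.smooth, (isBall_dif hφ).bdd, ?_, rfl, isBall_dif hφ⟩
  intro x hx h0
  have h1 : gradient (fun y : V => ‖y‖ ^ 2 - 1) (φ x) ≠ 0 := by
    intro h2
    rw [gradient, LinearIsometryEquiv.map_eq_zero_iff] at h2
    have h3 := UnkL_fd (φ x) (φ x)
    rw [h2, real_inner_self_eq_norm_sq] at h3
    have h4 : (0 : ℝ) = 2 * ‖φ x‖ ^ 2 := h3
    have h5 : ‖φ x‖ ^ 2 - 1 = 0 := hx
    linarith
  apply hφ.reg hF h1
  rw [gradient]
  have h6 : fderiv ℝ (fun y => ‖φ y‖ ^ 2 - 1) x = 0 := h0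
  rw [h6, map_zero]

end Pool.Schoen
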