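import Pool.Agent.H.MP_6c077c_gt.Cn.Straight
import Pool.Agent.H.MP_6c077c_gt.Cn.Flow
import Pool.Agent.H.MP_6c077c_gt.Cn.UnkL

/-! Canal spheres: radius functions with one critical point. -/

set_option autoImplicit false

namespace Pool.Schoen

open Filter Set Metric
open scoped Topology RealInnerProductSpace ContDiff

variable {E V : Type*} [NormedAddCommGroup E] [InnerProductSpace ℝ E] [FiniteDimensional ℝ E]
  [NormedAddCommGroup V] [InnerProductSpace ℝ V] [FiniteDimensional ℝ V]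
variable {c : ℝ → V} {B : ℝ → E →L[ℝ] V} {q : ℝ → ℝ} {a b : ℝ}

/-- The range of `B` is the orthogonal complement of `u`. -/
private theorem Base_range {A : E →L[ℝ] V} {u : V} (hd : Module.finrank ℝ V = Module.finrank ℝ E + 1)
    (iso : ∀ w, ‖A w‖ = ‖w‖) (hu : ‖u‖ = 1) (ho : ∀ w, ⟪u, A w⟫ = 0) {y : V} (hy : ⟪u, y⟫ = 0) :
    ∃ w, A w = y := by
  have : Fact (Module.finrank ℝ V = Module.finrank ℝ E + 1) := ⟨hd⟩
  have hu0 : u ≠ 0 := by
    rintro rfl
    simp at hu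
  have h1 : (LinearMap.range (A : E →ₗ[ℝ] V)) ≤ (ℝ ∙ u)ᗮ := by
    rintro _ ⟨w, rfl⟩
    rw [Submodule.mem_orthogonal_singleton_iff_inner_right]
    exact ho w
  have hinj : Function.Injective (A : E →ₗ[ℝ] V) := by
    rw [injective_iff_map_eq_zero]
    intro w hw
    have h2 := iso w
    have h3 : A w = 0 := hw
    rw [h3, norm_zero] at h2
    exact norm_eq_zero.1 h2.symm
  have h2 : Module.finrank ℝ (LinearMap.range (A : E →ₗ[ℝ] V)) = Module.finrank ℝ (ℝ ∙ u)ᗮ := by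
    rw [LinearMap.finrank_range_of_inj hinj, Submodule.finrank_orthogonal_span_singleton (𝕜 := ℝ) (n := Module.finrank ℝ E) hu0]
  have h3 := Submodule.eq_of_le_of_finrank_eq h1 h2
  have h4 : y ∈ (ℝ ∙ u)ᗮ := by
    rw [Submodule.mem_orthogonal_singleton_iff_inner_right]
    exact hy
  rw [← h3] at h4
  obtain ⟨w, hw⟩ := h4
  exact ⟨w, hw⟩

omit [FiniteDimensional ℝ V] in
private theorem Base_fd {q : ℝ → ℝ} (sq : ContDiff ℝ ∞ q) (u : V) (t₁ y : ℝ)
    (x : V) : fderiv ℝ (fun x => ‖orth u x‖ ^ 2 - (q (t₁ + ⟪u, x⟫) - y)) x (-x) =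
      -(2 * ‖orth u x‖ ^ 2) + deriv q (t₁ + ⟪u, x⟫) * ⟪u, x⟫ := by
  have hc : ContDiff ℝ ∞ (fun x => ‖orth u x‖ ^ 2 - (q (t₁ + ⟪u, x⟫) - y)) :=
    ((contDiff_norm_sq ℝ).comp ((contDiff_orth u).of_le le_top)).sub
      ((sq.comp (contDiff_const.add (contDiff_const.inner ℝ contDiff_id))).sub contDiff_const)
  have h1 : HasFDerivAt (fun x => ‖orth u x‖ ^ 2 - (q (t₁ + ⟪u, x⟫) - y))
      (fderiv ℝ (fun x => ‖orth u x‖ ^ 2 - (q (t₁ + ⟪u, x⟫) - y)) x) x :=
    (hc.differentiable (by simp) x).hasFDerivAt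
  have h2 : HasDerivAt (fun s : ℝ => x + s • (-x)) (-x) 0 := by
    have h3 := ((hasDerivAt_id (0 : ℝ)).smul_const (-x)).const_add x
    simpa using h3
  have h3 : HasDerivAt (fun s : ℝ => ‖orth u (x + s • (-x))‖ ^ 2 -
      (q (t₁ + ⟪u, x + s • (-x)⟫) - y))
      (fderiv ℝ (fun x => ‖orth u x‖ ^ 2 - (q (t₁ + ⟪u, x⟫) - y)) x (-x)) 0 := by
    have h4 : HasFDerivAt (fun x => ‖orth u x‖ ^ 2 - (q (t₁ + ⟪u, x⟫) - y))
      (fderiv ℝ (fun x => ‖orth u x‖ ^ 2 - (q (t₁ + ⟪u, x⟫) - y)) x) (x + (0 : ℝ) • (-x)) := by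
      rw [zero_smul, add_zero]
      exact h1
    exact h4.comp_hasDerivAt (0 : ℝ) h2
  have h5 : (fun s : ℝ => ‖orth u (x + s • (-x))‖ ^ 2 - (q (t₁ + ⟪u, x + s • (-x)⟫) - y)) =
      fun s : ℝ => (1 - s) ^ 2 * ‖orth u x‖ ^ 2 - (q (t₁ + (1 - s) * ⟪u, x⟫) - y) := by
    funext s
    have e1 : x + s • (-x) = (1 - s) • x := by module
    have e2 : orth u ((1 - s) • x) = (1 - s) • orth u x := by
      unfold orth
      rw [real_inner_smul_right]
      module
    rw [e1, e2, norm_smul, mul_pow, Real.norm_eq_abs, sq_abs, real_inner_smul_right]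
  rw [h5] at h3
  have h6 : HasDerivAt (fun s : ℝ => (1 - s) ^ 2 * ‖orth u x‖ ^ 2 -
      (q (t₁ + (1 - s) * ⟪u, x⟫) - y))
      (-(2 * ‖orth u x‖ ^ 2) + deriv q (t₁ + ⟪u, x⟫) * ⟪u, x⟫) 0 := by
    have k1 : HasDerivAt (fun s : ℝ => 1 - s) (-1) 0 := by
      simpa using (hasDerivAt_id (0 : ℝ)).const_sub 1
    have k2 := (k1.pow 2).mul_const (‖orth u x‖ ^ 2)
    have k3 : HasDerivAt (fun s : ℝ => t₁ + (1 - s) * ⟪u, x⟫) (-1 * ⟪u, x⟫) 0 :=
      (k1.mul_const _).const_add _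
    have k4 : HasDerivAt q (deriv q (t₁ + ⟪u, x⟫)) (t₁ + (1 - 0) * ⟪u, x⟫) := by
      rw [sub_zero, one_mul]
      exact (sq.differentiable (by simp) _).hasDerivAt
    have k5 := (k4.comp (0 : ℝ) k3).sub_const y
    have k6 := k2.sub k5
    refine k6.congr_deriv ?_
    simp
  exact h3.unique h6

/-- PROOF. `deriv q t₁ = 0` (continuity), so `imm_height` at `t₁` (`w = 0`, `s = √(q t₁)`) gives
`deriv c t₁ + B t₁ w' ≠ 0` for all `w'`: `exists_strt` at `t₁`, box size `r`. Choose `s₁ ≥ 0` with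
`s₁ ^ 2 < q t₁` so close to `q t₁` that `s₁ ^ 2 ≤ q t` (`t ∈ [a, b]`) implies `|t - t₁| < r / 4` and
`q t - s₁ ^ 2 < (r / 4) ^ 2` (`q` is strictly increasing before `t₁` and strictly decreasing after
it). The only critical point is `t₁`, so `flow_sub` applies; `M' = canalM c B (q - s₁ ^ 2) a' b' 0`.
By `Strt0.str`: `Φ '' M' = {x | |⟪u, x⟫| < r / 2, ‖orth u x‖ < r / 2, g x = 0}` with
`g x = ‖orth u x‖ ^ 2 - (q (t₁ + ⟪u, x⟫) - s₁ ^ 2)` (`range (B t₁)` is the orthogonal complement of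
`u` by dimension). `g > 0` for `r / 4 ≤ |⟪u, x⟫| ≤ r` (inside `(a, b)`; choose `r` with
`[t₁ - r, t₁ + r] ⊆ (a, b)` first) and for `‖orth u x‖ ≥ r / 4`, `|⟪u, x⟫| ≤ r`. Let `f₁ = χ g + (1 - χ)`
with a smooth cut-off `χ` (one for `‖x‖ ≤ r / 2`, zero for `‖x‖ ≥ 3 r / 4`): smooth, zero set
`Φ '' M'`, positive for `‖x‖ ≥ r / 2`. `IsBall f₁`: `Hom.lerp` with `‖x‖ ^ 2 - (r / 4) ^ 2`, then
`hom_balls`; all zeros of `(1 - l) f₁ + l (‖x‖ ^ 2 - (r / 4) ^ 2)` are in `‖x‖ < r / 2`, where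
`f₁ = g`, and `-x` is a descent direction of both: the derivative of `g` in the direction `-x` is
`-2 ‖orth u x‖ ^ 2 + deriv q (t₁ + σ) σ < 0` for `x ≠ 0`, `σ = ⟪u, x⟫` (and `x = 0` is no zero: both
functions are negative there). `carries_of_isBall`: `Unk (Φ '' M')`; `Unk.of_image_dif`;
`Unk.of_carries`. -/
theorem CanalD.base (h : CanalD c B q a b) (hE : 3 ≤ Module.finrank ℝ E)
    (hd : Module.finrank ℝ V = Module.finrank ℝ E + 1) {t₁ : ℝ} (ht₁ : t₁ ∈ Ioo a b)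
    (hm : ∀ t ∈ Ioo a b, t ≠ t₁ → deriv q t * (t - t₁) < 0) :
    Unk (canalM c B q a b 0) := by
  have hqa := ht₁.1
  have hqb := ht₁.2
  -- monotonicity of `q`
  have hdc : Continuous (deriv q) := h.sq.continuous_deriv (by simp)
  have hqc : Continuous q := h.sq.continuous
  have mono : StrictMonoOn q (Icc a t₁) := by
    refine strictMonoOn_of_deriv_pos (convex_Icc _ _) hqc.continuousOn ?_
    intro t ht
    rw [interior_Icc] at ht
    have h1 := hm t ⟨ht.1, ht.2.trans hqb⟩ ht.2.ne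
    have h2 : t - t₁ < 0 := by linarith [ht.2]
    by_contra h3
    push Not at h3
    have := mul_nonneg_of_nonpos_of_nonpos h3 h2.le
    linarith
  have anti : StrictAntiOn q (Icc t₁ b) := by
    refine strictAntiOn_of_deriv_neg (convex_Icc _ _) hqc.continuousOn ?_
    intro t ht
    rw [interior_Icc] at ht
    have h1 := hm t ⟨hqa.trans ht.1, ht.2⟩ ht.1.ne'
    have h2 : 0 < t - t₁ := by linarith [ht.1]
    by_contra h3
    push Not at h3
    have := mul_nonneg h3 h2.le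
    linarith
  have hmax : ∀ t ∈ Icc a b, q t ≤ q t₁ := by
    intro t ht
    rcases le_total t t₁ with h1 | h1
    · exact mono.monotoneOn ⟨ht.1, h1⟩ ⟨hqa.le, le_rfl⟩ h1
    · exact anti.antitoneOn ⟨le_rfl, hqb.le⟩ ⟨h1, ht.2⟩ h1
  have hd0 : deriv q t₁ = 0 := by
    have h1 : IsLocalMax q t₁ := by
      filter_upwards [Icc_mem_nhds hqa hqb] with t ht
      exact hmax t ht
    exact h1.deriv_eq_zero
  have hq1 : 0 < q t₁ := h.pos t₁ ht₁
  have hn : ∀ w' : E, deriv c t₁ + B t₁ w' ≠ 0 := by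
    intro w'
    have h1 : (√(q t₁)) ^ 2 + ‖(0 : E)‖ ^ 2 = q t₁ := by
      rw [Real.sq_sqrt hq1.le, norm_zero]
      ring
    have h2 := h.imm_height hE hd ⟨hqa.le, hqb.le⟩ h1 (w' := w') (by rw [inner_zero_left, hd0, mul_zero])
    rwa [map_zero, add_zero] at h2
  obtain ⟨Φ, Ψ, u, r, hS⟩ := exists_strt h.sc h.sB (h.iso t₁ ⟨hqa.le, hqb.le⟩) hd hn
  -- the size of the box
  obtain ⟨r₀, hr₀, hr₀r, hr₀a, hr₀b⟩ : ∃ r₀ : ℝ, 0 < r₀ ∧ r₀ ≤ r ∧ a < t₁ - r₀ ∧ t₁ + r₀ < b := by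
    refine ⟨min r (min ((t₁ - a) / 2) ((b - t₁) / 2)), ?_, min_le_left _ _, ?_, ?_⟩
    · refine lt_min hS.hr (lt_min ?_ ?_) <;> linarith
    · have h1 : min r (min ((t₁ - a) / 2) ((b - t₁) / 2)) ≤ (t₁ - a) / 2 :=
        (min_le_right _ _).trans (min_le_left _ _)
      linarith
    · have h1 : min r (min ((t₁ - a) / 2) ((b - t₁) / 2)) ≤ (b - t₁) / 2 :=
        (min_le_right _ _).trans (min_le_right _ _)
      linarith
  -- the height
  have hl1 : q (t₁ - r₀ / 4) < q t₁ :=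
    mono ⟨by linarith, by linarith⟩ ⟨hqa.le, le_rfl⟩ (by linarith)
  have hl2 : q (t₁ + r₀ / 4) < q t₁ :=
    anti ⟨le_rfl, hqb.le⟩ ⟨by linarith, by linarith⟩ (by linarith)
  obtain ⟨y, hy0, hy1, hy2, hy3, hy4⟩ : ∃ y : ℝ, 0 < y ∧ q (t₁ - r₀ / 4) < y ∧
      q (t₁ + r₀ / 4) < y ∧ q t₁ - (r₀ / 4) ^ 2 < y ∧ y < q t₁ := by
    have k0 : 0 < (r₀ / 4) ^ 2 := by positivity
    have k1 : max (max 0 (q (t₁ - r₀ / 4))) (max (q (t₁ + r₀ / 4)) (q t₁ - (r₀ / 4) ^ 2)) <
        q t₁ := max_lt (max_lt hq1 hl1) (max_lt hl2 (by linarith))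
    obtain ⟨y, h1, h2⟩ := exists_between k1
    rw [max_lt_iff, max_lt_iff, max_lt_iff] at h1
    exact ⟨y, h1.1.1, h1.1.2, h1.2.1, h1.2.2, h2⟩
  obtain ⟨s₁, hs₁⟩ : ∃ s₁ : ℝ, s₁ ^ 2 = y := ⟨√y, Real.sq_sqrt hy0.le⟩
  have hclose : ∀ t ∈ Icc a b, y ≤ q t → |t - t₁| < r₀ / 4 := by
    intro t ht hyt
    rw [abs_lt]
    constructor
    · by_contra hcon
      push Not at hcon
      have h1 := mono.monotoneOn (a := t) (b := t₁ - r₀ / 4) ⟨ht.1, by linarith⟩
        ⟨by linarith, by linarith⟩ (by linarith)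
      linarith
    · by_contra hcon
      push Not at hcon
      have h1 := anti.antitoneOn (a := t₁ + r₀ / 4) (b := t) ⟨by linarith, by linarith⟩
        ⟨by linarith, ht.2⟩ (by linarith)
      linarith
  obtain ⟨a', b', haa, hbb, hD, hsub, hcar⟩ := h.flow_sub hE hd ht₁ (s₁ := s₁)
    (by rw [hs₁]; exact hy4) (by
      intro t ht hdt
      by_cases h1 : t = t₁
      · rw [h1, hs₁]
        exact hy4
      · have h2 := hm t ht h1
        rw [hdt, zero_mul] at h2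
        exact absurd h2 (lt_irrefl _))
  rw [hs₁] at hD hcar hsub
  -- the function
  obtain ⟨g, hg⟩ : ∃ g : V → ℝ, g = fun x => ‖orth u x‖ ^ 2 - (q (t₁ + ⟪u, x⟫) - y) := ⟨_, rfl⟩
  have hgx : ∀ x, g x = ‖orth u x‖ ^ 2 - (q (t₁ + ⟪u, x⟫) - y) := fun x => by rw [hg]
  have hgs : ContDiff ℝ ∞ g := by
    rw [hg]
    exact ((contDiff_norm_sq ℝ).comp ((contDiff_orth u).of_le le_top)).sub
      ((h.sq.comp (contDiff_const.add (contDiff_const.inner ℝ contDiff_id))).sub contDiff_const)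
  have hinner : ∀ x : V, |⟪u, x⟫| ≤ ‖x‖ := by
    intro x
    have h1 := abs_real_inner_le_norm u x
    rwa [hS.hu, one_mul] at h1
  have hin : ∀ x : V, ‖x‖ < r₀ → t₁ + ⟪u, x⟫ ∈ Ioo a b := by
    intro x hx
    have h1 := abs_lt.1 ((hinner x).trans_lt hx)
    exact ⟨by linarith [h1.1], by linarith [h1.2]⟩
  have hgpos : ∀ x : V, r₀ / 2 ≤ ‖x‖ → ‖x‖ < r₀ → 0 < g x := by
    intro x hx hx'
    rw [hgx]
    have h1 := hin x hx'
    by_cases h2 : |⟪u, x⟫| < r₀ / 4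
    · have h3 : (r₀ / 4) ^ 2 < ‖orth u x‖ ^ 2 := by
        have h4 := norm_sq_orth hS.hu x
        have h5 : ⟪u, x⟫ ^ 2 ≤ (r₀ / 4) ^ 2 := by
          rw [← sq_abs]
          exact pow_le_pow_left₀ (abs_nonneg _) h2.le 2
        have h6 : (r₀ / 2) ^ 2 ≤ ‖x‖ ^ 2 := pow_le_pow_left₀ (by positivity) hx 2
        nlinarith
      have h4 := hmax _ (Ioo_subset_Icc_self h1)
      linarith
    · have h3 : q (t₁ + ⟪u, x⟫) < y := by
        by_contra h4
        push Not at h4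
        have h5 := hclose _ (Ioo_subset_Icc_self h1) h4
        rw [add_sub_cancel_left] at h5
        exact h2 h5
      have h4 : 0 ≤ ‖orth u x‖ ^ 2 := by positivity
      linarith
  obtain ⟨χ, hχs, hχ0, hχ1, hχin, hχout⟩ : ∃ χ : V → ℝ, ContDiff ℝ ∞ χ ∧ (∀ x, 0 ≤ χ x) ∧
      (∀ x, χ x ≤ 1) ∧ (∀ x, ‖x‖ < r₀ / 2 → χ x = 1) ∧ (∀ x, 3 * r₀ / 4 ≤ ‖x‖ → χ x = 0) := by
    let χ : ContDiffBump (0 : V) := ⟨r₀ / 2, 3 * r₀ / 4, by positivity, by linarith⟩
    refine ⟨χ, χ.contDiff, fun x => χ.nonneg, fun x => χ.le_one, fun x hx => ?_, fun x hx => ?_⟩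
    · refine χ.one_of_mem_closedBall ?_
      rw [Metric.mem_closedBall, dist_zero_right]
      exact hx.le
    · refine χ.zero_of_le_dist ?_
      rw [dist_zero_right]
      exact hx
  obtain ⟨f, hf⟩ : ∃ f : V → ℝ, f = fun x => χ x * g x + (1 - χ x) := ⟨_, rfl⟩
  have hfx : ∀ x, f x = χ x * g x + (1 - χ x) := fun x => by rw [hf]
  have hfs : ContDiff ℝ ∞ f := by
    rw [hf]
    exact (hχs.mul hgs).add (contDiff_const.sub hχs)
  have hfin : ∀ x, ‖x‖ < r₀ / 2 → f x = g x := by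
    intro x hx
    rw [hfx, hχin x hx]
    ring
  have hfpos : ∀ x : V, r₀ / 2 ≤ ‖x‖ → 0 < f x := by
    intro x hx
    rw [hfx]
    by_cases h1 : 3 * r₀ / 4 ≤ ‖x‖
    · rw [hχout x h1]
      norm_num
    · push Not at h1
      have h2 := hgpos x hx (by linarith)
      rcases eq_or_lt_of_le (hχ1 x) with h3 | h3
      · rw [h3]
        linarith
      · have h4 := mul_nonneg (hχ0 x) h2.le
        linarith
  have hfnear : ∀ x : V, ‖x‖ < r₀ / 2 → f =ᶠ[𝓝 x] g := by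
    intro x hx
    have h1 : ∀ᶠ z in 𝓝 x, ‖z‖ < r₀ / 2 := (continuous_norm.tendsto x).eventually_lt_const hx
    filter_upwards [h1] with z hz
    exact hfin z hz
  have hrp : 0 < r₀ / 4 := by positivity
  have hz : ∀ l ∈ Icc (0 : ℝ) 1, ∀ x : V, (1 - l) * f x + l * (‖x‖ ^ 2 - (r₀ / 4) ^ 2) = 0 →
      ‖x‖ < r₀ / 2 := by
    intro l hl x hx
    by_contra hcon
    push Not at hcon
    have h1 := hfpos x hcon
    have h2 : 0 < ‖x‖ ^ 2 - (r₀ / 4) ^ 2 := by
      have h3 : (r₀ / 2) ^ 2 ≤ ‖x‖ ^ 2 := pow_le_pow_left₀ (by positivity) hcon 2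
      nlinarith
    rcases eq_or_lt_of_le hl.1 with h3 | h3
    · rw [← h3] at hx
      linarith
    · have h4 := mul_pos h3 h2
      have h5 := mul_nonneg (sub_nonneg.2 hl.2) h1.le
      linarith
  have hball : IsBall f := by
    have s1 : Hom f (fun x => ‖x‖ ^ 2 - (r₀ / 4) ^ 2) := by
      refine Hom.lerp hfs.continuous (by fun_prop) ⟨r₀ / 2, fun l hl x hx => (hz l hl x hx).le⟩ ?_
      intro l hl x hx
      have h1 := hz l hl x hx
      have hx0 : x ≠ 0 := by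
        rintro rfl
        rw [hfin 0 h1, hgx] at hx
        have e1 : orth u (0 : V) = 0 := by
          unfold orth
          simp
        rw [e1, inner_zero_right, norm_zero, add_zero] at hx
        have e2 : 0 < (r₀ / 4) ^ 2 := by positivity
        have e3 : 0 < q t₁ - y := by linarith
        rcases eq_or_lt_of_le hl.1 with h3 | h3
        · rw [← h3] at hx
          nlinarith
        · have h4 := mul_pos h3 e2
          have h5 := mul_nonneg (sub_nonneg.2 hl.2) e3.le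
          nlinarith
      have hnx : 0 < ‖x‖ := norm_pos_iff.2 hx0
      refine ⟨-x, ?_, ?_⟩
      · refine desc1_smooth (hfs.contDiffAt.of_le (by simp)) ?_
        rw [(hfnear x h1).fderiv_eq, hg, Base_fd h.sq u]
        by_cases h2 : ⟪u, x⟫ = 0
        · rw [h2, mul_zero, add_zero]
          have h3 := norm_sq_orth hS.hu x
          rw [h2] at h3
          have h4 : 0 < ‖x‖ ^ 2 := by positivity
          linarith
        · have h3 := hm _ (hin x (by linarith)) (by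
            intro h4
            exact h2 (by linarith))
          rw [add_sub_cancel_left] at h3
          have h4 : 0 ≤ ‖orth u x‖ ^ 2 := by positivity
          linarith
      · have hfd : HasFDerivAt (fun y : V => ‖y‖ ^ 2 - (r₀ / 4) ^ 2) (2 • (innerSL ℝ x)) x :=
          (hasStrictFDerivAt_norm_sq x).hasFDerivAt.sub_const _
        refine desc1_smooth (((contDiff_norm_sq ℝ).sub contDiff_const).contDiffAt) ?_
        rw [hfd.fderiv]
        simp only [smul_apply, innerSL_apply_apply, inner_neg_right,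
          real_inner_self_eq_norm_sq]
        simp
        positivity
    have s2 := hom_balls (0 : V) (0 : V) hrp one_pos
    simp only [sub_zero, one_pow] at s2
    exact s1.trans s2
  have hU : Unk {x | f x = 0} := carries_of_isBall f hfs hball
  have himg : Φ '' canalM c B (fun t => q t - y) a' b' 0 = {x | f x = 0} := by
    have hform : ∀ t ∈ Icc a b, ∀ w : E, ‖w‖ ^ 2 = q t - y →
        |t - t₁| < r₀ / 4 ∧ ‖w‖ < r₀ / 4 ∧ Φ (c t + B t w) = (t - t₁) • u + B t₁ w := by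
      intro t ht w hw
      have h1 : y ≤ q t := by nlinarith [sq_nonneg ‖w‖]
      have h2 := hclose t ht h1
      have h3 : ‖w‖ < r₀ / 4 := by
        have h4 := hmax t ht
        have h5 : ‖w‖ ^ 2 < (r₀ / 4) ^ 2 := by linarith
        exact lt_of_pow_lt_pow_left₀ 2 hrp.le h5
      exact ⟨h2, h3, hS.str t w (by linarith) (by linarith)⟩
    have hcomp : ∀ (σ : ℝ) (w : E), ⟪u, σ • u + B t₁ w⟫ = σ ∧ orth u (σ • u + B t₁ w) = B t₁ w := by
      intro σ w
      have h1 : ⟪u, σ • u + B t₁ w⟫ = σ := by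
        rw [inner_add_right, real_inner_smul_right, real_inner_self_eq_norm_sq, hS.hu, hS.orth]
        ring
      refine ⟨h1, ?_⟩
      unfold orth
      rw [h1]
      abel
    ext x
    constructor
    · rintro ⟨_, ⟨t, ht, w, hw, rfl⟩, rfl⟩
      have ht' : t ∈ Icc a b := ⟨haa.trans ht.1, ht.2.trans hbb⟩
      have hw' : ‖w‖ ^ 2 = q t - y := by
        have h0 : (0 : ℝ) ^ 2 + ‖w‖ ^ 2 = q t - y := hw
        linarith
      obtain ⟨h1, h2, h3⟩ := hform t ht' w hw'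
      obtain ⟨h4, h5⟩ := hcomp (t - t₁) w
      rw [h3]
      have h6 : ‖(t - t₁) • u + B t₁ w‖ < r₀ / 2 := by
        refine (norm_add_le _ _).trans_lt ?_
        rw [norm_smul, hS.hu, hS.iso, Real.norm_eq_abs]
        linarith
      show f _ = 0
      rw [hfin _ h6, hgx, h4, h5, hS.iso, hw']
      rw [add_sub_cancel]
      ring
    · intro hx
      have hx : f x = 0 := hx
      have h1 : ‖x‖ < r₀ / 2 := by
        by_contra hcon
        push Not at hcon
        have := hfpos x hcon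
        linarith
      rw [hfin x h1, hgx] at hx
      have h2 := hin x (by linarith)
      obtain ⟨w, hw⟩ := Base_range hd hS.iso hS.hu hS.orth (inner_orth hS.hu x)
      have h3 : ‖w‖ ^ 2 = q (t₁ + ⟪u, x⟫) - y := by
        rw [← hS.iso, hw]
        linarith
      obtain ⟨h4, h5, h6⟩ := hform _ (Ioo_subset_Icc_self h2) w h3
      refine ⟨_, ⟨t₁ + ⟪u, x⟫, hsub _ (Ioo_subset_Icc_self h2) (by nlinarith [sq_nonneg ‖w‖]), w,
        ?_, rfl⟩, ?_⟩
      · show (0 : ℝ) ^ 2 + ‖w‖ ^ 2 = q (t₁ + ⟪u, x⟫) - y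
        rw [h3]
        ring
      · rw [h6, hw, add_sub_cancel_left]
        unfold orth
        abel
  rw [← himg] at hU
  exact Unk.of_carries hcar (Unk.of_image_dif hS.dif hU)

end Pool.Schoen
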