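import Pool.Agent.H.MP_6c077c_gt.Cn.Sph

/-! Canal spheres: envelopes of one-parameter families of round 3-spheres of Euclidean 4-space. -/

set_option autoImplicit false

namespace Pool.Schoen

open Filter Set Metric
open scoped Topology RealInnerProductSpace ContDiff

private theorem Canal_left {f : ℝ → ℝ} {a b d : ℝ} (hab : a < b) (h : ∀ t ∈ Icc a b, 0 ≤ f t)
    (h0 : f a = 0) (hd : HasDerivAt f d a) (hne : d ≠ 0) : 0 < d := by
  have h1 : IsLocalMinOn f (Icc a b) a := by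
    filter_upwards [self_mem_nhdsWithin] with t ht
    rw [h0]
    exact h t ht
  have h2 := h1.hasFDerivWithinAt_nonneg hd.hasFDerivAt.hasFDerivWithinAt (y := b - a)
    (mem_posTangentConeAt_of_segment_subset (by
      rw [add_sub_cancel, segment_eq_Icc hab.le]))
  have h3 : 0 ≤ (b - a) * d := by simpa using h2
  have h4 : 0 ≤ d := nonneg_of_mul_nonneg_right h3 (by linarith)
  exact lt_of_le_of_ne h4 hne.symm

private theorem Canal_right {f : ℝ → ℝ} {a b d : ℝ} (hab : a < b) (h : ∀ t ∈ Icc a b, 0 ≤ f t)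
    (h0 : f b = 0) (hd : HasDerivAt f d b) (hne : d ≠ 0) : d < 0 := by
  have h1 : IsLocalMinOn f (Icc a b) b := by
    filter_upwards [self_mem_nhdsWithin] with t ht
    rw [h0]
    exact h t ht
  have h2 := h1.hasFDerivWithinAt_nonneg hd.hasFDerivAt.hasFDerivWithinAt (y := a - b)
    (mem_posTangentConeAt_of_segment_subset (by
      rw [add_sub_cancel, segment_symm, segment_eq_Icc hab.le]))
  have h3 : 0 ≤ (a - b) * d := by simpa using h2
  have h4 : d ≤ 0 := by nlinarith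
  exact lt_of_le_of_ne h4 hne

/-- The envelope of the 3-spheres with centre `g t` and radius `r t`. -/
theorem envelope_unk (g : ℝ → EuclideanSpace ℝ (Fin 4)) (r : ℝ → ℝ) (sg : ContDiff ℝ ∞ g)
    (sr : ContDiff ℝ ∞ r) (a b : ℝ) (hab : a < b) (hg : ∀ t, deriv g t ≠ 0)
    (hr : ∀ t ∈ Icc a b, 0 < r t) (hin : ∀ t ∈ Ioo a b, |deriv r t| < ‖deriv g t‖)
    (ha : |deriv r a| = ‖deriv g a‖) (hb : |deriv r b| = ‖deriv g b‖)
    (disj : ∀ t ∈ Icc a b, ∀ t' ∈ Icc a b, ∀ x, ‖x - g t‖ = r t →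
      ⟪x - g t, deriv g t⟫ + r t * deriv r t = 0 → ‖x - g t'‖ = r t' →
      ⟪x - g t', deriv g t'⟫ + r t' * deriv r t' = 0 → t = t')
    (imm : ∀ t ∈ Icc a b, ∀ x, ‖x - g t‖ = r t → ⟪x - g t, deriv g t⟫ + r t * deriv r t = 0 →
      deriv (fun s => ⟪x - g s, deriv g s⟫ + r s * deriv r s) t ≠ 0) :
    Unk {x | ∃ t ∈ Icc a b, ‖x - g t‖ = r t ∧ ⟪x - g t, deriv g t⟫ + r t * deriv r t = 0} := by
  have sg' : ContDiff ℝ ∞ (deriv g) := (contDiff_infty_iff_deriv.1 sg).2
  have sr' : ContDiff ℝ ∞ (deriv r) := (contDiff_infty_iff_deriv.1 sr).2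
  obtain ⟨v, hv⟩ : ∃ v, v = deriv g := ⟨_, rfl⟩
  obtain ⟨p, hp⟩ : ∃ p : ℝ → ℝ, p = fun t => r t * deriv r t := ⟨_, rfl⟩
  have hp' : ∀ t, p t = r t * deriv r t := fun t => by rw [hp]
  have sv : ContDiff ℝ ∞ v := by rw [hv]; exact sg'
  have sp : ContDiff ℝ ∞ p := by rw [hp]; exact sr.mul sr'
  have hv0 : ∀ t, v t ≠ 0 := by rw [hv]; exact hg
  have hN : ∀ t, 0 < ‖v t‖ := fun t => norm_pos_iff.2 (hv0 t)
  have hN2 : ∀ t, 0 < ‖v t‖ ^ 2 := fun t => by have := hN t; positivity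
  rw [← hv] at hin ha hb disj imm ⊢
  have sN : ContDiff ℝ ∞ fun t => ‖v t‖ := sv.norm ℝ hv0
  -- the data
  obtain ⟨c, hc⟩ : ∃ c : ℝ → EuclideanSpace ℝ (Fin 4), c = fun t => g t - (p t / ‖v t‖ ^ 2) • v t :=
    ⟨_, rfl⟩
  obtain ⟨n, hn⟩ : ∃ n : ℝ → EuclideanSpace ℝ (Fin 4), n = fun t => ‖v t‖⁻¹ • v t := ⟨_, rfl⟩
  obtain ⟨q, hq⟩ : ∃ q : ℝ → ℝ, q = fun t => r t ^ 2 - p t ^ 2 / ‖v t‖ ^ 2 := ⟨_, rfl⟩
  have hc' : ∀ t, c t = g t - (p t / ‖v t‖ ^ 2) • v t := fun t => by rw [hc]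
  have hn' : ∀ t, n t = ‖v t‖⁻¹ • v t := fun t => by rw [hn]
  have hq' : ∀ t, q t = r t ^ 2 - p t ^ 2 / ‖v t‖ ^ 2 := fun t => by rw [hq]
  have sc : ContDiff ℝ ∞ c := by
    rw [hc]
    exact sg.sub ((sp.div (sN.pow 2) fun t => (hN2 t).ne').smul sv)
  have sn : ContDiff ℝ ∞ n := by
    rw [hn]
    exact (sN.inv fun t => (hN t).ne').smul sv
  have sq : ContDiff ℝ ∞ q := by
    rw [hq]
    exact (sr.pow 2).sub ((sp.pow 2).div (sN.pow 2) fun t => (hN2 t).ne')
  have dg : Differentiable ℝ g := sg.differentiable (by simp)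
  have dv : Differentiable ℝ v := sv.differentiable (by simp)
  have dp : Differentiable ℝ p := sp.differentiable (by simp)
  have dr : Differentiable ℝ r := sr.differentiable (by simp)
  have dc : Differentiable ℝ c := sc.differentiable (by simp)
  have dq : Differentiable ℝ q := sq.differentiable (by simp)
  have dN : Differentiable ℝ fun t => ‖v t‖ := sN.differentiable (by simp)
  -- the planes
  have e1 : ∀ t x, ⟪n t, x - c t⟫ = ‖v t‖⁻¹ * (⟪x - g t, v t⟫ + p t) := by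
    intro t x
    have h1 := (hN t).ne'
    rw [hn', hc', real_inner_smul_left, show x - (g t - (p t / ‖v t‖ ^ 2) • v t) =
      (x - g t) + (p t / ‖v t‖ ^ 2) • v t by abel, inner_add_right, real_inner_smul_right,
      real_inner_self_eq_norm_sq, real_inner_comm]
    field_simp
  have e2 : ∀ t x, ⟪n t, x - c t⟫ = 0 ↔ ⟪x - g t, v t⟫ + p t = 0 := by
    intro t x
    rw [e1, mul_eq_zero]
    exact or_iff_right (inv_ne_zero (hN t).ne')
  have e3 : ∀ t x, ⟪x - g t, v t⟫ + p t = 0 → ‖x - c t‖ ^ 2 - q t = ‖x - g t‖ ^ 2 - r t ^ 2 := by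
    intro t x h
    have h1 := (hN t).ne'
    rw [hq', hc', show x - (g t - (p t / ‖v t‖ ^ 2) • v t) =
      (x - g t) + (p t / ‖v t‖ ^ 2) • v t by abel, norm_add_sq_real, real_inner_smul_right,
      norm_smul, mul_pow, Real.norm_eq_abs, sq_abs, show ⟪x - g t, v t⟫ = -p t by linarith]
    field_simp
    ring
  have e4 : ∀ t ∈ Icc a b, ∀ x, ⟪x - g t, v t⟫ + p t = 0 →
      (‖x - c t‖ ^ 2 = q t ↔ ‖x - g t‖ = r t) := by
    intro t ht x h
    have h1 := e3 t x h
    rw [← sq_eq_sq₀ (norm_nonneg (x - g t)) (hr t ht).le]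
    constructor
    · intro h2
      linarith
    · intro h2
      linarith
  -- the radii
  have hq2 : ∀ t, q t * ‖v t‖ ^ 2 = r t ^ 2 * (‖v t‖ ^ 2 - deriv r t ^ 2) := by
    intro t
    have h1 := (hN t).ne'
    rw [hq', hp']
    field_simp
  have hq0 : ∀ t, |deriv r t| = ‖v t‖ → q t = 0 := by
    intro t h
    have h1 := hq2 t
    rw [← h, sq_abs, sub_self, mul_zero] at h1
    have h2 := hN2 t
    rw [← h, sq_abs] at h2
    exact (mul_eq_zero.1 h1).resolve_right h2.ne'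
  have hqp : ∀ t ∈ Ioo a b, 0 < q t := by
    intro t ht
    have h1 : deriv r t ^ 2 < ‖v t‖ ^ 2 := by
      rw [← sq_abs (deriv r t)]
      exact pow_lt_pow_left₀ (hin t ht) (abs_nonneg _) two_ne_zero
    have h2 : 0 < q t * ‖v t‖ ^ 2 := by
      rw [hq2]
      have := hr t ⟨ht.1.le, ht.2.le⟩
      have h3 : 0 < ‖v t‖ ^ 2 - deriv r t ^ 2 := by linarith
      positivity
    exact (mul_pos_iff_of_pos_right (hN2 t)).1 h2
  have hqn : ∀ t ∈ Icc a b, 0 ≤ q t := by
    intro t ht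
    rcases ht.1.eq_or_lt with h1 | h1
    · rw [← h1, hq0 a ha]
    rcases ht.2.eq_or_lt with h2 | h2
    · rw [h2, hq0 b hb]
    exact (hqp t ⟨h1, h2⟩).le
  have hcc : ∀ t, ⟪c t - g t, v t⟫ + p t = 0 := by
    intro t
    have h1 := (hN t).ne'
    rw [hc', sub_sub_cancel_left, inner_neg_left, real_inner_smul_left,
      real_inner_self_eq_norm_sq]
    field_simp
    ring
  have hcn : ∀ t, ‖c t - g t‖ ^ 2 = r t ^ 2 - q t := by
    intro t
    have h1 := (hN t).ne'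
    rw [hc', hq', sub_sub_cancel_left, norm_neg, norm_smul, mul_pow, Real.norm_eq_abs, sq_abs]
    field_simp
    ring
  -- the ends
  have hend : ∀ t ∈ Icc a b, |deriv r t| = ‖v t‖ → deriv q t ≠ 0 := by
    intro t ht h h0
    have hx : ‖c t - g t‖ = r t := by
      rw [← sq_eq_sq₀ (norm_nonneg _) (hr t ht).le, hcn, hq0 t h, sub_zero]
    have hD := imm t ht (c t) hx (by rw [← hp']; exact hcc t)
    refine hD ?_
    have hf : (fun s => ⟪c t - g s, v s⟫ + r s * deriv r s) = fun s => ⟪c t - g s, v s⟫ + p s := by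
      funext s
      rw [hp']
    rw [hf]
    have k1 : HasDerivAt (fun s => ⟪c t - g s, v s⟫ + p s)
        (⟪c t - g t, deriv v t⟫ + ⟪-deriv g t, v t⟫ + deriv p t) t :=
      (((dg t).hasDerivAt.const_sub _).inner ℝ (dv t).hasDerivAt).add (dp t).hasDerivAt
    have k2 : HasDerivAt (fun s => ⟪c s - g s, v s⟫ + p s)
        (⟪c t - g t, deriv v t⟫ + ⟪deriv c t - deriv g t, v t⟫ + deriv p t) t :=
      (((dc t).hasDerivAt.sub (dg t).hasDerivAt).inner ℝ (dv t).hasDerivAt).add (dp t).hasDerivAt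
    have k3 : ⟪c t - g t, deriv v t⟫ + ⟪deriv c t - deriv g t, v t⟫ + deriv p t = 0 := by
      have : (fun s => ⟪c s - g s, v s⟫ + p s) = fun _ => 0 := funext hcc
      rw [this] at k2
      exact k2.unique (hasDerivAt_const t 0)
    have k4 : HasDerivAt (fun s => ‖c s - g s‖ ^ 2)
        (2 * ⟪c t - g t, deriv c t - deriv g t⟫) t :=
      ((dc t).hasDerivAt.sub (dg t).hasDerivAt).norm_sq
    have k5 : HasDerivAt (fun s => r s ^ 2 - q s) (2 * r t * deriv r t - deriv q t) t := by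
      refine (((dr t).hasDerivAt.pow 2).sub (dq t).hasDerivAt).congr_deriv ?_
      simp
    have k6 : 2 * ⟪c t - g t, deriv c t - deriv g t⟫ = 2 * r t * deriv r t - deriv q t := by
      have : (fun s => ‖c s - g s‖ ^ 2) = fun s => r s ^ 2 - q s := funext hcn
      rw [this] at k4
      exact k4.unique k5
    rw [h0, sub_zero, inner_sub_right] at k6
    have k7 := hcc t
    rw [hv] at k7
    have k8 : ⟪c t - g t, deriv c t⟫ = 0 := by
      rw [hp'] at k7
      linarith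
    have k9 : (p t / ‖v t‖ ^ 2) * ⟪v t, deriv c t⟫ = 0 := by
      rw [hc', sub_sub_cancel_left, inner_neg_left, real_inner_smul_left] at k8
      linarith
    have hpt : p t ≠ 0 := by
      rw [hp']
      refine mul_ne_zero (hr t ht).ne' fun h1 => ?_
      rw [h1, abs_zero] at h
      exact (hN t).ne h
    have k10 : ⟪v t, deriv c t⟫ = 0 :=
      (mul_eq_zero.1 k9).resolve_left (div_ne_zero hpt (hN2 t).ne')
    rw [k1.deriv]
    rw [inner_sub_left (deriv c t), real_inner_comm (v t) (deriv c t), k10] at k3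
    rw [inner_neg_left]
    linarith
  have haI : a ∈ Icc a b := ⟨le_rfl, hab.le⟩
  have hbI : b ∈ Icc a b := ⟨hab.le, le_rfl⟩
  have hU := spheres_unk c n q sc sn sq a b hab
    (fun t _ => by
      rw [hn', norm_smul, norm_inv, norm_norm, inv_mul_cancel₀ (hN t).ne'])
    (hq0 a ha) (hq0 b hb)
    (Canal_left hab hqn (hq0 a ha) (dq a).hasDerivAt (hend a haI ha))
    (Canal_right hab hqn (hq0 b hb) (dq b).hasDerivAt (hend b hbI hb)) hqp
    (by
      intro t ht t' ht' x h1 h2 h3 h4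
      rw [e2] at h1 h3
      rw [e4 t ht x h1] at h2
      rw [e4 t' ht' x h3] at h4
      rw [hp'] at h1 h3
      exact disj t ht t' ht' x h2 h1 h4 h3)
    (by
      intro t ht x h1 h2
      have ht' : t ∈ Icc a b := ⟨ht.1.le, ht.2.le⟩
      rw [e2] at h1
      rw [e4 t ht' x h1] at h2
      left
      have hf : (fun s => ⟪n s, x - c s⟫) = fun s => ‖v s‖⁻¹ * (⟪x - g s, v s⟫ + p s) :=
        funext fun s => e1 s x
      have k1 : DifferentiableAt ℝ (fun s => ⟪x - g s, v s⟫ + p s) t :=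
        (((dg t).const_sub _).inner ℝ (dv t)).add (dp t)
      have k2 := ((dN t).hasDerivAt.inv (hN t).ne').mul k1.hasDerivAt
      have k3 : deriv (fun s => ‖v s‖⁻¹ * (⟪x - g s, v s⟫ + p s)) t = _ := k2.deriv
      rw [hf, k3, h1, mul_zero, zero_add]
      refine mul_ne_zero (inv_ne_zero (hN t).ne') ?_
      have hf2 : (fun s => ⟪x - g s, v s⟫ + p s) = fun s => ⟪x - g s, v s⟫ + r s * deriv r s := by
        funext s
        rw [hp']
      rw [hf2]
      rw [hp'] at h1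
      exact imm t ht' x h2 h1)
  have he : {x | ∃ t ∈ Icc a b, ⟪n t, x - c t⟫ = 0 ∧ ‖x - c t‖ ^ 2 = q t} =
      {x | ∃ t ∈ Icc a b, ‖x - g t‖ = r t ∧ ⟪x - g t, v t⟫ + r t * deriv r t = 0} := by
    ext x
    constructor
    · rintro ⟨t, ht, h1, h2⟩
      rw [e2] at h1
      rw [e4 t ht x h1] at h2
      rw [hp'] at h1
      exact ⟨t, ht, h2, h1⟩
    · rintro ⟨t, ht, h1, h2⟩
      rw [← hp'] at h2
      exact ⟨t, ht, (e2 t x).2 h2, (e4 t ht x h2).2 h1⟩
  rw [← he]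
  exact hU

end Pool.Schoen
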