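import Pool.Agent.H.MP_6c077c_gt.Al.Rd1
import Pool.Agent.H.MP_6c077c_gt.IxB.Final
import Pool.Agent.H.MP_6c077c_gt.Ix.TubeA

/-! Canal spheres: definitions.

THEOREM. A smooth 3-sphere of four-dimensional Euclidean space swept out by a one-parameter family
of round 2-spheres is unknotted.

PAPER PROOF. `V` has dimension `n + 1`, `E` dimension `n` (`n ≥ 3`). The 2-spheres are
`c t + B t w`, `‖w‖ ^ 2 = q t`, `t ∈ [a, b]`, with `B t : E → V` linear isometric, `q > 0` inside and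
simple zeros of `q` at the ends. (1) HEIGHTS: if these spheres are disjoint for different `t`, the
spheres `‖w‖ ^ 2 = q t - s ^ 2` are disjoint too for every fixed `s` (two linear conditions on the
hyperplanes `range (B t) ∩ range (B t')`, then go to the boundary along a line), and the same
infinitesimally. So the half-spheres `{(s, c t + B t w) : s ^ 2 + ‖w‖ ^ 2 = q t}` of `ℝ × V` are the
leaves of an embedded sphere of dimension `n + 1` in `ℝ × V`; its slice at the height `s` is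
`canalM c B q a b s`. (2) FLOW: as long as `q` has no critical value in `(0, s ^ 2]` the slice
changes by an isotopy only. (3) NECK: just below the lowest critical value `q t₀` (a local minimum
of `q`) the slice has a tiny neck at `t₀`; cutting it gives two canal spheres whose radius functions
have fewer critical points; a sphere which is a sum of two unknotted spheres along a neck is
unknotted. (4) If `q` has only one critical point, flow until the sphere is tiny: then it is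
star-shaped in suitable coordinates. (5) Perturbation: all critical points of `q` are nondegenerate
after multiplying `q` with `exp (δ t)`, `δ` small. -/

set_option autoImplicit false

namespace Pool.Schoen

open Filter Set Metric
open scoped Topology RealInnerProductSpace ContDiff

variable {E V : Type*} [NormedAddCommGroup E] [InnerProductSpace ℝ E] [NormedAddCommGroup V]
  [InnerProductSpace ℝ V]

/-- Canal data over `[a, b]`: centres `c t`, isometric embeddings `B t`, squared radii `q t`. -/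
structure CanalD (c : ℝ → V) (B : ℝ → E →L[ℝ] V) (q : ℝ → ℝ) (a b : ℝ) : Prop where
  lt : a < b
  sc : ContDiff ℝ ∞ c
  sB : ContDiff ℝ ∞ B
  sq : ContDiff ℝ ∞ q
  iso : ∀ t ∈ Icc a b, ∀ w : E, ‖B t w‖ = ‖w‖
  za : q a = 0
  zb : q b = 0
  da : 0 < deriv q a
  db : deriv q b < 0
  pos : ∀ t ∈ Ioo a b, 0 < q t
  disj : ∀ t ∈ Icc a b, ∀ t' ∈ Icc a b, ∀ w w' : E, ‖w‖ ^ 2 = q t → ‖w'‖ ^ 2 = q t' →
    c t + B t w = c t' + B t' w' → t = t'
  imm : ∀ t ∈ Icc a b, ∀ w w' : E, ‖w‖ ^ 2 = q t → 2 * ⟪w, w'⟫ = deriv q t →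
    deriv c t + deriv B t w + B t w' ≠ 0

/-- The slice at the height `s`: the union of the spheres of squared radius `q t - s ^ 2`. -/
def canalM (c : ℝ → V) (B : ℝ → E →L[ℝ] V) (q : ℝ → ℝ) (a b s : ℝ) : Set V :=
  {x | ∃ t ∈ Icc a b, ∃ w : E, s ^ 2 + ‖w‖ ^ 2 = q t ∧ c t + B t w = x}

/-- `M` is carried to the unit sphere. -/
def Unk (M : Set V) : Prop := Carries M (sphere (0 : V) 1)

/-- `q'` changes sign at `z` from minus to plus. -/
def LocMin (q : ℝ → ℝ) (z : ℝ) : Prop :=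
  ∃ r : ℝ, 0 < r ∧ ∀ t, t ≠ z → |t - z| < r → 0 < deriv q t * (t - z)

/-- `q'` changes sign at `z` from plus to minus. -/
def LocMax (q : ℝ → ℝ) (z : ℝ) : Prop :=
  ∃ r : ℝ, 0 < r ∧ ∀ t, t ≠ z → |t - z| < r → deriv q t * (t - z) < 0

/-- `Φ` straightens the spheres near `t₀`: there `Φ (c t + B t w) = (t - t₀) • u + B t₀ w`. -/
structure Strt0 (c : ℝ → V) (B : ℝ → E →L[ℝ] V) (t₀ : ℝ) (Φ Ψ : V → V) (u : V) (r : ℝ) : Prop where
  dif : Dif Φ Ψ
  hr : 0 < r
  hu : ‖u‖ = 1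
  orth : ∀ w : E, ⟪u, B t₀ w⟫ = 0
  iso : ∀ w : E, ‖B t₀ w‖ = ‖w‖
  str : ∀ t (w : E), |t - t₀| ≤ r → ‖w‖ ≤ r → Φ (c t + B t w) = (t - t₀) • u + B t₀ w

/-- Canal data with a tiny neck at `t₀` (`q t₀ = ε ^ 2`): in the box `|⟪u, ·⟫| < ρ`,
`‖orth u ·‖ ≤ r` of the straight coordinates there are only the spheres with `|t - t₀| < ρ`. -/
structure CanalN (c : ℝ → V) (B : ℝ → E →L[ℝ] V) (q : ℝ → ℝ) (a b t₀ : ℝ) (Φ Ψ : V → V) (u : V)
    (r ρ ε : ℝ) : Prop where
  cn : CanalD c B q a b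
  st : Strt0 c B t₀ Φ Ψ u r
  hρ : 0 < ρ
  hρr : ρ ≤ r
  la : a < t₀ - ρ
  lb : t₀ + ρ < b
  hε : 0 < ε
  hερ : 4 * ε < ρ
  val : q t₀ = ε ^ 2
  mono : ∀ t, t ≠ t₀ → |t - t₀| ≤ ρ → 0 < deriv q t * (t - t₀)
  small : ∀ t, |t - t₀| ≤ ρ → q t < r ^ 2
  far : ∀ t ∈ Icc a b, ρ ≤ |t - t₀| → ∀ w : E, ‖w‖ ^ 2 = q t →
    ¬ (|⟪u, Φ (c t + B t w)⟫| < ρ ∧ ‖Pool.Schoen.orth u (Φ (c t + B t w))‖ ≤ r)

/-- The profile of the cut neck: `q̂ = q` for `|t - t₀| ≥ ρ / 2`, `q̂ < 0` for `|t - t₀| < ε`, and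
`q̂` vanishes at `t₀ ± ε` and is strictly monotone on both sides. -/
structure CutP (q p : ℝ → ℝ) (t₀ ρ ε : ℝ) : Prop where
  smooth : ContDiff ℝ ∞ p
  eq : ∀ t, ρ / 2 ≤ |t - t₀| → p t = q t
  le : ∀ t, p t ≤ q t
  zp : p (t₀ + ε) = 0
  zm : p (t₀ - ε) = 0
  neg : ∀ t, |t - t₀| < ε → p t < 0
  mono : ∀ t, ε ≤ |t - t₀| → |t - t₀| ≤ ρ → 0 < deriv p t * (t - t₀)

end Pool.Schoen
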