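import Mathlib

/-! Canal spheres: the squared radius is `(t - a) (b - t)` times a smooth positive square. -/

set_option autoImplicit false

namespace Pool.Schoen

open Filter Set
open scoped Topology ContDiff

private theorem Div_nat (n : ℕ) :
    ∀ f : ℝ × ℝ → ℝ, ContDiff ℝ ∞ f → ContDiff ℝ n (fun x : ℝ => ∫ t in (0 : ℝ)..1, f (x, t)) := by
  induction n with
  | zero =>
    intro f hf
    rw [Nat.cast_zero, contDiff_zero]
    exact intervalIntegral.continuous_parametric_intervalIntegral_of_continuous'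
      (f := fun x t => f (x, t)) hf.continuous 0 1
  | succ n ih =>
    intro f hf
    have hdf : ContDiff ℝ ∞ (fderiv ℝ f) := hf.fderiv_right (by simp)
    have hfc : Continuous f := hf.continuous
    have hg : Continuous (fun p : ℝ × ℝ =>
        (fderiv ℝ f p).comp (ContinuousLinearMap.inl ℝ ℝ ℝ)) :=
      hdf.continuous.clm_comp continuous_const
    have hder : ∀ x, HasFDerivAt (fun x : ℝ => ∫ t in (0 : ℝ)..1, f (x, t))
        (∫ t in (0 : ℝ)..1, (fderiv ℝ f (x, t)).comp (ContinuousLinearMap.inl ℝ ℝ ℝ)) x := by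
      intro x
      have hK : IsCompact (Metric.closedBall x 1 ×ˢ Set.uIcc (0 : ℝ) 1) :=
        (isCompact_closedBall x 1).prod isCompact_uIcc
      obtain ⟨C, hC⟩ := hK.exists_bound_of_continuousOn hg.continuousOn
      refine intervalIntegral.hasFDerivAt_integral_of_dominated_of_fderiv_le
        (F := fun x t => f (x, t))
        (F' := fun x t => (fderiv ℝ f (x, t)).comp (ContinuousLinearMap.inl ℝ ℝ ℝ))
        (bound := fun _ => C) (s := Metric.ball x 1)
        (Metric.ball_mem_nhds x one_pos) ?_ ?_ ?_ ?_ ?_ ?_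
      · refine Filter.Eventually.of_forall fun y => ?_
        exact (hfc.comp (Continuous.prodMk_right y)).aestronglyMeasurable
      · exact (hfc.comp (Continuous.prodMk_right x)).intervalIntegrable 0 1
      · exact (hg.comp (Continuous.prodMk_right x)).aestronglyMeasurable
      · refine Filter.Eventually.of_forall fun s hs y hy => ?_
        exact hC (y, s) ⟨Metric.ball_subset_closedBall hy, Set.uIoc_subset_uIcc hs⟩
      · exact intervalIntegrable_const
      · refine Filter.Eventually.of_forall fun s _ y _ => ?_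
        have h1 := (hf.differentiable (by simp) (y, s)).hasFDerivAt
        exact h1.comp y (hasFDerivAt_prodMk_left y s)
    rw [Nat.cast_succ, contDiff_succ_iff_fderiv_apply]
    refine ⟨fun x => (hder x).differentiableAt, by simp, fun y => ?_⟩
    have he : (fun x => fderiv ℝ (fun x : ℝ => ∫ t in (0 : ℝ)..1, f (x, t)) x y) =
        fun x => ∫ t in (0 : ℝ)..1, (fderiv ℝ f (x, t)) (y, 0) := by
      funext x
      rw [(hder x).fderiv, ContinuousLinearMap.intervalIntegral_apply]
      · rfl
      · exact (hg.comp (Continuous.prodMk_right x)).intervalIntegrable 0 1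
    rw [he]
    exact ih (fun p => fderiv ℝ f p (y, 0)) (hdf.clm_apply contDiff_const)

private theorem Div_param {f : ℝ × ℝ → ℝ} (hf : ContDiff ℝ ∞ f) :
    ContDiff ℝ ∞ (fun x : ℝ => ∫ t in (0 : ℝ)..1, f (x, t)) := by
  rw [contDiff_infty]
  intro n
  exact Div_nat n f hf

/-- Division of a smooth function by `t - a`. -/
private theorem Div_had {f : ℝ → ℝ} (hf : ContDiff ℝ ∞ f) {a : ℝ} (ha : f a = 0) :
    ∃ g : ℝ → ℝ, ContDiff ℝ ∞ g ∧ ∀ x, f x = (x - a) * g x := by
  have hd : ContDiff ℝ ∞ (deriv f) := (contDiff_infty_iff_deriv.mp hf).2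
  have hsm : ContDiff ℝ ∞ (fun p : ℝ × ℝ => deriv f (a + p.2 * (p.1 - a))) :=
    hd.comp (contDiff_const.add (contDiff_snd.mul (contDiff_fst.sub contDiff_const)))
  refine ⟨fun x => ∫ t in (0 : ℝ)..1, deriv f (a + t * (x - a)), Div_param hsm, ?_⟩
  intro x
  have h1 : ∀ t ∈ Set.uIcc (0 : ℝ) 1,
      HasDerivAt (fun t : ℝ => f (a + t * (x - a))) ((x - a) * deriv f (a + t * (x - a))) t := by
    intro t _
    have h2 : HasDerivAt f (deriv f (a + t * (x - a))) (a + t * (x - a)) :=
      (hf.differentiable (by simp) _).hasDerivAt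
    have h3 : HasDerivAt (fun t : ℝ => a + t * (x - a)) (1 * (x - a)) t :=
      ((hasDerivAt_id t).mul_const (x - a)).const_add a
    have h4 := h2.comp t h3
    rw [one_mul, mul_comm] at h4
    exact h4
  have hcont : Continuous (fun t : ℝ => (x - a) * deriv f (a + t * (x - a))) := by
    have := hd.continuous
    fun_prop
  have h2 := intervalIntegral.integral_eq_sub_of_hasDerivAt h1 (hcont.intervalIntegrable 0 1)
  rw [intervalIntegral.integral_const_mul, one_mul, zero_mul, add_zero, ha, sub_zero,
    add_sub_cancel] at h2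
  exact h2.symm

/-- The derivative of a product at the zero of the linear factor. -/
private theorem Div_deriv {f g : ℝ → ℝ} (hg : ContDiff ℝ ∞ g) {a : ℝ}
    (h : ∀ x, f x = (x - a) * g x) : deriv f a = g a := by
  have h1 : HasDerivAt (fun x => (x - a) * g x) (1 * g a + (a - a) * deriv g a) a :=
    ((hasDerivAt_id a).sub_const a).mul (hg.differentiable (by simp) a).hasDerivAt
  have h2 : f = fun x => (x - a) * g x := funext h
  rw [h2, h1.deriv]
  ring

/-- A smooth positive function equal to the square root on `[κ, ∞)`. -/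
private theorem Div_sqrt {κ : ℝ} (hκ : 0 < κ) :
    ∃ g : ℝ → ℝ, ContDiff ℝ ∞ g ∧ (∀ x, 0 < g x) ∧ ∀ x, κ ≤ x → g x = √x := by
  have haff : ContDiff ℝ ∞ (fun x : ℝ => 2 * x / κ - 1) := by fun_prop
  have hχ : ContDiff ℝ ∞ (fun x : ℝ => Real.smoothTransition (2 * x / κ - 1)) :=
    Real.smoothTransition.contDiff.comp haff
  have hz : ∀ x : ℝ, x ≤ κ / 2 → Real.smoothTransition (2 * x / κ - 1) = 0 := by
    intro x hx
    apply Real.smoothTransition.zero_of_nonpos
    have h1 : 2 * x / κ ≤ 1 := by
      rw [div_le_one hκ]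
      linarith
    linarith
  refine ⟨fun x => Real.smoothTransition (2 * x / κ - 1) * √x +
    (1 - Real.smoothTransition (2 * x / κ - 1)), ?_, ?_, ?_⟩
  · rw [contDiff_iff_contDiffAt]
    intro x0
    by_cases hx0 : x0 < κ / 2
    · have h1 : (fun x => Real.smoothTransition (2 * x / κ - 1) * √x +
          (1 - Real.smoothTransition (2 * x / κ - 1))) =ᶠ[𝓝 x0] fun _ => (1 : ℝ) := by
        filter_upwards [Iio_mem_nhds hx0] with x hx
        rw [hz x (le_of_lt hx)]
        ring
      exact (contDiffAt_const (c := (1 : ℝ))).congr_of_eventuallyEq h1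
    · have hx0' : x0 ≠ 0 := by
        intro h
        rw [h] at hx0
        exact hx0 (by linarith)
      exact (hχ.contDiffAt.mul (Real.contDiffAt_sqrt hx0')).add
        (contDiffAt_const.sub hχ.contDiffAt)
  · intro x
    have h0 := Real.smoothTransition.nonneg (2 * x / κ - 1)
    have h1 := Real.smoothTransition.le_one (2 * x / κ - 1)
    by_cases hx : x ≤ κ / 2
    · simp only [hz x hx]
      norm_num
    · have hx' : 0 < √x := Real.sqrt_pos.mpr (by linarith [not_le.mp hx])
      rcases h0.eq_or_lt with h2 | h2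
      · simp only [← h2]
        norm_num
      · have h3 := mul_pos h2 hx'
        show 0 < Real.smoothTransition (2 * x / κ - 1) * √x +
          (1 - Real.smoothTransition (2 * x / κ - 1))
        linarith
  · intro x hx
    have h1 : Real.smoothTransition (2 * x / κ - 1) = 1 := by
      apply Real.smoothTransition.one_of_one_le
      have h2 : 2 ≤ 2 * x / κ := by
        rw [le_div_iff₀ hκ]
        linarith
      linarith
    simp only [h1]
    ring

/-- PROOF. Hadamard: if `g` is smooth and `g a = 0` then `g t = (t - a) * g₁ t` with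
`g₁ t = ∫ σ in 0..1, deriv g (a + σ (t - a))` smooth (if a library lemma for the smoothness of this
integral is hard to find: `hasDerivAt_integral_of_dominated_loc_of_deriv_le` and induction, or
`contDiff_parametric...`). Apply it at `a`, then (to `g₁`, which vanishes at `b` because
`q b = 0`, `b ≠ a`) at `b`: `q t = (t - a) * (b - t) * k t` for all real `t`, `k` smooth.
`k > 0` on `[a, b]`: inside because `q > 0`; at `a`: `deriv q a = (b - a) * k a`; at `b`:
`deriv q b = -(b - a) * k b`. Let `0 < κ ≤ k` on `[a, b]`; with a smooth function `g : ℝ → ℝ`,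
`g > 0` everywhere and `g x = √x` for `x ≥ κ` (e.g. `g x = χ x * √(x ∨ ..) + (1 - χ x)`,
`χ = Real.smoothTransition` of an affine function, zero for `x ≤ κ / 2`, one for `x ≥ κ`; the
product is smooth because `√` is smooth on `(κ / 4, ∞)` and `χ` vanishes near `(-∞, κ / 2)`; take
`χ` zero for `x ≤ κ / 2` and check near `κ / 2`) put `m = g ∘ k`. -/
theorem canal_div {q : ℝ → ℝ} {a b : ℝ} (hab : a < b) (sq : ContDiff ℝ ∞ q) (za : q a = 0)
    (zb : q b = 0) (da : 0 < deriv q a) (db : deriv q b < 0) (pos : ∀ t ∈ Ioo a b, 0 < q t) :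
    ∃ m : ℝ → ℝ, ContDiff ℝ ∞ m ∧ (∀ t, 0 < m t) ∧
      ∀ t ∈ Icc a b, q t = (t - a) * (b - t) * m t ^ 2 := by
  obtain ⟨g1, hg1, hq1⟩ := Div_had sq za
  have hg1b : g1 b = 0 := by
    have h1 := hq1 b
    rw [zb] at h1
    exact (mul_eq_zero.mp h1.symm).resolve_left (by linarith)
  obtain ⟨g2, hg2, hq2⟩ := Div_had hg1 hg1b
  have hk : ContDiff ℝ ∞ (fun t => -g2 t) := hg2.neg
  have hq : ∀ t, q t = (t - a) * (b - t) * -g2 t := by
    intro t
    rw [hq1 t, hq2 t]
    ring
  have hda : deriv q a = (b - a) * -g2 a := by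
    rw [Div_deriv hg1 hq1, hq2 a]
    ring
  have hdb : deriv q b = -(b - a) * -g2 b := by
    have h1 : ∀ x, q x = (x - b) * ((x - a) * g2 x) := by
      intro x
      rw [hq1 x, hq2 x]
      ring
    rw [Div_deriv ((contDiff_id.sub contDiff_const).mul hg2) h1]
    simp only [id_eq]
    ring
  have hpos : ∀ t ∈ Icc a b, 0 < -g2 t := by
    intro t ht
    rcases ht.1.eq_or_lt with h1 | h1
    · rw [← h1]
      rw [hda] at da
      exact (mul_pos_iff_of_pos_left (by linarith)).mp da
    rcases ht.2.eq_or_lt with h2 | h2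
    · rw [h2]
      rw [hdb] at db
      have h3 : 0 < (b - a) * -g2 b := by linarith
      exact (mul_pos_iff_of_pos_left (by linarith)).mp h3
    · have h3 := pos t ⟨h1, h2⟩
      rw [hq t] at h3
      exact (mul_pos_iff_of_pos_left (mul_pos (by linarith) (by linarith))).mp h3
  obtain ⟨t0, ht0, hmin⟩ := isCompact_Icc.exists_isMinOn (nonempty_Icc.mpr hab.le)
    hk.continuous.continuousOn
  obtain ⟨g, hg, hgpos, hgs⟩ := Div_sqrt (hpos t0 ht0)
  refine ⟨fun t => g (-g2 t), hg.comp hk, fun t => hgpos _, ?_⟩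
  intro t ht
  have h1 : -g2 t0 ≤ -g2 t := hmin ht
  show q t = (t - a) * (b - t) * g (-g2 t) ^ 2
  rw [hgs _ h1, Real.sq_sqrt (hpos t ht).le, hq t]

end Pool.Schoen
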