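import Pool.Agent.H.MP_6c077c_gt.Cn.Defs

/-! Canal spheres: after a small perturbation the radius has nondegenerate critical points. -/

set_option autoImplicit false

namespace Pool.Schoen

open Filter Set MeasureTheory
open scoped Topology ContDiff

private theorem Perturb_slope {h : ℝ → ℝ} {m z : ℝ} (hz : h z = 0) (hd : HasDerivAt h m z)
    (hm : 0 < m) : ∃ r : ℝ, 0 < r ∧ ∀ t, t ≠ z → |t - z| < r → 0 < h t * (t - z) := by
  have h1 := (hasDerivAt_iff_tendsto_slope.1 hd).eventually (lt_mem_nhds hm)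
  rw [eventually_nhdsWithin_iff, Metric.eventually_nhds_iff] at h1
  obtain ⟨r, hr, h2⟩ := h1
  refine ⟨r, hr, fun t ht htr => ?_⟩
  have h3 := h2 (y := t) (by rwa [Real.dist_eq]) ht
  rw [slope_def_field, hz, sub_zero] at h3
  have h4 : t - z ≠ 0 := sub_ne_zero.2 ht
  have h5 : h t * (t - z) = h t / (t - z) * (t - z) ^ 2 := by
    field_simp
  rw [h5]
  exact mul_pos h3 (by positivity)

/-- PROOF. For `t` in `(a, b)` (where `q > 0`) the derivative of `exp (δ t) q t` is
`exp (δ t) q t (g t + δ)`, `g = deriv q / q`. The set `{g t : t ∈ (a, b), deriv g t = 0}` has measure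
zero (`addHaar_image_eq_zero_of_det_fderiv_eq_zero` in dimension one, or any one-dimensional Sard
lemma), so there is `δ` with `|δ| < δ₀` and `-δ` not in it. Near `a` and `b` inside the interval
`|deriv q| > 0` is bounded below and `q → 0`, so `g + δ ≠ 0` there (`deriv q + δ q ≠ 0` near the
ends): the zeros of `g + δ` in `(a, b)` lie in a compact subinterval `[a₁, b₁]`; they are isolated
(`deriv g ≠ 0` there), so they form a finite set `Z` (compact and discrete). At `z ∈ Z` the function
`g + δ` changes sign strictly, so `LocMin` or `LocMax` holds (`exp (δ t) q t > 0` near `z`). -/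
theorem exists_morse {q : ℝ → ℝ} {a b : ℝ} (hab : a < b) (sq : ContDiff ℝ ∞ q) (za : q a = 0)
    (zb : q b = 0) (da : 0 < deriv q a) (db : deriv q b < 0) (pos : ∀ t ∈ Ioo a b, 0 < q t)
    {δ₀ : ℝ} (hδ : 0 < δ₀) :
    ∃ (δ : ℝ) (Z : Finset ℝ), |δ| < δ₀ ∧
      (∀ t ∈ Ioo a b, deriv (fun t => Real.exp (δ * t) * q t) t = 0 → t ∈ Z) ∧
      ∀ z ∈ Z, z ∈ Ioo a b ∧ deriv (fun t => Real.exp (δ * t) * q t) z = 0 ∧
        (LocMin (fun t => Real.exp (δ * t) * q t) z ∨
          LocMax (fun t => Real.exp (δ * t) * q t) z) := by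
  classical
  have dq : Differentiable ℝ q := sq.differentiable (by simp)
  have sdq : ContDiff ℝ ∞ (deriv q) := (contDiff_infty_iff_deriv.1 sq).2
  have ddq : Differentiable ℝ (deriv q) := sdq.differentiable (by simp)
  obtain ⟨g, hgdef⟩ : ∃ g : ℝ → ℝ, g = fun t => deriv q t / q t := ⟨_, rfl⟩
  have hg : ∀ t ∈ Ioo a b, HasDerivAt g
      ((deriv (deriv q) t * q t - deriv q t * deriv q t) / (q t) ^ 2) t := by
    intro t ht
    rw [hgdef]
    exact (ddq t).hasDerivAt.fun_div (dq t).hasDerivAt (pos t ht).ne'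
  have hnull : volume (g '' {t | t ∈ Ioo a b ∧ deriv g t = 0}) = 0 := by
    apply addHaar_image_eq_zero_of_det_fderivWithin_eq_zero volume (f' := fun _ => 0)
    · rintro x ⟨hx1, hx2⟩
      have h1 := (hg x hx1).differentiableAt.hasDerivAt
      rw [hx2] at h1
      have h2 := h1.hasFDerivAt.hasFDerivWithinAt (s := {t | t ∈ Ioo a b ∧ deriv g t = 0})
      have h3 : (ContinuousLinearMap.toSpanSingleton ℝ (0 : ℝ)) = (0 : ℝ →L[ℝ] ℝ) := by
        ext; simp
      rw [h3] at h2
      exact h2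
    · intro x _
      simp [ContinuousLinearMap.det]
  obtain ⟨c, hc1, hc2⟩ : ∃ c ∈ Ioo (-δ₀) δ₀, c ∉ g '' {t | t ∈ Ioo a b ∧ deriv g t = 0} := by
    by_contra hcon
    push Not at hcon
    have h1 : volume (Ioo (-δ₀) δ₀) ≤ volume (g '' {t | t ∈ Ioo a b ∧ deriv g t = 0}) :=
      measure_mono fun x hx => hcon x hx
    rw [hnull, Real.volume_Ioo, nonpos_iff_eq_zero, ENNReal.ofReal_eq_zero] at h1
    linarith
  obtain ⟨δ, hδc⟩ : ∃ δ : ℝ, δ = -c := ⟨_, rfl⟩
  have hcδ : c = -δ := by rw [hδc]; ring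
  obtain ⟨h, hh⟩ : ∃ h : ℝ → ℝ, h = fun t => deriv q t + δ * q t := ⟨_, rfl⟩
  have hhd : ∀ t, HasDerivAt h (deriv (deriv q) t + δ * deriv q t) t := by
    intro t
    rw [hh]
    exact (ddq t).hasDerivAt.add ((dq t).hasDerivAt.const_mul δ)
  have hf : ∀ t, HasDerivAt (fun t => Real.exp (δ * t) * q t) (Real.exp (δ * t) * h t) t := by
    intro t
    have h1 : HasDerivAt (fun t => Real.exp (δ * t)) (Real.exp (δ * t) * (δ * 1)) t :=
      ((hasDerivAt_id t).const_mul δ).exp
    have h2 := h1.mul (dq t).hasDerivAt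
    refine h2.congr_deriv ?_
    rw [hh]
    ring
  have hfd : ∀ t, deriv (fun t => Real.exp (δ * t) * q t) t = Real.exp (δ * t) * h t :=
    fun t => (hf t).deriv
  have hzero : ∀ t ∈ Icc a b, h t = 0 →
      t ∈ Ioo a b ∧ deriv (deriv q) t + δ * deriv q t ≠ 0 := by
    intro t ht h0
    have ha : t ≠ a := by
      rintro rfl
      rw [hh] at h0
      simp only [za, mul_zero, add_zero] at h0
      linarith
    have hb : t ≠ b := by
      rintro rfl
      rw [hh] at h0
      simp only [zb, mul_zero, add_zero] at h0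
      linarith
    have ht' : t ∈ Ioo a b := ⟨lt_of_le_of_ne ht.1 (Ne.symm ha), lt_of_le_of_ne ht.2 hb⟩
    refine ⟨ht', fun hm => hc2 ⟨t, ⟨ht', ?_⟩, ?_⟩⟩
    · rw [(hg t ht').deriv]
      have h0' : deriv q t = -δ * q t := by
        rw [hh] at h0
        simp only at h0
        linarith
      have h1 : deriv (deriv q) t * q t - deriv q t * deriv q t = 0 := by
        have h2 : deriv (deriv q) t * q t - deriv q t * deriv q t =
            q t * (deriv (deriv q) t + δ * deriv q t) := by
          calc deriv (deriv q) t * q t - deriv q t * deriv q t =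
              deriv (deriv q) t * q t - (-δ * q t) * deriv q t := by rw [← h0']
            _ = q t * (deriv (deriv q) t + δ * deriv q t) := by ring
        rw [h2, hm, mul_zero]
      rw [h1, zero_div]
    · rw [hgdef]
      have hq := (pos t ht').ne'
      rw [hh] at h0
      simp only at h0 ⊢
      rw [div_eq_iff hq, hcδ]
      linarith
  have hcont : Continuous h := by
    rw [hh]
    exact sdq.continuous.add (continuous_const.mul sq.continuous)
  have hK : IsCompact {t | t ∈ Icc a b ∧ h t = 0} := by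
    have h1 : IsClosed {t | h t = 0} := isClosed_eq hcont continuous_const
    exact isCompact_Icc.inter_right h1
  have hfin : {t | t ∈ Icc a b ∧ h t = 0}.Finite := by
    by_contra hinf
    obtain ⟨x, hx, hacc⟩ := Set.Infinite.exists_accPt_of_subset_isCompact hinf hK subset_rfl
    rw [accPt_iff_frequently_nhdsNE] at hacc
    obtain ⟨hx1, hx2⟩ := hx
    have h1 := (hhd x).eventually_ne (hzero x hx1 hx2).2 (c := 0)
    exact hacc (h1.mono fun y hy hy2 => hy hy2.2)
  refine ⟨δ, hfin.toFinset, ?_, ?_, ?_⟩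
  · rw [abs_lt, hδc]
    exact ⟨by linarith [hc1.2], by linarith [hc1.1]⟩
  · intro t ht h0
    rw [hfd t] at h0
    rw [Set.Finite.mem_toFinset]
    exact ⟨⟨ht.1.le, ht.2.le⟩, (mul_eq_zero.1 h0).resolve_left (Real.exp_pos _).ne'⟩
  · intro z hz
    rw [Set.Finite.mem_toFinset] at hz
    obtain ⟨hz1, hz2⟩ := hz
    obtain ⟨hz3, hz4⟩ := hzero z hz1 hz2
    refine ⟨hz3, by rw [hfd z, hz2, mul_zero], ?_⟩
    rcases lt_or_gt_of_ne hz4 with hm | hm
    · right
      have hd : HasDerivAt (fun t => -h t) (-(deriv (deriv q) z + δ * deriv q z)) z :=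
        (hhd z).neg
      obtain ⟨r, hr, h1⟩ := Perturb_slope (by simp [hz2]) hd (by linarith)
      refine ⟨r, hr, fun t ht1 ht2 => ?_⟩
      have h2 := h1 t ht1 ht2
      rw [hfd t]
      have h3 := mul_pos (Real.exp_pos (δ * t)) h2
      linarith [mul_neg (Real.exp (δ * t)) (h t * (t - z)), neg_mul (h t) (t - z),
        mul_assoc (Real.exp (δ * t)) (h t) (t - z)]
    · left
      obtain ⟨r, hr, h1⟩ := Perturb_slope hz2 (hhd z) hm
      refine ⟨r, hr, fun t ht1 ht2 => ?_⟩
      have h2 := h1 t ht1 ht2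
      rw [hfd t, mul_assoc]
      exact mul_pos (Real.exp_pos (δ * t)) h2

end Pool.Schoen
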