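import Pool.Agent.H.MP_6c077c_gt.Cn.Induct
import Pool.Agent.H.MP_6c077c_gt.Cn.Perturb
import Pool.Agent.H.MP_6c077c_gt.Isotopy

/-! Canal spheres: the theorem. -/

set_option autoImplicit false

namespace Pool.Schoen

open Filter Set Metric
open scoped Topology RealInnerProductSpace ContDiff

variable {E V : Type*} [NormedAddCommGroup E] [InnerProductSpace ℝ E] [FiniteDimensional ℝ E]
  [NormedAddCommGroup V] [InnerProductSpace ℝ V] [FiniteDimensional ℝ V]
variable {c : ℝ → V} {A : ℝ → E →L[ℝ] V} {m : ℝ → ℝ}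

/-- `(t, u) ↦ c t + A t u` is injective on the unit sphere. -/
def SphInj (c : ℝ → V) (A : ℝ → E →L[ℝ] V) : Prop :=
  ∀ (t t' : ℝ) (u u' : E), t ^ 2 + ‖u‖ ^ 2 = 1 → t' ^ 2 + ‖u'‖ ^ 2 = 1 →
    c t + A t u = c t' + A t' u' → t = t' ∧ u = u'

/-- `(t, u) ↦ c t + A t u` is immersive on the unit sphere. -/
def SphImm (c : ℝ → V) (A : ℝ → E →L[ℝ] V) : Prop :=
  ∀ (t α : ℝ) (u v : E), t ^ 2 + ‖u‖ ^ 2 = 1 → t * α + ⟪u, v⟫ = 0 →
    α • (deriv c t + deriv A t u) + A t v = 0 → α = 0 ∧ v = 0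

/-- PROOF. `q t = (1 - t ^ 2) m t ^ 2`, `B = m⁻¹ A`. `deriv q (-1) = 2 m (-1) ^ 2 > 0`. `disj`: put
`u = (m t)⁻¹ w`, so `t ^ 2 + ‖u‖ ^ 2 = 1` and `A t u = B t w`. `imm`: at `t = ± 1`: `w = 0` and
`0 = deriv q t ≠ 0`. For `|t| < 1`: let `c' + B' w + B w' = 0`, `u = m⁻¹ w`,
`v = m⁻¹ w' - m⁻² m' w` (the derivative of `m⁻¹ w` along `(1, w')`); then
`c' + A' u + A v = c' + B' w + B w' = 0` (`A = m B`, `A' = m' B + m B'`), and
`2 (t + ⟪u, v⟫) = 2 t + m⁻² · 2 ⟪w, w'⟫ - 2 m⁻³ m' ‖w‖ ^ 2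
= 2 t + m⁻² deriv q t - 2 m⁻¹ m' (1 - t ^ 2) = 0`. So `SphImm` (with `α = 1`) gives `1 = 0`. The image:
`canalM` at height zero is the image of the unit sphere. -/
theorem canalD_of_emb (hd : Module.finrank ℝ V = Module.finrank ℝ E + 1) (sc : ContDiff ℝ ∞ c)
    (sA : ContDiff ℝ ∞ A) (sm : ContDiff ℝ ∞ m) (pm : ∀ t, 0 < m t)
    (hA : ∀ t ∈ Icc (-1 : ℝ) 1, ∀ u, ‖A t u‖ = m t * ‖u‖) (inj : SphInj c A) (imm : SphImm c A) :
    CanalD c (fun t => (m t)⁻¹ • A t) (fun t => (1 - t ^ 2) * m t ^ 2) (-1) 1 ∧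
      canalM c (fun t => (m t)⁻¹ • A t) (fun t => (1 - t ^ 2) * m t ^ 2) (-1) 1 0 =
        {x | ∃ (t : ℝ) (u : E), t ^ 2 + ‖u‖ ^ 2 = 1 ∧ c t + A t u = x} := by
  have dm : Differentiable ℝ m := sm.differentiable (by simp)
  have dA : Differentiable ℝ A := sA.differentiable (by simp)
  have hq : ∀ t, HasDerivAt (fun t => (1 - t ^ 2) * m t ^ 2)
      (-2 * t * m t ^ 2 + (1 - t ^ 2) * (2 * m t * deriv m t)) t := by
    intro t
    have h1 : HasDerivAt (fun t : ℝ => 1 - t ^ 2) (-2 * t) t := by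
      have := ((hasDerivAt_id t).pow 2).const_sub 1
      refine this.congr_deriv ?_
      simp
    have h2 : HasDerivAt (fun t => m t ^ 2) (2 * m t * deriv m t) t := by
      have := (dm t).hasDerivAt.pow 2
      refine this.congr_deriv ?_
      simp
    exact h1.mul h2
  have hun : ∀ t, ∀ w : E, ‖w‖ ^ 2 = (1 - t ^ 2) * m t ^ 2 → t ^ 2 + ‖(m t)⁻¹ • w‖ ^ 2 = 1 := by
    intro t w hw
    have hm := (pm t).ne'
    rw [norm_smul, mul_pow, hw, Real.norm_eq_abs, sq_abs]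
    field_simp
    ring
  refine ⟨⟨by norm_num, sc, (sm.inv fun t => (pm t).ne').smul sA, ?_, ?_, by simp, by simp, ?_, ?_,
    ?_, ?_, ?_⟩, ?_⟩
  · exact (contDiff_const.sub (contDiff_id.pow 2)).mul (sm.pow 2)
  · intro t ht w
    show ‖(m t)⁻¹ • A t w‖ = ‖w‖
    rw [norm_smul, hA t ht w, Real.norm_eq_abs, abs_of_pos (inv_pos.2 (pm t)), ← mul_assoc,
      inv_mul_cancel₀ (pm t).ne', one_mul]
  · rw [(hq (-1)).deriv]
    have := pm (-1)
    have : 0 < m (-1) ^ 2 := by positivity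
    linarith
  · rw [(hq 1).deriv]
    have := pm 1
    have : 0 < m 1 ^ 2 := by positivity
    linarith
  · intro t ht
    have h1 : 0 < 1 - t ^ 2 := by nlinarith [ht.1, ht.2]
    have := pm t
    positivity
  · intro t _ t' _ w w' hw hw' h
    refine (inj t t' ((m t)⁻¹ • w) ((m t')⁻¹ • w') (hun t w hw) (hun t' w' hw') ?_).1
    rw [map_smul, map_smul]
    exact h
  · intro t _ w w' hw hw' h
    have hm := (pm t).ne'
    have hB : HasDerivAt (fun t => (m t)⁻¹ • A t)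
        ((m t)⁻¹ • deriv A t + (-deriv m t / m t ^ 2) • A t) t :=
      ((dm t).hasDerivAt.inv hm).smul (dA t).hasDerivAt
    rw [hB.deriv] at h
    rw [(hq t).deriv] at hw'
    have h1 := imm t 1 ((m t)⁻¹ • w) ((m t)⁻¹ • w' + (-deriv m t / m t ^ 2) • w) (hun t w hw) (by
      rw [inner_smul_left, inner_add_right, inner_smul_right, inner_smul_right,
        real_inner_self_eq_norm_sq, hw]
      have h2 : ⟪w, w'⟫ = (-2 * t * m t ^ 2 + (1 - t ^ 2) * (2 * m t * deriv m t)) / 2 := by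
        linarith
      rw [h2]
      simp only [conj_trivial]
      field_simp
      ring) (by
      rw [one_smul, map_smul, map_add, map_smul, map_smul, ← h]
      simp only [_root_.add_apply, _root_.smul_apply]
      abel)
    exact one_ne_zero h1.1
  · ext x
    constructor
    · rintro ⟨t, _, w, hw, rfl⟩
      refine ⟨t, (m t)⁻¹ • w, hun t w (by simpa using hw), ?_⟩
      rw [map_smul]
      rfl
    · rintro ⟨t, u, hu, rfl⟩
      have h1 : t ^ 2 ≤ 1 := by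
        have := sq_nonneg ‖u‖
        linarith
      refine ⟨t, abs_le.1 ((sq_le_one_iff_abs_le_one t).1 h1), m t • u, ?_, ?_⟩
      · rw [norm_smul, mul_pow, Real.norm_eq_abs, sq_abs]
        have h2 : ‖u‖ ^ 2 = 1 - t ^ 2 := by linarith
        rw [h2]
        ring
      · show c t + (m t)⁻¹ • A t (m t • u) = c t + A t u
        rw [map_smul, smul_smul, inv_mul_cancel₀ (pm t).ne', one_smul]

/-- PROOF. `‖A t e₁‖ ^ 2` for a unit vector `e₁` is smooth in `t` and positive on `[-1, 1]`; compose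
with a smooth positive function which is the square root on `[κ, ∞)`. -/
theorem exists_scale (hE : 1 ≤ Module.finrank ℝ E) (sA : ContDiff ℝ ∞ A)
    (hA : ∀ t ∈ Icc (-1 : ℝ) 1, ∃ ρ : ℝ, 0 < ρ ∧ ∀ u, ‖A t u‖ = ρ * ‖u‖) :
    ∃ m : ℝ → ℝ, ContDiff ℝ ∞ m ∧ (∀ t, 0 < m t) ∧
      ∀ t ∈ Icc (-1 : ℝ) 1, ∀ u, ‖A t u‖ = m t * ‖u‖ := by
  have : Nontrivial E := Module.nontrivial_of_finrank_pos (R := ℝ) hE
  obtain ⟨e, he⟩ := exists_norm_eq E (zero_le_one' ℝ)
  have hs : ContDiff ℝ ∞ fun t => ‖A t e‖ ^ 2 + (expNegInvGlue (t - 1) + expNegInvGlue (-1 - t)) := by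
    have h1 : ContDiff ℝ ∞ fun t => A t e := sA.clm_apply contDiff_const
    have h2 : ContDiff ℝ ∞ fun t : ℝ => expNegInvGlue (t - 1) :=
      expNegInvGlue.contDiff.comp (contDiff_id.sub contDiff_const)
    have h3 : ContDiff ℝ ∞ fun t : ℝ => expNegInvGlue (-1 - t) :=
      expNegInvGlue.contDiff.comp (contDiff_const.sub contDiff_id)
    exact (h1.norm_sq ℝ).add (h2.add h3)
  have hin : ∀ t ∈ Icc (-1 : ℝ) 1, expNegInvGlue (t - 1) + expNegInvGlue (-1 - t) = 0 := by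
    intro t ht
    rw [expNegInvGlue.zero_of_nonpos (by linarith [ht.2]),
      expNegInvGlue.zero_of_nonpos (by linarith [ht.1]), add_zero]
  have hpos : ∀ t, 0 < ‖A t e‖ ^ 2 + (expNegInvGlue (t - 1) + expNegInvGlue (-1 - t)) := by
    intro t
    by_cases ht : t ∈ Icc (-1 : ℝ) 1
    · rw [hin t ht, add_zero]
      obtain ⟨ρ, hρ, h⟩ := hA t ht
      rw [h e, he, mul_one]
      positivity
    · have h1 := expNegInvGlue.nonneg (t - 1)
      have h2 := expNegInvGlue.nonneg (-1 - t)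
      have h3 : 0 ≤ ‖A t e‖ ^ 2 := by positivity
      rw [mem_Icc, not_and_or, not_le, not_le] at ht
      rcases ht with ht | ht
      · have := expNegInvGlue.pos_of_pos (x := -1 - t) (by linarith)
        linarith
      · have := expNegInvGlue.pos_of_pos (x := t - 1) (by linarith)
        linarith
  refine ⟨fun t => √(‖A t e‖ ^ 2 + (expNegInvGlue (t - 1) + expNegInvGlue (-1 - t))),
    hs.sqrt fun t => (hpos t).ne', fun t => Real.sqrt_pos.2 (hpos t), fun t ht u => ?_⟩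
  obtain ⟨ρ, hρ, h⟩ := hA t ht
  show ‖A t u‖ = √(‖A t e‖ ^ 2 + (expNegInvGlue (t - 1) + expNegInvGlue (-1 - t))) * ‖u‖
  rw [hin t ht, add_zero, Real.sqrt_sq (norm_nonneg _), h e, he, mul_one, h u]

omit [FiniteDimensional ℝ E] [FiniteDimensional ℝ V] in
private theorem Final_der (sc : ContDiff ℝ ∞ c) (sA : ContDiff ℝ ∞ A) {γ : ℝ → ℝ} {η : ℝ → E}
    {t α τ : ℝ} {u v : E} (hγ : HasDerivAt γ α τ) (hη : HasDerivAt η v τ) (h1 : γ τ = t)
    (h2 : η τ = u) :
    HasDerivAt (fun s => c (γ s) + A (γ s) (η s)) (α • (deriv c t + deriv A t u) + A t v) τ := by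
  have dc : Differentiable ℝ c := sc.differentiable (by simp)
  have dA : Differentiable ℝ A := sA.differentiable (by simp)
  have k1 : HasDerivAt (fun s => c (γ s)) (α • deriv c t) τ := by
    have : HasDerivAt c (deriv c t) (γ τ) := by
      rw [h1]
      exact (dc t).hasDerivAt
    exact this.scomp τ hγ
  have k2 : HasDerivAt (fun s => A (γ s)) (α • deriv A t) τ := by
    have : HasDerivAt A (deriv A t) (γ τ) := by
      rw [h1]
      exact (dA t).hasDerivAt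
    exact this.scomp τ hγ
  have k3 := k1.add (k2.clm_apply hη)
  refine k3.congr_deriv ?_
  rw [h1, h2, smul_add, ContinuousLinearMap.smul_apply, add_assoc]

/-- A curve on the unit sphere. -/
private theorem Final_curve {t α : ℝ} {u v : E} (hu : t ^ 2 + ‖u‖ ^ 2 = 1)
    (ho : t * α + ⟪u, v⟫ = 0) :
    ∃ (γ : ℝ → ℝ) (η : ℝ → E), HasDerivAt γ α 0 ∧ HasDerivAt η v 0 ∧ γ 0 = t ∧ η 0 = u ∧
      ∀ s, γ s ^ 2 + ‖η s‖ ^ 2 = 1 := by
  obtain ⟨n, hn⟩ : ∃ n, n = α ^ 2 + ‖v‖ ^ 2 := ⟨_, rfl⟩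
  have hn0 : 0 ≤ n := by
    rw [hn]
    positivity
  have hp : ∀ s : ℝ, 0 < 1 + s ^ 2 * n := fun s => by positivity
  have hr : HasDerivAt (fun s : ℝ => (√(1 + s ^ 2 * n))⁻¹) 0 0 := by
    have h1 : HasDerivAt (fun s : ℝ => 1 + s ^ 2 * n) 0 0 := by
      have := (((hasDerivAt_id (0 : ℝ)).pow 2).mul_const n).const_add 1
      refine this.congr_deriv ?_
      simp
    have h2 := (h1.sqrt (hp 0).ne').inv (Real.sqrt_pos.2 (hp 0)).ne'
    refine h2.congr_deriv ?_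
    simp
  have hr0 : (√(1 + (0 : ℝ) ^ 2 * n))⁻¹ = 1 := by simp
  refine ⟨fun s => (√(1 + s ^ 2 * n))⁻¹ * (t + s * α), fun s => (√(1 + s ^ 2 * n))⁻¹ • (u + s • v),
    ?_, ?_, ?_, ?_, ?_⟩
  · have h1 : HasDerivAt (fun s : ℝ => t + s * α) α 0 := by
      have := ((hasDerivAt_id (0 : ℝ)).mul_const α).const_add t
      refine this.congr_deriv ?_
      simp
    refine (hr.mul h1).congr_deriv ?_
    rw [hr0]
    simp
  · have h1 : HasDerivAt (fun s : ℝ => u + s • v) v 0 := by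
      have := ((hasDerivAt_id (0 : ℝ)).smul_const v).const_add u
      refine this.congr_deriv ?_
      simp
    refine (hr.smul h1).congr_deriv ?_
    rw [hr0]
    simp
  · simp
  · simp
  · intro s
    show ((√(1 + s ^ 2 * n))⁻¹ * (t + s * α)) ^ 2 + ‖(√(1 + s ^ 2 * n))⁻¹ • (u + s • v)‖ ^ 2 = 1
    rw [norm_smul, mul_pow, mul_pow, Real.norm_eq_abs, sq_abs, inv_pow, Real.sq_sqrt (hp s).le,
      norm_add_sq_real, inner_smul_right, norm_smul, mul_pow, Real.norm_eq_abs, sq_abs, ← mul_add,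
      inv_mul_eq_one₀ (hp s).ne']
    have e1 : ⟪u, v⟫ = -(t * α) := by linarith
    have e2 : ‖u‖ ^ 2 = 1 - t ^ 2 := by linarith
    rw [e1, e2, hn]
    ring

/-- PROOF. `isotopy_local` (in `Isotopy.lean`) at `s₀ = 0` for the family
`(s, (τ, u)) ↦ c τ + exp (s τ / 2) • A τ u` on `WithLp 2 (ℝ × E)`: for small `s` the map is carried to
the one for `s = 0` by a diffeomorphism `φ` of `V`, `φ ∘ f₀ = f_s` on the sphere; so `f_s` is
injective and immersive there (`fderiv` of both sides on tangent vectors; compose with the inverse),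
and the images are carried. -/
theorem emb_open (sc : ContDiff ℝ ∞ c) (sA : ContDiff ℝ ∞ A) (inj : SphInj c A)
    (imm : SphImm c A) :
    ∃ δ₀ : ℝ, 0 < δ₀ ∧ ∀ δ : ℝ, |δ| < δ₀ →
      SphInj c (fun t => Real.exp (δ * t / 2) • A t) ∧
      SphImm c (fun t => Real.exp (δ * t / 2) • A t) ∧
      Carries {x | ∃ (t : ℝ) (u : E), t ^ 2 + ‖u‖ ^ 2 = 1 ∧ c t + A t u = x}
        {x | ∃ (t : ℝ) (u : E), t ^ 2 + ‖u‖ ^ 2 = 1 ∧
          c t + (Real.exp (δ * t / 2) • A t) u = x} := by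
  obtain ⟨f, hfdef⟩ : ∃ f : ℝ × WithLp 2 (ℝ × E) → V,
      f = fun p => c p.2.fst + (Real.exp (p.1 * p.2.fst / 2) • A p.2.fst) p.2.snd := ⟨_, rfl⟩
  have hfst : ContDiff ℝ ∞ fun p : ℝ × WithLp 2 (ℝ × E) => p.2.fst :=
    (contDiff_fst.comp (WithLp.prodContinuousLinearEquiv 2 ℝ ℝ E).contDiff).comp contDiff_snd
  have hsnd : ContDiff ℝ ∞ fun p : ℝ × WithLp 2 (ℝ × E) => p.2.snd :=
    (contDiff_snd.comp (WithLp.prodContinuousLinearEquiv 2 ℝ ℝ E).contDiff).comp contDiff_snd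
  have hf : ContDiff ℝ ∞ f := by
    rw [hfdef]
    refine (sc.comp hfst).add (ContDiff.clm_apply ?_ hsnd)
    exact (((contDiff_fst.mul hfst).div_const 2).exp).smul (sA.comp hfst)
  have hf0 : ∀ y : WithLp 2 (ℝ × E), f (0, y) = c y.fst + A y.fst y.snd := by
    intro y
    rw [hfdef]
    simp
  have hfs : ∀ (s t : ℝ) (u : E), f (s, WithLp.toLp 2 (t, u)) =
      c t + (Real.exp (s * t / 2) • A t) u := by
    intro s t u
    rw [hfdef]
    rfl
  have hsph : ∀ (t : ℝ) (u : E), t ^ 2 + ‖u‖ ^ 2 = 1 →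
      WithLp.toLp 2 (t, u) ∈ sphere (0 : WithLp 2 (ℝ × E)) 1 := by
    intro t u h
    rw [mem_sphere_zero_iff_norm]
    have h1 : ‖WithLp.toLp 2 (t, u)‖ ^ 2 = 1 := by
      rw [WithLp.prod_norm_sq_eq_of_L2]
      simpa using h
    exact (pow_eq_one_iff_of_nonneg (norm_nonneg _) two_ne_zero).1 h1
  have hsph' : ∀ y ∈ sphere (0 : WithLp 2 (ℝ × E)) 1, y.fst ^ 2 + ‖y.snd‖ ^ 2 = 1 := by
    intro y hy
    rw [mem_sphere_zero_iff_norm] at hy
    have h1 := WithLp.prod_norm_sq_eq_of_L2 y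
    rw [hy] at h1
    simp only [Real.norm_eq_abs, sq_abs] at h1
    linarith
  obtain ⟨ε, hε, hc⟩ := isotopy_local f hf 0 (by
    intro x hx y hy hxy
    simp only [hf0] at hxy
    obtain ⟨h1, h2⟩ := inj _ _ _ _ (hsph' x hx) (hsph' y hy) hxy
    exact (WithLp.ofLp_injective 2) (Prod.ext h1 h2)) (by
    intro x hx v hv h
    have hF : DifferentiableAt ℝ (fun y => f (0, y)) x :=
      ((hf.comp (contDiff_const.prodMk contDiff_id)).differentiable (by simp)) x
    have hl : HasDerivAt (fun s : ℝ => x + s • v) v 0 := by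
      have := ((hasDerivAt_id (0 : ℝ)).smul_const v).const_add x
      refine this.congr_deriv ?_
      simp
    have h1 : HasDerivAt (fun s : ℝ => f (0, x + s • v)) (fderiv ℝ (fun y => f (0, y)) x v) 0 := by
      have hF' : HasFDerivAt (fun y => f (0, y)) (fderiv ℝ (fun y => f (0, y)) x)
          (x + (0 : ℝ) • v) := by
        rw [zero_smul, add_zero]
        exact hF.hasFDerivAt
      exact hF'.comp_hasDerivAt 0 hl
    rw [h] at h1
    have h2 : HasDerivAt (fun s : ℝ => x.fst + s * v.fst) v.fst 0 := by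
      have := ((hasDerivAt_id (0 : ℝ)).mul_const v.fst).const_add x.fst
      refine this.congr_deriv ?_
      simp
    have h3 : HasDerivAt (fun s : ℝ => x.snd + s • v.snd) v.snd 0 := by
      have := ((hasDerivAt_id (0 : ℝ)).smul_const v.snd).const_add x.snd
      refine this.congr_deriv ?_
      simp
    have h4 := Final_der sc sA h2 h3 (t := x.fst) (u := x.snd) (by simp) (by simp)
    have h5 : (fun s : ℝ => f (0, x + s • v)) =
        fun s => c (x.fst + s * v.fst) + A (x.fst + s * v.fst) (x.snd + s • v.snd) := by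
      funext s
      rw [hf0]
      rfl
    rw [h5] at h1
    have h6 := h4.unique h1
    have h7 := imm x.fst v.fst x.snd v.snd (hsph' x hx) (by
      rw [WithLp.prod_inner_apply, add_comm] at hv
      rw [real_inner_comm v.snd x.snd]
      have h8 : ⟪v.fst, x.fst⟫ = x.fst * v.fst := rfl
      have h9 : ⟪v.snd, x.snd⟫ + ⟪v.fst, x.fst⟫ = 0 := hv
      linarith) h6
    exact (WithLp.ofLp_injective 2) (Prod.ext h7.1 h7.2))
  refine ⟨ε, hε, fun δ hδ => ?_⟩
  obtain ⟨φ, ψ, hφ, hψ, hψφ, hφψ, hR, hmap⟩ := hc δ (by rwa [sub_zero])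
  have hmap' : ∀ (t : ℝ) (u : E), t ^ 2 + ‖u‖ ^ 2 = 1 →
      φ (c t + A t u) = c t + (Real.exp (δ * t / 2) • A t) u := by
    intro t u h
    have h1 := hmap _ (hsph t u h)
    simp only [hf0, hfs] at h1
    exact h1
  have hmapi : ∀ (t : ℝ) (u : E), t ^ 2 + ‖u‖ ^ 2 = 1 →
      ψ (c t + (Real.exp (δ * t / 2) • A t) u) = c t + A t u := by
    intro t u h
    rw [← hmap' t u h, hψφ]
  refine ⟨?_, ?_, φ, ψ, hφ, hψ, hψφ, hφψ, hR, ?_⟩
  · intro t t' u u' h h' he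
    refine inj t t' u u' h h' ?_
    have h1 := congrArg ψ he
    rw [hmapi t u h, hmapi t' u' h'] at h1
    exact h1
  · intro t α u v hu ho h
    obtain ⟨γ, η, hγ, hη, hγ0, hη0, hs⟩ := Final_curve hu ho
    have sB : ContDiff ℝ ∞ fun t => Real.exp (δ * t / 2) • A t :=
      (((contDiff_const.mul contDiff_id).div_const 2).exp).smul sA
    have h1 := Final_der sc sB hγ hη hγ0 hη0
    rw [h] at h1
    have h2 := Final_der sc sA hγ hη hγ0 hη0
    have hψd : HasFDerivAt ψ (fderiv ℝ ψ (c (γ 0) + (Real.exp (δ * γ 0 / 2) • A (γ 0)) (η 0)))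
        (c (γ 0) + (Real.exp (δ * γ 0 / 2) • A (γ 0)) (η 0)) :=
      (hψ.differentiable (by simp) _).hasFDerivAt
    have h3 := hψd.comp_hasDerivAt 0 h1
    have h4 : (ψ ∘ fun s => c (γ s) + (Real.exp (δ * γ s / 2) • A (γ s)) (η s)) =
        fun s => c (γ s) + A (γ s) (η s) := by
      funext s
      exact hmapi _ _ (hs s)
    rw [h4, map_zero] at h3
    exact imm t α u v hu ho (h2.unique h3)
  · ext x
    constructor
    · rintro ⟨_, ⟨t, u, h, rfl⟩, rfl⟩
      exact ⟨t, u, h, (hmap' t u h).symm⟩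
    · rintro ⟨t, u, h, rfl⟩
      exact ⟨_, ⟨t, u, h, rfl⟩, hmap' t u h⟩

/-- The theorem. PROOF. `exists_scale`: `m`. `emb_open`: `δ₀`. `exists_morse` for
`q t = (1 - t ^ 2) m t ^ 2` and `δ₀`: `δ`, `Z`. `canalD_of_emb` for `exp (δ t / 2) A t` and
`exp (δ t / 2) m t`; its radius function is `exp (δ t) q t`; `canal_unk`, `Unk.of_carries`. -/
theorem canal_theorem (hE : 3 ≤ Module.finrank ℝ E)
    (hd : Module.finrank ℝ V = Module.finrank ℝ E + 1) (sc : ContDiff ℝ ∞ c)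
    (sA : ContDiff ℝ ∞ A)
    (hA : ∀ t ∈ Icc (-1 : ℝ) 1, ∃ ρ : ℝ, 0 < ρ ∧ ∀ u, ‖A t u‖ = ρ * ‖u‖) (inj : SphInj c A)
    (imm : SphImm c A) :
    Unk {x | ∃ (t : ℝ) (u : E), t ^ 2 + ‖u‖ ^ 2 = 1 ∧ c t + A t u = x} := by
  obtain ⟨m, sm, pm, hm⟩ := exists_scale (by omega) sA hA
  obtain ⟨δ₀, hδ₀, hopen⟩ := emb_open sc sA inj imm
  obtain ⟨D, -⟩ := canalD_of_emb hd sc sA sm pm hm inj imm
  obtain ⟨δ, Z, hδ, hZ1, hZ2⟩ := exists_morse D.lt D.sq D.za D.zb D.da D.db D.pos hδ₀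
  obtain ⟨inj', imm', hcar⟩ := hopen δ hδ
  have sA' : ContDiff ℝ ∞ fun t => Real.exp (δ * t / 2) • A t :=
    (((contDiff_const.mul contDiff_id).div_const 2).exp).smul sA
  have sm' : ContDiff ℝ ∞ fun t => Real.exp (δ * t / 2) * m t :=
    (((contDiff_const.mul contDiff_id).div_const 2).exp).mul sm
  obtain ⟨D', hM⟩ := canalD_of_emb hd sc sA' sm' (fun t => mul_pos (Real.exp_pos _) (pm t))
    (fun t ht u => by
      rw [ContinuousLinearMap.smul_apply, norm_smul, hm t ht u, Real.norm_eq_abs,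
        abs_of_pos (Real.exp_pos _), mul_assoc]) inj' imm'
  have hq : (fun t : ℝ => (1 - t ^ 2) * (Real.exp (δ * t / 2) * m t) ^ 2) =
      fun t => Real.exp (δ * t) * ((1 - t ^ 2) * m t ^ 2) := by
    funext t
    have : Real.exp (δ * t) = Real.exp (δ * t / 2) ^ 2 := by
      rw [← Real.exp_nat_mul]
      congr 1
      push_cast
      ring
    rw [this]
    ring
  rw [hq] at D' hM
  have hU := canal_unk hE hd Z.card Z _ _ _ rfl D' hZ1 hZ2
  rw [hM] at hU
  exact Unk.of_carries hcar hU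

end Pool.Schoen
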