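import Pool.Agent.H.MP_6c077c_gt.Cn.Intr

/-! Canal spheres: quaternionic frames of the hyperplanes of Euclidean 4-space. -/

set_option autoImplicit false

namespace Pool.Schoen

open Filter Set Metric
open scoped Topology RealInnerProductSpace ContDiff

/-- The product of the quaternion `n` and the imaginary quaternion `u`. -/
noncomputable def qmul (n : EuclideanSpace ℝ (Fin 4)) (u : EuclideanSpace ℝ (Fin 3)) :
    EuclideanSpace ℝ (Fin 4) :=
  !₂[-(n 1 * u 0) - n 2 * u 1 - n 3 * u 2, n 0 * u 0 + n 2 * u 2 - n 3 * u 1,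
    n 0 * u 1 + n 3 * u 0 - n 1 * u 2, n 0 * u 2 + n 1 * u 1 - n 2 * u 0]

theorem inner4 (x y : EuclideanSpace ℝ (Fin 4)) :
    ⟪x, y⟫ = x 0 * y 0 + x 1 * y 1 + x 2 * y 2 + x 3 * y 3 := by
  rw [PiLp.inner_apply]
  simp [Fin.sum_univ_four]
  ring

theorem inner3 (x y : EuclideanSpace ℝ (Fin 3)) :
    ⟪x, y⟫ = x 0 * y 0 + x 1 * y 1 + x 2 * y 2 := by
  rw [PiLp.inner_apply]
  simp [Fin.sum_univ_three]
  ring

/-- The product as a bilinear map. -/
noncomputable def qmulL : EuclideanSpace ℝ (Fin 4) →L[ℝ] EuclideanSpace ℝ (Fin 3) →L[ℝ]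
    EuclideanSpace ℝ (Fin 4) :=
  LinearMap.toContinuousLinearMap (LinearMap.comp
    (LinearMap.toContinuousLinearMap (𝕜 := ℝ) (E := EuclideanSpace ℝ (Fin 3))
      (F' := EuclideanSpace ℝ (Fin 4))).toLinearMap
    (LinearMap.mk₂ ℝ qmul
      (fun x y u => by
        ext i
        fin_cases i <;> simp [qmul] <;> ring)
      (fun r x u => by
        ext i
        fin_cases i <;> simp [qmul] <;> ring)
      (fun x u v => by
        ext i
        fin_cases i <;> simp [qmul] <;> ring)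
      (fun r x u => by
        ext i
        fin_cases i <;> simp [qmul] <;> ring)))

theorem qmulL_apply (n : EuclideanSpace ℝ (Fin 4)) (u : EuclideanSpace ℝ (Fin 3)) :
    qmulL n u = qmul n u := rfl

/-- Polarised form of `‖n u‖ = ‖n‖ ‖u‖`. -/
theorem qmul_inner (n m : EuclideanSpace ℝ (Fin 4)) (u : EuclideanSpace ℝ (Fin 3)) :
    ⟪qmul n u, qmul m u⟫ = ⟪n, m⟫ * ‖u‖ ^ 2 := by
  rw [← real_inner_self_eq_norm_sq, inner4, inner4, inner3]
  simp [qmul]
  ring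

theorem qmul_inner' (n : EuclideanSpace ℝ (Fin 4)) (u v : EuclideanSpace ℝ (Fin 3)) :
    ⟪qmul n u, qmul n v⟫ = ‖n‖ ^ 2 * ⟪u, v⟫ := by
  rw [← real_inner_self_eq_norm_sq, inner4, inner4, inner3]
  simp [qmul]
  ring

theorem qmul_norm (n : EuclideanSpace ℝ (Fin 4)) (u : EuclideanSpace ℝ (Fin 3)) :
    ‖qmul n u‖ ^ 2 = ‖n‖ ^ 2 * ‖u‖ ^ 2 := by
  rw [← real_inner_self_eq_norm_sq, qmul_inner, real_inner_self_eq_norm_sq]

theorem qmul_orth (n m : EuclideanSpace ℝ (Fin 4)) (u : EuclideanSpace ℝ (Fin 3)) :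
    ⟪m, qmul n u⟫ + ⟪n, qmul m u⟫ = 0 := by
  rw [inner4, inner4]
  simp [qmul]
  ring

theorem qmul_orth' (n : EuclideanSpace ℝ (Fin 4)) (u : EuclideanSpace ℝ (Fin 3)) :
    ⟪n, qmul n u⟫ = 0 := by
  have := qmul_orth n n u
  linarith

/-- Every vector orthogonal to `n` is a multiple of `n` by an imaginary quaternion. -/
theorem qmul_surj {n x : EuclideanSpace ℝ (Fin 4)} (hn : ‖n‖ = 1) (hx : ⟪n, x⟫ = 0) :
    ∃ u : EuclideanSpace ℝ (Fin 3), qmul n u = x := by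
  have h1 : n 0 * n 0 + n 1 * n 1 + n 2 * n 2 + n 3 * n 3 = 1 := by
    rw [← inner4, real_inner_self_eq_norm_sq, hn, one_pow]
  rw [inner4] at hx
  refine ⟨!₂[n 0 * x 1 - n 1 * x 0 - n 2 * x 3 + n 3 * x 2,
    n 0 * x 2 - n 2 * x 0 - n 3 * x 1 + n 1 * x 3,
    n 0 * x 3 - n 3 * x 0 - n 1 * x 2 + n 2 * x 1], ?_⟩
  ext i
  fin_cases i
  · simp [qmul]
    linear_combination (x 0) * h1 - (n 0) * hx
  · simp [qmul]
    linear_combination (x 1) * h1 - (n 1) * hx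
  · simp [qmul]
    linear_combination (x 2) * h1 - (n 2) * hx
  · simp [qmul]
    linear_combination (x 3) * h1 - (n 3) * hx

end Pool.Schoen
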