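import Pool.Agent.H.MP_6c077c_gt.Cn.Defs

/-! Canal spheres: the spheres of squared radius `q t - s ^ 2` are disjoint too. -/

set_option autoImplicit false

namespace Pool.Schoen

open Filter Set Metric
open scoped Topology RealInnerProductSpace ContDiff

variable {E V : Type*} [NormedAddCommGroup E] [InnerProductSpace ℝ E] [FiniteDimensional ℝ E]
  [NormedAddCommGroup V] [InnerProductSpace ℝ V] [FiniteDimensional ℝ V]
variable {c : ℝ → V} {B : ℝ → E →L[ℝ] V} {q : ℝ → ℝ} {a b : ℝ}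

/-- a quadratic equation -/
private theorem height_quad {A C p : ℝ} (hA : 0 < A) (hC : 0 ≤ C) :
    ∃ l : ℝ, 2 * l * p + l ^ 2 * A = C := by
  have h0 : 0 ≤ p ^ 2 + A * C := by positivity
  refine ⟨(-p + √(p ^ 2 + A * C)) / A, ?_⟩
  have h1 := Real.sq_sqrt h0
  field_simp
  nlinarith [h1]

/-- go to the boundary along a line -/
private theorem height_line {w v : E} {Q s : ℝ} (hv : v ≠ 0) (h1 : s ^ 2 + ‖w‖ ^ 2 = Q) :
    ∃ l : ℝ, ‖w + l • v‖ ^ 2 = Q ∧
      ∀ w' v' : E, ‖v'‖ = ‖v‖ → ⟪w', v'⟫ = ⟪w, v⟫ → ‖w' + l • v'‖ ^ 2 = s ^ 2 + ‖w'‖ ^ 2 := by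
  have hA : 0 < ‖v‖ ^ 2 := by
    have := norm_pos_iff.2 hv
    positivity
  obtain ⟨l, hl⟩ := height_quad (p := ⟪w, v⟫) hA (sq_nonneg s)
  refine ⟨l, ?_, fun w' v' hn hi => ?_⟩
  · rw [norm_add_sq_real, norm_smul, inner_smul_right, mul_pow, Real.norm_eq_abs, sq_abs]
    linarith
  · rw [norm_add_sq_real, norm_smul, inner_smul_right, mul_pow, Real.norm_eq_abs, sq_abs, hn, hi]
    linarith

/-- two linear conditions on the common vectors of two hyperplanes -/
private theorem height_ker (hE : 3 ≤ Module.finrank ℝ E)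
    (hd : Module.finrank ℝ V = Module.finrank ℝ E + 1) (F G : E →ₗ[ℝ] V)
    (hG : ∀ v, G v = 0 → v = 0) (f g : E →ₗ[ℝ] ℝ) :
    ∃ v v' : E, v ≠ 0 ∧ F v + G v' = 0 ∧ f v + g v' = 0 := by
  let L : E × E →ₗ[ℝ] V × ℝ := (F.coprod G).prod (f.coprod g)
  have hlt : Module.finrank ℝ (V × ℝ) < Module.finrank ℝ (E × E) := by
    rw [Module.finrank_prod, Module.finrank_prod, Module.finrank_self, hd]
    omega
  have hk : LinearMap.ker L ≠ ⊥ := LinearMap.ker_ne_bot_of_finrank_lt hlt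
  obtain ⟨x, hx, hx0⟩ := Submodule.exists_mem_ne_zero_of_ne_bot hk
  rw [LinearMap.mem_ker] at hx
  have h1 : F x.1 + G x.2 = 0 := congrArg Prod.fst hx
  have h2 : f x.1 + g x.2 = 0 := congrArg Prod.snd hx
  refine ⟨x.1, x.2, fun h => hx0 ?_, h1, h2⟩
  rw [h, map_zero, zero_add] at h1
  exact Prod.ext h (hG _ h1)

private theorem CanalD.height_inner (h : CanalD c B q a b) {t : ℝ} (ht : t ∈ Icc a b) (v w : E) :
    ⟪B t v, B t w⟫ = ⟪v, w⟫ :=
  ((LinearMap.norm_map_iff_inner_map_map (B t)).1 (h.iso t ht)) v w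

/-- PROOF. The ranges of `B t` and `B t'` are hyperplanes, so their intersection has dimension
`≥ dim E - 1 ≥ 2`, and it contains `ξ ≠ 0` with `⟪c t' - c t, ξ⟫ = 0`. Let `B t v = ξ = B t' v'`.
Then `‖v‖ = ‖v'‖` and `⟪w, v⟫ = ⟪B t w, ξ⟫ = ⟪x - c t, ξ⟫ = ⟪x - c t', ξ⟫ = ⟪w', v'⟫` where `x` is
the common point, so `‖w + l v‖ ^ 2 - q t = ‖w' + l v'‖ ^ 2 - q t'` for all real `l`. This is
`-s ^ 2 ≤ 0` for `l = 0` and tends to infinity, so it vanishes for some `l ≥ 0`; there
`c t + B t (w + l v) = x + l ξ = c t' + B t' (w' + l v')`, and `disj` gives `t = t'`. -/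
theorem CanalD.disj_height (h : CanalD c B q a b) (hE : 3 ≤ Module.finrank ℝ E)
    (hd : Module.finrank ℝ V = Module.finrank ℝ E + 1) {t t' s : ℝ} {w w' : E}
    (ht : t ∈ Icc a b) (ht' : t' ∈ Icc a b) (h1 : s ^ 2 + ‖w‖ ^ 2 = q t)
    (h2 : s ^ 2 + ‖w'‖ ^ 2 = q t') (he : c t + B t w = c t' + B t' w') : t = t' := by
  obtain ⟨v, v', hv, hk1, hk2⟩ := height_ker hE hd (B t : E →ₗ[ℝ] V) (B t' : E →ₗ[ℝ] V)
    (fun v hv => by
      have h3 : ‖B t' v‖ = ‖v‖ := h.iso t' ht' v
      rw [ContinuousLinearMap.coe_coe] at hv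
      rw [hv, norm_zero] at h3
      exact norm_eq_zero.1 h3.symm)
    ((innerₛₗ ℝ (c t' - c t)).comp (B t : E →ₗ[ℝ] V)) 0
  simp only [ContinuousLinearMap.coe_coe, LinearMap.coe_comp, Function.comp_apply,
    innerₛₗ_apply_apply, LinearMap.zero_apply, add_zero] at hk1 hk2
  -- the sign of `v'` is changed
  have hk3 : B t' (-v') = B t v := by
    rw [map_neg]
    exact (eq_neg_of_add_eq_zero_left hk1).symm
  have hn : ‖-v'‖ = ‖v‖ := by
    rw [← h.iso t' ht' (-v'), hk3, h.iso t ht]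
  have hi : ⟪w', -v'⟫ = ⟪w, v⟫ := by
    rw [← h.height_inner ht', hk3, ← h.height_inner ht w v]
    have e : B t' w' = B t w - (c t' - c t) := by
      rw [eq_sub_iff_add_eq, ← sub_eq_zero]
      have := sub_eq_zero.2 he.symm
      rw [← this]
      abel
    rw [e, inner_sub_left, hk2, sub_zero]
  obtain ⟨l, hl1, hl2⟩ := height_line hv h1
  refine h.disj t ht t' ht' _ _ hl1 ((hl2 w' (-v') hn hi).trans h2) ?_
  rw [map_add, map_add, map_smul, map_smul, hk3, ← add_assoc, ← add_assoc, he]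

/-- PROOF. For `t = a` or `t = b`: `q t = 0`, so `s = 0`, `w = 0` and `imm` applies. For `t` inside:
suppose `c' + B' w + B w' = 0` (at `t`). `‖B t v‖ = ‖v‖` near `t`, so `⟪B v, B' v⟫ = 0` for all `v`.
The `v : E` with `B' v ∈ range B` (one linear condition: the range is a hyperplane) form a subspace
of dimension `≥ dim E - 1`; for them let `v'` be the vector (linear in `v`) with `B' v + B v' = 0`;
then `⟪v, v'⟫ = ⟪B v, B v'⟫ = -⟪B v, B' v⟫ = 0`. One more linear condition: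
`⟪v, w'⟫ + ⟪w, v'⟫ = 0`; so there is such a `v ≠ 0` (dimension `≥ 1`). Choose `l` with
`‖w + l v‖ ^ 2 = q t` (the left side is `q t - s ^ 2 ≤ q t` for `l = 0`). Then
`2 ⟪w + l v, w' + l v'⟫ = 2 ⟪w, w'⟫ = deriv q t` and
`c' + B' (w + l v) + B (w' + l v') = 0`: contradiction to `imm`. -/
theorem CanalD.imm_height (h : CanalD c B q a b) (hE : 3 ≤ Module.finrank ℝ E)
    (hd : Module.finrank ℝ V = Module.finrank ℝ E + 1) {t s : ℝ} {w w' : E}
    (ht : t ∈ Icc a b) (h1 : s ^ 2 + ‖w‖ ^ 2 = q t) (h2 : 2 * ⟪w, w'⟫ = deriv q t) :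
    deriv c t + deriv B t w + B t w' ≠ 0 := by
  intro h0
  have hin : ∀ v : E, ⟪B t v, deriv B t v⟫ = 0 := by
    intro v
    have hB : HasDerivAt B (deriv B t) t :=
      ((h.sB.differentiable (by simp)) t).hasDerivAt
    have hv : HasDerivAt (fun τ => B τ v) (deriv B t v) t := by
      have := hB.clm_apply (hasDerivAt_const t v)
      simpa using this
    have hq : HasDerivAt (fun τ => ⟪B τ v, B τ v⟫) (⟪B t v, deriv B t v⟫ + ⟪deriv B t v, B t v⟫)
      t := hv.inner ℝ hv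
    have hc : HasDerivWithinAt (fun τ => ⟪B τ v, B τ v⟫) 0 (Icc a b) t := by
      refine (hasDerivWithinAt_const t (Icc a b) ⟪v, v⟫).congr (fun τ hτ => ?_) ?_
      · exact h.height_inner hτ v v
      · exact h.height_inner ht v v
    have he := ((uniqueDiffOn_Icc h.lt) t ht).eq_deriv _ hq.hasDerivWithinAt hc
    rw [real_inner_comm (B t v) (deriv B t v)] at he
    linarith
  obtain ⟨v, v', hv, hk1, hk2⟩ := height_ker hE hd ((deriv B t : E →L[ℝ] V) : E →ₗ[ℝ] V)
    (B t : E →ₗ[ℝ] V)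
    (fun v hv => by
      have h3 : ‖B t v‖ = ‖v‖ := h.iso t ht v
      rw [ContinuousLinearMap.coe_coe] at hv
      rw [hv, norm_zero] at h3
      exact norm_eq_zero.1 h3.symm)
    (innerₛₗ ℝ w') (innerₛₗ ℝ w)
  simp only [ContinuousLinearMap.coe_coe, innerₛₗ_apply_apply] at hk1 hk2
  have hvv : ⟪v, v'⟫ = 0 := by
    rw [← h.height_inner ht v v', eq_neg_of_add_eq_zero_right hk1, inner_neg_right, hin, neg_zero]
  obtain ⟨l, hl1, -⟩ := height_line hv h1
  refine h.imm t ht (w + l • v) (w' + l • v') hl1 ?_ ?_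
  · rw [← h2, inner_add_left, inner_add_right, inner_add_right, inner_smul_left, inner_smul_left,
      inner_smul_right, inner_smul_right, hvv, real_inner_comm w' v]
    simp only [conj_trivial, mul_zero, add_zero]
    linear_combination 2 * l * hk2
  · have e : deriv c t + deriv B t (w + l • v) + B t (w' + l • v') =
        (deriv c t + deriv B t w + B t w') + l • (deriv B t v + B t v') := by
      rw [map_add, map_add, map_smul, map_smul, smul_add]
      abel
    rw [e, h0, hk1, smul_zero, add_zero]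

/-- PROOF. `disj_height`, `imm_height`. -/
theorem CanalD.sub (h : CanalD c B q a b) (hE : 3 ≤ Module.finrank ℝ E)
    (hd : Module.finrank ℝ V = Module.finrank ℝ E + 1) {s a' b' : ℝ} (haa : a ≤ a')
    (hab : a' < b') (hbb : b' ≤ b) (za : q a' = s ^ 2) (zb : q b' = s ^ 2)
    (da : 0 < deriv q a') (db : deriv q b' < 0) (pos : ∀ t ∈ Ioo a' b', s ^ 2 < q t) :
    CanalD c B (fun t => q t - s ^ 2) a' b' := by
  have hd' : ∀ t, deriv (fun t => q t - s ^ 2) t = deriv q t := fun t => by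
    rw [deriv_sub_const]
  have hI : ∀ t ∈ Icc a' b', t ∈ Icc a b := fun t ht => ⟨haa.trans ht.1, ht.2.trans hbb⟩
  exact
    { lt := hab
      sc := h.sc
      sB := h.sB
      sq := h.sq.sub contDiff_const
      iso := fun t ht => h.iso t (hI t ht)
      za := by rw [za, sub_self]
      zb := by rw [zb, sub_self]
      da := by rw [hd']; exact da
      db := by rw [hd']; exact db
      pos := fun t ht => sub_pos.2 (pos t ht)
      disj := fun t ht t' ht' w w' hw hw' he =>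
        h.disj_height hE hd (hI t ht) (hI t' ht') (s := s) (by rw [hw]; ring) (by rw [hw']; ring) he
      imm := fun t ht w w' hw hw' =>
        h.imm_height hE hd (hI t ht) (s := s) (by rw [hw]; ring) (by rw [hw', hd']) }

end Pool.Schoen
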