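import Pool.Agent.H.MP_6c077c_gt.Cn.Straight
import Pool.Agent.H.MP_6c077c_gt.Cn.Flow

/-! Canal spheres: flow to a tiny neck. -/

set_option autoImplicit false

namespace Pool.Schoen

open Filter Set Metric
open scoped Topology RealInnerProductSpace ContDiff

variable {E V : Type*} [NormedAddCommGroup E] [InnerProductSpace ℝ E] [FiniteDimensional ℝ E]
  [NormedAddCommGroup V] [InnerProductSpace ℝ V] [FiniteDimensional ℝ V]
variable {c : ℝ → V} {B : ℝ → E →L[ℝ] V} {q : ℝ → ℝ} {a b : ℝ}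

/-- the derivative vanishes at a local minimum in the sense of `LocMin` -/
private theorem NeckEx_deriv (hq : ContDiff ℝ ∞ q) {t₀ r₁ : ℝ} (hr₁ : 0 < r₁)
    (h : ∀ t, t ≠ t₀ → |t - t₀| < r₁ → 0 < deriv q t * (t - t₀)) : deriv q t₀ = 0 := by
  have hc : Continuous (deriv q) := hq.continuous_deriv (by simp)
  rcases lt_trichotomy (deriv q t₀) 0 with h0 | h0 | h0
  · exfalso
    have h1 : ∀ᶠ t in 𝓝 t₀, deriv q t < 0 := hc.continuousAt.eventually_lt_const h0
    obtain ⟨κ, hκ, hκ2⟩ := Metric.eventually_nhds_iff_ball.1 h1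
    have hm : 0 < min κ r₁ := lt_min hκ hr₁
    have hm1 : min κ r₁ ≤ κ := min_le_left _ _
    have hm2 : min κ r₁ ≤ r₁ := min_le_right _ _
    have habs : |t₀ + min κ r₁ / 2 - t₀| = min κ r₁ / 2 := by
      rw [add_sub_cancel_left, abs_of_pos (by linarith)]
    have h2 := hκ2 (t₀ + min κ r₁ / 2) (by rw [mem_ball, Real.dist_eq, habs]; linarith)
    have h3 := h (t₀ + min κ r₁ / 2) (by
      intro he
      linarith) (by rw [habs]; linarith)
    rw [add_sub_cancel_left] at h3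
    nlinarith
  · exact h0
  · exfalso
    have h1 : ∀ᶠ t in 𝓝 t₀, 0 < deriv q t := hc.continuousAt.eventually_const_lt h0
    obtain ⟨κ, hκ, hκ2⟩ := Metric.eventually_nhds_iff_ball.1 h1
    have hm : 0 < min κ r₁ := lt_min hκ hr₁
    have hm1 : min κ r₁ ≤ κ := min_le_left _ _
    have hm2 : min κ r₁ ≤ r₁ := min_le_right _ _
    have habs : |t₀ - min κ r₁ / 2 - t₀| = min κ r₁ / 2 := by
      rw [sub_sub_cancel_left, abs_neg, abs_of_pos (by linarith)]
    have h2 := hκ2 (t₀ - min κ r₁ / 2) (by rw [mem_ball, Real.dist_eq, habs]; linarith)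
    have h3 := h (t₀ - min κ r₁ / 2) (by
      intro he
      linarith) (by rw [habs]; linarith)
    rw [sub_sub_cancel_left] at h3
    nlinarith

/-- `q t₀` is the minimum near `t₀` -/
private theorem NeckEx_ge (hq : ContDiff ℝ ∞ q) {t₀ r₁ : ℝ}
    (h : ∀ t, t ≠ t₀ → |t - t₀| < r₁ → 0 < deriv q t * (t - t₀)) {t : ℝ} (ht : |t - t₀| < r₁) :
    q t₀ ≤ q t := by
  rcases lt_trichotomy t t₀ with h0 | h0 | h0
  · have hanti : StrictAntiOn q (Icc t t₀) := by
      refine strictAntiOn_of_deriv_neg (convex_Icc _ _) hq.continuous.continuousOn ?_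
      intro x hx
      rw [interior_Icc] at hx
      have h1 : |x - t₀| < r₁ := by
        rw [abs_lt] at ht ⊢
        constructor <;> linarith [hx.1, hx.2]
      have h2 := h x hx.2.ne h1
      have h3 : x - t₀ < 0 := by linarith [hx.2]
      nlinarith
    exact (hanti (left_mem_Icc.2 h0.le) (right_mem_Icc.2 h0.le) h0).le
  · rw [h0]
  · have hmono : StrictMonoOn q (Icc t₀ t) := by
      refine strictMonoOn_of_deriv_pos (convex_Icc _ _) hq.continuous.continuousOn ?_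
      intro x hx
      rw [interior_Icc] at hx
      have h1 : |x - t₀| < r₁ := by
        rw [abs_lt] at ht ⊢
        constructor <;> linarith [hx.1, hx.2]
      have h2 := h x hx.1.ne' h1
      have h3 : 0 < x - t₀ := by linarith [hx.1]
      nlinarith
    exact (hmono (left_mem_Icc.2 h0.le) (right_mem_Icc.2 h0.le) h0).le

private theorem NeckEx_close (hq : Continuous q) (t₀ : ℝ) {κ : ℝ} (hκ : 0 < κ) :
    ∃ η : ℝ, 0 < η ∧ ∀ t, |t - t₀| ≤ η → q t - q t₀ < κ := by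
  have h1 : ∀ᶠ t in 𝓝 t₀, q t < q t₀ + κ :=
    hq.continuousAt.eventually_lt_const (by linarith)
  obtain ⟨η, hη, hη2⟩ := Metric.eventually_nhds_iff_ball.1 h1
  refine ⟨η / 2, by linarith, fun t ht => ?_⟩
  have := hη2 t (by rw [mem_ball, Real.dist_eq]; linarith)
  linarith

/-- PROOF. `deriv q t₀ = 0` by continuity (`LocMin`). `imm_height` (`w = 0`, `s = √(q t₀)`) gives
`deriv c t₀ + B t₀ w' ≠ 0`; `exists_strt`: `Φ`, `Ψ`, `u`, `r` (box size; `Strt0` holds for smaller `r`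
too). Choose `η ≤ r` smaller than the radius of `LocMin`, with `[t₀ - η, t₀ + η] ⊆ (a, b)` and
`q t - q t₀ < r ^ 2 / 4` for `|t - t₀| ≤ η`. `CanalD.loc` with radius `η`: `δ`. Choose `r' ≤ η` such
that `Ψ` maps `{|⟪u, x⟫| ≤ r', ‖orth u x‖ ≤ r'}` into the ball of radius `δ` around `c t₀ = Ψ 0`
(continuity; `Φ (c t₀) = 0`); `r'` is the new box size. Choose `ρ ≤ r'`, with
`q t - q t₀ < r' ^ 2 / 4` for `|t - t₀| ≤ ρ`. Choose `ε > 0` with `4 ε < ρ`, `ε ^ 2 < r' ^ 2 / 4`,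
`ε ^ 2 < δ`, `ε ^ 2 < q t₀`, and `ε` so small that `a < ..`: put `s = √(q t₀ - ε ^ 2)`, so
`s ^ 2 < q t₀ ≤ q t` at all critical points: `flow_sub` (`t₁ = t₀`): `a'`, `b'`; as
`q t ≥ q t₀ > s ^ 2` for `|t - t₀| ≤ η`, `a' < t₀ - ρ` and `t₀ + ρ < b'`. FAR: let `t ∈ [a', b']`,
`ρ ≤ |t - t₀|`, `‖w‖ ^ 2 = q t - s ^ 2` and suppose `x = Φ (c t + B t w)` has `|⟪u, x⟫| < ρ`,
`‖orth u x‖ ≤ r'`. If `|t - t₀| ≤ η`: `‖w‖ ^ 2 = q t - q t₀ + ε ^ 2 < r ^ 2`, so `x = (t - t₀) u + ..`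
and `|⟪u, x⟫| = |t - t₀| ≥ ρ`: contradiction. If `|t - t₀| ≥ η`: `loc` says
`δ ≤ ‖c t + B t w - c t₀‖ = ‖Ψ x - Ψ 0‖ < δ`. Critical points `t` of `q` in `(a, b)` have
`s ^ 2 < q t`, so `t ∈ [a', b']`, and `t ≠ a', b'`. -/
theorem canal_neck_ex (h : CanalD c B q a b) (hE : 3 ≤ Module.finrank ℝ E)
    (hd : Module.finrank ℝ V = Module.finrank ℝ E + 1) {t₀ : ℝ} (ht₀ : t₀ ∈ Ioo a b)
    (hmin : LocMin q t₀) (hlow : ∀ t ∈ Ioo a b, deriv q t = 0 → q t₀ ≤ q t) :
    ∃ (s a' b' : ℝ) (Φ Ψ : V → V) (u : V) (r ρ ε : ℝ),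
      CanalN c B (fun t => q t - s ^ 2) a' b' t₀ Φ Ψ u r ρ ε ∧ a ≤ a' ∧ b' ≤ b ∧
      (∀ t ∈ Ioo a b, deriv q t = 0 → t ∈ Ioo a' b') ∧
      Carries (canalM c B q a b 0) (canalM c B (fun t => q t - s ^ 2) a' b' 0) := by
  obtain ⟨r₁, hr₁, hmin⟩ := hmin
  have hd0 : deriv q t₀ = 0 := NeckEx_deriv h.sq hr₁ hmin
  have hI : t₀ ∈ Icc a b := ⟨ht₀.1.le, ht₀.2.le⟩
  have hq0 : 0 < q t₀ := h.pos t₀ ht₀
  have hn : ∀ w' : E, deriv c t₀ + B t₀ w' ≠ 0 := by
    intro w'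
    have h1 := h.imm_height hE hd (s := √(q t₀)) (w := 0) (w' := w') hI
      (by rw [Real.sq_sqrt hq0.le, norm_zero]; ring) (by rw [inner_zero_left, hd0, mul_zero])
    rwa [map_zero, add_zero] at h1
  obtain ⟨Φ, Ψ, u, r, S⟩ := exists_strt h.sc h.sB (h.iso t₀ hI) hd hn
  have hr := S.hr
  -- the radius `η`
  obtain ⟨η₀, hη₀, hη₀2⟩ := NeckEx_close h.sq.continuous t₀ (κ := r ^ 2 / 4) (by positivity)
  obtain ⟨η, hη, hη1, hη2, hη3, hη4, hη5⟩ : ∃ η : ℝ, 0 < η ∧ η ≤ r ∧ η < r₁ ∧ η < t₀ - a ∧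
      η < b - t₀ ∧ η ≤ η₀ := by
    have k1 : 0 < t₀ - a := by linarith [ht₀.1]
    have k2 : 0 < b - t₀ := by linarith [ht₀.2]
    have k3 : 0 < min (min r r₁) (min (min (t₀ - a) (b - t₀)) η₀) :=
      lt_min (lt_min hr hr₁) (lt_min (lt_min k1 k2) hη₀)
    refine ⟨min (min r r₁) (min (min (t₀ - a) (b - t₀)) η₀) / 2, by linarith, ?_, ?_, ?_, ?_, ?_⟩
    · have : min (min r r₁) (min (min (t₀ - a) (b - t₀)) η₀) ≤ r :=
        (min_le_left _ _).trans (min_le_left _ _)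
      linarith
    · have : min (min r r₁) (min (min (t₀ - a) (b - t₀)) η₀) ≤ r₁ :=
        (min_le_left _ _).trans (min_le_right _ _)
      linarith
    · have : min (min r r₁) (min (min (t₀ - a) (b - t₀)) η₀) ≤ t₀ - a :=
        (min_le_right _ _).trans ((min_le_left _ _).trans (min_le_left _ _))
      linarith
    · have : min (min r r₁) (min (min (t₀ - a) (b - t₀)) η₀) ≤ b - t₀ :=
        (min_le_right _ _).trans ((min_le_left _ _).trans (min_le_right _ _))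
      linarith
    · have : min (min r r₁) (min (min (t₀ - a) (b - t₀)) η₀) ≤ η₀ :=
        (min_le_right _ _).trans (min_le_right _ _)
      linarith
  obtain ⟨δ, hδ, hloc⟩ := h.loc hE hd ht₀ hη
  -- the box
  have hΨ0 : Ψ 0 = c t₀ := by
    have h1 := S.str t₀ 0 (by rw [sub_self, abs_zero]; exact hr.le) (by rw [norm_zero]; exact hr.le)
    rw [map_zero, add_zero, sub_self, zero_smul, add_zero] at h1
    rw [← h1, S.dif.left]
  have hΨc : ∀ᶠ x in 𝓝 (0 : V), ‖Ψ x - c t₀‖ < δ := by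
    have h1 : Continuous fun x => ‖Ψ x - c t₀‖ :=
      (S.dif.smooth'.continuous.sub continuous_const).norm
    have h2 := h1.tendsto 0
    rw [hΨ0, sub_self, norm_zero] at h2
    exact h2.eventually_lt_const hδ
  obtain ⟨κ, hκ, hκ2⟩ := Metric.eventually_nhds_iff_ball.1 hΨc
  obtain ⟨r', hr', hr'1, hr'2⟩ : ∃ r' : ℝ, 0 < r' ∧ r' ≤ η ∧ 2 * r' < κ := by
    have k : 0 < min η κ := lt_min hη hκ
    refine ⟨min η κ / 4, by linarith, ?_, ?_⟩
    · linarith [min_le_left η κ]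
    · linarith [min_le_right η κ]
  obtain ⟨ρ₀, hρ₀, hρ₀2⟩ := NeckEx_close h.sq.continuous t₀ (κ := r' ^ 2 / 4) (by positivity)
  obtain ⟨ρ, hρ, hρ1, hρ2⟩ : ∃ ρ : ℝ, 0 < ρ ∧ ρ ≤ r' ∧ ρ ≤ ρ₀ :=
    ⟨min r' ρ₀, lt_min hr' hρ₀, min_le_left _ _, min_le_right _ _⟩
  -- the size of the neck
  obtain ⟨ε, hε, hε1, hε2, hε3⟩ : ∃ ε : ℝ, 0 < ε ∧ 4 * ε < ρ ∧ ε ^ 2 < δ ∧ ε ^ 2 < q t₀ := by
    have k : 0 < min (min ρ 1) (min δ (q t₀)) := lt_min (lt_min hρ one_pos) (lt_min hδ hq0)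
    have k1 : min (min ρ 1) (min δ (q t₀)) ≤ ρ := (min_le_left _ _).trans (min_le_left _ _)
    have k2 : min (min ρ 1) (min δ (q t₀)) ≤ 1 := (min_le_left _ _).trans (min_le_right _ _)
    have k3 : min (min ρ 1) (min δ (q t₀)) ≤ δ := (min_le_right _ _).trans (min_le_left _ _)
    have k4 : min (min ρ 1) (min δ (q t₀)) ≤ q t₀ := (min_le_right _ _).trans (min_le_right _ _)
    set m := min (min ρ 1) (min δ (q t₀)) with hm
    have k5 : (m / 8) ^ 2 < m := by nlinarith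
    exact ⟨m / 8, by linarith, by linarith, by linarith, by linarith⟩
  have hs : √(q t₀ - ε ^ 2) ^ 2 = q t₀ - ε ^ 2 := Real.sq_sqrt (by linarith)
  set s : ℝ := √(q t₀ - ε ^ 2) with hsdef
  have hε0 : 0 < ε ^ 2 := by positivity
  have hst : s ^ 2 < q t₀ := by rw [hs]; linarith
  have hcrit : ∀ t ∈ Ioo a b, deriv q t = 0 → s ^ 2 < q t := fun t ht h0 =>
    hst.trans_le (hlow t ht h0)
  obtain ⟨a', b', haa, hbb, hcn, hin, hcar⟩ := h.flow_sub hE hd ht₀ hst hcrit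
  have hza : q a' - s ^ 2 = 0 := hcn.za
  have hzb : q b' - s ^ 2 = 0 := hcn.zb
  have hρη : ρ ≤ η := hρ1.trans hr'1
  have hla : a' < t₀ - ρ := by
    have k1 : q t₀ ≤ q (t₀ - ρ) := NeckEx_ge h.sq hmin (by
      rw [sub_sub_cancel_left, abs_neg, abs_of_pos hρ]
      linarith)
    have k2 := hin (t₀ - ρ) ⟨by linarith, by linarith⟩ (by linarith)
    refine lt_of_le_of_ne k2.1 fun he => ?_
    rw [he] at hza
    linarith
  have hlb : t₀ + ρ < b' := by
    have k1 : q t₀ ≤ q (t₀ + ρ) := NeckEx_ge h.sq hmin (by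
      rw [add_sub_cancel_left, abs_of_pos hρ]
      linarith)
    have k2 := hin (t₀ + ρ) ⟨by linarith, by linarith⟩ (by linarith)
    refine lt_of_le_of_ne k2.2 fun he => ?_
    rw [← he] at hzb
    linarith
  refine ⟨s, a', b', Φ, Ψ, u, r', ρ, ε, ?_, haa, hbb, ?_, hcar⟩
  · refine ⟨hcn, ⟨S.dif, hr', S.hu, S.orth, S.iso, fun t w ht hw => S.str t w (by linarith)
      (by linarith)⟩, hρ, hρ1, hla, hlb, hε, hε1, ?_, ?_, ?_, ?_⟩
    · show q t₀ - s ^ 2 = ε ^ 2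
      rw [hs]
      ring
    · intro t ht1 ht2
      rw [deriv_sub_const]
      exact hmin t ht1 (by linarith)
    · intro t ht
      show q t - s ^ 2 < r' ^ 2
      have k1 := hρ₀2 t (by linarith)
      have k2 : ε ^ 2 < r' ^ 2 / 4 := by nlinarith
      rw [hs]
      nlinarith
    · intro t ht htρ w hw hcon
      have hw' : ‖w‖ ^ 2 = q t - s ^ 2 := hw
      have htab : t ∈ Icc a b := ⟨haa.trans ht.1, ht.2.trans hbb⟩
      rcases le_or_gt |t - t₀| η with hcase | hcase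
      · have k1 := hη₀2 t (by linarith)
        have k2 : ε ^ 2 < r ^ 2 / 4 := by nlinarith
        have k3 : ‖w‖ ^ 2 < r ^ 2 := by
          rw [hw', hs]
          nlinarith
        have k4 : ‖w‖ ≤ r := (abs_lt_of_sq_lt_sq' k3 hr.le).2.le
        have k5 := S.str t w (by linarith) k4
        have k6 := hcon.1
        rw [k5, inner_add_right, inner_smul_right, real_inner_self_eq_norm_sq, S.hu, S.orth] at k6
        rw [one_pow, mul_one, add_zero] at k6
        linarith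
      · have k1 := hloc t htab hcase.le s w (by
          rw [hs, sub_sub_cancel_left, abs_neg, abs_of_pos hε0]
          exact hε2) (by linarith)
        have k2 : ‖Φ (c t + B t w)‖ < κ := by
          have k3 : Φ (c t + B t w) = ⟪u, Φ (c t + B t w)⟫ • u
              + Pool.Schoen.orth u (Φ (c t + B t w)) := by
            unfold Pool.Schoen.orth
            abel
          have k4 : ‖⟪u, Φ (c t + B t w)⟫ • u‖ = |⟪u, Φ (c t + B t w)⟫| := by
            rw [norm_smul, S.hu, mul_one, Real.norm_eq_abs]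
          calc ‖Φ (c t + B t w)‖ = ‖⟪u, Φ (c t + B t w)⟫ • u
                + Pool.Schoen.orth u (Φ (c t + B t w))‖ := by rw [← k3]
            _ ≤ |⟪u, Φ (c t + B t w)⟫| + ‖Pool.Schoen.orth u (Φ (c t + B t w))‖ := by
                rw [← k4]
                exact norm_add_le _ _
            _ < κ := by linarith [hcon.1, hcon.2]
        have k3 := hκ2 (Φ (c t + B t w)) (by rwa [mem_ball, dist_zero_right])
        rw [S.dif.left] at k3
        linarith
  · intro t ht h0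
    have k1 := hcrit t ht h0
    have k2 := hin t ⟨ht.1.le, ht.2.le⟩ k1.le
    refine ⟨lt_of_le_of_ne k2.1 fun he => ?_, lt_of_le_of_ne k2.2 fun he => ?_⟩
    · rw [he] at hza
      linarith
    · rw [← he] at hzb
      linarith

end Pool.Schoen
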