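import Pool.Agent.H.MP_6c077c_gt.Cn.NeckTop
import Pool.Agent.H.MP_6c077c_gt.Cn.NeckEx
import Pool.Agent.H.MP_6c077c_gt.Cn.Base

/-! Canal spheres: induction on the number of critical points of the radius. -/

set_option autoImplicit false

namespace Pool.Schoen

open Filter Set Metric
open scoped Topology RealInnerProductSpace ContDiff

variable {E V : Type*} [NormedAddCommGroup E] [InnerProductSpace ℝ E] [FiniteDimensional ℝ E]
  [NormedAddCommGroup V] [InnerProductSpace ℝ V] [FiniteDimensional ℝ V]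

/-- a lower value between `t` and `z` gives a critical point with a lower value -/
private theorem Induct_low {q : ℝ → ℝ} (hq : Continuous q) {t z s : ℝ} (hs : s ∈ uIcc t z)
    (hst : q s < q t) (hz : q t ≤ q z) :
    ∃ x, min t z < x ∧ x < max t z ∧ deriv q x = 0 ∧ q x < q t := by
  obtain ⟨x, hx, hmin⟩ := isCompact_uIcc.exists_isMinOn ⟨s, hs⟩ hq.continuousOn
  have h1 : q x ≤ q s := hmin hs
  have hxt : x ≠ t := by
    rintro rfl
    linarith
  have hxz : x ≠ z := by
    rintro rfl
    linarith
  have hx' : min t z ≤ x ∧ x ≤ max t z := hx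
  have hl : min t z < x := by
    refine lt_of_le_of_ne hx'.1 fun h => ?_
    rcases min_choice t z with h2 | h2
    · exact hxt (by rw [← h, h2])
    · exact hxz (by rw [← h, h2])
  have hr : x < max t z := by
    refine lt_of_le_of_ne hx'.2 fun h => ?_
    rcases max_choice t z with h2 | h2
    · exact hxt (by rw [h, h2])
    · exact hxz (by rw [h, h2])
  refine ⟨x, hl, hr, ?_, by linarith⟩
  have h3 : IsLocalMin q x := hmin.isLocalMin (Icc_mem_nhds hl hr)
  exact h3.deriv_eq_zero

/-- next to a local maximum there are lower values -/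
private theorem Induct_max {q : ℝ → ℝ} (hq : Differentiable ℝ q) {t z : ℝ} (hne : t ≠ z)
    (hm : LocMax q t) : ∃ s ∈ uIcc t z, q s < q t := by
  obtain ⟨r, hr, h⟩ := hm
  rcases lt_or_gt_of_ne hne with h1 | h1
  · obtain ⟨s, hs⟩ : ∃ s, s = min (t + r / 2) z := ⟨_, rfl⟩
    have hts : t < s := by rw [hs]; exact lt_min (by linarith) h1
    obtain ⟨x, hx, hx2⟩ := exists_deriv_eq_slope q hts hq.continuous.continuousOn
      hq.differentiableOn
    have hxs : x < t + r / 2 := hx.2.trans_le (by rw [hs]; exact min_le_left _ _)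
    have h2 := h x hx.1.ne' (by rw [abs_of_pos (by linarith [hx.1])]; linarith)
    have h3 : deriv q x < 0 := by
      have := hx.1
      by_contra h4
      have h5 := mul_nonneg (not_lt.1 h4) (by linarith : (0 : ℝ) ≤ x - t)
      linarith
    rw [hx2] at h3
    refine ⟨s, ?_, ?_⟩
    · rw [uIcc_of_le h1.le]
      exact ⟨hts.le, by rw [hs]; exact min_le_right _ _⟩
    · have h4 : 0 < s - t := by linarith
      rw [div_lt_iff₀ h4] at h3
      linarith
  · obtain ⟨s, hs⟩ : ∃ s, s = max (t - r / 2) z := ⟨_, rfl⟩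
    have hts : s < t := by rw [hs]; exact max_lt (by linarith) h1
    obtain ⟨x, hx, hx2⟩ := exists_deriv_eq_slope q hts hq.continuous.continuousOn
      hq.differentiableOn
    have hxs : t - r / 2 < x := lt_of_le_of_lt (by rw [hs]; exact le_max_left _ _) hx.1
    have h2 := h x hx.2.ne (by rw [abs_of_neg (by linarith [hx.2])]; linarith)
    have h3 : 0 < deriv q x := by
      have := hx.2
      by_contra h4
      have h5 := mul_nonneg_of_nonpos_of_nonpos (not_lt.1 h4) (by linarith : x - t ≤ 0)
      linarith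
    rw [hx2] at h3
    refine ⟨s, ?_, ?_⟩
    · rw [uIcc_of_ge h1.le]
      exact ⟨by rw [hs]; exact le_max_right _ _, hts.le⟩
    · have h4 : 0 < t - s := by linarith
      have h5 := (div_pos_iff_of_pos_right h4).1 h3
      linarith

private theorem Induct_locMin {q p : ℝ → ℝ} {z : ℝ} (h : deriv p =ᶠ[𝓝 z] deriv q)
    (hm : LocMin q z) : LocMin p z := by
  obtain ⟨r, hr, h1⟩ := hm
  obtain ⟨d, hd, h2⟩ := Metric.eventually_nhds_iff.1 h
  refine ⟨min r d, lt_min hr hd, fun t ht htz => ?_⟩
  rw [h2 (by rw [Real.dist_eq]; exact htz.trans_le (min_le_right _ _))]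
  exact h1 t ht (htz.trans_le (min_le_left _ _))

private theorem Induct_locMax {q p : ℝ → ℝ} {z : ℝ} (h : deriv p =ᶠ[𝓝 z] deriv q)
    (hm : LocMax q z) : LocMax p z := by
  obtain ⟨r, hr, h1⟩ := hm
  obtain ⟨d, hd, h2⟩ := Metric.eventually_nhds_iff.1 h
  refine ⟨min r d, lt_min hr hd, fun t ht htz => ?_⟩
  rw [h2 (by rw [Real.dist_eq]; exact htz.trans_le (min_le_right _ _))]
  exact h1 t ht (htz.trans_le (min_le_left _ _))

/-- PROOF. Strong induction on `n`. `Z` is not empty (the maximum of `q` on `[a, b]` is attained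
inside). If `Z = {z}`: `q' ≠ 0` on `(a, z)` and `(z, b)`, with constant sign on each (intermediate
values for the continuous `deriv q`), positive on `(a, z)` because `deriv q a > 0`, negative on
`(z, b)`: `CanalD.base`. If `Z` has at least two elements let `t₀ ∈ Z` have the smallest value
`q t₀`. Then `LocMin q t₀`: otherwise `LocMax q t₀`; let `z ∈ Z`, `z ≠ t₀`, say `t₀ < z`; the minimum
of `q` on `[t₀, z]` is not attained at `t₀` (`q < q t₀` just after `t₀`), its value is `< q t₀ ≤ q z`,
so it is attained inside, at a critical point with a smaller value: contradiction. `canal_neck_ex`,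
`CanalN.exists_cut` (for `q - s ^ 2`), `CanalN.cut`, `CanalN.top`, `Unk.of_carries`; the induction
hypothesis for the parts with the critical sets `Z ∩ (a', t₀ - ε)` and `Z ∩ (t₀ + ε, b')`, which do
not contain `t₀`: for `|t - t₀| ≤ ρ` the derivative of `p` is not zero (`CutP.mono`), and near the
other points `p = q - s ^ 2`, so critical points, `LocMin` and `LocMax` are those of `q` (points of
`Z` other than `t₀` have `|z - t₀| > ρ` by `CanalN.mono`). -/
theorem canal_unk (hE : 3 ≤ Module.finrank ℝ E)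
    (hd : Module.finrank ℝ V = Module.finrank ℝ E + 1) {c : ℝ → V} {B : ℝ → E →L[ℝ] V} :
    ∀ (n : ℕ) (Z : Finset ℝ) (q : ℝ → ℝ) (a b : ℝ), Z.card = n → CanalD c B q a b →
      (∀ t ∈ Ioo a b, deriv q t = 0 → t ∈ Z) →
      (∀ z ∈ Z, z ∈ Ioo a b ∧ deriv q z = 0 ∧ (LocMin q z ∨ LocMax q z)) →
      Unk (canalM c B q a b 0) := by
  intro n
  induction n using Nat.strong_induction_on with
  | _ n ih =>
    intro Z q a b hcard h hc hZ
    have hqd : Differentiable ℝ q := h.sq.differentiable (by simp)
    have hqc : Continuous q := hqd.continuous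
    have hqc' : Continuous (deriv q) := h.sq.continuous_deriv (by simp)
    obtain ⟨z0, hz0, hz0d⟩ := exists_deriv_eq_zero h.lt hqc.continuousOn (by rw [h.za, h.zb])
    have hz0Z : z0 ∈ Z := hc z0 hz0 hz0d
    by_cases hone : ∀ z ∈ Z, z = z0
    · -- one critical point
      apply h.base hE hd hz0
      intro t ht htz
      have hnz : ∀ s ∈ Ioo a b, s ≠ z0 → deriv q s ≠ 0 := fun s hs hsz h0 =>
        hsz (hone s (hc s hs h0))
      rcases lt_or_gt_of_ne htz with h1 | h1
      · have h2 : 0 < deriv q t := by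
          by_contra h3
          have h4 : deriv q t < 0 := lt_of_le_of_ne (not_lt.1 h3) (hnz t ht htz)
          have h5 : (0 : ℝ) ∈ Ioo (deriv q t) (deriv q a) := ⟨h4, h.da⟩
          obtain ⟨s, hs, hs0⟩ := intermediate_value_Ioo' ht.1.le hqc'.continuousOn h5
          exact hnz s ⟨hs.1, hs.2.trans ht.2⟩ (by linarith [hs.2] : s < z0).ne hs0
        exact mul_neg_of_pos_of_neg h2 (by linarith)
      · have h2 : deriv q t < 0 := by
          by_contra h3
          have h4 : 0 < deriv q t := lt_of_le_of_ne (not_lt.1 h3) (hnz t ht htz).symm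
          have h5 : (0 : ℝ) ∈ Ioo (deriv q b) (deriv q t) := ⟨h.db, h4⟩
          obtain ⟨s, hs, hs0⟩ := intermediate_value_Ioo' ht.2.le hqc'.continuousOn h5
          exact hnz s ⟨ht.1.trans hs.1, hs.2⟩ (by linarith [hs.1] : z0 < s).ne' hs0
        exact mul_neg_of_neg_of_pos h2 (by linarith)
    · push Not at hone
      obtain ⟨z1, hz1, hz10⟩ := hone
      obtain ⟨t₀, ht₀Z, ht₀m⟩ := Z.exists_min_image q ⟨z0, hz0Z⟩
      obtain ⟨ht₀, ht₀d, ht₀l⟩ := hZ t₀ ht₀Z
      obtain ⟨z, hzZ, hzt⟩ : ∃ z ∈ Z, t₀ ≠ z := by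
        by_cases h1 : t₀ = z0
        · exact ⟨z1, hz1, by rw [h1]; exact hz10.symm⟩
        · exact ⟨z0, hz0Z, h1⟩
      have hmin : LocMin q t₀ := by
        rcases ht₀l with h1 | h1
        · exact h1
        exfalso
        obtain ⟨s, hs, hst⟩ := Induct_max hqd hzt h1
        obtain ⟨x, hx1, hx2, hx3, hx4⟩ := Induct_low hqc hs hst (ht₀m z hzZ)
        have hzI := (hZ z hzZ).1
        have hxI : x ∈ Ioo a b :=
          ⟨(lt_min ht₀.1 hzI.1).trans hx1, hx2.trans (max_lt ht₀.2 hzI.2)⟩
        have := ht₀m x (hc x hxI hx3)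
        linarith
      obtain ⟨s, a', b', Φ, Ψ, u, r, ρ, ε, hN, haa, hbb, hcr, hcar⟩ :=
        canal_neck_ex h hE hd ht₀ hmin fun t ht h0 => ht₀m t (hc t ht h0)
      obtain ⟨p, hp⟩ := hN.exists_cut
      obtain ⟨hD1, hD2⟩ := hN.cut hp
      have hρ := hN.hρ
      have hε := hN.hε
      have hερ := hN.hερ
      have hds : ∀ t, deriv (fun t => q t - s ^ 2) t = deriv q t := fun t =>
        deriv_sub_const (f := q) (s ^ 2)
      have hev : ∀ t, ρ / 2 < |t - t₀| → ∀ᶠ x in 𝓝 t, ρ / 2 < |x - t₀| := by
        intro t ht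
        have h1 : Continuous fun x : ℝ => |x - t₀| := by fun_prop
        exact h1.continuousAt.eventually (lt_mem_nhds ht)
      have hder : ∀ t, ρ / 2 < |t - t₀| → deriv p t = deriv q t := by
        intro t ht
        have h1 : p =ᶠ[𝓝 t] fun t => q t - s ^ 2 := by
          filter_upwards [hev t ht] with x hx using hp.eq x hx.le
        rw [h1.deriv_eq, hds]
      have hder2 : ∀ t, ρ / 2 < |t - t₀| → deriv p =ᶠ[𝓝 t] deriv q := by
        intro t ht
        filter_upwards [hev t ht] with x hx using hder x hx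
      have hfar : ∀ z ∈ Z, z ≠ t₀ → ρ < |z - t₀| := by
        intro z hz hzt
        by_contra h1
        have h2 := hN.mono z hzt (not_lt.1 h1)
        rw [hds, (hZ z hz).2.1, zero_mul] at h2
        exact lt_irrefl _ h2
      have hcrit : ∀ t ∈ Ioo a b, ε ≤ |t - t₀| → deriv p t = 0 → t ∈ Z := by
        intro t ht h1 h2
        by_cases h3 : |t - t₀| ≤ ρ
        · have h4 := hp.mono t h1 h3
          rw [h2, zero_mul] at h4
          exact absurd h4 (lt_irrefl _)
        · rw [hder t (by linarith [not_le.1 h3])] at h2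
          exact hc t ht h2
      have hzp : ∀ z ∈ Z, z ≠ t₀ → deriv p z = 0 ∧ (LocMin p z ∨ LocMax p z) := by
        intro z hz hzt
        have h1 : ρ / 2 < |z - t₀| := by linarith [hfar z hz hzt]
        obtain ⟨-, h2, h3⟩ := hZ z hz
        refine ⟨by rw [hder z h1, h2], ?_⟩
        rcases h3 with h3 | h3
        · exact Or.inl (Induct_locMin (hder2 z h1) h3)
        · exact Or.inr (Induct_locMax (hder2 z h1) h3)
      have hla := hN.la
      have hlb := hN.lb
      have h1 : Unk (canalM c B p a' (t₀ - ε) 0) := by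
        refine ih (Z.filter (· < t₀)).card ?_ (Z.filter (· < t₀)) p a' (t₀ - ε) rfl hD1 ?_ ?_
        · rw [← hcard]
          apply Finset.card_lt_card
          rw [Finset.filter_ssubset]
          exact ⟨t₀, ht₀Z, lt_irrefl _⟩
        · intro t ht h0
          have h2 : t < t₀ := by linarith [ht.2]
          rw [Finset.mem_filter]
          refine ⟨hcrit t ⟨haa.trans_lt ht.1, h2.trans ht₀.2⟩ ?_ h0, h2⟩
          rw [abs_of_neg (by linarith)]
          linarith [ht.2]
        · intro z hz
          rw [Finset.mem_filter] at hz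
          have h2 := hfar z hz.1 hz.2.ne
          rw [abs_of_neg (by linarith [hz.2])] at h2
          have h3 := hcr z (hZ z hz.1).1 (hZ z hz.1).2.1
          exact ⟨⟨h3.1, by linarith⟩, hzp z hz.1 hz.2.ne⟩
      have h2 : Unk (canalM c B p (t₀ + ε) b' 0) := by
        refine ih (Z.filter (t₀ < ·)).card ?_ (Z.filter (t₀ < ·)) p (t₀ + ε) b' rfl hD2 ?_ ?_
        · rw [← hcard]
          apply Finset.card_lt_card
          rw [Finset.filter_ssubset]
          exact ⟨t₀, ht₀Z, lt_irrefl _⟩
        · intro t ht h0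
          have h2 : t₀ < t := by linarith [ht.1]
          rw [Finset.mem_filter]
          refine ⟨hcrit t ⟨ht₀.1.trans h2, ht.2.trans_le hbb⟩ ?_ h0, h2⟩
          rw [abs_of_pos (by linarith)]
          linarith [ht.1]
        · intro z hz
          rw [Finset.mem_filter] at hz
          have h2 := hfar z hz.1 hz.2.ne'
          rw [abs_of_pos (by linarith [hz.2])] at h2
          have h3 := hcr z (hZ z hz.1).1 (hZ z hz.1).2.1
          exact ⟨⟨by linarith, h3.2⟩, hzp z hz.1 hz.2.ne'⟩
      exact Unk.of_carries hcar (hN.top hp hE hd h1 h2)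

end Pool.Schoen
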