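import Pool.Agent.H.MP_6c077c_gt.Cn.Final

/-! Canal spheres: the theorem for canal data. -/

set_option autoImplicit false

namespace Pool.Schoen

open Filter Set Metric
open scoped Topology RealInnerProductSpace ContDiff

variable {E V : Type*} [NormedAddCommGroup E] [InnerProductSpace ℝ E] [FiniteDimensional ℝ E]
  [NormedAddCommGroup V] [InnerProductSpace ℝ V] [FiniteDimensional ℝ V]
variable {c : ℝ → V} {B : ℝ → E →L[ℝ] V} {q : ℝ → ℝ} {a b : ℝ}

private theorem Intr_T : ContDiff ℝ ∞ (paramT a b) := by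
  unfold paramT
  fun_prop

private theorem Intr_dT (τ : ℝ) : HasDerivAt (paramT a b) ((b - a) / 2) τ := by
  unfold paramT
  simpa using ((hasDerivAt_id τ).const_mul ((b - a) / 2)).const_add ((a + b) / 2)

private theorem Intr_mem (hab : a < b) {τ : ℝ} (hτ : τ ^ 2 ≤ 1) : paramT a b τ ∈ Icc a b := by
  obtain ⟨h1, h2⟩ := abs_le.1 ((sq_le_one_iff_abs_le_one τ).1 hτ)
  unfold paramT
  constructor <;> nlinarith

private theorem Intr_surj (hab : a < b) {t : ℝ} (ht : t ∈ Icc a b) :
    ∃ τ : ℝ, τ ^ 2 ≤ 1 ∧ paramT a b τ = t := by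
  have hk : 0 < b - a := by linarith
  refine ⟨(2 * t - (a + b)) / (b - a), ?_, ?_⟩
  · rw [sq_le_one_iff_abs_le_one, abs_le]
    constructor
    · rw [le_div_iff₀ hk]
      linarith [ht.1]
    · rw [div_le_one hk]
      linarith [ht.2]
  · unfold paramT
    field_simp
    ring

/-- Canal data with arbitrary radius functions. -/
theorem CanalD.unk (h : CanalD c B q a b) (hE : 3 ≤ Module.finrank ℝ E)
    (hd : Module.finrank ℝ V = Module.finrank ℝ E + 1) : Unk (canalM c B q a b 0) := by
  obtain ⟨m, hm, mpos, hq⟩ := canal_div h.lt h.sq h.za h.zb h.da h.db h.pos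
  have hk : 0 < (b - a) / 2 := by linarith [h.lt]
  have hK : ContDiff ℝ ∞ (paramK m a b) := by
    unfold paramK
    exact contDiff_const.mul (hm.comp Intr_T)
  have hKp : ∀ τ, 0 < paramK m a b τ := fun τ => mul_pos hk (mpos _)
  have hqT : ∀ τ : ℝ, τ ^ 2 ≤ 1 → q (paramT a b τ) = (1 - τ ^ 2) * paramK m a b τ ^ 2 := by
    intro τ hτ
    rw [hq _ (Intr_mem h.lt hτ)]
    unfold paramK
    have e1 : paramT a b τ - a = (b - a) / 2 * (1 + τ) := by
      unfold paramT
      ring
    have e2 : b - paramT a b τ = (b - a) / 2 * (1 - τ) := by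
      unfold paramT
      ring
    rw [e1, e2]
    ring
  have hdK : ∀ τ, HasDerivAt (paramK m a b) (deriv (paramK m a b) τ) τ := fun τ =>
    (hK.differentiable (by simp) τ).hasDerivAt
  have hqn : ∀ (τ : ℝ) (u : E), τ ^ 2 + ‖u‖ ^ 2 = 1 →
      ‖paramK m a b τ • u‖ ^ 2 = q (paramT a b τ) := by
    intro τ u hu
    rw [hqT τ (by nlinarith [sq_nonneg ‖u‖]), norm_smul, mul_pow, Real.norm_eq_abs, sq_abs]
    have : ‖u‖ ^ 2 = 1 - τ ^ 2 := by linarith
    rw [this]
    ring
  have hmem : ∀ (τ : ℝ) (u : E), τ ^ 2 + ‖u‖ ^ 2 = 1 → paramT a b τ ∈ Icc a b := fun τ u hu =>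
    Intr_mem h.lt (by nlinarith [sq_nonneg ‖u‖])
  have hBu : ∀ t ∈ Icc a b, ∀ u : E, B t u = 0 → u = 0 := by
    intro t ht u hu
    have h1 := h.iso t ht u
    rw [hu, norm_zero] at h1
    exact norm_eq_zero.1 h1.symm
  have sA : ContDiff ℝ ∞ fun τ => paramK m a b τ • B (paramT a b τ) := hK.smul (h.sB.comp Intr_T)
  have sc : ContDiff ℝ ∞ fun τ => c (paramT a b τ) := h.sc.comp Intr_T
  have inj : SphInj (fun τ => c (paramT a b τ)) (fun τ => paramK m a b τ • B (paramT a b τ)) := by
    intro τ τ' u u' hu hu' he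
    have h1 : c (paramT a b τ) + B (paramT a b τ) (paramK m a b τ • u) =
        c (paramT a b τ') + B (paramT a b τ') (paramK m a b τ' • u') := by
      rw [map_smul, map_smul]
      exact he
    have h2 := h.disj _ (hmem τ u hu) _ (hmem τ' u' hu') _ _ (hqn τ u hu) (hqn τ' u' hu') h1
    have h3 : τ = τ' := by
      unfold paramT at h2
      have h4 : (b - a) / 2 * (τ - τ') = 0 := by linarith
      rcases mul_eq_zero.1 h4 with h5 | h5
      · exact absurd h5 hk.ne'
      · linarith
    subst h3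
    refine ⟨rfl, ?_⟩
    have h4 : B (paramT a b τ) (paramK m a b τ • u - paramK m a b τ • u') = 0 := by
      rw [map_sub, sub_eq_zero]
      exact add_left_cancel h1
    exact smul_right_injective _ (hKp τ).ne' (sub_eq_zero.1 (hBu _ (hmem τ u hu) _ h4))
  have imm : SphImm (fun τ => c (paramT a b τ)) (fun τ => paramK m a b τ • B (paramT a b τ)) := by
    intro τ α u v hu hv he
    have ht := hmem τ u hu
    by_cases hα : α = 0
    · refine ⟨hα, ?_⟩
      rw [hα, zero_smul, zero_add] at he
      have h1 : paramK m a b τ • B (paramT a b τ) v = 0 := he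
      exact hBu _ ht v ((smul_eq_zero.1 h1).resolve_left (hKp τ).ne')
    exfalso
    have hlt : τ ^ 2 < 1 := by
      rcases (show τ ^ 2 ≤ 1 by nlinarith [sq_nonneg ‖u‖]).lt_or_eq with h5 | h5
      · exact h5
      · exfalso
        have h6 : ‖u‖ ^ 2 = 0 := by linarith
        have h7 : u = 0 := norm_eq_zero.1 (pow_eq_zero_iff (two_ne_zero) |>.1 h6)
        rw [h7, inner_zero_left, add_zero] at hv
        rcases mul_eq_zero.1 hv with h8 | h8
        · rw [h8] at h5
          norm_num at h5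
        · exact hα h8
    obtain ⟨K, hKe⟩ : ∃ K, K = paramK m a b τ := ⟨_, rfl⟩
    obtain ⟨K', hK'e⟩ : ∃ K', K' = deriv (paramK m a b) τ := ⟨_, rfl⟩
    obtain ⟨k, hke⟩ : ∃ k, k = (b - a) / 2 := ⟨_, rfl⟩
    have hk0 : k ≠ 0 := by
      rw [hke]
      exact hk.ne'
    have d1 : deriv (fun τ => c (paramT a b τ)) τ = k • deriv c (paramT a b τ) := by
      rw [hke]
      exact (((h.sc.differentiable (by simp)) _).hasDerivAt.scomp τ (Intr_dT τ)).deriv
    have d2 : deriv (fun τ => paramK m a b τ • B (paramT a b τ)) τ =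
        K • (k • deriv B (paramT a b τ)) + K' • B (paramT a b τ) := by
      rw [hKe, hK'e, hke]
      have h1 : HasDerivAt (fun τ => B (paramT a b τ)) (((b - a) / 2) • deriv B (paramT a b τ)) τ :=
        ((h.sB.differentiable (by simp)) _).hasDerivAt.scomp τ (Intr_dT τ)
      exact ((hdK τ).smul h1).deriv
    have hid : 2 * K * K' * (1 - τ ^ 2) - 2 * K ^ 2 * τ = k * deriv q (paramT a b τ) := by
      have e3 : HasDerivAt (fun τ : ℝ => 1 - τ ^ 2) (-(2 * τ)) τ := by
        simpa using (hasDerivAt_pow 2 τ).const_sub 1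
      have e1 : HasDerivAt (fun τ : ℝ => (1 - τ ^ 2) * paramK m a b τ ^ 2)
          (-(2 * τ) * K ^ 2 + (1 - τ ^ 2) * (2 * K * K')) τ := by
        have e4 := e3.mul ((hdK τ).pow 2)
        refine e4.congr_deriv ?_
        simp only [Nat.cast_ofNat, Nat.add_one_sub_one, pow_one, Pi.pow_apply]
        rw [← hKe, ← hK'e]
      have e5 : HasDerivAt (fun τ : ℝ => q (paramT a b τ)) (deriv q (paramT a b τ) * k) τ := by
        rw [hke]
        exact ((h.sq.differentiable (by simp)).differentiableAt.hasDerivAt).comp τ (Intr_dT τ)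
      have e7 : (fun τ : ℝ => (1 - τ ^ 2) * paramK m a b τ ^ 2) =ᶠ[𝓝 τ]
          fun τ : ℝ => q (paramT a b τ) := by
        have e8 : ∀ᶠ τ : ℝ in 𝓝 τ, τ ^ 2 < 1 :=
          (continuous_pow 2).continuousAt.eventually (Iio_mem_nhds hlt)
        filter_upwards [e8] with s hs
        exact (hqT s hs.le).symm
      have e9 := (e1.congr_of_eventuallyEq e7.symm).unique e5
      linarith
    rw [d1, d2] at he
    refine h.imm _ ht (K • u) ((K' / k) • u + (K / (α * k)) • v) (by rw [hKe]; exact hqn τ u hu)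
      ?_ ?_
    · rw [inner_add_right, real_inner_smul_left, real_inner_smul_right, real_inner_smul_left,
        real_inner_smul_right, real_inner_self_eq_norm_sq]
      have e1 : ⟪u, v⟫ = -(τ * α) := by linarith
      have e2 : ‖u‖ ^ 2 = 1 - τ ^ 2 := by linarith
      have e3 : deriv q (paramT a b τ) = (2 * K * K' * (1 - τ ^ 2) - 2 * K ^ 2 * τ) / k := by
        rw [hid]
        field_simp
      rw [e1, e2, e3]
      field_simp
      ring
    · have e1 : (α * k)⁻¹ • (α • (k • deriv c (paramT a b τ) +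
          (K • (k • deriv B (paramT a b τ)) + K' • B (paramT a b τ)) u) +
          (K • B (paramT a b τ)) v) = 0 := by
        rw [hKe]
        rw [hKe] at he
        rw [show α • (k • deriv c (paramT a b τ) +
          (paramK m a b τ • (k • deriv B (paramT a b τ)) + K' • B (paramT a b τ)) u) +
          (paramK m a b τ • B (paramT a b τ)) v = 0 from he, smul_zero]
      rw [← e1]
      simp only [map_smul, map_add, _root_.add_apply, _root_.smul_apply, smul_add, smul_smul]
      have f1 : (α * k)⁻¹ * (α * k) = 1 := inv_mul_cancel₀ (mul_ne_zero hα hk0)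
      have f2 : (α * k)⁻¹ * (α * (K * k)) = K := by
        field_simp
      have f3 : (α * k)⁻¹ * (α * K') = K' / k := by
        field_simp
      have f4 : (α * k)⁻¹ * K = K / (α * k) := by
        field_simp
      rw [← mul_assoc, ← mul_assoc] at *
      simp only [mul_assoc] at *
      rw [f1, f2, f3, f4, one_smul]
      abel
  have hU := canal_theorem hE hd sc sA (fun τ hτ => ⟨paramK m a b τ, hKp τ, fun u => by
    show ‖paramK m a b τ • B (paramT a b τ) u‖ = _
    rw [norm_smul, Real.norm_eq_abs, abs_of_pos (hKp τ), h.iso _ (Intr_mem h.lt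
      ((sq_le_one_iff_abs_le_one τ).2 (abs_le.2 hτ)))]⟩) inj imm
  have himg : {x | ∃ (t : ℝ) (u : E), t ^ 2 + ‖u‖ ^ 2 = 1 ∧
      c (paramT a b t) + (paramK m a b t • B (paramT a b t)) u = x} = canalM c B q a b 0 := by
    ext x
    constructor
    · rintro ⟨τ, u, hu, rfl⟩
      refine ⟨paramT a b τ, hmem τ u hu, paramK m a b τ • u, ?_, ?_⟩
      · rw [hqn τ u hu]
        simp
      · rw [map_smul]
        rfl
    · rintro ⟨t, ht, w, hw, rfl⟩
      obtain ⟨τ, hτ, rfl⟩ := Intr_surj h.lt ht
      refine ⟨τ, (paramK m a b τ)⁻¹ • w, ?_, ?_⟩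
      · rw [norm_smul, mul_pow, Real.norm_eq_abs, sq_abs]
        have h1 : ‖w‖ ^ 2 = (1 - τ ^ 2) * paramK m a b τ ^ 2 := by
          rw [← hqT τ hτ, ← hw]
          ring
        rw [h1]
        have := (hKp τ).ne'
        field_simp
        ring
      · show c (paramT a b τ) + paramK m a b τ • B (paramT a b τ) ((paramK m a b τ)⁻¹ • w) = _
        rw [map_smul, smul_smul, mul_inv_cancel₀ (hKp τ).ne', one_smul]
  rw [← himg]
  exact hU

end Pool.Schoen
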