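import Pool.Agent.H.MP_6c077c_gt.Cn.Defs
import Pool.Agent.H.MP_6c077c_gt.CG.Defining

/-! Canal spheres: an immersed hypersphere has a smooth unit normal; defining functions. -/

set_option autoImplicit false

namespace Pool.Schoen

open Filter Set Metric
open scoped Topology RealInnerProductSpace ContDiff

variable {W W' : Type*} [NormedAddCommGroup W] [InnerProductSpace ℝ W] [FiniteDimensional ℝ W]
  [NormedAddCommGroup W'] [InnerProductSpace ℝ W'] [FiniteDimensional ℝ W']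

/-! ### The determinant of a rank one perturbation -/

section det

open Matrix

private theorem normal_det_unit {d : ℕ} {A : Matrix (Fin d) (Fin d) ℝ} (hA : A.det ≠ 0)
    (u v : Fin d → ℝ) :
    (A + vecMulVec u v).det = A.det + (v ᵥ* A.adjugate) ⬝ᵥ u := by
  have h1 : (A + vecMulVec u v) = A * (1 + vecMulVec (A⁻¹ *ᵥ u) v) := by
    rw [mul_add, mul_one, mul_vecMulVec, mulVec_mulVec,
      Matrix.mul_nonsing_inv A (isUnit_iff_ne_zero.2 hA), one_mulVec]
  have h2 : (1 + vecMulVec (A⁻¹ *ᵥ u) v).det = 1 + v ⬝ᵥ (A⁻¹ *ᵥ u) := by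
    rw [vecMulVec_eq Unit, det_one_add_replicateCol_mul_replicateRow]
  rw [h1, det_mul, h2, mul_add, mul_one, ← dotProduct_mulVec]
  congr 1
  rw [Matrix.inv_def, Matrix.smul_mulVec, dotProduct_smul, smul_eq_mul, ← mul_assoc,
    Ring.mul_inverse_cancel _ (isUnit_iff_ne_zero.2 hA), one_mul]

private theorem normal_det_rank_one {d : ℕ} (A : Matrix (Fin d) (Fin d) ℝ) (u v : Fin d → ℝ) :
    (A + vecMulVec u v).det = A.det + (v ᵥ* A.adjugate) ⬝ᵥ u := by
  have hcont1 : Continuous fun t : ℝ => (t • (1 : Matrix (Fin d) (Fin d) ℝ) + A +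
      vecMulVec u v).det := by
    refine Continuous.matrix_det ?_
    fun_prop
  have hcA : Continuous fun t : ℝ => t • (1 : Matrix (Fin d) (Fin d) ℝ) + A := by fun_prop
  have hcont2 : Continuous fun t : ℝ => (t • (1 : Matrix (Fin d) (Fin d) ℝ) + A).det +
      (v ᵥ* (t • (1 : Matrix (Fin d) (Fin d) ℝ) + A).adjugate) ⬝ᵥ u := by
    refine (Continuous.matrix_det hcA).add ?_
    exact (Continuous.matrix_vecMul continuous_const hcA.matrix_adjugate).dotProduct
      continuous_const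
  have hfin : {t : ℝ | (t • (1 : Matrix (Fin d) (Fin d) ℝ) + A).det = 0}.Finite := by
    refine ((-A).charpoly.rootSet_finite ℝ).subset ?_
    intro t ht
    rw [Polynomial.mem_rootSet]
    refine ⟨(charpoly_monic _).ne_zero, ?_⟩
    rw [Polynomial.coe_aeval_eq_eval, eval_charpoly, sub_neg_eq_add, Matrix.scalar_apply,
      ← Matrix.smul_one_eq_diagonal]
    exact ht
  have hdense : Dense {t : ℝ | (t • (1 : Matrix (Fin d) (Fin d) ℝ) + A).det = 0}ᶜ :=
    hfin.countable.dense_compl ℝ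
  have heq := hcont1.ext_on hdense hcont2 fun t ht => normal_det_unit ht u v
  have h0 := congrFun heq 0
  simpa using h0

end det

/-! ### Coordinates -/

private theorem normal_det_smooth {d : ℕ} {G : Type*} [NormedAddCommGroup G] [NormedSpace ℝ G]
    {S : Set G} {A : G → Matrix (Fin d) (Fin d) ℝ}
    (hA : ∀ i j, ContDiffOn ℝ ∞ (fun x => A x i j) S) :
    ContDiffOn ℝ ∞ (fun x => (A x).det) S := by
  simp only [Matrix.det_apply]
  refine ContDiffOn.sum fun σ _ => ?_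
  refine ContDiffOn.const_smul _ ?_
  exact contDiffOn_prod fun i _ => hA (σ i) i

private theorem normal_adj_smooth {d : ℕ} {G : Type*} [NormedAddCommGroup G] [NormedSpace ℝ G]
    {S : Set G} {A : G → Matrix (Fin d) (Fin d) ℝ}
    (hA : ∀ i j, ContDiffOn ℝ ∞ (fun x => A x i j) S) (i j : Fin d) :
    ContDiffOn ℝ ∞ (fun x => (A x).adjugate i j) S := by
  simp only [Matrix.adjugate_apply]
  refine normal_det_smooth fun k l => ?_
  by_cases hk : k = j
  · subst hk
    simp only [Matrix.updateRow_self]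
    exact contDiffOn_const
  · simp only [Matrix.updateRow_ne hk]
    exact hA k l

/-- coordinates in the standard orthonormal basis -/
private noncomputable def nCo (x : W) : Fin (Module.finrank ℝ W) → ℝ :=
  fun i => ⟪stdOrthonormalBasis ℝ W i, x⟫

/-- the matrix of an operator -/
private noncomputable def nMat (L : W →L[ℝ] W) :
    Matrix (Fin (Module.finrank ℝ W)) (Fin (Module.finrank ℝ W)) ℝ :=
  fun i j => ⟪stdOrthonormalBasis ℝ W i, L (stdOrthonormalBasis ℝ W j)⟫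

/-- the normal vector -/
private noncomputable def nVec (L : W →L[ℝ] W) (p : W) : W :=
  ∑ j, Matrix.vecMul (nCo p) (nMat L).adjugate j • stdOrthonormalBasis ℝ W j

private theorem nCo_sum (c : Fin (Module.finrank ℝ W) → ℝ) :
    nCo (∑ j, c j • stdOrthonormalBasis ℝ W j) = c := by
  funext i
  unfold nCo
  exact (stdOrthonormalBasis ℝ W).orthonormal.inner_right_fintype c i

private theorem nCo_expand (x : W) : ∑ j, nCo x j • stdOrthonormalBasis ℝ W j = x :=
  (stdOrthonormalBasis ℝ W).sum_repr' x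

private theorem nCo_zero {x : W} (h : nCo x = 0) : x = 0 := by
  rw [← nCo_expand x, h]
  simp

private theorem nCo_inner (x y : W) : ⟪x, y⟫ = dotProduct (nCo x) (nCo y) := by
  rw [← (stdOrthonormalBasis ℝ W).sum_inner_mul_inner x y]
  unfold dotProduct nCo
  refine Finset.sum_congr rfl fun i _ => ?_
  rw [real_inner_comm]

private theorem nMat_mulVec (L : W →L[ℝ] W) (x : W) :
    Matrix.mulVec (nMat L) (nCo x) = nCo (L x) := by
  funext i
  unfold nCo
  conv_rhs => rw [← nCo_expand x, map_sum, inner_sum]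
  unfold Matrix.mulVec dotProduct nMat nCo
  refine Finset.sum_congr rfl fun j _ => ?_
  rw [map_smul, real_inner_smul_right, mul_comm]

private theorem nMat_det_zero {L : W →L[ℝ] W} {p : W} (hp : p ≠ 0) (hL : L p = 0) :
    (nMat L).det = 0 := by
  rw [← Matrix.exists_mulVec_eq_zero_iff]
  refine ⟨nCo p, fun h => hp (nCo_zero h), ?_⟩
  rw [nMat_mulVec, hL]
  funext i
  simp [nCo]

private theorem nVec_orth {L : W →L[ℝ] W} {p : W} (hp : p ≠ 0) (hL : L p = 0) (u : W) :
    ⟪L u, nVec L p⟫ = 0 := by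
  rw [real_inner_comm, nCo_inner]
  unfold nVec
  rw [nCo_sum, ← nMat_mulVec, ← Matrix.dotProduct_mulVec, Matrix.mulVec_mulVec,
    Matrix.adjugate_mul, nMat_det_zero hp hL, zero_smul, Matrix.zero_mulVec, dotProduct_zero]

private theorem nVec_ne {L : W →L[ℝ] W} {p : W} (hp : p ≠ 0) (hL : L p = 0)
    (imm : ∀ u : W, ⟪u, p⟫ = 0 → L u = 0 → u = 0) : nVec L p ≠ 0 := by
  intro h0
  have hv : ∃ v, ∀ x, L x ≠ v := by
    by_contra hcon
    push Not at hcon
    have hs : Function.Surjective (L : W →ₗ[ℝ] W) := hcon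
    have hi := LinearMap.injective_iff_surjective.2 hs
    exact hp (hi (by simpa using hL))
  obtain ⟨v, hv⟩ := hv
  have h1 := normal_det_rank_one (nMat L) (nCo v) (nCo p)
  have h2 : Matrix.vecMul (nCo p) (nMat L).adjugate = 0 := by
    rw [← nCo_sum (Matrix.vecMul (nCo p) (nMat L).adjugate)]
    have h3 : ∑ j, Matrix.vecMul (nCo p) (nMat L).adjugate j • stdOrthonormalBasis ℝ W j = 0 := h0
    rw [h3]
    funext i
    simp [nCo]
  rw [h2, zero_dotProduct, add_zero, nMat_det_zero hp hL, ← Matrix.exists_mulVec_eq_zero_iff] at h1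
  obtain ⟨c, hc, hc0⟩ := h1
  obtain ⟨x, hx⟩ : ∃ x : W, nCo x = c := ⟨_, nCo_sum c⟩
  subst hx
  have h4 : nCo (L x + ⟪p, x⟫ • v) = 0 := by
    rw [← hc0, Matrix.add_mulVec, nMat_mulVec, nCo_inner p x]
    funext i
    have h5 : Matrix.mulVec (Matrix.vecMulVec (nCo v) (nCo p)) (nCo x) i =
        nCo v i * dotProduct (nCo p) (nCo x) := by
      unfold Matrix.mulVec Matrix.vecMulVec dotProduct
      rw [Finset.mul_sum]
      refine Finset.sum_congr rfl fun j _ => ?_
      simp only [Matrix.of_apply]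
      ring
    rw [Pi.add_apply, h5]
    unfold nCo
    rw [inner_add_right, real_inner_smul_right]
    ring
  have h6 := nCo_zero h4
  have h7 : ⟪p, x⟫ = 0 := by
    by_contra hne
    refine hv (-(⟪p, x⟫⁻¹ • x)) ?_
    have h8 : L x = -(⟪p, x⟫ • v) := eq_neg_of_add_eq_zero_left h6
    rw [map_neg, map_smul, h8, smul_neg, neg_neg, smul_smul, inv_mul_cancel₀ hne, one_smul]
  have h9 : L x = 0 := by
    rw [h7, zero_smul, add_zero] at h6
    exact h6
  have h10 := imm x (by rw [real_inner_comm]; exact h7) h9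
  refine hc ?_
  rw [h10]
  funext i
  simp [nCo]

private theorem nVec_smooth {f : W → W} (sf : ContDiffOn ℝ ∞ f {0}ᶜ) :
    ContDiffOn ℝ ∞ (fun x => nVec (fderiv ℝ f x) x) {0}ᶜ := by
  unfold nVec
  refine ContDiffOn.sum fun j _ => ContDiffOn.smul ?_ contDiffOn_const
  unfold Matrix.vecMul dotProduct
  refine ContDiffOn.sum fun i _ => ContDiffOn.mul ?_ ?_
  · unfold nCo
    exact contDiffOn_const.inner ℝ contDiffOn_id
  · refine normal_adj_smooth (fun k l => ?_) i j
    unfold nMat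
    refine contDiffOn_const.inner ℝ ?_
    exact (sf.fderiv_of_isOpen isOpen_compl_singleton (by simp)).clm_apply contDiffOn_const

/-- PROOF. For `L : W → W` let `N L p` be the vector with `⟪N L p, v⟫ = p ⬝ adj(L) v`, where `adj`
is the adjugate of the matrix of `L` in an orthonormal basis (so `N = adj(L)ᵀ p`, polynomial in the
entries of `L` and `p`, hence smooth). For `L = fderiv ℝ f p`, `‖p‖ = 1`: `L p = 0` (constant on
rays), so `det L = 0` and `Lᵀ N = (adj(L) L)ᵀ p = det L • p = 0`: `N` is orthogonal to the range of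
`L`. `N ≠ 0`: the identity `det (L + v ⊗ p) = det L + p ⬝ adj(L) v` (for invertible `L` this is
`Matrix.det_add_replicateCol_mul_replicateRow`; in general replace `L` by `L + ε • 1` and let
`ε → 0`) with `v` not in the range of `L` (which has dimension `< dim W`): `L + v ⊗ p` is injective
(`L x + ⟪p, x⟫ v = 0` gives `⟪p, x⟫ = 0`, `L x = 0`, `x = 0` by `imm`), so `p ⬝ adj(L) v ≠ 0`.
Put `ν x = N / ‖N‖` at `x / ‖x‖` (so that it is constant on rays and smooth off zero). -/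
theorem exists_normal (hdim : 2 ≤ Module.finrank ℝ W) {f : W → W}
    (sf : ContDiffOn ℝ ∞ f {0}ᶜ) (hf : ∀ t : ℝ, 0 < t → ∀ x : W, x ≠ 0 → f (t • x) = f x)
    (inj : InjOn f (sphere 0 1))
    (imm : ∀ p ∈ sphere (0 : W) 1, ∀ u : W, ⟪u, p⟫ = 0 → fderiv ℝ f p u = 0 → u = 0) :
    ∃ ν : W → W, HSphere f ν := by
  have hne : ∀ p ∈ sphere (0 : W) 1, nVec (fderiv ℝ f p) p ≠ 0 := fun p hp =>
    nVec_ne (frame_ne hp) (cg_radial f sf hf p (frame_ne hp)) (imm p hp)
  have hr : ∀ x : W, x ≠ 0 → ‖x‖⁻¹ • x ∈ sphere (0 : W) 1 := by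
    intro x hx
    rw [mem_sphere_zero_iff_norm, norm_smul, norm_inv, norm_norm,
      inv_mul_cancel₀ (norm_ne_zero_iff.2 hx)]
  have hrs : ContDiffOn ℝ ∞ (fun x : W => ‖x‖⁻¹ • x) {0}ᶜ := by
    intro x hx
    have hx' : x ≠ 0 := hx
    exact (((contDiffAt_norm ℝ hx').inv (norm_ne_zero_iff.2 hx')).smul
      contDiffAt_id).contDiffWithinAt
  have hN : ContDiffOn ℝ ∞ (fun x : W => nVec (fderiv ℝ f (‖x‖⁻¹ • x)) (‖x‖⁻¹ • x)) {0}ᶜ :=
    (nVec_smooth sf).comp hrs fun x hx => frame_ne (hr x hx)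
  have hν : ∀ p ∈ sphere (0 : W) 1, ‖nVec (fderiv ℝ f (‖p‖⁻¹ • p)) (‖p‖⁻¹ • p)‖⁻¹ •
      nVec (fderiv ℝ f (‖p‖⁻¹ • p)) (‖p‖⁻¹ • p) =
      ‖nVec (fderiv ℝ f p) p‖⁻¹ • nVec (fderiv ℝ f p) p := by
    intro p hp
    have h1 : ‖p‖⁻¹ • p = p := by
      rw [mem_sphere_zero_iff_norm.1 hp, inv_one, one_smul]
    simp only [h1]
  refine ⟨fun x => ‖nVec (fderiv ℝ f (‖x‖⁻¹ • x)) (‖x‖⁻¹ • x)‖⁻¹ •
    nVec (fderiv ℝ f (‖x‖⁻¹ • x)) (‖x‖⁻¹ • x), sf, ?_, hf, ?_, inj, imm, ?_, ?_⟩
  · refine ContDiffOn.smul (ContDiffOn.inv (ContDiffOn.norm ℝ hN ?_) ?_) hN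
    · exact fun x hx => hne _ (hr x hx)
    · exact fun x hx => norm_ne_zero_iff.2 (hne _ (hr x hx))
  · intro t ht x hx
    have h1 : ‖t • x‖⁻¹ • t • x = ‖x‖⁻¹ • x := by
      rw [norm_smul, Real.norm_eq_abs, abs_of_pos ht, mul_inv, smul_smul]
      congr 1
      field_simp
    simp only [h1]
  · intro p hp
    rw [hν p hp, norm_smul, norm_inv, norm_norm, inv_mul_cancel₀ (norm_ne_zero_iff.2 (hne p hp))]
  · intro p hp u
    rw [hν p hp, real_inner_smul_right, nVec_orth (frame_ne hp)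
      (cg_radial f sf hf p (frame_ne hp)), mul_zero]

/-- PROOF. Compose with a linear isometry `W' ≃ W` (`stdOrthonormalBasis`, equal dimensions),
`exists_normal`, `cg_defining`; `gradient ≠ 0` is `fderiv ≠ 0`. -/
theorem sphere_defining (hd : Module.finrank ℝ W = Module.finrank ℝ W')
    (hdim : 2 ≤ Module.finrank ℝ W) {f : W → W'}
    (sf : ContDiffOn ℝ ∞ f {0}ᶜ) (hf : ∀ t : ℝ, 0 < t → ∀ x : W, x ≠ 0 → f (t • x) = f x)
    (inj : InjOn f (sphere 0 1))
    (imm : ∀ p ∈ sphere (0 : W) 1, ∀ u : W, ⟪u, p⟫ = 0 → fderiv ℝ f p u = 0 → u = 0) :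
    ∃ F : W' → ℝ, ContDiff ℝ ∞ F ∧ Bornology.IsBounded {x | F x ≤ 0} ∧
      (∀ x, F x = 0 → fderiv ℝ F x ≠ 0) ∧ {x | F x = 0} = f '' sphere (0 : W) 1 := by
  obtain ⟨Θ⟩ : Nonempty (W' ≃ₗᵢ[ℝ] W) := 
    ⟨(stdOrthonormalBasis ℝ W').equiv (stdOrthonormalBasis ℝ W) (finCongr hd.symm)⟩
  have hΘs : ContDiff ℝ ∞ (fun y : W' => Θ y) := Θ.toContinuousLinearEquiv.contDiff
  have sg : ContDiffOn ℝ ∞ (fun x => Θ (f x)) {0}ᶜ := hΘs.comp_contDiffOn sf
  have hfd : ∀ x : W, x ≠ 0 → ∀ u, fderiv ℝ (fun x => Θ (f x)) x u = Θ (fderiv ℝ f x u) := by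
    intro x hx u
    have h1 : HasFDerivAt f (fderiv ℝ f x) x :=
      (((sf x hx).contDiffAt (isOpen_compl_singleton.mem_nhds hx)).differentiableAt
        (by simp)).hasFDerivAt
    have h2 := (Θ.toContinuousLinearEquiv.hasFDerivAt (x := f x)).comp x h1
    have h3 : fderiv ℝ (fun x => Θ (f x)) x =
        (Θ.toContinuousLinearEquiv : W' →L[ℝ] W).comp (fderiv ℝ f x) := h2.fderiv
    rw [h3]
    rfl
  obtain ⟨ν, hν⟩ := exists_normal hdim sg (fun t ht x hx => by rw [hf t ht x hx])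
    (fun x hx y hy h => inj hx hy (Θ.injective h)) (fun p hp u hu h => by
      rw [hfd p (frame_ne hp) u] at h
      exact imm p hp u hu (Θ.injective (by rw [h, map_zero])))
  obtain ⟨G, hG, hGb, hGg, hG0⟩ := cg_defining hdim hν
  refine ⟨fun y => G (Θ y), hG.comp hΘs, ?_, ?_, ?_⟩
  · have h1 : {x : W' | G (Θ x) ≤ 0} = Θ.symm '' {x | G x ≤ 0} := by
      ext x
      constructor
      · intro hx
        exact ⟨Θ x, hx, by simp⟩
      · rintro ⟨y, hy, rfl⟩
        simpa using hy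
    rw [h1]
    exact Θ.symm.lipschitz.isBounded_image hGb
  · intro x hx h0
    have h1 : HasFDerivAt G (fderiv ℝ G (Θ x)) (Θ x) :=
      (hG.differentiable (by simp) (Θ x)).hasFDerivAt
    have h2 := h1.comp x (Θ.toContinuousLinearEquiv.hasFDerivAt (x := x))
    have h3 : fderiv ℝ (fun y => G (Θ y)) x =
        (fderiv ℝ G (Θ x)).comp (Θ.toContinuousLinearEquiv : W' →L[ℝ] W) := h2.fderiv
    rw [h3] at h0
    have h4 : fderiv ℝ G (Θ x) = 0 := by
      ext u
      have h5 := congrArg (fun L : W' →L[ℝ] ℝ => L (Θ.symm u)) h0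
      simpa using h5
    refine hGg (Θ x) hx ?_
    unfold gradient
    rw [h4, map_zero]
  · ext y
    have h1 : Θ y ∈ {x | G x = 0} ↔ Θ y ∈ (fun x => Θ (f x)) '' sphere (0 : W) 1 := by rw [hG0]
    constructor
    · intro hy
      obtain ⟨x, hx, h2⟩ := h1.1 hy
      exact ⟨x, hx, Θ.injective h2⟩
    · rintro ⟨x, hx, rfl⟩
      exact h1.2 ⟨x, hx, rfl⟩

end Pool.Schoen
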