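import Pool.Agent.H.MP_6c077c_gt.Cn.Param
import Pool.Agent.H.MP_6c077c_gt.Cn.Normal
import Pool.Agent.H.MP_6c077c_gt.IxB.LiftSphere
import Pool.Agent.H.MP_6c077c_gt.IxB.Lift

/-! Canal spheres: a function whose slices have the zero sets `canalM c B q a b s`. -/

set_option autoImplicit false

namespace Pool.Schoen

open Filter Set Metric
open scoped Topology RealInnerProductSpace ContDiff

variable {E V : Type*} [NormedAddCommGroup E] [InnerProductSpace ℝ E] [FiniteDimensional ℝ E]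
  [NormedAddCommGroup V] [InnerProductSpace ℝ V] [FiniteDimensional ℝ V]
variable {c : ℝ → V} {B : ℝ → E →L[ℝ] V} {q : ℝ → ℝ} {a b : ℝ}

private theorem Lift_T {a b τ : ℝ} (hab : a < b) (h : τ ^ 2 ≤ 1) :
    (a + b) / 2 + (b - a) / 2 * τ ∈ Icc a b := by
  have h1 : -1 ≤ τ := by nlinarith
  have h2 : τ ≤ 1 := by nlinarith
  constructor <;> nlinarith

private theorem Lift_q {a b τ m : ℝ} (t : ℝ) (ht : t = (a + b) / 2 + (b - a) / 2 * τ) :
    (t - a) * (b - t) * m ^ 2 = ((b - a) / 2 * m) ^ 2 * (1 - τ ^ 2) := by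
  rw [ht]
  ring

omit [FiniteDimensional ℝ E] [FiniteDimensional ℝ V] in
private theorem Lift_set (h : CanalD c B q a b) {m : ℝ → ℝ} (hm : ∀ t, 0 < m t)
    (hq : ∀ t ∈ Icc a b, q t = (t - a) * (b - t) * m t ^ 2) {s : ℝ} {x : V} :
    x ∈ canalM c B q a b s ↔ ∃ (τ s₁ : ℝ) (w₁ : E), τ ^ 2 + s₁ ^ 2 + ‖w₁‖ ^ 2 = 1 ∧
      (b - a) / 2 * m ((a + b) / 2 + (b - a) / 2 * τ) * s₁ = s ∧
      c ((a + b) / 2 + (b - a) / 2 * τ) + ((b - a) / 2 * m ((a + b) / 2 + (b - a) / 2 * τ)) •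
        B ((a + b) / 2 + (b - a) / 2 * τ) w₁ = x := by
  have hk : 0 < (b - a) / 2 := by linarith [h.lt]
  constructor
  · rintro ⟨t, ht, w, hsw, rfl⟩
    obtain ⟨τ, hτ⟩ : ∃ τ : ℝ, τ = (t - (a + b) / 2) / ((b - a) / 2) := ⟨_, rfl⟩
    have hT : (a + b) / 2 + (b - a) / 2 * τ = t := by
      rw [hτ, mul_div_cancel₀ _ hk.ne']
      ring
    have hM : 0 < (b - a) / 2 * m t := mul_pos hk (hm t)
    refine ⟨τ, s / ((b - a) / 2 * m t), ((b - a) / 2 * m t)⁻¹ • w, ?_, ?_, ?_⟩
    · rw [norm_smul, norm_inv, Real.norm_eq_abs, abs_of_pos hM]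
      have h1 := hq t ht
      rw [Lift_q (τ := τ) t hT.symm] at h1
      generalize (b - a) / 2 * m t = M at hM h1
      have hM2 : M ^ 2 ≠ 0 := pow_ne_zero 2 hM.ne'
      have h2 : (s / M) ^ 2 + (M⁻¹ * ‖w‖) ^ 2 = (s ^ 2 + ‖w‖ ^ 2) / M ^ 2 := by
        rw [div_pow, mul_pow, inv_pow, add_div]
        ring
      have h3 : (s ^ 2 + ‖w‖ ^ 2) / M ^ 2 = 1 - τ ^ 2 := by
        rw [hsw, h1, mul_div_cancel_left₀ _ hM2]
      linarith
    · rw [hT, mul_div_cancel₀ _ hM.ne']
    · rw [hT, map_smul, smul_smul, mul_inv_cancel₀ hM.ne', one_smul]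
  · rintro ⟨τ, s₁, w₁, h1, rfl, rfl⟩
    have hτ1 : τ ^ 2 ≤ 1 := by nlinarith [sq_nonneg s₁, sq_nonneg ‖w₁‖]
    have hT := Lift_T h.lt hτ1
    obtain ⟨t, ht⟩ : ∃ t : ℝ, t = (a + b) / 2 + (b - a) / 2 * τ := ⟨_, rfl⟩
    rw [← ht] at hT ⊢
    have hM : 0 < (b - a) / 2 * m t := mul_pos hk (hm t)
    refine ⟨t, hT, ((b - a) / 2 * m t) • w₁, ?_, ?_⟩
    · rw [hq t hT, Lift_q (τ := τ) t ht, norm_smul, Real.norm_eq_abs, abs_of_pos hM]
      have h2 : 1 - τ ^ 2 = s₁ ^ 2 + ‖w₁‖ ^ 2 := by linarith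
      rw [h2]
      ring
    · rw [map_smul]

omit [FiniteDimensional ℝ V] in
private theorem Lift_curve {G : ℝ × V → ℝ} (hG : ContDiff ℝ ∞ G) {s : ℝ} {x : V}
    (h1 : fderiv ℝ G (s, x) ≠ 0) (h2 : fderiv ℝ (fun y => G (s, y)) x = 0) {σ : ℝ → ℝ}
    {y : ℝ → V} {σ' : ℝ} {y' : V} (hσ : HasDerivAt σ σ' 0) (hy : HasDerivAt y y' 0)
    (h0 : σ 0 = s) (h0' : y 0 = x) (hz : ∀ᶠ l in 𝓝 (0 : ℝ), G (σ l, y l) = 0) : σ' = 0 := by
  have hd : HasFDerivAt G (fderiv ℝ G (s, x)) (s, x) :=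
    ((hG.differentiable (by simp)) _).hasFDerivAt
  have e1 : ∀ v : V, fderiv ℝ G (s, x) (0, v) = 0 := by
    intro v
    have h3 : HasFDerivAt (fun y : V => (s, y)) (ContinuousLinearMap.inr ℝ ℝ V) x :=
      hasFDerivAt_prodMk_right s x
    have h4 := hd.comp x h3
    have h5 : fderiv ℝ (fun y => G (s, y)) x = (fderiv ℝ G (s, x)).comp
        (ContinuousLinearMap.inr ℝ ℝ V) := h4.fderiv
    rw [h2] at h5
    have h6 := congrArg (fun L : V →L[ℝ] ℝ => L v) h5
    simpa using h6.symm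
  have e2 : fderiv ℝ G (s, x) (σ', y') = 0 := by
    have h3 : HasDerivAt (fun l => (σ l, y l)) (σ', y') 0 := hσ.prodMk hy
    have h4 : HasFDerivAt G (fderiv ℝ G (s, x)) (σ 0, y 0) := by
      rw [h0, h0']
      exact hd
    have h5 : HasDerivAt (fun l => G (σ l, y l)) (fderiv ℝ G (s, x) (σ', y')) 0 :=
      h4.comp_hasDerivAt (0 : ℝ) h3
    have h6 : HasDerivAt (fun l => G (σ l, y l)) 0 0 :=
      (hasDerivAt_const (0 : ℝ) (0 : ℝ)).congr_of_eventuallyEq hz
    exact h5.unique h6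
  by_contra hne
  apply h1
  have e3 : fderiv ℝ G (s, x) (1, 0) = 0 := by
    have h3 : ((σ', y') : ℝ × V) = σ' • ((1, 0) : ℝ × V) + (0, y') := by
      ext <;> simp
    rw [h3, map_add, map_smul, e1, add_zero, smul_eq_mul] at e2
    exact (mul_eq_zero.1 e2).resolve_left hne
  refine ContinuousLinearMap.ext fun z => ?_
  obtain ⟨z1, z2⟩ := z
  have h3 : ((z1, z2) : ℝ × V) = z1 • ((1, 0) : ℝ × V) + (0, z2) := by
    ext <;> simp
  rw [h3, map_add, map_smul, e1, e3]
  simp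

/-- PROOF. `canal_param`, `sphere_defining` (dimensions `n + 2` and `(n + 1) + 1`), `G (s, x)` is the
defining function at `toLp (s, x)` (`WithLp 2 (ℝ × V)` and `ℝ × V` are linearly homeomorphic). The
zero set: `(s, x)` is in the image of the sphere iff `x ∈ canalM c B q a b s` (every `t ∈ [a, b]` is
`T τ`; for `|τ| < 1` divide `s`, `w` by `k m`; for `τ = ± 1` both vanish).
SLICES. Let `G (s, x) = 0` and `fderiv (G (s, ·)) x = 0`. As `fderiv G (s, x) ≠ 0`, the derivative of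
`G` in the direction `(1, 0)` is not zero, so every differentiable curve in the zero set through
`(s, x)` has `s' = 0` there. Write `(s, x)` as the image of `(τ, s₁, w₁)` on the unit sphere,
`t = T τ`. Curve 1: rotate `(s₁, w₁)` in the leaf: `(τ, s₁ cos l - ‖w₁‖ sin l,
cos l w₁ + sin l (s₁ / ‖w₁‖) w₁)` if `w₁ ≠ 0`: `s' = -k m ‖w₁‖ ≠ 0`. So `w₁ = 0`, `x = c t`,
`q t = s ^ 2`. Curve 2 if `s₁ = 0`, so `τ = ± 1`: `(τ cos l, sin l, 0)`: `s' = k m ≠ 0` at `l = 0`.
So `s₁ ≠ 0`, `|τ| < 1`, `t ∈ (a, b)`. Curve 3: `(√(q (t + l)) * sign s, c (t + l))`: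
`s' = ± deriv q t / (2 √(q t))`, so `deriv q t = 0`. -/
theorem canal_lift (h : CanalD c B q a b) (hE : 3 ≤ Module.finrank ℝ E)
    (hd : Module.finrank ℝ V = Module.finrank ℝ E + 1) :
    ∃ G : ℝ × V → ℝ, ContDiff ℝ ∞ G ∧ Bornology.IsBounded {z | G z ≤ 0} ∧
      (∀ s x, G (s, x) = 0 ↔ x ∈ canalM c B q a b s) ∧
      ∀ s x, G (s, x) = 0 → fderiv ℝ (fun y => G (s, y)) x = 0 →
        ∃ t ∈ Ioo a b, c t = x ∧ q t = s ^ 2 ∧ deriv q t = 0 := by
  obtain ⟨f, m, sf, hf, inj, imm, sm, hm, hq, hfm⟩ := canal_param h hE hd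
  have hfr : Module.finrank ℝ (WithLp 2 (ℝ × WithLp 2 (ℝ × E))) =
      Module.finrank ℝ (WithLp 2 (ℝ × V)) := by
    rw [(WithLp.linearEquiv 2 ℝ (ℝ × WithLp 2 (ℝ × E))).finrank_eq,
      (WithLp.linearEquiv 2 ℝ (ℝ × V)).finrank_eq, Module.finrank_prod, Module.finrank_prod,
      (WithLp.linearEquiv 2 ℝ (ℝ × E)).finrank_eq, Module.finrank_prod, Module.finrank_self, hd]
    ring
  have hfr2 : 2 ≤ Module.finrank ℝ (WithLp 2 (ℝ × WithLp 2 (ℝ × E))) := by
    rw [(WithLp.linearEquiv 2 ℝ (ℝ × WithLp 2 (ℝ × E))).finrank_eq, Module.finrank_prod,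
      (WithLp.linearEquiv 2 ℝ (ℝ × E)).finrank_eq, Module.finrank_prod, Module.finrank_self]
    omega
  obtain ⟨F, sF, bF, dF, zF⟩ := sphere_defining hfr hfr2 sf hf inj imm
  let L := WithLp.prodContinuousLinearEquiv 2 ℝ ℝ V
  let G : ℝ × V → ℝ := fun z => F (L.symm z)
  have sG : ContDiff ℝ ∞ G := sF.comp L.symm.contDiff
  have hzero : ∀ s x, G (s, x) = 0 ↔ x ∈ canalM c B q a b s := by
    intro s x
    have h1 : G (s, x) = 0 ↔ WithLp.toLp 2 (s, x) ∈ f '' sphere 0 1 := by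
      rw [← zF]
      rfl
    rw [h1, Lift_set h hm hq]
    constructor
    · rintro ⟨p, hp, hpe⟩
      have h2 : p = WithLp.toLp 2 (p.fst, WithLp.toLp 2 (p.snd.fst, p.snd.snd)) := rfl
      have h3 : p.fst ^ 2 + p.snd.fst ^ 2 + ‖p.snd.snd‖ ^ 2 = 1 := by
        have h4 : ‖p‖ = 1 := by rwa [mem_sphere_zero_iff_norm] at hp
        have h5 := WithLp.prod_norm_sq_eq_of_L2 p
        have h6 := WithLp.prod_norm_sq_eq_of_L2 p.snd
        rw [h4, Real.norm_eq_abs, sq_abs] at h5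
        rw [Real.norm_eq_abs, sq_abs] at h6
        linarith
      rw [h2, hfm _ _ _ h3] at hpe
      have h4 := congrArg WithLp.fst hpe
      have h5 := congrArg WithLp.snd hpe
      exact ⟨_, _, _, h3, h4, h5⟩
    · rintro ⟨τ, s₁, w₁, h2, h3, h4⟩
      refine ⟨WithLp.toLp 2 (τ, WithLp.toLp 2 (s₁, w₁)), ?_, ?_⟩
      · rw [mem_sphere_zero_iff_norm]
        have h5 := WithLp.prod_norm_sq_eq_of_L2 (WithLp.toLp 2 (τ, WithLp.toLp 2 (s₁, w₁)))
        have h6 := WithLp.prod_norm_sq_eq_of_L2 (WithLp.toLp 2 (s₁, w₁))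
        have h7 : ‖WithLp.toLp 2 (τ, WithLp.toLp 2 (s₁, w₁))‖ ^ 2 = 1 ^ 2 := by
          rw [h5]
          show ‖τ‖ ^ 2 + ‖WithLp.toLp 2 (s₁, w₁)‖ ^ 2 = 1 ^ 2
          rw [h6]
          show ‖τ‖ ^ 2 + (‖s₁‖ ^ 2 + ‖w₁‖ ^ 2) = 1 ^ 2
          rw [Real.norm_eq_abs, Real.norm_eq_abs, sq_abs, sq_abs]
          linarith
        exact (pow_left_inj₀ (norm_nonneg _) zero_le_one two_ne_zero).1 h7
      · rw [hfm _ _ _ h2, h3, h4]
  have hdG : ∀ s x, G (s, x) = 0 → fderiv ℝ G (s, x) ≠ 0 := by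
    intro s x h0 h1
    apply dF (L.symm (s, x)) h0
    have h2 : HasFDerivAt F (fderiv ℝ F (L.symm (s, x))) (L.symm (s, x)) :=
      ((sF.differentiable (by simp)) _).hasFDerivAt
    have h3 : HasFDerivAt G ((fderiv ℝ F (L.symm (s, x))).comp
        (L.symm : (ℝ × V) →L[ℝ] WithLp 2 (ℝ × V))) (s, x) := h2.comp (s, x) L.symm.hasFDerivAt
    rw [h3.fderiv] at h1
    refine ContinuousLinearMap.ext fun v => ?_
    have h4 := congrArg (fun A : (ℝ × V) →L[ℝ] ℝ => A (L v)) h1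
    simpa using h4
  refine ⟨G, sG, ?_, hzero, ?_⟩
  · have h1 : {z | G z ≤ 0} ⊆ L '' {x | F x ≤ 0} := by
      intro z hz
      exact ⟨L.symm z, hz, L.apply_symm_apply z⟩
    exact ((L : WithLp 2 (ℝ × V) →L[ℝ] ℝ × V).lipschitz.isBounded_image bF).subset h1
  · intro s x h0 h1
    have h2 := hdG s x h0
    obtain ⟨t, ht, w, hsw, hx⟩ := (hzero s x).1 h0
    have hk : 0 < (b - a) / 2 := by linarith [h.lt]
    -- curve 1
    have hw : w = 0 := by
      by_contra hw
      have hw0 : ‖w‖ ≠ 0 := norm_ne_zero_iff.2 hw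
      have c1 : HasDerivAt (fun l : ℝ => s * Real.cos l - ‖w‖ * Real.sin l)
          (s * -Real.sin 0 - ‖w‖ * Real.cos 0) 0 :=
        ((Real.hasDerivAt_cos 0).const_mul s).sub ((Real.hasDerivAt_sin 0).const_mul ‖w‖)
      have c2 : HasDerivAt (fun l : ℝ => c t + B t ((Real.cos l + Real.sin l * (s / ‖w‖)) • w))
          (B t ((-Real.sin 0 + Real.cos 0 * (s / ‖w‖)) • w)) 0 := by
        have e1 : HasDerivAt (fun l : ℝ => (Real.cos l + Real.sin l * (s / ‖w‖)) • w)
            ((-Real.sin 0 + Real.cos 0 * (s / ‖w‖)) • w) 0 :=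
          ((Real.hasDerivAt_cos 0).add ((Real.hasDerivAt_sin 0).mul_const _)).smul_const w
        exact ((B t).hasFDerivAt.comp_hasDerivAt (0 : ℝ) e1).const_add (c t)
      have c3 := Lift_curve sG h2 h1 c1 c2 (by simp) (by simpa using hx)
        (Eventually.of_forall fun l => by
          rw [hzero]
          refine ⟨t, ht, (Real.cos l + Real.sin l * (s / ‖w‖)) • w, ?_, rfl⟩
          rw [norm_smul, mul_pow, Real.norm_eq_abs, sq_abs, ← hsw]
          have e1 : (Real.cos l + Real.sin l * (s / ‖w‖)) ^ 2 * ‖w‖ ^ 2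
              = (Real.cos l * ‖w‖ + Real.sin l * s) ^ 2 := by
            field_simp
          rw [e1]
          have e2 := Real.sin_sq_add_cos_sq l
          linear_combination (s ^ 2 + ‖w‖ ^ 2) * e2)
      simp at c3
      exact hw c3
    rw [hw, norm_zero] at hsw
    rw [hw, map_zero, add_zero] at hx
    have hqt : q t = s ^ 2 := by linarith
    -- curve 2
    have hs : s ≠ 0 := by
      intro hs
      rw [hs] at hqt
      obtain ⟨τ, hτ, hTt⟩ : ∃ τ : ℝ, τ ^ 2 = 1 ∧ (a + b) / 2 + (b - a) / 2 * τ = t := by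
        rcases eq_or_lt_of_le ht.1 with h3 | h3
        · exact ⟨-1, by norm_num, by rw [← h3]; ring⟩
        · rcases eq_or_lt_of_le ht.2 with h4 | h4
          · exact ⟨1, by norm_num, by rw [h4]; ring⟩
          · have := h.pos t ⟨h3, h4⟩
            rw [hqt] at this
            norm_num at this
      have e1 : HasDerivAt (fun l : ℝ => (a + b) / 2 + (b - a) / 2 * (τ * Real.cos l))
          ((b - a) / 2 * (τ * -Real.sin 0)) 0 :=
        (((Real.hasDerivAt_cos 0).const_mul τ).const_mul _).const_add _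
      have e0 : (a + b) / 2 + (b - a) / 2 * (τ * Real.cos 0) = t := by
        rw [Real.cos_zero, mul_one, hTt]
      have e2 : HasDerivAt (fun l : ℝ => m ((a + b) / 2 + (b - a) / 2 * (τ * Real.cos l)))
          (deriv m t * ((b - a) / 2 * (τ * -Real.sin 0))) 0 := by
        have e3 : HasDerivAt m (deriv m t) ((a + b) / 2 + (b - a) / 2 * (τ * Real.cos 0)) := by
          rw [e0]
          exact (sm.differentiable (by simp) t).hasDerivAt
        exact e3.comp (0 : ℝ) e1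
      have c1 := (e2.const_mul ((b - a) / 2)).mul (Real.hasDerivAt_sin 0)
      have c2 : HasDerivAt (fun l : ℝ => c ((a + b) / 2 + (b - a) / 2 * (τ * Real.cos l)))
          (((b - a) / 2 * (τ * -Real.sin 0)) • deriv c t) 0 := by
        have e3 : HasDerivAt c (deriv c t) ((a + b) / 2 + (b - a) / 2 * (τ * Real.cos 0)) := by
          rw [e0]
          exact (h.sc.differentiable (by simp) t).hasDerivAt
        exact e3.scomp (0 : ℝ) e1
      have c3 := Lift_curve sG h2 h1 c1 c2 (by simp [hs]) (by rw [e0]; exact hx)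
        (Eventually.of_forall fun l => by
          rw [hzero, Lift_set h hm hq]
          refine ⟨τ * Real.cos l, Real.sin l, 0, ?_, ?_, ?_⟩
          · rw [norm_zero, mul_pow, hτ]
            have e3 := Real.sin_sq_add_cos_sq l
            linarith
          · rfl
          · rw [map_zero, smul_zero, add_zero])
      rw [Real.sin_zero, Real.cos_zero] at c3
      simp only [neg_zero, mul_zero, zero_add, mul_one] at c3
      rw [hTt] at c3
      exact (mul_pos hk (hm t)).ne' c3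
    have hq0 : 0 < q t := by
      rw [hqt]
      positivity
    have htI : t ∈ Ioo a b := by
      refine ⟨lt_of_le_of_ne ht.1 ?_, lt_of_le_of_ne ht.2 ?_⟩
      · intro h3
        rw [← h3, h.za] at hq0
        exact lt_irrefl _ hq0
      · intro h3
        rw [h3, h.zb] at hq0
        exact lt_irrefl _ hq0
    refine ⟨t, htI, hx, hqt, ?_⟩
    -- curve 3
    have e1 : HasDerivAt (fun l : ℝ => t + l) 1 0 := (hasDerivAt_id (0 : ℝ)).const_add t
    have e0 : t + 0 = t := add_zero t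
    have dq : HasDerivAt q (deriv q t) (t + 0) := by
      rw [e0]
      exact (h.sq.differentiable (by simp) t).hasDerivAt
    have e2 : HasDerivAt (fun l : ℝ => q (t + l)) (deriv q t * 1) 0 := dq.comp (0 : ℝ) e1
    have c1 : HasDerivAt (fun l : ℝ => s / √(q t) * √(q (t + l)))
        (s / √(q t) * (deriv q t * 1 / (2 * √(q (t + 0))))) 0 :=
      (e2.sqrt (by rw [e0]; exact hq0.ne')).const_mul _
    have c2 : HasDerivAt (fun l : ℝ => c (t + l)) ((1 : ℝ) • deriv c t) 0 := by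
      have e3 : HasDerivAt c (deriv c t) (t + 0) := by
        rw [e0]
        exact (h.sc.differentiable (by simp) t).hasDerivAt
      exact e3.scomp (0 : ℝ) e1
    have hsq0 : √(q t) ≠ 0 := (Real.sqrt_pos.2 hq0).ne'
    have c3 := Lift_curve sG h2 h1 c1 c2 (by rw [e0]; field_simp) (by rw [e0]; exact hx) (by
      have k1 : ∀ᶠ l in 𝓝 (0 : ℝ), t + l ∈ Ioo a b := by
        have k2 : Tendsto (fun l : ℝ => t + l) (𝓝 0) (𝓝 t) := by
          have k3 : Continuous fun l : ℝ => t + l := by fun_prop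
          have k4 := k3.tendsto 0
          simpa using k4
        exact k2.eventually (isOpen_Ioo.mem_nhds htI)
      filter_upwards [k1] with l hl
      rw [hzero]
      refine ⟨t + l, Ioo_subset_Icc_self hl, 0, ?_, by rw [map_zero, add_zero]⟩
      rw [norm_zero, mul_pow, div_pow, Real.sq_sqrt hq0.le, Real.sq_sqrt (h.pos _ hl).le, hqt]
      field_simp
      ring)
    rw [e0, mul_one] at c3
    have h3 : s / √(q t) ≠ 0 := div_ne_zero hs hsq0
    have h4 := (mul_eq_zero.1 c3).resolve_left h3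
    rcases div_eq_zero_iff.1 h4 with h5 | h5
    · exact h5
    · exact absurd h5 (mul_ne_zero two_ne_zero hsq0)

/-- PROOF. `canalM c B q a b 0` is the image of the unit sphere of `WithLp 2 (ℝ × E)` (dimension
`n + 1 ≥ 4`) under the continuous injective map `(τ, w) ↦ c (T τ) + k m (T τ) • B (T τ) w`
(`canal_param` with `s = 0`): connected, and `liftS_sphere`, `LiftS.homeo` (a continuous injective
map on a compact set is a homeomorphism onto its image). -/
theorem canal_conn (h : CanalD c B q a b) (hE : 3 ≤ Module.finrank ℝ E)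
    (hd : Module.finrank ℝ V = Module.finrank ℝ E + 1) :
    IsConnected (canalM c B q a b 0) ∧ LiftS (canalM c B q a b 0) := by
  obtain ⟨m, sm, hm, hq⟩ := canal_div h.lt h.sq h.za h.zb h.da h.db h.pos
  have hk : 0 < (b - a) / 2 := by linarith [h.lt]
  let g : WithLp 2 (ℝ × E) → V := fun p => c ((a + b) / 2 + (b - a) / 2 * p.fst) +
    ((b - a) / 2 * m ((a + b) / 2 + (b - a) / 2 * p.fst)) • B ((a + b) / 2 + (b - a) / 2 * p.fst) p.snd
  have hfr : Module.finrank ℝ (WithLp 2 (ℝ × E)) = Module.finrank ℝ E + 1 := by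
    rw [(WithLp.linearEquiv 2 ℝ (ℝ × E)).finrank_eq, Module.finrank_prod, Module.finrank_self]
    ring
  have c1 : Continuous fun p : WithLp 2 (ℝ × E) => p.fst :=
    continuous_fst.comp (WithLp.prodContinuousLinearEquiv 2 ℝ ℝ E).continuous
  have c2 : Continuous fun p : WithLp 2 (ℝ × E) => p.snd :=
    continuous_snd.comp (WithLp.prodContinuousLinearEquiv 2 ℝ ℝ E).continuous
  have cT : Continuous fun p : WithLp 2 (ℝ × E) => (a + b) / 2 + (b - a) / 2 * p.fst :=
    continuous_const.add (continuous_const.mul c1)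
  have cg : Continuous g := by
    refine (h.sc.continuous.comp cT).add ?_
    refine (continuous_const.mul (sm.continuous.comp cT)).smul ?_
    exact (h.sB.continuous.comp cT).clm_apply c2
  have hsph : ∀ p : WithLp 2 (ℝ × E), p ∈ sphere (0 : WithLp 2 (ℝ × E)) 1 ↔
      p.fst ^ 2 + ‖p.snd‖ ^ 2 = 1 := by
    intro p
    rw [mem_sphere_zero_iff_norm]
    have h5 := WithLp.prod_norm_sq_eq_of_L2 p
    rw [Real.norm_eq_abs, sq_abs] at h5
    rw [← h5]
    constructor
    · intro h6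
      rw [h6, one_pow]
    · intro h6
      exact (pow_left_inj₀ (norm_nonneg _) zero_le_one two_ne_zero).1 (h6.trans (one_pow 2).symm)
  have himg : g '' sphere (0 : WithLp 2 (ℝ × E)) 1 = canalM c B q a b 0 := by
    ext x
    rw [Lift_set h hm hq]
    constructor
    · rintro ⟨p, hp, rfl⟩
      rw [hsph] at hp
      exact ⟨p.fst, 0, p.snd, by rw [← hp]; ring, by rw [mul_zero], rfl⟩
    · rintro ⟨τ, s₁, w₁, h1, h2, h3⟩
      have h4 : s₁ = 0 := (mul_eq_zero.1 h2).resolve_left (mul_pos hk (hm _)).ne'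
      refine ⟨WithLp.toLp 2 (τ, w₁), ?_, h3⟩
      rw [hsph]
      rw [h4] at h1
      show τ ^ 2 + ‖w₁‖ ^ 2 = 1
      linarith
  have hinj : InjOn g (sphere (0 : WithLp 2 (ℝ × E)) 1) := by
    intro p hp p' hp' he
    rw [hsph] at hp hp'
    have hT := Lift_T h.lt (by nlinarith [sq_nonneg ‖p.snd‖] : p.fst ^ 2 ≤ 1)
    have hT' := Lift_T h.lt (by nlinarith [sq_nonneg ‖p'.snd‖] : p'.fst ^ 2 ≤ 1)
    have nq : ∀ p : WithLp 2 (ℝ × E), p.fst ^ 2 + ‖p.snd‖ ^ 2 = 1 →
        ‖((b - a) / 2 * m ((a + b) / 2 + (b - a) / 2 * p.fst)) • p.snd‖ ^ 2 =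
          q ((a + b) / 2 + (b - a) / 2 * p.fst) := by
      intro p hp
      rw [hq _ (Lift_T h.lt (by nlinarith [sq_nonneg ‖p.snd‖] : p.fst ^ 2 ≤ 1)),
        Lift_q (τ := p.fst) _ rfl, norm_smul, Real.norm_eq_abs, abs_of_pos (mul_pos hk (hm _)),
        ← hp]
      ring
    have h1 := h.disj _ hT _ hT' _ _ (nq p hp) (nq p' hp') (by
      rw [map_smul, map_smul]
      exact he)
    have h2 : p.fst = p'.fst := by
      have h3 : (b - a) / 2 * p.fst = (b - a) / 2 * p'.fst := by linarith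
      exact mul_left_cancel₀ hk.ne' h3
    have h3 : p.snd = p'.snd := by
      have h4 : g p = g p' := he
      simp only [g] at h4
      rw [h2] at h4 hT
      have h5 := smul_right_injective V (mul_pos hk (hm _)).ne' (add_left_cancel h4)
      have h6 : B ((a + b) / 2 + (b - a) / 2 * p'.fst) (p.snd - p'.snd) = 0 := by
        rw [map_sub, sub_eq_zero]
        exact h5
      have h7 := h.iso _ hT (p.snd - p'.snd)
      rw [h6, norm_zero] at h7
      exact sub_eq_zero.1 (norm_eq_zero.1 h7.symm)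
    have h4 : p = WithLp.toLp 2 (p.fst, p.snd) := rfl
    have h5 : p' = WithLp.toLp 2 (p'.fst, p'.snd) := rfl
    rw [h4, h5, h2, h3]
  have hconn : IsConnected (sphere (0 : WithLp 2 (ℝ × E)) 1) := by
    refine isConnected_sphere ?_ 0 zero_le_one
    rw [← Module.finrank_eq_rank, hfr]
    exact_mod_cast (by omega : 1 < Module.finrank ℝ E + 1)
  rw [← himg]
  refine ⟨hconn.image g cg.continuousOn, ?_⟩
  have hcomp : CompactSpace (sphere (0 : WithLp 2 (ℝ × E)) 1) :=
    isCompact_iff_compactSpace.1 (isCompact_sphere _ _)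
  let e := Equiv.Set.imageOfInjOn g (sphere (0 : WithLp 2 (ℝ × E)) 1) hinj
  have ce : Continuous e := by
    refine Continuous.subtype_mk ?_ _
    exact cg.comp continuous_subtype_val
  exact LiftS.homeo (Continuous.homeoOfEquivCompactToT2 (f := e) ce)
    (liftS_sphere (by rw [hfr]; omega))

end Pool.Schoen
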