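import Pool.Agent.H.MP_6c077c_gt.Cn.Height
import Pool.Agent.H.MP_6c077c_gt.Al.SCut

/-! Canal spheres: the data of the two parts of the cut neck. -/

set_option autoImplicit false

namespace Pool.Schoen

open Filter Set Metric
open scoped Topology RealInnerProductSpace ContDiff

variable {E V : Type*} [NormedAddCommGroup E] [InnerProductSpace ℝ E] [FiniteDimensional ℝ E]
  [NormedAddCommGroup V] [InnerProductSpace ℝ V] [FiniteDimensional ℝ V]
variable {c : ℝ → V} {B : ℝ → E →L[ℝ] V} {q p : ℝ → ℝ} {a b t₀ r ρ ε : ℝ} {Φ Ψ : V → V} {u : V}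

private theorem neckCut_wb_gt {d s : ℝ} (hd : 0 < d) (hs : |s| < d) : 1 < wb d s := by
  have h0 : (s / d) ^ 2 < 1 := by
    rw [div_pow, div_lt_one (by positivity)]
    exact sq_lt_sq' (by linarith [(abs_lt.1 hs).1]) (abs_lt.1 hs).2
  have h1 : 1 < 2 - (s / d) ^ 2 := by linarith
  have h2 : expNegInvGlue (2 - (s / d) ^ 2) = Real.exp (-(2 - (s / d) ^ 2)⁻¹) := by
    unfold expNegInvGlue
    rw [if_neg (by linarith)]
  unfold wb
  rw [h2, ← Real.exp_add, Real.one_lt_exp_iff]
  have h3 : (2 - (s / d) ^ 2)⁻¹ < 1 := inv_lt_one_of_one_lt₀ h1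
  linarith

private theorem neckCut_wb_le {d s : ℝ} (hd : 0 < d) (hs : d ≤ |s|) : wb d s ≤ 1 := by
  have h0 : 1 ≤ (s / d) ^ 2 := by
    rw [div_pow, one_le_div (by positivity), ← sq_abs s]
    exact pow_le_pow_left₀ hd.le hs 2
  by_cases h1 : 0 < 2 - (s / d) ^ 2
  · have h2 : expNegInvGlue (2 - (s / d) ^ 2) = Real.exp (-(2 - (s / d) ^ 2)⁻¹) := by
      unfold expNegInvGlue
      rw [if_neg (by linarith)]
    unfold wb
    rw [h2, ← Real.exp_add, Real.exp_le_one_iff]
    have h3 : 1 ≤ (2 - (s / d) ^ 2)⁻¹ := (one_le_inv₀ h1).2 (by linarith)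
    linarith
  · unfold wb
    rw [expNegInvGlue.zero_of_nonpos (by linarith), mul_zero]
    exact zero_le_one

/-- PROOF. `p t = q t * (1 - wb ε (t - t₀))` with `wb` of `Al/SCut.lean` (`wb_smooth`, `wb_nonneg`,
`wb_zero` for `2 ε ^ 2 ≤ (t - t₀) ^ 2`, `wb_one`, `wb_neg`, `wb_deriv`; `wb > 1` for
`|t - t₀| < ε` from the formula). `q > 0` for `|t - t₀| ≤ ρ` (`la`, `lb`, `CanalD.pos`);
`deriv p = deriv q (1 - wb) - q wb'`, and `4 ε < ρ`. -/
theorem CanalN.exists_cut (h : CanalN c B q a b t₀ Φ Ψ u r ρ ε) : ∃ p, CutP q p t₀ ρ ε := by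
  have hε := h.hε
  have hερ := h.hερ
  have hpos : ∀ t, |t - t₀| ≤ ρ → 0 < q t := fun t ht => by
    obtain ⟨h1, h2⟩ := abs_le.1 ht
    exact h.cn.pos t ⟨by linarith [h.la], by linarith [h.lb]⟩
  refine ⟨fun t => q t * (1 - wb ε (t - t₀)), ?_, ?_, ?_, ?_, ?_, ?_, ?_⟩
  · exact h.cn.sq.mul (contDiff_const.sub ((wb_smooth ε).comp (contDiff_id.sub contDiff_const)))
  · intro t ht
    have h1 : wb ε (t - t₀) = 0 := by
      refine wb_zero hε ?_
      rw [← sq_abs (t - t₀)]
      nlinarith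
    simp only [h1, sub_zero, mul_one]
  · intro t
    by_cases ht : |t - t₀| ≤ ρ
    · have h1 := hpos t ht
      have h2 := wb_nonneg ε (t - t₀)
      show q t * (1 - wb ε (t - t₀)) ≤ q t
      nlinarith
    · have h1 : wb ε (t - t₀) = 0 := by
        refine wb_zero hε ?_
        rw [← sq_abs (t - t₀)]
        push Not at ht
        nlinarith
      simp only [h1, sub_zero, mul_one, le_refl]
  · simp only [add_sub_cancel_left, wb_one hε.ne', sub_self, mul_zero]
  · have h1 : t₀ - ε - t₀ = -ε := by ring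
    simp only [h1, wb_neg, wb_one hε.ne', sub_self, mul_zero]
  · intro t ht
    have h1 := neckCut_wb_gt hε ht
    have h2 := hpos t (by linarith)
    show q t * (1 - wb ε (t - t₀)) < 0
    exact mul_neg_of_pos_of_neg h2 (by linarith)
  · intro t ht ht'
    have hq := hpos t ht'
    obtain ⟨D, hD, hD1, hD2⟩ := wb_deriv hε (t - t₀)
    have h1 : HasDerivAt (fun t => wb ε (t - t₀)) D t := by
      have h2 : HasDerivAt (fun t : ℝ => t - t₀) 1 t := (hasDerivAt_id t).sub_const t₀
      have h3 := HasDerivAt.comp t (h₂ := wb ε) (h := fun t : ℝ => t - t₀) hD h2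
      rw [mul_one] at h3
      exact h3
    have h2 : HasDerivAt q (deriv q t) t :=
      (h.cn.sq.differentiable (by simp) t).hasDerivAt
    have h3 := h2.mul (h1.const_sub 1)
    have h4 : deriv (fun t => q t * (1 - wb ε (t - t₀))) t =
        deriv q t * (1 - wb ε (t - t₀)) + q t * -D := h3.deriv
    rw [h4]
    have hne : t ≠ t₀ := by
      rintro rfl
      rw [sub_self, abs_zero] at ht
      linarith
    have hne' : t - t₀ ≠ 0 := sub_ne_zero.2 hne
    have hm := h.mono t hne ht'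
    have hw := neckCut_wb_le hε ht
    have h5 : (deriv q t * (1 - wb ε (t - t₀)) + q t * -D) * (t - t₀) =
        deriv q t * (t - t₀) * (1 - wb ε (t - t₀)) + q t * -((t - t₀) * D) := by ring
    rw [h5]
    by_cases h6 : (t - t₀) ^ 2 < 2 * ε ^ 2
    · have h7 := hD2 hne' h6
      have h8 : 0 < q t * -((t - t₀) * D) := mul_pos hq (by linarith)
      have h9 : 0 ≤ deriv q t * (t - t₀) * (1 - wb ε (t - t₀)) :=
        mul_nonneg hm.le (by linarith)
      linarith
    · have h7 : wb ε (t - t₀) = 0 := wb_zero hε (not_lt.1 h6)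
      rw [h7, sub_zero, mul_one]
      have h8 : 0 ≤ q t * -((t - t₀) * D) := mul_nonneg hq.le (by linarith)
      linarith

private theorem neckCut_str (h : CanalN c B q a b t₀ Φ Ψ u r ρ ε) (hp : CutP q p t₀ ρ ε) {t : ℝ}
    {w : E} (ht : |t - t₀| ≤ ρ) (hw : ‖w‖ ^ 2 = p t) :
    ‖w‖ < r ∧ Φ (c t + B t w) = (t - t₀) • u + B t₀ w := by
  have h1 : ‖w‖ ^ 2 < r ^ 2 := by
    rw [hw]
    exact (hp.le t).trans_lt (h.small t ht)
  have h2 : ‖w‖ < r := lt_of_pow_lt_pow_left₀ 2 h.st.hr.le h1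
  exact ⟨h2, h.st.str t w (ht.trans h.hρr) h2.le⟩

private theorem neckCut_inner (h : CanalN c B q a b t₀ Φ Ψ u r ρ ε) (σ : ℝ) (w : E) :
    ⟪u, σ • u + B t₀ w⟫ = σ := by
  rw [inner_add_right, real_inner_smul_right, h.st.orth, real_inner_self_eq_norm_sq, h.st.hu]
  ring

private theorem neckCut_far (h : CanalN c B q a b t₀ Φ Ψ u r ρ ε) (hp : CutP q p t₀ ρ ε) {t t' : ℝ}
    {w w' : E} (ht : |t - t₀| < ρ) (ht' : ρ < |t' - t₀|) (hm : t' ∈ Icc a b)
    (hw : ‖w‖ ^ 2 = p t) (hw' : ‖w'‖ ^ 2 = p t') (he : c t + B t w = c t' + B t' w') : False := by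
  obtain ⟨h1, h2⟩ := neckCut_str h hp ht.le hw
  have h3 : ‖w'‖ ^ 2 = q t' := by
    rw [hw', hp.eq t' (by linarith [h.hρ])]
  refine h.far t' hm ht'.le w' h3 ?_
  rw [← he, h2]
  refine ⟨?_, ?_⟩
  · rw [neckCut_inner h]
    exact ht
  · have h4 : Pool.Schoen.orth u ((t - t₀) • u + B t₀ w) = B t₀ w := by
      unfold Pool.Schoen.orth
      rw [neckCut_inner h]
      abel
    rw [h4, h.st.iso]
    exact h1.le

private theorem neckCut_disj (h : CanalN c B q a b t₀ Φ Ψ u r ρ ε) (hp : CutP q p t₀ ρ ε) {t t' : ℝ}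
    {w w' : E} (hm : t ∈ Icc a b) (hm' : t' ∈ Icc a b) (hw : ‖w‖ ^ 2 = p t)
    (hw' : ‖w'‖ ^ 2 = p t') (he : c t + B t w = c t' + B t' w') : t = t' := by
  have hρ := h.hρ
  rcases le_or_gt |t - t₀| ρ with h1 | h1
  · rcases le_or_gt |t' - t₀| ρ with h2 | h2
    · have h3 := (neckCut_str h hp h1 hw).2
      have h4 := (neckCut_str h hp h2 hw').2
      rw [he, h4] at h3
      have h5 : ⟪u, (t' - t₀) • u + B t₀ w'⟫ = ⟪u, (t - t₀) • u + B t₀ w⟫ := by rw [h3]
      rw [neckCut_inner h, neckCut_inner h] at h5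
      linarith
    · rcases lt_or_ge |t - t₀| ρ with h3 | h3
      · exact (neckCut_far h hp h3 h2 hm' hw hw' he).elim
      · exact h.cn.disj t hm t' hm' w w' (by rw [hw, hp.eq t (by linarith)])
          (by rw [hw', hp.eq t' (by linarith)]) he
  · rcases lt_or_ge |t' - t₀| ρ with h2 | h2
    · exact (neckCut_far h hp h2 h1 hm hw' hw he.symm).elim
    · exact h.cn.disj t hm t' hm' w w' (by rw [hw, hp.eq t (by linarith)])
        (by rw [hw', hp.eq t' (by linarith)]) he

private theorem neckCut_deriv (hp : CutP q p t₀ ρ ε) {t : ℝ} (ht : ρ / 2 < |t - t₀|) :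
    deriv p t = deriv q t := by
  refine Filter.EventuallyEq.deriv_eq ?_
  have h1 : ContinuousAt (fun t : ℝ => |t - t₀|) t := by fun_prop
  filter_upwards [h1.eventually (lt_mem_nhds ht)] with x hx
  exact hp.eq x hx.le

private theorem neckCut_imm (h : CanalN c B q a b t₀ Φ Ψ u r ρ ε) (hp : CutP q p t₀ ρ ε) {t : ℝ}
    {w w' : E} (hm : t ∈ Icc a b) (hw : ‖w‖ ^ 2 = p t) (hw' : 2 * ⟪w, w'⟫ = deriv p t) :
    deriv c t + deriv B t w + B t w' ≠ 0 := by
  have hρ := h.hρ
  rcases lt_or_ge (ρ / 2) |t - t₀| with h1 | h1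
  · exact h.cn.imm t hm w w' (by rw [hw, hp.eq t h1.le]) (by rw [hw', neckCut_deriv hp h1])
  · intro h0
    have h2 := (neckCut_str h hp (by linarith : |t - t₀| ≤ ρ) hw).1
    have hc : HasDerivAt c (deriv c t) t := (h.cn.sc.differentiable (by simp) t).hasDerivAt
    have hB : HasDerivAt B (deriv B t) t := (h.cn.sB.differentiable (by simp) t).hasDerivAt
    have hv : HasDerivAt (fun τ : ℝ => w + (τ - t) • w') w' t := by
      have h3 := (((hasDerivAt_id t).sub_const t).smul_const w').const_add w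
      rw [one_smul] at h3
      exact h3
    have h3 := hc.add (hB.clm_apply hv)
    simp only [sub_self, zero_smul, add_zero] at h3
    rw [← add_assoc, h0] at h3
    have h4 : HasFDerivAt Φ (fderiv ℝ Φ (c t + B t w)) (c t + B t w) := h.st.dif.has _
    have h5 : HasDerivAt (fun τ : ℝ => Φ (c τ + B τ (w + (τ - t) • w'))) 0 t := by
      have h6 : HasFDerivAt Φ (fderiv ℝ Φ (c t + B t w))
          ((fun τ : ℝ => c τ + B τ (w + (τ - t) • w')) t) := by
        simpa using h4
      have h7 := HasFDerivAt.comp_hasDerivAt t h6 h3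
      rw [map_zero] at h7
      exact h7
    have h6 : HasDerivAt (fun τ : ℝ => (τ - t₀) • u + B t₀ (w + (τ - t) • w')) (u + B t₀ w') t := by
      have h7 := ((hasDerivAt_id t).sub_const t₀).smul_const u
      rw [one_smul] at h7
      have h8 := (B t₀).hasFDerivAt.comp_hasDerivAt t hv
      exact h7.add h8
    have h7 : (fun τ : ℝ => Φ (c τ + B τ (w + (τ - t) • w'))) =ᶠ[𝓝 t]
        fun τ : ℝ => (τ - t₀) • u + B t₀ (w + (τ - t) • w') := by
      have h8 : ContinuousAt (fun τ : ℝ => ‖w + (τ - t) • w'‖) t := by fun_prop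
      have h9 : ContinuousAt (fun τ : ℝ => |τ - t₀|) t := by fun_prop
      have h10 : ‖w + (t - t) • w'‖ < r := by simpa using h2
      have h11 : |t - t₀| < ρ := by linarith
      filter_upwards [h8.eventually (gt_mem_nhds h10), h9.eventually (gt_mem_nhds h11)] with x hx hx'
      exact h.st.str x _ (hx'.le.trans h.hρr) hx.le
    have h8 : HasDerivAt (fun τ : ℝ => (τ - t₀) • u + B t₀ (w + (τ - t) • w')) 0 t :=
      h5.congr_of_eventuallyEq h7.symm
    have h9 := h6.unique h8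
    have h10 : ⟪u, (1 : ℝ) • u + B t₀ w'⟫ = 1 := neckCut_inner h 1 w'
    rw [one_smul, h9, inner_zero_right] at h10
    exact zero_ne_one h10

/-- PROOF. `p = q` near the points with `|t - t₀| > ρ / 2`. Positive inside: monotonicity on
`ε ≤ |t - t₀| ≤ ρ`. `disj`: let `t ≠ t'` and equal points `x`. If both `|t - t₀|, |t' - t₀| ≥ ρ / 2`
use the old data. If both are `≤ ρ`: `‖w‖ ^ 2 = p t ≤ q t < r ^ 2`, the same for `w'`, so
`Strt0.str` gives `t - t₀ = ⟪u, Φ x⟫ = t' - t₀`. If `|t - t₀| < ρ / 2` and `|t' - t₀| ≥ ρ`: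
`Φ x = (t - t₀) u + B t₀ w` is in the box, against `far` for `t'` (`p t' = q t'`). `imm`: if
`|t - t₀| > ρ / 2` the old data (`deriv p t = deriv q t`); if `|t - t₀| < ρ`: differentiate
`Φ (c t + B t w) = (t - t₀) u + B t₀ w` along `(1, w')` (`‖w‖ < r`): if
`c' + B' w + B w' = 0` then `0 = u + B t₀ w'`, but `u` is a unit vector orthogonal to
`B t₀ w'`. -/
theorem CanalN.cut (h : CanalN c B q a b t₀ Φ Ψ u r ρ ε) (hp : CutP q p t₀ ρ ε) :
    CanalD c B p a (t₀ - ε) ∧ CanalD c B p (t₀ + ε) b := by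
  have hρ := h.hρ
  have hε := h.hε
  have hερ := h.hερ
  have hla := h.la
  have hlb := h.lb
  have hlt := h.cn.lt
  have hcont : Continuous p := hp.smooth.continuous
  refine ⟨?_, ?_⟩
  · have hab1 : |a - t₀| = t₀ - a := by
      rw [abs_sub_comm, abs_of_pos (by linarith)]
    have hab : ρ / 2 < |a - t₀| := by
      rw [hab1]
      linarith
    have habe : |t₀ - ε - t₀| = ε := by
      rw [show t₀ - ε - t₀ = -ε by ring, abs_neg, abs_of_pos hε]
    refine ⟨by linarith, h.cn.sc, h.cn.sB, hp.smooth, ?_, ?_, hp.zm, ?_, ?_, ?_, ?_, ?_⟩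
    · exact fun t ht w => h.cn.iso t ⟨ht.1, by linarith [ht.2]⟩ w
    · rw [hp.eq a hab.le, h.cn.za]
    · rw [neckCut_deriv hp hab]
      exact h.cn.da
    · have h1 := hp.mono (t₀ - ε) habe.ge (by rw [habe]; linarith)
      rw [show t₀ - ε - t₀ = -ε by ring] at h1
      by_contra h2
      push Not at h2
      nlinarith
    · intro t ht
      rcases le_or_gt (ρ / 2) |t - t₀| with h1 | h1
      · rw [hp.eq t h1]
        exact h.cn.pos t ⟨ht.1, by linarith [ht.2]⟩
      · have h2 : StrictAntiOn p (Icc (t₀ - ρ) (t₀ - ε)) := by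
          refine strictAntiOn_of_deriv_neg (convex_Icc _ _) hcont.continuousOn ?_
          intro x hx
          rw [interior_Icc] at hx
          have h3 : |x - t₀| = t₀ - x := by
            rw [abs_sub_comm, abs_of_pos (by linarith [hx.2])]
          have h4 := hp.mono x (by rw [h3]; linarith [hx.2]) (by rw [h3]; linarith [hx.1])
          by_contra h5
          push Not at h5
          have h6 : deriv p x * (x - t₀) ≤ 0 :=
            mul_nonpos_of_nonneg_of_nonpos h5 (by linarith [hx.2])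
          linarith
        have h3 := h2 (a := t) (b := t₀ - ε) ⟨by linarith [(abs_lt.1 h1).1], ht.2.le⟩
          ⟨by linarith, le_rfl⟩ ht.2
        rw [hp.zm] at h3
        exact h3
    · exact fun t ht t' ht' w w' hw hw' he => neckCut_disj h hp ⟨ht.1, by linarith [ht.2]⟩
        ⟨ht'.1, by linarith [ht'.2]⟩ hw hw' he
    · exact fun t ht w w' hw hw' => neckCut_imm h hp ⟨ht.1, by linarith [ht.2]⟩ hw hw'
  · have hab1 : |b - t₀| = b - t₀ := abs_of_pos (by linarith)
    have hab : ρ / 2 < |b - t₀| := by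
      rw [hab1]
      linarith
    have habe : |t₀ + ε - t₀| = ε := by
      rw [add_sub_cancel_left, abs_of_pos hε]
    refine ⟨by linarith, h.cn.sc, h.cn.sB, hp.smooth, ?_, hp.zp, ?_, ?_, ?_, ?_, ?_, ?_⟩
    · exact fun t ht w => h.cn.iso t ⟨by linarith [ht.1], ht.2⟩ w
    · rw [hp.eq b hab.le, h.cn.zb]
    · have h1 := hp.mono (t₀ + ε) habe.ge (by rw [habe]; linarith)
      rw [add_sub_cancel_left] at h1
      exact pos_of_mul_pos_left h1 hε.le
    · rw [neckCut_deriv hp hab]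
      exact h.cn.db
    · intro t ht
      rcases le_or_gt (ρ / 2) |t - t₀| with h1 | h1
      · rw [hp.eq t h1]
        exact h.cn.pos t ⟨by linarith [ht.1], ht.2⟩
      · have h2 : StrictMonoOn p (Icc (t₀ + ε) (t₀ + ρ)) := by
          refine strictMonoOn_of_deriv_pos (convex_Icc _ _) hcont.continuousOn ?_
          intro x hx
          rw [interior_Icc] at hx
          have h3 : |x - t₀| = x - t₀ := abs_of_pos (by linarith [hx.1])
          have h4 := hp.mono x (by rw [h3]; linarith [hx.1]) (by rw [h3]; linarith [hx.2])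
          exact pos_of_mul_pos_left h4 (by linarith [hx.1])
        have h3 := h2 (a := t₀ + ε) (b := t) ⟨le_rfl, by linarith⟩
          ⟨ht.1.le, by linarith [(abs_lt.1 h1).2]⟩ ht.1
        rw [hp.zp] at h3
        exact h3
    · exact fun t ht t' ht' w w' hw hw' he => neckCut_disj h hp ⟨by linarith [ht.1], ht.2⟩
        ⟨by linarith [ht'.1], ht'.2⟩ hw hw' he
    · exact fun t ht w w' hw hw' => neckCut_imm h hp ⟨by linarith [ht.1], ht.2⟩ hw hw'

end Pool.Schoen
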