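import Pool.Agent.H.MP_6c077c_gt.Cn.TubeCh
import Pool.Agent.H.MP_6c077c_gt.Cn.Stop

/-! Canal spheres: the sum of two unknotted spheres along a neck. -/

set_option autoImplicit false

namespace Pool.Schoen

open Filter Set Metric
open scoped Topology RealInnerProductSpace ContDiff

variable {V : Type*} [NormedAddCommGroup V] [InnerProductSpace ℝ V] [FiniteDimensional ℝ V]
variable {F : V → ℝ} {u : V} {ρ r r₁ ε : ℝ} {p p' : ℝ → ℝ}

/-- A smooth cut-off function. -/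
private theorem NeckSum_bump {a b : ℝ} (ha : 0 < a) (hab : a < b) : ∃ χ : ℝ → ℝ,
    ContDiff ℝ ∞ χ ∧ (∀ s, |s| ≤ a → χ s = 1) ∧ (∀ s, b ≤ |s| → χ s = 0) ∧
      ∀ s, 0 ≤ χ s ∧ χ s ≤ 1 := by
  have h0 : 0 < b ^ 2 - a ^ 2 := by nlinarith
  refine ⟨fun s => Real.smoothTransition ((b ^ 2 - s ^ 2) / (b ^ 2 - a ^ 2)), ?_, ?_, ?_, ?_⟩
  · exact Real.smoothTransition.contDiff.comp
      ((contDiff_const.sub (contDiff_id.pow 2)).div_const _)
  · intro s hs
    apply Real.smoothTransition.one_of_one_le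
    rw [le_div_iff₀ h0, one_mul]
    have : s ^ 2 ≤ a ^ 2 := by
      rw [← sq_abs s]
      nlinarith [abs_nonneg s]
    linarith
  · intro s hs
    apply Real.smoothTransition.zero_of_nonpos
    apply div_nonpos_of_nonpos_of_nonneg _ h0.le
    have : b ^ 2 ≤ s ^ 2 := by
      rw [← sq_abs s]
      nlinarith [abs_nonneg s]
    linarith
  · intro s
    exact ⟨Real.smoothTransition.nonneg _, Real.smoothTransition.le_one _⟩

/-- The part of a profile on the left. -/
private theorem NeckSum_left {ε : ℝ} (hε : 0 < ε) {g : ℝ → ℝ} (hg : ContDiff ℝ ∞ g)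
    (hneg : ∀ σ, |σ| < ε → g σ < 0) : ∃ gL : ℝ → ℝ, ContDiff ℝ ∞ gL ∧
      (∀ σ, σ ≤ -(ε / 2) → gL σ = g σ) ∧ (∀ σ, -ε < σ → gL σ < 0) ∧ ∀ σ, 0 ≤ σ → gL σ = -1 := by
  set θ : ℝ → ℝ := fun σ => Real.smoothTransition (-(2 / ε) * σ) with hθ
  have h1 : ContDiff ℝ ∞ θ :=
    Real.smoothTransition.contDiff.comp (contDiff_const.mul contDiff_id)
  have h2 : ∀ σ, σ ≤ -(ε / 2) → θ σ = 1 := by
    intro σ hσ
    apply Real.smoothTransition.one_of_one_le
    have : (1 : ℝ) = -(2 / ε) * (-(ε / 2)) := by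
      field_simp
    rw [this]
    apply mul_le_mul_of_nonpos_left hσ
    rw [neg_nonpos]
    positivity
  have h3 : ∀ σ, 0 ≤ σ → θ σ = 0 := by
    intro σ hσ
    apply Real.smoothTransition.zero_of_nonpos
    have : 0 ≤ 2 / ε * σ := by positivity
    linarith
  have h4 : ∀ σ, 0 ≤ θ σ ∧ θ σ ≤ 1 := fun σ =>
    ⟨Real.smoothTransition.nonneg _, Real.smoothTransition.le_one _⟩
  refine ⟨fun σ => θ σ * g σ - (1 - θ σ), ?_, ?_, ?_, ?_⟩
  · exact (h1.mul hg).sub (contDiff_const.sub h1)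
  · intro σ hσ
    simp only [h2 σ hσ]
    ring
  · intro σ hσ
    rcases le_or_gt 0 σ with h5 | h5
    · simp only [h3 σ h5]
      norm_num
    · have h6 := hneg σ (by rw [abs_of_neg h5]; linarith)
      obtain ⟨h7, h8⟩ := h4 σ
      show θ σ * g σ - (1 - θ σ) < 0
      rcases eq_or_lt_of_le h7 with h9 | h9
      · rw [← h9]
        norm_num
      · have := mul_neg_of_pos_of_neg h9 h6
        linarith
  · intro σ hσ
    simp only [h3 σ hσ]
    norm_num

private theorem NeckSum_wb_gt {d s : ℝ} (hd : 0 < d) (hs : |s| < d) : 1 < wb d s := by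
  have h0 : (s / d) ^ 2 < 1 := by
    rw [div_pow, div_lt_one (by positivity), ← sq_abs s]
    nlinarith [abs_nonneg s]
  have h2 : 1 < 2 - (s / d) ^ 2 := by linarith
  have h1 : expNegInvGlue (2 - (s / d) ^ 2) = Real.exp (-(2 - (s / d) ^ 2)⁻¹) := by
    unfold expNegInvGlue
    rw [if_neg (by linarith)]
  unfold wb
  rw [h1, ← Real.exp_add, Real.one_lt_exp_iff]
  have := inv_lt_one_of_one_lt₀ h2
  linarith

private theorem NeckSum_wb_lt {d s : ℝ} (hd : 0 < d) (hs : d < |s|) : wb d s < 1 := by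
  have h0 : 1 < (s / d) ^ 2 := by
    rw [div_pow, one_lt_div (by positivity), ← sq_abs s]
    nlinarith [abs_nonneg s]
  unfold wb
  rcases le_or_gt (2 - (s / d) ^ 2) 0 with h1 | h1
  · rw [expNegInvGlue.zero_of_nonpos h1, mul_zero]
    exact one_pos
  · have h2 : expNegInvGlue (2 - (s / d) ^ 2) = Real.exp (-(2 - (s / d) ^ 2)⁻¹) := by
      unfold expNegInvGlue
      rw [if_neg (not_le.2 h1)]
    rw [h2, ← Real.exp_add, Real.exp_lt_one_iff]
    have := (one_lt_inv₀ h1).2 (by linarith)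
    linarith

omit [FiniteDimensional ℝ V] in
private theorem NeckSum_orth_smul (u : V) (κ : ℝ) (x : V) : orth u (κ • x) = κ • orth u x := by
  unfold orth
  rw [real_inner_smul_right, smul_sub, smul_smul]

omit [FiniteDimensional ℝ V] in
private theorem NeckSum_orth_neg (u x : V) : orth (-u) x = orth u x := by
  unfold orth
  rw [inner_neg_left, neg_smul, smul_neg, neg_neg]

omit [FiniteDimensional ℝ V] in
private theorem NeckSum_box_neg {u : V} {ρ r : ℝ} {x : V} : Box (-u) ρ r x ↔ Box u ρ r x := by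
  unfold Box
  rw [NeckSum_orth_neg, inner_neg_left, abs_neg]

omit [FiniteDimensional ℝ V] in
/-- Coordinates of the points of the rotated curve. -/
private theorem NeckSum_coord {u w : V} (hu : ‖u‖ = 1) (hw : ⟪u, w⟫ = 0) (s c : ℝ) :
    ⟪u, s • u + c • w⟫ = s ∧ orth u (s • u + c • w) = c • w := by
  have h1 : ⟪u, s • u + c • w⟫ = s := by
    rw [inner_add_right, real_inner_smul_right, real_inner_smul_right, hw,
      real_inner_self_eq_norm_sq, hu]
    ring
  refine ⟨h1, ?_⟩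
  unfold orth
  rw [h1, add_sub_cancel_left]

omit [FiniteDimensional ℝ V] in
/-- The cap of the left half. -/
private theorem NeckSum_cap {g : ℝ → ℝ} {S T : Set V} (hu : ‖u‖ = 1) (hε : 0 < ε)
    (hrr : r₁ < r) (hr₁ : 0 < r₁) (hg : ContDiff ℝ ∞ g) (hz : g (-ε) = 0)
    (hneg : ∀ σ, |σ| < ε → g σ < 0) (hmono : ∀ σ, -ρ < σ → σ ≤ -ε → deriv g σ < 0)
    (hlt : ∀ σ, |σ| < ρ → g σ < r₁ ^ 2)
    (hST : ∀ x, Box u ρ r x → ‖orth u x‖ ^ 2 = g ⟪u, x⟫ → x ∈ S ∪ T) (hdisj : Disjoint S T)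
    (hS : IsClosed S) (hT : IsClosed T) (h1 : (-ε) • u ∈ S) {x : V} (hx : Box u ρ r x)
    (hxn : ⟪u, x⟫ < 0) (hxz : ‖orth u x‖ ^ 2 = g ⟪u, x⟫) : x ∈ S := by
  obtain ⟨hx1, hx2⟩ := hx
  set σ := ⟪u, x⟫ with hσ
  set w := orth u x with hw
  have e0 : x = σ • u + w := by
    rw [hw]
    unfold orth
    abel
  have hσρ : -ρ < σ := (abs_lt.1 hx1).1
  have hσε : σ ≤ -ε := by
    by_contra hc
    push Not at hc
    have h2 := hneg σ (by rw [abs_of_neg hxn]; linarith)
    have h3 : 0 ≤ ‖w‖ ^ 2 := by positivity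
    linarith
  have hanti : StrictAntiOn g (Icc σ (-ε)) := by
    apply strictAntiOn_of_deriv_neg (convex_Icc _ _) hg.continuous.continuousOn
    intro s hs
    rw [interior_Icc] at hs
    exact hmono s (by linarith [hs.1]) hs.2.le
  have hnn : ∀ s ∈ Icc σ (-ε), 0 ≤ g s := by
    intro s hs
    rw [← hz]
    exact hanti.antitoneOn hs ⟨hσε, le_rfl⟩ hs.2
  by_cases hw0 : w = 0
  · have h2 : g σ = 0 := by
      rw [← hxz, hw0, norm_zero]
      norm_num
    have h3 : σ = -ε := by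
      rcases eq_or_lt_of_le hσε with h | h
      · exact h
      · exfalso
        have := hanti ⟨le_rfl, hσε⟩ ⟨hσε, le_rfl⟩ h
        rw [hz, h2] at this
        exact lt_irrefl _ this
    rw [e0, hw0, add_zero, h3]
    exact h1
  · have hwn : 0 < ‖w‖ := norm_pos_iff.2 hw0
    have huw : ⟪u, w⟫ = 0 := inner_orth hu x
    set γ : ℝ → V := fun s => s • u + (√(g s) / ‖w‖) • w with hγ
    have hγc : Continuous γ := by
      have := hg.continuous
      fun_prop
    have hγST : γ '' Icc σ (-ε) ⊆ S ∪ T := by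
      rintro _ ⟨s, hs, rfl⟩
      obtain ⟨h2, h3⟩ := NeckSum_coord hu huw s (√(g s) / ‖w‖)
      have h4 : ‖orth u (γ s)‖ = √(g s) := by
        rw [hγ]
        simp only []
        rw [h3, norm_smul, Real.norm_eq_abs, abs_of_nonneg (by positivity)]
        field_simp
      have h5 : |s| < ρ := by
        rw [abs_lt]
        constructor <;> linarith [hs.1, hs.2]
      apply hST
      · refine ⟨?_, ?_⟩
        · show |⟪u, s • u + (√(g s) / ‖w‖) • w⟫| < ρ
          rw [h2]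
          exact h5
        · rw [h4]
          calc √(g s) < √(r₁ ^ 2) := Real.sqrt_lt_sqrt (hnn s hs) (hlt s h5)
            _ = r₁ := Real.sqrt_sq hr₁.le
            _ < r := hrr
      · rw [h4, Real.sq_sqrt (hnn s hs)]
        show g s = g ⟪u, s • u + (√(g s) / ‖w‖) • w⟫
        rw [h2]
    have hpre : IsPreconnected (γ '' Icc σ (-ε)) :=
      isPreconnected_Icc.image γ hγc.continuousOn
    have hend : γ (-ε) = (-ε) • u := by
      rw [hγ]
      simp only []
      rw [hz, Real.sqrt_zero, zero_div, zero_smul, add_zero]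
    have hstart : γ σ = x := by
      rw [hγ]
      simp only []
      rw [← hxz, Real.sqrt_sq hwn.le, div_self hwn.ne', one_smul, ← e0]
    have hdis : γ '' Icc σ (-ε) ∩ (S ∩ T) = ∅ := by
      rw [hdisj.inter_eq, inter_empty]
    rcases isPreconnected_iff_subset_of_disjoint_closed.1 hpre S T hS hT hγST hdis with h | h
    · exact h ⟨σ, ⟨le_rfl, hσε⟩, hstart⟩
    · exfalso
      have h6 : (-ε) • u ∈ T := h ⟨-ε, ⟨hσε, le_rfl⟩, hend⟩
      exact Set.disjoint_left.1 hdisj h1 h6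

/-- The left half: cutting off the neck with another profile. -/
private theorem NeckSum_half (hn : 3 ≤ Module.finrank ℝ V) {M₁ M₂ : Set V} {g gs : ℝ → ℝ}
    (hu : ‖u‖ = 1) (hε : 0 < ε) (hερ : 4 * ε < ρ) (hr₁ : 0 < r₁) (hrr : r₁ < r)
    (hg : ContDiff ℝ ∞ g) (hgs : ContDiff ℝ ∞ gs) (hlt : ∀ σ, |σ| < ρ → g σ < r₁ ^ 2)
    (hlts : ∀ σ, |σ| < ρ → gs σ < r₁ ^ 2) (heq : ∀ σ, ρ / 2 ≤ |σ| → gs σ = g σ)
    (hz : g ε = 0) (hz' : g (-ε) = 0) (hneg : ∀ σ, |σ| < ε → g σ < 0)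
    (hmono : ∀ σ, ε ≤ |σ| → |σ| < ρ → 0 < deriv g σ * σ)
    (hsneg : ∀ σ, |σ| < ε → gs σ < 0)
    (hspos : ∀ σ, -ρ < σ → σ < -ε → 0 < gs σ) (hsd : deriv gs (-ε) < 0)
    (hM : ∀ x, Box u ρ r x → (x ∈ M₁ ∪ M₂ ↔ ‖orth u x‖ ^ 2 = g ⟪u, x⟫))
    (hdisj : Disjoint M₁ M₂) (hcl₁ : IsClosed M₁) (hcl₂ : IsClosed M₂)
    (h1 : (-ε) • u ∈ M₁) (h2 : ε • u ∈ M₂) (hU₁ : Unk M₁) :
    ∃ N₁ : Set V, Unk N₁ ∧
      (∀ x, Box u ρ r x → (x ∈ N₁ ↔ ⟪u, x⟫ < 0 ∧ ‖orth u x‖ ^ 2 = gs ⟪u, x⟫)) ∧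
      ∀ x, ¬ Box u ρ r x → (x ∈ N₁ ↔ x ∈ M₁) := by
  obtain ⟨gL, sL, eL, nL, cL⟩ := NeckSum_left hε hg hneg
  obtain ⟨hL, tL, fL, mL, dL⟩ := NeckSum_left hε hgs hsneg
  have hmono' : ∀ σ, -ρ < σ → σ ≤ -ε → deriv g σ < 0 := by
    intro σ h3 h4
    have h5 := hmono σ (by rw [abs_of_neg (by linarith)]; linarith)
      (by rw [abs_of_neg (by linarith)]; linarith)
    by_contra hc
    push Not at hc
    have : deriv g σ * σ ≤ 0 := mul_nonpos_of_nonneg_of_nonpos hc (by linarith)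
    linarith
  have hmono2 : ∀ σ, -ρ < σ → σ ≤ -ε → deriv (fun s => g (-s)) σ < 0 := by
    intro σ h3 h4
    rw [deriv_comp_neg]
    have h5 := hmono (-σ) (by rw [abs_neg, abs_of_neg (by linarith)]; linarith)
      (by rw [abs_neg, abs_of_neg (by linarith)]; linarith)
    by_contra hc
    push Not at hc
    have h6 : deriv g (-σ) ≤ 0 := by linarith
    have : deriv g (-σ) * (-σ) ≤ 0 := mul_nonpos_of_nonpos_of_nonneg h6 (by linarith)
    linarith
  have hgpos : ∀ σ, -ρ < σ → σ < -ε → 0 < g σ := by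
    intro σ h3 h4
    have hanti : StrictAntiOn g (Icc σ (-ε)) := by
      apply strictAntiOn_of_deriv_neg (convex_Icc _ _) hg.continuous.continuousOn
      intro s hs
      rw [interior_Icc] at hs
      exact hmono' s (by linarith [hs.1]) hs.2.le
    have := hanti ⟨le_rfl, h4.le⟩ ⟨h4.le, le_rfl⟩ h4
    rwa [hz'] at this
  have hcapL : ∀ x, Box u ρ r x → ⟪u, x⟫ < 0 → ‖orth u x‖ ^ 2 = g ⟪u, x⟫ → x ∈ M₁ := by
    intro x hx h3 h4
    exact NeckSum_cap hu hε hrr hr₁ hg hz' hneg hmono' hlt (fun y hy h5 => (hM y hy).2 h5) hdisj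
      hcl₁ hcl₂ h1 hx h3 h4
  have hcapR : ∀ x, Box u ρ r x → 0 < ⟪u, x⟫ → ‖orth u x‖ ^ 2 = g ⟪u, x⟫ → x ∈ M₂ := by
    intro x hx h3 h4
    refine NeckSum_cap (u := -u) (ρ := ρ) (r := r) (r₁ := r₁) (ε := ε) (g := fun s => g (-s))
      (S := M₂) (T := M₁) (by rwa [norm_neg]) hε hrr hr₁ (hg.comp contDiff_neg) ?_ ?_ hmono2 ?_ ?_
      hdisj.symm hcl₂ hcl₁ ?_ (NeckSum_box_neg.2 hx) ?_ ?_
    · simpa using hz
    · intro σ hσ
      exact hneg (-σ) (by rwa [abs_neg])
    · intro σ hσ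
      exact hlt (-σ) (by rwa [abs_neg])
    · intro y hy h5
      rw [NeckSum_orth_neg] at h5
      simp only [inner_neg_left, neg_neg] at h5
      rw [union_comm]
      exact (hM y (NeckSum_box_neg.1 hy)).2 h5
    · rw [smul_neg, neg_smul, neg_neg]
      exact h2
    · rw [inner_neg_left]
      linarith
    · rw [NeckSum_orth_neg]
      simp only [inner_neg_left, neg_neg]
      exact h4
  have hout : ∀ x σ, ‖orth u x‖ ^ 2 = g σ → ε ≤ |σ| := by
    intro x σ h3
    by_contra hc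
    push Not at hc
    have h4 := hneg σ hc
    have h5 : 0 ≤ ‖orth u x‖ ^ 2 := by positivity
    linarith
  have houts : ∀ x σ, ‖orth u x‖ ^ 2 = gs σ → ε ≤ |σ| := by
    intro x σ h3
    by_contra hc
    push Not at hc
    have h4 := hsneg σ hc
    have h5 : 0 ≤ ‖orth u x‖ ^ 2 := by positivity
    linarith
  have hbox : ∀ x, Box u ρ r x → (x ∈ M₁ ↔ ‖orth u x‖ ^ 2 = gL ⟪u, x⟫) := by
    intro x hx
    constructor
    · intro h3
      have h4 := (hM x hx).1 (Or.inl h3)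
      have h5 := hout x _ h4
      have h6 : ⟪u, x⟫ < 0 := by
        by_contra hc
        push Not at hc
        have h7 : 0 < ⟪u, x⟫ := by
          rw [abs_of_nonneg hc] at h5
          linarith
        exact Set.disjoint_left.1 hdisj h3 (hcapR x hx h7 h4)
      rw [abs_of_neg h6] at h5
      rw [eL _ (by linarith)]
      exact h4
    · intro h3
      have h4 : ⟪u, x⟫ ≤ -ε := by
        by_contra hc
        push Not at hc
        have h5 := nL _ hc
        have h6 : 0 ≤ ‖orth u x‖ ^ 2 := by positivity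
        linarith
      rw [eL _ (by linarith)] at h3
      exact hcapL x hx (by linarith) h3
  have hint : OrdConnected {σ | |σ| < ρ ∧ 0 < gL σ} := by
    constructor
    rintro a ⟨ha1, ha2⟩ b ⟨hb1, hb2⟩ z ⟨hz1, hz2⟩
    have h3 : b < -ε := by
      rcases lt_trichotomy b (-ε) with h | h | h
      · exact h
      · exfalso
        rw [h, eL _ (by linarith), hz'] at hb2
        exact lt_irrefl _ hb2
      · exfalso
        have := nL _ h
        linarith
    have h4 := (abs_lt.1 ha1).1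
    refine ⟨?_, ?_⟩
    · rw [abs_lt]
      constructor <;> linarith
    · rw [eL _ (by linarith)]
      exact hgpos z (by linarith) (by linarith)
  have hdg : deriv gL (-ε) = deriv g (-ε) := by
    apply Filter.EventuallyEq.deriv_eq
    filter_upwards [Iio_mem_nhds (show -ε < -(ε / 2) by linarith)] with s hs
    exact eL s (le_of_lt hs)
  have hds : deriv hL (-ε) = deriv gs (-ε) := by
    apply Filter.EventuallyEq.deriv_eq
    filter_upwards [Iio_mem_nhds (show -ε < -(ε / 2) by linarith)] with s hs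
    exact fL s (le_of_lt hs)
  have hreg : ∀ l ∈ Icc (0 : ℝ) 1, ∀ σ, |σ| < ρ → (1 - l) * gL σ + l * hL σ = 0 →
      (1 - l) * deriv gL σ + l * deriv hL σ ≠ 0 := by
    intro l hl σ hσ h3
    have h4 : σ = -ε := by
      rcases lt_trichotomy σ (-ε) with h | h | h
      · exfalso
        have h5 : 0 < gL σ := by
          rw [eL _ (by linarith)]
          exact hgpos σ (abs_lt.1 hσ).1 h
        have h6 : 0 < hL σ := by
          rw [fL _ (by linarith)]
          exact hspos σ (abs_lt.1 hσ).1 h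
        nlinarith [hl.1, hl.2, mul_nonneg (sub_nonneg.2 hl.2) h5.le, mul_nonneg hl.1 h6.le,
          mul_pos h5 h6]
      · exact h
      · exfalso
        have h5 := nL σ h
        have h6 := mL σ h
        rcases eq_or_lt_of_le hl.1 with h7 | h7
        · rw [← h7] at h3
          linarith
        · have h8 : l * hL σ < 0 := mul_neg_of_pos_of_neg h7 h6
          have h9 : (1 - l) * gL σ ≤ 0 :=
            mul_nonpos_of_nonneg_of_nonpos (by linarith [hl.2]) h5.le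
          linarith
    rw [h4, hdg, hds]
    have h5 : deriv g (-ε) < 0 := hmono' _ (by linarith) le_rfl
    rcases eq_or_lt_of_le hl.1 with h7 | h7
    · rw [← h7]
      intro h8
      linarith
    · have h8 : l * deriv gs (-ε) < 0 := mul_neg_of_pos_of_neg h7 hsd
      have h9 : (1 - l) * deriv g (-ε) ≤ 0 :=
        mul_nonpos_of_nonneg_of_nonpos (by linarith [hl.2]) h5.le
      intro h10
      linarith
  have hlt2 : ∀ σ, |σ| < ρ → gL σ < r₁ ^ 2 ∧ hL σ < r₁ ^ 2 := by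
    intro σ hσ
    have h0 : 0 < r₁ ^ 2 := by positivity
    rcases le_or_gt σ (-ε) with h | h
    · rw [eL _ (by linarith), fL _ (by linarith)]
      exact ⟨hlt σ hσ, hlts σ hσ⟩
    · exact ⟨by linarith [nL σ h], by linarith [mL σ h]⟩
  have heq2 : ∀ σ, ρ / 2 ≤ |σ| → hL σ = gL σ := by
    intro σ hσ
    rcases le_or_gt 0 σ with h | h
    · rw [cL σ h, dL σ h]
    · rw [abs_of_neg h] at hσ
      rw [eL _ (by linarith), fL _ (by linarith)]
      exact heq σ (by rw [abs_of_neg h]; exact hσ)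
  have key := unk_tube hn hU₁ hu sL tL (ρ₂ := ρ / 2) (by linarith) (by linarith) hr₁ hrr hbox heq2
    hlt2 hint hreg
  refine ⟨_, key, ?_, ?_⟩
  · intro x hx
    simp only [mem_ofPred_eq, hx, true_and, not_true_eq_false, false_and, or_false]
    constructor
    · intro h3
      have h4 : ⟪u, x⟫ ≤ -ε := by
        by_contra hc
        push Not at hc
        have h5 := mL _ hc
        have h6 : 0 ≤ ‖orth u x‖ ^ 2 := by positivity
        linarith
      refine ⟨by linarith, ?_⟩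
      rw [h3, fL _ (by linarith)]
    · rintro ⟨h3, h4⟩
      have h5 := houts x _ h4
      rw [abs_of_neg h3] at h5
      rw [fL _ (by linarith)]
      exact h4
  · intro x hx
    simp only [mem_ofPred_eq, hx, false_and, false_or, not_false_eq_true, true_and]

private theorem NeckSum_unk (hn : 3 ≤ Module.finrank ℝ V) {M : Set V} (h : Unk M) :
    IsCompact M ∧ IsConnected M := by
  obtain ⟨φ, ψ, h1, h2, h3, h4, -, h5⟩ := h
  have h6 : M = ψ '' sphere (0 : V) 1 := by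
    rw [← h5, ← image_comp]
    have : ψ ∘ φ = id := funext h3
    rw [this, image_id]
  have hrank : 1 < Module.rank ℝ V := by
    rw [← Module.finrank_eq_rank]
    exact_mod_cast (by omega : 1 < Module.finrank ℝ V)
  rw [h6]
  exact ⟨(isCompact_sphere 0 1).image h2.continuous,
    (isConnected_sphere hrank 0 zero_le_one).image _ h2.continuous.continuousOn⟩

omit [FiniteDimensional ℝ V] in
private theorem NeckSum_quad {u : V} (hu : ‖u‖ = 1) {pc : ℝ → ℝ} (hpc : ContDiff ℝ ∞ pc) {x : V}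
    (h0 : orth u x ≠ 0) : fderiv ℝ (fun y => ‖orth u y‖ ^ 2 - pc ⟪u, y⟫) x ≠ 0 := by
  intro h1
  have h2 : HasDerivAt (fun s : ℝ => x + s • orth u x) (orth u x) 0 := by
    simpa using ((hasDerivAt_id (0 : ℝ)).smul_const (orth u x)).const_add x
  have hs : ContDiff ℝ ∞ (fun y : V => ‖orth u y‖ ^ 2 - pc ⟪u, y⟫) := by
    have e1 : ContDiff ℝ ∞ (fun y : V => ‖orth u y‖ ^ 2) := by
      simpa using contDiff_orth_sq u (0 : V)
    exact e1.sub (hpc.comp ((innerSL ℝ u).contDiff))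
  have h3 : HasFDerivAt (fun y : V => ‖orth u y‖ ^ 2 - pc ⟪u, y⟫) (0 : V →L[ℝ] ℝ)
      (x + (0 : ℝ) • orth u x) := by
    rw [zero_smul, add_zero, ← h1]
    exact (hs.differentiable (by simp) x).hasFDerivAt
  have h4 := h3.comp_hasDerivAt (0 : ℝ) h2
  have h5 : ((fun y : V => ‖orth u y‖ ^ 2 - pc ⟪u, y⟫) ∘ fun s : ℝ => x + s • orth u x) =
      fun s : ℝ => (1 + s) ^ 2 * ‖orth u x‖ ^ 2 - pc ⟪u, x⟫ := by
    funext s
    have h6 : ⟪u, x + s • orth u x⟫ = ⟪u, x⟫ := by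
      rw [inner_add_right, real_inner_smul_right, inner_orth hu]
      ring
    have h7 : orth u (x + s • orth u x) = (1 + s) • orth u x := by
      have h8 : orth u (x + s • orth u x) = (x + s • orth u x) - ⟪u, x + s • orth u x⟫ • u := rfl
      rw [h8, h6, add_smul, one_smul, add_sub_right_comm]
      rfl
    show ‖orth u (x + s • orth u x)‖ ^ 2 - pc ⟪u, x + s • orth u x⟫ = _
    rw [h6, h7, norm_smul, mul_pow, Real.norm_eq_abs, sq_abs]
  rw [h5] at h4
  have h8 : HasDerivAt (fun s : ℝ => (1 + s) ^ 2 * ‖orth u x‖ ^ 2 - pc ⟪u, x⟫)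
      (2 * ‖orth u x‖ ^ 2) 0 := by
    have h9 := ((((hasDerivAt_id (0 : ℝ)).const_add 1).pow 2).mul_const
      (‖orth u x‖ ^ 2)).sub_const (pc ⟪u, x⟫)
    refine h9.congr_deriv ?_
    simp
  have h10 := h8.unique h4
  have h11 : 0 < ‖orth u x‖ := norm_pos_iff.2 h0
  simp at h10
  exact h0 h10

/-- The function of the body with a straight neck. -/
private theorem NeckSum_fun (hn : 3 ≤ Module.finrank ℝ V) {M : Set V} (hF : ContDiff ℝ ∞ F)
    (hb : Bornology.IsBounded {x | F x = 0}) (hr : ∀ x, F x = 0 → fderiv ℝ F x ≠ 0)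
    (hM : M = {x | F x = 0}) (hc : IsConnected M) (hl : LiftS M) (hu : ‖u‖ = 1) (hε : 0 < ε)
    (hερ : 4 * ε < ρ) (hr₁ : 0 < r₁) (hrr : r₁ < r) (hp : ContDiff ℝ ∞ p)
    (hbox : ∀ x, Box u ρ r x → (x ∈ M ↔ ‖orth u x‖ ^ 2 = p ⟪u, x⟫))
    (hpos : ∀ σ, |σ| < ρ → 0 < p σ ∧ p σ < r₁ ^ 2) :
    ∃ (κ r₂ : ℝ) (pc : ℝ → ℝ) (G : V → ℝ), 0 < κ ∧ κ < r₂ ∧ r₂ < r₁ ∧ ContDiff ℝ ∞ pc ∧
      ContDiff ℝ ∞ G ∧ (∀ σ, |σ| ≤ 2 * ε → pc σ = κ ^ 2) ∧ (∀ σ, ρ / 2 ≤ |σ| → pc σ = p σ) ∧
      (∀ σ, |σ| < ρ → 0 < pc σ ∧ pc σ < r₁ ^ 2) ∧ (∀ σ, |σ| ≤ ρ / 2 → pc σ < r₂ ^ 2) ∧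
      (∀ x, |⟪u, x⟫| < 2 * ε → ‖orth u x‖ < r₂ → G x = ‖orth u x‖ ^ 2 - κ ^ 2) ∧
      (∀ x, Box u ρ r x → (G x = 0 ↔ ‖orth u x‖ ^ 2 = pc ⟪u, x⟫)) ∧
      (∀ x, ¬ Box u ρ r x → (G x = 0 ↔ x ∈ M)) ∧ (∀ x, G x = 0 → fderiv ℝ G x ≠ 0) ∧
      Bornology.IsBounded {x | G x = 0} ∧ IsConnected {x | G x = 0} ∧ LiftS {x | G x = 0} ∧
      (Rd G → Rd F) := by
  have hρ : 0 < ρ := by linarith
  have hρ1 : ρ / 2 < 3 / 4 * ρ := by linarith
  have hρ2 : 3 / 4 * ρ < ρ := by linarith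
  have hp0 := hpos 0 (by simpa using hρ)
  set κ := √(p 0) with hκ
  have hκ0 : 0 < κ := Real.sqrt_pos.2 hp0.1
  have hκ2 : κ ^ 2 = p 0 := Real.sq_sqrt hp0.1.le
  obtain ⟨χ, sχ, χ1, χ0, χm⟩ := NeckSum_bump (a := 2 * ε) (b := ρ / 2) (by linarith) (by linarith)
  set pc : ℝ → ℝ := fun σ => (1 - χ σ) * p σ + χ σ * κ ^ 2 with hpc
  have spc : ContDiff ℝ ∞ pc :=
    ((contDiff_const.sub sχ).mul hp).add (sχ.mul contDiff_const)
  have pc1 : ∀ σ, |σ| ≤ 2 * ε → pc σ = κ ^ 2 := by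
    intro σ hσ
    simp only [hpc, χ1 σ hσ]
    ring
  have pc2 : ∀ σ, ρ / 2 ≤ |σ| → pc σ = p σ := by
    intro σ hσ
    simp only [hpc, χ0 σ hσ]
    ring
  have pc3 : ∀ σ, |σ| < ρ → 0 < pc σ ∧ pc σ < r₁ ^ 2 := by
    intro σ hσ
    obtain ⟨h1, h2⟩ := hpos σ hσ
    obtain ⟨h3, h4⟩ := χm σ
    rw [← hκ2] at hp0
    show 0 < (1 - χ σ) * p σ + χ σ * κ ^ 2 ∧ (1 - χ σ) * p σ + χ σ * κ ^ 2 < r₁ ^ 2
    rcases eq_or_lt_of_le h3 with h5 | h5
    · rw [← h5]
      constructor <;> linarith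
    · have h6 : 0 ≤ 1 - χ σ := by linarith
      constructor
      · have := mul_nonneg h6 h1.le
        have := mul_pos h5 hp0.1
        linarith
      · have h7 := mul_le_mul_of_nonneg_left h2.le h6
        have h8 := mul_lt_mul_of_pos_left hp0.2 h5
        calc (1 - χ σ) * p σ + χ σ * κ ^ 2 < (1 - χ σ) * r₁ ^ 2 + χ σ * r₁ ^ 2 := by linarith
          _ = r₁ ^ 2 := by ring
  obtain ⟨F₁, sF₁, rF₁, eF₁, zF₁, hh⟩ := tube_exact (ρ₁ := 3 / 4 * ρ) hn hF hb hr hu hp
    (by linarith) hρ2 hr₁ hrr (fun x hx => by rw [← hbox x hx, hM]; rfl)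
    (fun σ hσ => (hpos σ hσ).2) (by
      constructor
      rintro a ⟨ha, -⟩ b ⟨hb, -⟩ z ⟨hz1, hz2⟩
      have h1 : |z| < ρ := by
        rw [abs_lt] at *
        constructor <;> linarith [ha.1, hb.2]
      exact ⟨h1, (hpos z h1).1⟩)
    (fun σ hσ h0 => absurd h0 (hpos σ hσ).1.ne')
  have gF₁ : Good F₁ := by
    rcases hh with h | h
    · exact h.good_right
    · exact h.good_right
  obtain ⟨G, sG, homG, oG, zG, r₂, hr₂, hr₂₁, lr₂, eG⟩ := tube_change (ρ₂ := ρ / 2) sF₁ gF₁ hu hp spc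
    (by linarith) hρ1 hr₁ eF₁ pc2
    (fun σ hσ => ⟨(hpos σ (by linarith)).2, (pc3 σ (by linarith)).2⟩)
    (fun l hl σ hσ h0 => by
      exfalso
      have h1 := (hpos σ (by linarith)).1
      have h2 := (pc3 σ (by linarith)).1
      rcases eq_or_lt_of_le hl.1 with h3 | h3
      · rw [← h3] at h0
        linarith
      · have h4 := mul_pos h3 h2
        have h5 : 0 ≤ (1 - l) * p σ := mul_nonneg (by linarith [hl.2]) h1.le
        linarith)
  have hκr : κ < r₂ := by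
    have h1 := lr₂ 0 (by simpa using (by linarith : (0 : ℝ) ≤ ρ / 2))
    rw [pc1 0 (by simpa using (by linarith : (0 : ℝ) ≤ 2 * ε))] at h1
    exact lt_of_pow_lt_pow_left₀ 2 hr₂.le h1
  have key : ∀ x, Box u ρ r x → (G x = 0 ↔ ‖orth u x‖ ^ 2 = pc ⟪u, x⟫) := by
    intro x hx
    by_cases h1 : Box u (3 / 4 * ρ) r₁ x
    · exact zG x h1
    · have h2 : ¬ Box u (ρ / 2) r₁ x := fun h => h1 ⟨by linarith [h.1], h.2⟩
      have h3 : F x = 0 ↔ ‖orth u x‖ ^ 2 = p ⟪u, x⟫ := by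
        rw [← hbox x hx, hM]
        rfl
      rw [oG x h2, zF₁ x, h3]
      rcases le_or_gt (ρ / 2) |⟪u, x⟫| with h4 | h4
      · rw [pc2 _ h4]
      · have h5 : r₁ ≤ ‖orth u x‖ := by
          by_contra hc'
          push Not at hc'
          exact h2 ⟨h4, hc'⟩
        have h6 : r₁ ^ 2 ≤ ‖orth u x‖ ^ 2 := by
          apply pow_le_pow_left₀ hr₁.le h5
        constructor
        · intro h7
          exfalso
          have := (hpos _ hx.1).2
          linarith
        · intro h7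
          exfalso
          have := (pc3 _ hx.1).2
          linarith
  have key2 : ∀ x, ¬ Box u ρ r x → (G x = 0 ↔ x ∈ M) := by
    intro x hx
    have h2 : ¬ Box u (ρ / 2) r₁ x := fun h => hx ⟨by linarith [h.1], by linarith [h.2]⟩
    rw [oG x h2, zF₁ x, hM]
    rfl
  have c1 : Continuous fun y : V => |⟪u, y⟫| := by fun_prop
  have c2 : Continuous fun y : V => ‖orth u y‖ := by
    unfold orth
    fun_prop
  have rG : ∀ x, G x = 0 → fderiv ℝ G x ≠ 0 := by
    intro x hx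
    rcases lt_or_ge (ρ / 2) |⟪u, x⟫| with h1 | h1
    · have h2 : G =ᶠ[𝓝 x] F₁ := by
        filter_upwards [c1.continuousAt.eventually_const_lt h1] with y hy
        exact oG y fun h => absurd h.1 (not_lt.2 (le_of_lt hy))
      rw [h2.fderiv_eq]
      exact rF₁ x (by rw [← h2.self_of_nhds, hx])
    · rcases lt_trichotomy r₁ ‖orth u x‖ with h3 | h3 | h3
      · have h2 : G =ᶠ[𝓝 x] F₁ := by
          filter_upwards [c2.continuousAt.eventually_const_lt h3] with y hy
          exact oG y fun h => absurd h.2 (not_lt.2 (le_of_lt hy))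
        rw [h2.fderiv_eq]
        exact rF₁ x (by rw [← h2.self_of_nhds, hx])
      · exfalso
        have h4 : Box u ρ r x := ⟨by linarith, by linarith⟩
        have h5 := (key x h4).1 hx
        have h6 := (pc3 _ h4.1).2
        rw [← h3] at h5
        linarith
      · have h4 : Box u ρ r x := ⟨by linarith, by linarith⟩
        have h5 := (key x h4).1 hx
        have h6 := lr₂ _ h1
        have h7 := (pc3 _ h4.1).1
        have h8 : ‖orth u x‖ < r₂ := by
          rw [← h5] at h6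
          exact lt_of_pow_lt_pow_left₀ 2 hr₂.le h6
        have h9 : |⟪u, x⟫| < 3 / 4 * ρ := by linarith
        have h2 : G =ᶠ[𝓝 x] fun y => ‖orth u y‖ ^ 2 - pc ⟪u, y⟫ := by
          filter_upwards [c1.continuousAt.eventually_lt_const h9,
            c2.continuousAt.eventually_lt_const h8] with y hy hy'
          exact eG y hy (le_of_lt hy')
        rw [h2.fderiv_eq]
        apply NeckSum_quad hu spc
        intro h10
        rw [h10, norm_zero] at h5
        have : (0 : ℝ) ^ 2 = 0 := by norm_num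
        linarith
  have hcar := (homG.carries sF₁ sG).carries
  obtain ⟨φ, ψ, h1, h2, h3, h4, -, h5⟩ := hcar
  have h6 : {x | F₁ x = 0} = M := by
    rw [hM]
    ext x
    exact zF₁ x
  have h7 : {x | G x = 0} = φ '' M := by rw [← h5, h6]
  refine ⟨κ, r₂, pc, G, hκ0, hκr, hr₂₁, spc, sG, pc1, pc2, pc3, lr₂, ?_, key, key2, rG,
    homG.good_right.bdd, ?_, ?_, ?_⟩
  · intro x hx hx'
    rw [eG x (by linarith) hx'.le, pc1 _ hx.le]
  · rw [h7]
    exact hc.image _ h1.continuous.continuousOn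
  · rw [h7]
    exact hl.homeo ((Homeomorph.mk ⟨φ, ψ, h3, h4⟩ h1.continuous h2.continuous).image M)
  · intro h
    have h8 : Rd F₁ := Rd.of_hom homG h
    rcases hh with h9 | h9
    · exact Rd.of_hom h9 h8
    · have h10 := (Rd.of_hom h9 h8).neg
      simpa using h10

omit [FiniteDimensional ℝ V] in
private theorem NeckSum_dif {κ : ℝ} (hκ : κ ≠ 0) :
    Dif (fun x : V => κ • x) (fun x : V => κ⁻¹ • x) :=
  ⟨contDiff_const.smul contDiff_id, contDiff_const.smul contDiff_id,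
    fun x => inv_smul_smul₀ hκ x, fun x => smul_inv_smul₀ hκ x⟩

/-- The magnified function. -/
private theorem NeckSum_scale {G : V → ℝ} {κ : ℝ} (hκ : 0 < κ) (sG : ContDiff ℝ ∞ G)
    (rG : ∀ x, G x = 0 → fderiv ℝ G x ≠ 0) (bG : Bornology.IsBounded {x | G x = 0})
    (cG : IsConnected {x | G x = 0}) (lG : LiftS {x | G x = 0}) :
    ContDiff ℝ ∞ (fun x => κ⁻¹ ^ 2 * G (κ • x)) ∧
      (∀ x, κ⁻¹ ^ 2 * G (κ • x) = 0 → fderiv ℝ (fun x => κ⁻¹ ^ 2 * G (κ • x)) x ≠ 0) ∧
      Bornology.IsBounded {x | κ⁻¹ ^ 2 * G (κ • x) = 0} ∧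
      IsConnected {x | κ⁻¹ ^ 2 * G (κ • x) = 0} ∧ LiftS {x | κ⁻¹ ^ 2 * G (κ • x) = 0} ∧
      (Rd (fun x => κ⁻¹ ^ 2 * G (κ • x)) → Rd G) := by
  have hk : κ ≠ 0 := hκ.ne'
  have hk2 : κ⁻¹ ^ 2 ≠ 0 := by positivity
  have s0 : ContDiff ℝ ∞ (fun x : V => κ • x) := contDiff_const.smul contDiff_id
  have s1 : ContDiff ℝ ∞ (fun x => G (κ • x)) := sG.comp s0
  have s2 : ContDiff ℝ ∞ (fun x => κ⁻¹ ^ 2 * G (κ • x)) := contDiff_const.mul s1
  have d1 : ∀ x, fderiv ℝ (fun x => G (κ • x)) x = κ • fderiv ℝ G (κ • x) := by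
    intro x
    have h1 : HasFDerivAt (fun y : V => κ • y) (κ • ContinuousLinearMap.id ℝ V) x :=
      (hasFDerivAt_id x).const_smul κ
    have h2 := (sG.differentiable (by simp) (κ • x)).hasFDerivAt
    have h3 := HasFDerivAt.comp (f := fun y : V => κ • y) x h2 h1
    have h4 : (G ∘ fun y : V => κ • y) = fun x => G (κ • x) := rfl
    rw [h4] at h3
    rw [h3.fderiv]
    ext v
    simp
  have d2 : ∀ x, fderiv ℝ (fun x => κ⁻¹ ^ 2 * G (κ • x)) x = κ⁻¹ ^ 2 • (κ • fderiv ℝ G (κ • x)) := by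
    intro x
    rw [fderiv_const_mul (s1.differentiable (by simp) x), d1]
  have r2 : ∀ x, κ⁻¹ ^ 2 * G (κ • x) = 0 → fderiv ℝ (fun x => κ⁻¹ ^ 2 * G (κ • x)) x ≠ 0 := by
    intro x hx
    rw [d2]
    have h1 : G (κ • x) = 0 := by
      rcases mul_eq_zero.1 hx with h | h
      · exact absurd h hk2
      · exact h
    exact smul_ne_zero hk2 (smul_ne_zero hk (rG _ h1))
  have e1 : {x | κ⁻¹ ^ 2 * G (κ • x) = 0} = (fun x : V => κ⁻¹ • x) '' {x | G x = 0} := by
    ext x
    constructor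
    · intro hx
      have h1 : G (κ • x) = 0 := by
        rcases mul_eq_zero.1 hx with h | h
        · exact absurd h hk2
        · exact h
      exact ⟨κ • x, h1, inv_smul_smul₀ hk x⟩
    · rintro ⟨y, hy, rfl⟩
      show κ⁻¹ ^ 2 * G (κ • (κ⁻¹ • y)) = 0
      rw [smul_inv_smul₀ hk, show G y = 0 from hy, mul_zero]
  have c1 : Continuous (fun x : V => κ⁻¹ • x) := continuous_const_smul _
  have c2 : Continuous (fun x : V => κ • x) := continuous_const_smul _
  have b2 : Bornology.IsBounded {x | κ⁻¹ ^ 2 * G (κ • x) = 0} := by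
    rw [e1]
    have : IsCompact {x | G x = 0} :=
      Metric.isCompact_of_isClosed_isBounded (isClosed_eq sG.continuous continuous_const) bG
    exact (this.image c1).isBounded
  refine ⟨s2, r2, b2, ?_, ?_, ?_⟩
  · rw [e1]
    exact cG.image _ c1.continuousOn
  · rw [e1]
    exact lG.homeo ((Homeomorph.mk ⟨fun x : V => κ⁻¹ • x, fun x => κ • x,
      fun x => smul_inv_smul₀ hk x, fun x => inv_smul_smul₀ hk x⟩ c1 c2).image {x | G x = 0})
  · intro h
    have h1 : Hom (fun x => κ⁻¹ ^ 2 * G (κ • x)) (fun x => G (κ • x)) := by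
      have hpos : 0 < κ⁻¹ ^ 2 := by positivity
      apply Hom.of_sign (good_of_regular s2 b2 r2) s1.continuous
      · intro x
        constructor
        · intro h2
          by_contra hc
          push Not at hc
          have := mul_nonneg hpos.le hc
          linarith
        · intro h2
          exact mul_neg_of_pos_of_neg hpos h2
      · intro x
        constructor
        · intro h2
          by_contra hc
          push Not at hc
          have := mul_pos hpos hc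
          linarith
        · intro h2
          exact mul_nonpos_of_nonneg_of_nonpos hpos.le h2
      · intro x hx
        obtain ⟨v, hv⟩ : ∃ v, fderiv ℝ (fun x => G (κ • x)) x v < 0 := by
          have h2 : fderiv ℝ (fun x => G (κ • x)) x ≠ 0 := by
            intro h3
            apply r2 x hx
            rw [fderiv_const_mul (s1.differentiable (by simp) x), h3, smul_zero]
          obtain ⟨v, hv⟩ : ∃ v, fderiv ℝ (fun x => G (κ • x)) x v ≠ 0 := by
            by_contra hc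
            push Not at hc
            exact h2 (ContinuousLinearMap.ext hc)
          rcases lt_or_gt_of_ne hv with h4 | h4
          · exact ⟨v, h4⟩
          · exact ⟨-v, by rw [map_neg]; linarith⟩
        refine ⟨v, desc1_smooth (s2.contDiffAt.of_le (by exact_mod_cast le_top)) ?_,
          desc1_smooth (s1.contDiffAt.of_le (by exact_mod_cast le_top)) hv⟩
        rw [fderiv_const_mul (s1.differentiable (by simp) x)]
        show κ⁻¹ ^ 2 * (fderiv ℝ (fun x => G (κ • x)) x v) < 0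
        exact mul_neg_of_pos_of_neg hpos hv
    exact (Rd.comp_dif (NeckSum_dif hk)).1 (Rd.of_hom h1.symm h)

omit [FiniteDimensional ℝ V] in
/-- The derivative of the profile of the smooth cut. -/
private theorem NeckSum_deriv {κ d : ℝ} (hκ : 0 < κ) (hd : 0 < d) {pc : ℝ → ℝ} {s₀ : ℝ}
    (h0 : s₀ / κ = d ∨ s₀ / κ = -d) (hpc : ∀ᶠ s in 𝓝 s₀, pc s = κ ^ 2) :
    deriv (fun s => pc s - κ ^ 2 * wb d (s / κ)) s₀ * s₀ > 0 := by
  obtain ⟨D, hD, -, hD2⟩ := wb_deriv hd (s₀ / κ)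
  have h1 : s₀ / κ ≠ 0 := by
    rcases h0 with h | h
    · rw [h]
      exact hd.ne'
    · rw [h]
      exact neg_ne_zero.2 hd.ne'
  have h2 : (s₀ / κ) ^ 2 < 2 * d ^ 2 := by
    have : (s₀ / κ) ^ 2 = d ^ 2 := by
      rcases h0 with h | h
      · rw [h]
      · rw [h, neg_sq]
    rw [this]
    have : 0 < d ^ 2 := by positivity
    linarith
  have h3 := hD2 h1 h2
  have h4 : HasDerivAt (fun s : ℝ => s / κ) (1 / κ) s₀ := (hasDerivAt_id s₀).div_const κ
  have h5 : HasDerivAt (fun s => κ ^ 2 - κ ^ 2 * wb d (s / κ)) (-(κ ^ 2 * (D * (1 / κ)))) s₀ :=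
    ((HasDerivAt.comp s₀ hD h4).const_mul (κ ^ 2)).const_sub (κ ^ 2)
  have h6 : (fun s => pc s - κ ^ 2 * wb d (s / κ)) =ᶠ[𝓝 s₀]
      fun s => κ ^ 2 - κ ^ 2 * wb d (s / κ) := by
    filter_upwards [hpc] with s hs
    rw [hs]
  rw [h6.deriv_eq, h5.deriv]
  have h7 : -(κ ^ 2 * (D * (1 / κ))) * s₀ = -(κ ^ 2 * (s₀ / κ * D)) := by
    field_simp
  rw [h7]
  have : κ ^ 2 * (s₀ / κ * D) < 0 := mul_neg_of_pos_of_neg (by positivity) h3
  linarith

/-- `M` is a round tube with profile `p > 0` in the box; cutting it (profile `p'`, caps at `± ε`)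
gives two unknotted spheres. PROOF. (a) `tube_exact` (profile `p`, positive: `hint` trivial, `hreg`
void), then `tube_change` with `ρ₂ = ρ / 2` to a positive profile `p_c` with `p_c = κ ^ 2` for
`|σ| ≤ 2 ε`, `κ ^ 2 = p 0` (`(1 - χ) p + χ κ ^ 2`; `2 ε < ρ / 2`). The function `F_c` obtained is
smooth, good, joined to `F` or `-F` by `Hom`, and `F_c x = ‖orth u x‖ ^ 2 - κ ^ 2` for
`|⟪u, x⟫| < 2 ε`, `‖orth u x‖ ≤ r₂`, `κ < r₂`. `f x = κ⁻² F_c (κ x)` satisfies
`CylN f u 0 (2 ε / κ) (r₂ / κ)`. Its zero set is connected with the lifting property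
(`Hom.carries`: it is the image of `M` under a homeomorphism), so `sides_of_zero` gives the
hypotheses of `CylN.stop_of_lift`, `d = ε / κ`: functions `A`, `C` and
`Rd A → Rd C → Rd f`. `Rd f` gives `Rd F_c` (`Rd.comp_dif` for `x ↦ κ x`; positive factor),
`Rd F` (`Rd.of_hom`, `Rd.neg`), `Unk M` (`unk_of_rd`).
(b) It remains to prove `Rd A` and `Rd C`; by `rd_of_unk` (`A` is smooth, regular because near its
zeros it is `scut f`, which is regular: `CylN.scut_reg` in `Al/SCutC.lean`) it is enough that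
`{A = 0}` is unknotted. The zero set of `scut f`, magnified by `κ`, is `M` with the profile changed
to `p_s` (`p_s σ = κ ^ 2 * (1 - wb (ε / κ) (σ / κ))` for `|σ| < 2 ε`, `p_s = p_c` further out); `p_s`
vanishes exactly at `± ε` in the box, like `p'`. In the box the points of `M₁ ∪ M₂` with
`⟪u, x⟫ < 0` are in `M₁`, the others in `M₂` (each half is connected, contains `∓ ε • u`, and
`M₁`, `M₂` are compact and disjoint). `M₁ ∩ box` has the profile `p'_L = p'` for `σ ≤ 0`, negative for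
`σ ≥ 0` (glue with `-1` where both are negative), in the same way `p_{s,L}`. `unk_tube` (with
`hreg` true because both profiles vanish only at `-ε` with negative derivative; `hint` because both
are positive exactly on `(-ρ, -ε)`) shows that `M₁` with the profile changed to `p_{s,L}` is
unknotted. This set `N₁`, and `N₂` built in the same way, are connected, closed, disjoint and
`N₁ ∪ N₂ = κ {A = 0} ∪ κ {C = 0}` (closed, disjoint), `- ε • u ∈ N₁ ∩ κ {A = 0}`,
`ε • u ∈ N₂ ∩ κ {C = 0}`. So `N₁ = κ {A = 0}` and `N₂ = κ {C = 0}`; `Unk.image_dif` for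
`x ↦ κ⁻¹ x`. -/
theorem neck_sum (hn : 3 ≤ Module.finrank ℝ V) {M M₁ M₂ : Set V} (hF : ContDiff ℝ ∞ F)
    (hb : Bornology.IsBounded {x | F x = 0}) (hr : ∀ x, F x = 0 → fderiv ℝ F x ≠ 0)
    (hM : M = {x | F x = 0}) (hc : IsConnected M) (hl : LiftS M) (hu : ‖u‖ = 1) (hε : 0 < ε)
    (hερ : 4 * ε < ρ) (hr₁ : 0 < r₁) (hrr : r₁ < r) (hp : ContDiff ℝ ∞ p)
    (hp' : ContDiff ℝ ∞ p') (hbox : ∀ x, Box u ρ r x → (x ∈ M ↔ ‖orth u x‖ ^ 2 = p ⟪u, x⟫))
    (hpos : ∀ σ, |σ| < ρ → 0 < p σ ∧ p σ < r₁ ^ 2) (heq : ∀ σ, ρ / 2 ≤ |σ| → p' σ = p σ)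
    (hle : ∀ σ, p' σ ≤ p σ) (hz : p' ε = 0) (hz' : p' (-ε) = 0) (hneg : ∀ σ, |σ| < ε → p' σ < 0)
    (hmono : ∀ σ, ε ≤ |σ| → |σ| < ρ → 0 < deriv p' σ * σ)
    (h12 : ∀ x, x ∈ M₁ ∪ M₂ ↔ (Box u ρ r x ∧ ‖orth u x‖ ^ 2 = p' ⟪u, x⟫) ∨
      (¬ Box u ρ r x ∧ x ∈ M)) (hdisj : Disjoint M₁ M₂) (hc₁ : IsConnected M₁)
    (hc₂ : IsConnected M₂) (h1 : (-ε) • u ∈ M₁) (h2 : ε • u ∈ M₂) (hU₁ : Unk M₁)
    (hU₂ : Unk M₂) : Unk M := by
  have hρ : 0 < ρ := by linarith
  obtain ⟨κ, r₂, pc, G, hκ, hκr, hr₂₁, spc, sG, pc1, pc2, pc3, pc4, eG, kG, oG, rG, bG, cG, lG,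
    RG⟩ := NeckSum_fun hn hF hb hr hM hc hl hu hε hερ hr₁ hrr hp hbox hpos
  obtain ⟨sf, rf, bf, cf, lf, Rf⟩ := NeckSum_scale hκ sG rG bG cG lG
  set f : V → ℝ := fun x => κ⁻¹ ^ 2 * G (κ • x) with hf
  have hk : κ ≠ 0 := hκ.ne'
  set d := ε / κ with hd
  have hd0 : 0 < d := by positivity
  set R := r₂ / κ with hR
  have hr₂ : 0 < r₂ := by linarith
  have inn : ∀ x : V, ⟪u, κ⁻¹ • x - 0⟫ = ⟪u, x⟫ / κ := by
    intro x
    rw [sub_zero, real_inner_smul_right]
    ring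
  have nrm : ∀ x : V, ‖orth u (κ⁻¹ • x - 0)‖ = ‖orth u x‖ / κ := by
    intro x
    rw [sub_zero, NeckSum_orth_smul, norm_smul, norm_inv, Real.norm_eq_abs, abs_of_pos hκ]
    ring
  have hcyl : CylN f u 0 (2 * ε / κ) R := by
    refine ⟨hu, by positivity, ?_, ?_⟩
    · rw [hR, one_lt_div hκ]
      exact hκr
    · intro x h1 h2
      obtain ⟨y, rfl⟩ : ∃ y, x = κ⁻¹ • y := ⟨κ • x, (inv_smul_smul₀ hk x).symm⟩
      rw [inn, abs_div, abs_of_pos hκ, div_lt_div_iff_of_pos_right hκ] at h1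
      rw [nrm, hR, div_lt_div_iff_of_pos_right hκ] at h2
      rw [nrm]
      show κ⁻¹ ^ 2 * G (κ • κ⁻¹ • y) = _
      rw [smul_inv_smul₀ hk, eG y h1 h2]
      field_simp
  obtain ⟨hcl, hcr, hll, -⟩ := sides_of_zero hn sf bf rf cf lf
  have hdζ : 2 * d ≤ 2 * ε / κ := by
    rw [hd]
    apply le_of_eq
    ring
  obtain ⟨A, C, sA, sC, eA, eC, hAC, hdis, zA, zC, hstop⟩ := hcyl.stop_of_lift hn sf
    (good_of_regular sf bf rf) hcl hcr hll hd0 hdζ
  set ps : ℝ → ℝ := fun s => pc s - κ ^ 2 * wb d (s / κ) with hps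
  have sps : ContDiff ℝ ∞ ps :=
    spc.sub (contDiff_const.mul ((wb_smooth d).comp (contDiff_id.div_const κ)))
  have wb0 : ∀ s : ℝ, 2 * ε ≤ |s| → wb d (s / κ) = 0 := by
    intro s hs
    apply wb_zero hd0
    rw [hd, div_pow, div_pow, ← mul_div_assoc, div_le_div_iff_of_pos_right (by positivity),
      ← sq_abs s]
    nlinarith
  have ps_far : ∀ s : ℝ, 2 * ε ≤ |s| → ps s = pc s := by
    intro s hs
    show pc s - κ ^ 2 * wb d (s / κ) = pc s
    rw [wb0 s hs]
    ring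
  have ps_near : ∀ s : ℝ, |s| ≤ 2 * ε → ps s = κ ^ 2 * (1 - wb d (s / κ)) := by
    intro s hs
    show pc s - κ ^ 2 * wb d (s / κ) = _
    rw [pc1 s hs]
    ring
  have ps_le : ∀ s : ℝ, ps s ≤ pc s := by
    intro s
    have := mul_nonneg (sq_nonneg κ) (wb_nonneg d (s / κ))
    show pc s - κ ^ 2 * wb d (s / κ) ≤ pc s
    linarith
  have ps_neg : ∀ s : ℝ, |s| < ε → ps s < 0 := by
    intro s hs
    rw [ps_near s (by linarith)]
    have h1 : 1 < wb d (s / κ) := by
      apply NeckSum_wb_gt hd0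
      rw [hd, abs_div, abs_of_pos hκ, div_lt_div_iff_of_pos_right hκ]
      exact hs
    have h2 : 0 < κ ^ 2 := by positivity
    nlinarith
  have ps_pos : ∀ s : ℝ, ε < |s| → |s| < ρ → 0 < ps s := by
    intro s hs hs'
    rcases le_or_gt |s| (2 * ε) with h | h
    · rw [ps_near s h]
      have h1 : wb d (s / κ) < 1 := by
        apply NeckSum_wb_lt hd0
        rw [hd, abs_div, abs_of_pos hκ, div_lt_div_iff_of_pos_right hκ]
        exact hs
      have h2 : 0 < κ ^ 2 := by positivity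
      nlinarith
    · rw [ps_far s h.le]
      exact (pc3 s hs').1
  have ps_z : ps ε = 0 := by
    rw [ps_near ε (by rw [abs_of_pos hε]; linarith), ← hd, wb_one hd0.ne']
    ring
  have ps_z' : ps (-ε) = 0 := by
    rw [ps_near (-ε) (by rw [abs_neg, abs_of_pos hε]; linarith), neg_div, ← hd, wb_neg,
      wb_one hd0.ne']
    ring
  have hnear : ∀ s₀ : ℝ, |s₀| = ε → ∀ᶠ s in 𝓝 s₀, pc s = κ ^ 2 := by
    intro s₀ hs₀
    have h1 : |s₀| < 2 * ε := by linarith
    filter_upwards [continuous_abs.continuousAt.eventually_lt_const h1] with s hs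
    exact pc1 s (le_of_lt hs)
  have ps_d : deriv ps ε > 0 := by
    have h1 := NeckSum_deriv hκ hd0 (pc := pc) (s₀ := ε) (Or.inl rfl) (hnear ε (abs_of_pos hε))
    exact pos_of_mul_pos_left h1 hε.le
  have ps_d' : deriv ps (-ε) < 0 := by
    have h1 := NeckSum_deriv hκ hd0 (pc := pc) (s₀ := -ε) (Or.inr (by rw [neg_div]))
      (hnear (-ε) (by rw [abs_neg, abs_of_pos hε]))
    by_contra hc'
    push Not at hc'
    have : deriv ps (-ε) * (-ε) ≤ 0 := mul_nonpos_of_nonneg_of_nonpos hc' (by linarith)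
    linarith
  have lt' : ∀ σ, |σ| < ρ → p' σ < r₁ ^ 2 := fun σ hσ => by
    linarith [hle σ, (hpos σ hσ).2]
  have lts : ∀ σ, |σ| < ρ → ps σ < r₁ ^ 2 := fun σ hσ => by
    linarith [ps_le σ, (pc3 σ hσ).2]
  have heq2 : ∀ σ, ρ / 2 ≤ |σ| → ps σ = p' σ := by
    intro σ hσ
    rw [ps_far σ (by linarith), pc2 σ hσ, heq σ hσ]
  have hM12 : ∀ x, Box u ρ r x → (x ∈ M₁ ∪ M₂ ↔ ‖orth u x‖ ^ 2 = p' ⟪u, x⟫) := by
    intro x hx
    rw [h12 x]
    constructor
    · rintro (h | h)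
      · exact h.2
      · exact absurd hx h.1
    · intro h
      exact Or.inl ⟨hx, h⟩
  obtain ⟨k1, -⟩ := NeckSum_unk hn hU₁
  obtain ⟨k2, -⟩ := NeckSum_unk hn hU₂
  obtain ⟨N₁, UN₁, bN₁, oN₁⟩ := NeckSum_half hn (M₁ := M₁) (M₂ := M₂) hu hε hερ hr₁ hrr hp' sps lt'
    lts heq2 hz hz' hneg hmono ps_neg
    (fun σ h1 h2 => ps_pos σ (by rw [abs_of_neg (by linarith)]; linarith)
      (by rw [abs_of_neg (by linarith)]; linarith)) ps_d' hM12 hdisj k1.isClosed k2.isClosed h1 h2 hU₁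
  obtain ⟨N₂, UN₂, bN₂, oN₂⟩ := NeckSum_half hn (M₁ := M₂) (M₂ := M₁) (u := -u)
    (g := fun s => p' (-s)) (gs := fun s => ps (-s)) (by rwa [norm_neg]) hε hερ hr₁ hrr
    (hp'.comp contDiff_neg) (sps.comp contDiff_neg)
    (fun σ hσ => lt' (-σ) (by rwa [abs_neg])) (fun σ hσ => lts (-σ) (by rwa [abs_neg]))
    (fun σ hσ => heq2 (-σ) (by rwa [abs_neg])) hz' (by simpa using hz)
    (fun σ hσ => hneg (-σ) (by rwa [abs_neg]))
    (fun σ h3 h4 => by
      rw [deriv_comp_neg]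
      have := hmono (-σ) (by rwa [abs_neg]) (by rwa [abs_neg])
      linarith)
    (fun σ hσ => ps_neg (-σ) (by rwa [abs_neg]))
    (fun σ h3 h4 => ps_pos (-σ) (by rw [abs_of_pos (by linarith)]; linarith)
      (by rw [abs_of_pos (by linarith)]; linarith))
    (by
      rw [deriv_comp_neg, neg_neg]
      linarith)
    (fun x hx => by
      rw [union_comm, hM12 x (NeckSum_box_neg.1 hx), NeckSum_orth_neg]
      simp only [inner_neg_left, neg_neg])
    hdisj.symm k2.isClosed k1.isClosed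
    (by
      rw [smul_neg, neg_smul, neg_neg]
      exact h2)
    (by
      rw [smul_neg, ← neg_smul]
      exact h1) hU₂
  -- the zeros of the cut
  have zbox : ∀ x, Box u ρ r x →
      (scut f u 0 d R (κ⁻¹ • x) = 0 ↔ ‖orth u x‖ ^ 2 = ps ⟪u, x⟫) := by
    intro x hx
    by_cases h3 : |⟪u, x⟫| < 2 * ε ∧ ‖orth u x‖ < r₂
    · obtain ⟨h4, h5⟩ := h3
      have h6 : |⟪u, κ⁻¹ • x - 0⟫| < 2 * ε / κ := by
        rw [inn, abs_div, abs_of_pos hκ, div_lt_div_iff_of_pos_right hκ]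
        exact h4
      rcases le_or_gt ‖orth u x‖ κ with h7 | h7
      · have h8 : ‖orth u (κ⁻¹ • x - 0)‖ ≤ 1 := by
          rw [nrm, div_le_one hκ]
          exact h7
        rw [(hcyl.scut_in (d := d) h6 h8).self_of_nhds, ps_near _ h4.le]
        unfold scutM
        rw [nrm, inn, div_pow]
        have h9 : ‖orth u x‖ ^ 2 / κ ^ 2 - 1 + wb d (⟪u, x⟫ / κ) =
            (‖orth u x‖ ^ 2 - κ ^ 2 * (1 - wb d (⟪u, x⟫ / κ))) / κ ^ 2 := by
          field_simp
          ring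
        rw [h9, div_eq_zero_iff]
        have h10 : κ ^ 2 ≠ 0 := by positivity
        constructor
        · rintro (h | h)
          · linarith
          · exact absurd h h10
        · intro h
          exact Or.inl (by linarith)
      · have h8 : 1 < ‖orth u (κ⁻¹ • x - 0)‖ := by
          rw [nrm, one_lt_div hκ]
          exact h7
        have h9 : ‖orth u (κ⁻¹ • x - 0)‖ < R := by
          rw [nrm, hR, div_lt_div_iff_of_pos_right hκ]
          exact h5
        have h10 := hcyl.scut_pos (d := d) h6 h8 h9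
        have h11 : ps ⟪u, x⟫ < ‖orth u x‖ ^ 2 := by
          have := ps_le ⟪u, x⟫
          rw [pc1 _ h4.le] at this
          nlinarith
        constructor
        · intro h
          linarith
        · intro h
          linarith
    · have h4 : 2 * ε / κ ≤ |⟪u, κ⁻¹ • x - 0⟫| ∨ R ≤ ‖orth u (κ⁻¹ • x - 0)‖ := by
        rw [inn, nrm, abs_div, abs_of_pos hκ, hR, div_le_div_iff_of_pos_right hκ,
          div_le_div_iff_of_pos_right hκ]
        by_contra hc'
        push Not at hc'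
        exact h3 hc'
      rw [(hcyl.scut_off hd0 hdζ h4).self_of_nhds]
      have h5 : f (κ⁻¹ • x) = 0 ↔ G x = 0 := by
        show κ⁻¹ ^ 2 * G (κ • κ⁻¹ • x) = 0 ↔ _
        rw [smul_inv_smul₀ hk, mul_eq_zero]
        have : κ⁻¹ ^ 2 ≠ 0 := by positivity
        tauto
      rw [h5, kG x hx]
      rcases le_or_gt (2 * ε) |⟪u, x⟫| with h6 | h6
      · rw [ps_far _ h6]
      · have h7 : r₂ ≤ ‖orth u x‖ := by
          by_contra hc'
          push Not at hc'
          exact h3 ⟨h6, hc'⟩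
        have h8 := pc4 ⟪u, x⟫ (by linarith)
        have h9 := ps_le ⟪u, x⟫
        have h10 : r₂ ^ 2 ≤ ‖orth u x‖ ^ 2 := pow_le_pow_left₀ hr₂.le h7 2
        constructor
        · intro h
          linarith
        · intro h
          linarith
  have zout : ∀ x, ¬ Box u ρ r x → (scut f u 0 d R (κ⁻¹ • x) = 0 ↔ x ∈ M) := by
    intro x hx
    have h4 : 2 * ε / κ ≤ |⟪u, κ⁻¹ • x - 0⟫| ∨ R ≤ ‖orth u (κ⁻¹ • x - 0)‖ := by
      rw [inn, nrm, abs_div, abs_of_pos hκ, hR, div_le_div_iff_of_pos_right hκ,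
        div_le_div_iff_of_pos_right hκ]
      by_contra hc'
      push Not at hc'
      exact hx ⟨by linarith [hc'.1], by linarith [hc'.2]⟩
    rw [(hcyl.scut_off hd0 hdζ h4).self_of_nhds]
    have h5 : f (κ⁻¹ • x) = 0 ↔ G x = 0 := by
      show κ⁻¹ ^ 2 * G (κ • κ⁻¹ • x) = 0 ↔ _
      rw [smul_inv_smul₀ hk, mul_eq_zero]
      have : κ⁻¹ ^ 2 ≠ 0 := by positivity
      tauto
    rw [h5, oG x hx]
  have ps_zero : ∀ x, ‖orth u x‖ ^ 2 = ps ⟪u, x⟫ → ⟪u, x⟫ ≠ 0 := by
    intro x hx h0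
    rw [h0] at hx
    have h3 := ps_neg 0 (by simpa using hε)
    have h4 : 0 ≤ ‖orth u x‖ ^ 2 := by positivity
    linarith
  have hN : ∀ x, x ∈ N₁ ∪ N₂ ↔ scut f u 0 d R (κ⁻¹ • x) = 0 := by
    intro x
    by_cases hx : Box u ρ r x
    · rw [zbox x hx, mem_union, bN₁ x hx, bN₂ x (NeckSum_box_neg.2 hx), NeckSum_orth_neg]
      simp only [inner_neg_left, neg_neg, neg_lt_zero]
      constructor
      · rintro (h | h)
        · exact h.2
        · exact h.2
      · intro h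
        rcases lt_or_gt_of_ne (ps_zero x h) with h3 | h3
        · exact Or.inl ⟨h3, h⟩
        · exact Or.inr ⟨h3, h⟩
    · rw [zout x hx, mem_union, oN₁ x hx, oN₂ x (fun h => hx (NeckSum_box_neg.1 h)), ← mem_union,
        h12 x]
      constructor
      · rintro (h | h)
        · exact absurd h.1 hx
        · exact h.2
      · intro h
        exact Or.inr ⟨hx, h⟩
  -- regularity of the cut
  have grad : ∀ {H : V → ℝ} {x : V}, fderiv ℝ H x ≠ 0 → gradient H x ≠ 0 := by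
    intro H x h h'
    apply h
    unfold gradient at h'
    simpa using h'
  have rs : ∀ x, scut f u 0 d R x = 0 → fderiv ℝ (scut f u 0 d R) x ≠ 0 := fun x hx =>
    Final_fderiv_ne (hcyl.scut_reg hd0 hdζ (fun y hy => grad (rf y hy)) x hx)
  have nneg : ∀ (B : V → ℝ), Continuous B → (∀ x, B x ≤ 0 → scut f u 0 d R x ≤ 0) →
      ∀ x, scut f u 0 d R x = 0 → B x ≤ 0 → B x = 0 := by
    intro B hB h3 x hx h4
    by_contra hc'
    have h5 : B x < 0 := lt_of_le_of_ne h4 hc'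
    have h6 : IsLocalMax (scut f u 0 d R) x := by
      filter_upwards [hB.continuousAt.eventually_lt_const h5] with y hy
      rw [hx]
      exact h3 y (le_of_lt hy)
    exact rs x hx h6.fderiv_eq_zero
  have hAC0 : ∀ x, scut f u 0 d R x = 0 ↔ A x = 0 ∨ C x = 0 := by
    intro x
    constructor
    · intro h3
      rcases (hAC x).1 h3.le with h4 | h4
      · exact Or.inl (nneg A sA.continuous (fun y hy => (hAC y).2 (Or.inl hy)) x h3 h4)
      · exact Or.inr (nneg C sC.continuous (fun y hy => (hAC y).2 (Or.inr hy)) x h3 h4)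
    · rintro (h3 | h3)
      · rw [← (eA x h3).self_of_nhds]
        exact h3
      · rw [← (eC x h3).self_of_nhds]
        exact h3
  have cA : IsClosed {x : V | A (κ⁻¹ • x) = 0} :=
    isClosed_eq (sA.continuous.comp (continuous_const_smul _)) continuous_const
  have cC : IsClosed {x : V | C (κ⁻¹ • x) = 0} :=
    isClosed_eq (sC.continuous.comp (continuous_const_smul _)) continuous_const
  have dAC : Disjoint {x : V | A (κ⁻¹ • x) = 0} {x : V | C (κ⁻¹ • x) = 0} := by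
    rw [Set.disjoint_left]
    intro x h3 h4
    have h5 := hdis (κ⁻¹ • x) (le_of_eq h3)
    have h6 : C (κ⁻¹ • x) = 0 := h4
    linarith
  have uAC : N₁ ∪ N₂ = {x : V | A (κ⁻¹ • x) = 0} ∪ {x : V | C (κ⁻¹ • x) = 0} := by
    ext x
    rw [hN x, hAC0]
    rfl
  have pole : ∀ s : ℝ, κ⁻¹ • (s • u) = (0 : V) + (s / κ) • u := by
    intro s
    rw [zero_add, smul_smul]
    congr 1
    ring
  have orthu : ∀ s : ℝ, ⟪u, s • u⟫ = s ∧ orth u (s • u) = 0 := by
    intro s
    have h3 : ⟪u, s • u⟫ = s := by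
      rw [real_inner_smul_right, real_inner_self_eq_norm_sq, hu]
      ring
    refine ⟨h3, ?_⟩
    unfold orth
    rw [h3, sub_self]
  have hr0 : 0 < r := by linarith
  have boxu : ∀ s : ℝ, |s| < ρ → Box u ρ r (s • u) := by
    intro s hs
    obtain ⟨h3, h4⟩ := orthu s
    refine ⟨by rw [h3]; exact hs, by rw [h4, norm_zero]; exact hr0⟩
  have in1 : (-ε) • u ∈ N₁ := by
    rw [bN₁ _ (boxu _ (by rw [abs_neg, abs_of_pos hε]; linarith)), (orthu _).1, (orthu _).2, ps_z',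
      norm_zero]
    exact ⟨by linarith, by norm_num⟩
  have in2 : ε • u ∈ N₂ := by
    rw [bN₂ _ (NeckSum_box_neg.2 (boxu _ (by rw [abs_of_pos hε]; linarith))), NeckSum_orth_neg,
      (orthu _).2, inner_neg_left, (orthu _).1, norm_zero]
    simp only [neg_neg]
    rw [ps_z]
    exact ⟨by linarith, by norm_num⟩
  have inA : (-ε) • u ∈ {x : V | A (κ⁻¹ • x) = 0} := by
    show A (κ⁻¹ • ((-ε) • u)) = 0
    rw [pole, neg_div]
    exact zA
  have inC : ε • u ∈ {x : V | C (κ⁻¹ • x) = 0} := by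
    show C (κ⁻¹ • (ε • u)) = 0
    rw [pole]
    exact zC
  obtain ⟨-, q1⟩ := NeckSum_unk hn UN₁
  obtain ⟨-, q2⟩ := NeckSum_unk hn UN₂
  have sub1 : N₁ ⊆ {x : V | A (κ⁻¹ • x) = 0} := by
    rcases isPreconnected_iff_subset_of_disjoint_closed.1 q1.isPreconnected _ _ cA cC
      (by rw [← uAC]; exact subset_union_left) (by rw [dAC.inter_eq, inter_empty]) with h | h
    · exact h
    · exact absurd (h in1) (Set.disjoint_left.1 dAC inA)
  have sub2 : N₂ ⊆ {x : V | C (κ⁻¹ • x) = 0} := by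
    rcases isPreconnected_iff_subset_of_disjoint_closed.1 q2.isPreconnected _ _ cA cC
      (by rw [← uAC]; exact subset_union_right) (by rw [dAC.inter_eq, inter_empty]) with h | h
    · exact absurd inC (Set.disjoint_left.1 dAC (h in2))
    · exact h
  have eq1 : {x : V | A (κ⁻¹ • x) = 0} = N₁ := by
    apply Subset.antisymm _ sub1
    intro x hx
    have h3 : x ∈ N₁ ∪ N₂ := by
      rw [uAC]
      exact Or.inl hx
    rcases h3 with h3 | h3
    · exact h3
    · exact absurd (sub2 h3) (Set.disjoint_left.1 dAC hx)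
  have eq2 : {x : V | C (κ⁻¹ • x) = 0} = N₂ := by
    apply Subset.antisymm _ sub2
    intro x hx
    have h3 : x ∈ N₁ ∪ N₂ := by
      rw [uAC]
      exact Or.inr hx
    rcases h3 with h3 | h3
    · exact absurd hx (Set.disjoint_left.1 dAC (sub1 h3))
    · exact h3
  have img : ∀ B : V → ℝ, (fun x : V => κ • x) '' {x | B x = 0} = {x : V | B (κ⁻¹ • x) = 0} := by
    intro B
    ext x
    constructor
    · rintro ⟨y, hy, rfl⟩
      show B (κ⁻¹ • (κ • y)) = 0
      rw [inv_smul_smul₀ hk]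
      exact hy
    · intro hx
      exact ⟨κ⁻¹ • x, hx, smul_inv_smul₀ hk x⟩
  have UA : Unk {x | A x = 0} := by
    refine Unk.of_image_dif (NeckSum_dif hk) ?_
    rw [img, eq1]
    exact UN₁
  have UC : Unk {x | C x = 0} := by
    refine Unk.of_image_dif (NeckSum_dif hk) ?_
    rw [img, eq2]
    exact UN₂
  have RA : Rd A := by
    refine rd_of_unk (by omega) sA (fun x hx => ?_) UA
    rw [(eA x hx).fderiv_eq]
    exact rs x (by rw [← (eA x hx).self_of_nhds]; exact hx)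
  have RC : Rd C := by
    refine rd_of_unk (by omega) sC (fun x hx => ?_) UC
    rw [(eC x hx).fderiv_eq]
    exact rs x (by rw [← (eC x hx).self_of_nhds]; exact hx)
  have RF : Rd F := RG (Rf (hstop RA RC))
  rw [hM]
  exact unk_of_rd hF RF

end Pool.Schoen
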