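import Pool.Agent.H.MP_6c077c_gt.Cn.NeckCut
import Pool.Agent.H.MP_6c077c_gt.Cn.NeckSum
import Pool.Agent.H.MP_6c077c_gt.Cn.Lift

/-! Canal spheres: if the two parts of the cut neck are unknotted, so is the sphere. -/

set_option autoImplicit false

namespace Pool.Schoen

open Filter Set Metric
open scoped Topology RealInnerProductSpace ContDiff

variable {E V : Type*} [NormedAddCommGroup E] [InnerProductSpace ℝ E] [FiniteDimensional ℝ E]
  [NormedAddCommGroup V] [InnerProductSpace ℝ V] [FiniteDimensional ℝ V]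
variable {c : ℝ → V} {B : ℝ → E →L[ℝ] V} {q p : ℝ → ℝ} {a b t₀ r ρ ε : ℝ} {Φ Ψ : V → V} {u : V}

/-- The range of `B t₀` is the orthogonal complement of `u`. -/
private theorem neckTop_surj (h : Strt0 c B t₀ Φ Ψ u r)
    (hd : Module.finrank ℝ V = Module.finrank ℝ E + 1) {y : V} (hy : ⟪u, y⟫ = 0) :
    ∃ w : E, B t₀ w = y := by
  have hu0 : u ≠ 0 := by
    intro h0
    have := h.hu
    rw [h0, norm_zero] at this
    exact zero_ne_one this
  have hinj : Function.Injective (B t₀ : E →ₗ[ℝ] V) := by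
    rw [← LinearMap.ker_eq_bot, LinearMap.ker_eq_bot']
    intro w hw
    have h3 : ‖B t₀ w‖ = ‖w‖ := h.iso w
    rw [ContinuousLinearMap.coe_coe] at hw
    rw [hw, norm_zero] at h3
    exact norm_eq_zero.1 h3.symm
  have hle : LinearMap.range (B t₀ : E →ₗ[ℝ] V) ≤ (ℝ ∙ u)ᗮ := by
    rintro _ ⟨w, rfl⟩
    rw [Submodule.mem_orthogonal_singleton_iff_inner_right]
    exact h.orth w
  have hf1 : Module.finrank ℝ (LinearMap.range (B t₀ : E →ₗ[ℝ] V)) = Module.finrank ℝ E :=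
    LinearMap.finrank_range_of_inj hinj
  have hf2 : Module.finrank ℝ ((ℝ ∙ u)ᗮ : Submodule ℝ V) = Module.finrank ℝ E :=
    haveI : Fact (Module.finrank ℝ V = Module.finrank ℝ E + 1) := ⟨hd⟩
    Submodule.finrank_orthogonal_span_singleton hu0
  have he : LinearMap.range (B t₀ : E →ₗ[ℝ] V) = (ℝ ∙ u)ᗮ :=
    Submodule.eq_of_le_of_finrank_eq hle (hf1.trans hf2.symm)
  have hy' : y ∈ (ℝ ∙ u)ᗮ := by
    rw [Submodule.mem_orthogonal_singleton_iff_inner_right]
    exact hy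
  rw [← he] at hy'
  obtain ⟨w, hw⟩ := hy'
  exact ⟨w, hw⟩

private theorem neckTop_inner (h : Strt0 c B t₀ Φ Ψ u r) (σ : ℝ) (w : E) :
    ⟪u, σ • u + B t₀ w⟫ = σ := by
  rw [inner_add_right, inner_smul_right, h.orth, real_inner_self_eq_norm_sq, h.hu]
  ring

private theorem neckTop_orth (h : Strt0 c B t₀ Φ Ψ u r) (σ : ℝ) (w : E) :
    orth u (σ • u + B t₀ w) = B t₀ w := by
  unfold orth
  rw [neckTop_inner h]
  abel

private theorem neckTop_norm {w : E} {s r : ℝ} (hr : 0 < r) (h1 : ‖w‖ ^ 2 = s)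
    (h2 : s < r ^ 2) : ‖w‖ < r := by
  rw [← h1] at h2
  exact lt_of_pow_lt_pow_left₀ 2 hr.le h2

/-- A point of the part of the neck: its image under `Φ`. -/
private theorem CanalN.neckTop_near (h : CanalN c B q a b t₀ Φ Ψ u r ρ ε) {t s : ℝ} {w : E}
    (ht : |t - t₀| ≤ ρ) (hw : ‖w‖ ^ 2 = s) (hs : s ≤ q t) :
    ⟪u, Φ (c t + B t w)⟫ = t - t₀ ∧ ‖orth u (Φ (c t + B t w))‖ ^ 2 = s ∧
      ‖orth u (Φ (c t + B t w))‖ < r := by
  have h1 : ‖w‖ < r := neckTop_norm h.st.hr hw (hs.trans_lt (h.small t ht))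
  have h2 : Φ (c t + B t w) = (t - t₀) • u + B t₀ w :=
    h.st.str t w (ht.trans h.hρr) h1.le
  rw [h2, neckTop_inner h.st, neckTop_orth h.st, h.st.iso]
  exact ⟨rfl, hw, h1⟩

/-- Every point of the box with the right distance to the axis comes from the spheres. -/
private theorem CanalN.neckTop_mem (h : CanalN c B q a b t₀ Φ Ψ u r ρ ε)
    (hd : Module.finrank ℝ V = Module.finrank ℝ E + 1) {x : V} (hx : Box u ρ r x) :
    ∃ w : E, ‖w‖ = ‖orth u x‖ ∧ Φ (c (t₀ + ⟪u, x⟫) + B (t₀ + ⟪u, x⟫) w) = x := by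
  obtain ⟨w, hw⟩ := neckTop_surj h.st hd (inner_orth h.st.hu x)
  have hn : ‖w‖ = ‖orth u x‖ := by rw [← hw, h.st.iso]
  refine ⟨w, hn, ?_⟩
  have h1 : |t₀ + ⟪u, x⟫ - t₀| ≤ r := by
    rw [add_sub_cancel_left]
    exact hx.1.le.trans h.hρr
  rw [h.st.str _ w h1 (by rw [hn]; exact hx.2.le), hw, add_sub_cancel_left]
  unfold orth
  abel

/-- In the box there are only the spheres of the neck. -/
private theorem CanalN.neckTop_lt (h : CanalN c B q a b t₀ Φ Ψ u r ρ ε) {t : ℝ} {w : E}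
    (ht : t ∈ Icc a b) (hw : ρ ≤ |t - t₀| → ‖w‖ ^ 2 = q t) (hx : Box u ρ r (Φ (c t + B t w))) :
    |t - t₀| < ρ := by
  by_contra hn
  push Not at hn
  exact h.far t ht hn w (hw hn) ⟨hx.1, hx.2.le⟩

private theorem CanalN.neckTop_ge (h : CanalN c B q a b t₀ Φ Ψ u r ρ ε) {t s : ℝ} {w : E}
    (hw : ‖w‖ ^ 2 = s) (hs : s ≤ q t) (hx : ¬ Box u ρ r (Φ (c t + B t w))) :
    ρ ≤ |t - t₀| := by
  by_contra hn
  push Not at hn
  obtain ⟨h1, -, h3⟩ := h.neckTop_near hn.le hw hs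
  exact hx ⟨by rw [h1]; exact hn, h3⟩

private theorem CanalN.neckTop_r (h : CanalN c B q a b t₀ Φ Ψ u r ρ ε) :
    ∃ r₁ : ℝ, 0 < r₁ ∧ r₁ < r ∧ ∀ t, |t - t₀| ≤ ρ → q t < r₁ ^ 2 := by
  have hc : ContinuousOn q (Icc (t₀ - ρ) (t₀ + ρ)) := h.cn.sq.continuous.continuousOn
  have hmem : t₀ ∈ Icc (t₀ - ρ) (t₀ + ρ) := ⟨by linarith [h.hρ], by linarith [h.hρ]⟩
  obtain ⟨z, hz, hmax⟩ := isCompact_Icc.exists_isMaxOn ⟨t₀, hmem⟩ hc
  have hz' : |z - t₀| ≤ ρ := abs_le.2 ⟨by linarith [hz.1], by linarith [hz.2]⟩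
  have h1 : q z < r ^ 2 := h.small z hz'
  have h2 : 0 < q z := by
    have h3 : q t₀ ≤ q z := hmax hmem
    have h4 : 0 < ε ^ 2 := pow_pos h.hε 2
    rw [h.val] at h3
    linarith
  have h5 : √(q z) < r := (Real.sqrt_lt' h.st.hr).2 h1
  have h6 : 0 < √(q z) := Real.sqrt_pos.2 h2
  refine ⟨(√(q z) + r) / 2, by linarith [h.st.hr], by linarith, fun t ht => ?_⟩
  have h7 : q t ≤ q z := hmax ⟨by linarith [(abs_le.1 ht).1], by linarith [(abs_le.1 ht).2]⟩
  have h8 : q z = √(q z) ^ 2 := (Real.sq_sqrt h2.le).symm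
  have h9 : √(q z) < (√(q z) + r) / 2 := by linarith
  nlinarith

private theorem neckTop_image (h : Dif Φ Ψ) {A : Set V} (hA : LiftS A) : LiftS (Φ '' A) := by
  refine LiftS.homeo ?_ hA
  have hmem : ∀ y ∈ Φ '' A, Ψ y ∈ A := by
    rintro _ ⟨x, hx, rfl⟩
    rw [h.left]
    exact hx
  exact
    { toFun := fun x => ⟨Φ x, mem_image_of_mem Φ x.2⟩
      invFun := fun y => ⟨Ψ y, hmem y y.2⟩
      left_inv := fun x => Subtype.ext (h.left x)
      right_inv := fun y => Subtype.ext (h.right y)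
      continuous_toFun := (h.continuous.comp continuous_subtype_val).subtype_mk _
      continuous_invFun := (h.symm.continuous.comp continuous_subtype_val).subtype_mk _ }

/-- PROOF. `neck_sum` for `M = Φ '' canalM c B q a b 0`, `F = G (0, Ψ ·)` (`canal_lift`; regular: a
zero with vanishing derivative would give `t` inside with `q t = 0`), profiles `q (t₀ + ·)` and
`p (t₀ + ·)`, `M₁`, `M₂` the images of `canalM c B p a (t₀ - ε) 0` and `canalM c B p (t₀ + ε) b 0`;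
connected and lifting by `canal_conn` (image under the homeomorphism `Φ`; `CanalN.cut` for the
parts). `r₁ < r` with `q < r₁ ^ 2` for `|t - t₀| ≤ ρ` by compactness (`small`). `range (B t₀)` is
the orthogonal complement of `u` (dimension). BOX: if `x = Φ (c t + B t w)` is in the box then
`|t - t₀| < ρ` by `far`, so `‖w‖ < r` (`small`) and `Strt0.str` gives `⟪u, x⟫ = t - t₀`,
`orth u x = B t₀ w`; conversely every `x` in the box with `‖orth u x‖ ^ 2 = q (t₀ + ⟪u, x⟫)` is such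
a point. The same for `p` (for `|t - t₀| ≥ ρ` one has `p = q`; `p ≤ q`). DISJOINT: `disj` type
argument: a common point of the two parts: both parameters within `ρ`: equal `⟪u, Φ x⟫`, but one is
`≤ t₀ - ε`, the other `≥ t₀ + ε`; one beyond `ρ`, the other within `ρ / 2`: `far`; both beyond
`ρ / 2`: `disj` of `q`. -/
theorem CanalN.top (h : CanalN c B q a b t₀ Φ Ψ u r ρ ε) (hp : CutP q p t₀ ρ ε)
    (hE : 3 ≤ Module.finrank ℝ E) (hd : Module.finrank ℝ V = Module.finrank ℝ E + 1)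
    (h1 : Unk (canalM c B p a (t₀ - ε) 0)) (h2 : Unk (canalM c B p (t₀ + ε) b 0)) :
    Unk (canalM c B q a b 0) := by
  have hD := h.st.dif
  have hρ := h.hρ
  have hε := h.hε
  have hερ := h.hερ
  have la := h.la
  have lb := h.lb
  obtain ⟨G, hG, hGb, hGz, hGr⟩ := canal_lift h.cn hE hd
  obtain ⟨r₁, hr₁, hrr, hqr⟩ := h.neckTop_r
  obtain ⟨hcut1, hcut2⟩ := h.cut hp
  obtain ⟨hc, hl⟩ := canal_conn h.cn hE hd
  obtain ⟨hc1, -⟩ := canal_conn hcut1 hE hd
  obtain ⟨hc2, -⟩ := canal_conn hcut2 hE hd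
  have hpq : ∀ t, ρ ≤ |t - t₀| → p t = q t := fun t ht => hp.eq t (by linarith)
  have hin : ContDiff ℝ ∞ (fun x : V => ((0 : ℝ), Ψ x)) := contDiff_const.prodMk hD.smooth'
  have hMF : Φ '' canalM c B q a b 0 = {x | G (0, Ψ x) = 0} := by
    ext x
    rw [mem_setOf_eq, hGz]
    constructor
    · rintro ⟨y, hy, rfl⟩
      rw [hD.left]
      exact hy
    · intro hx
      exact ⟨Ψ x, hx, hD.right x⟩
  refine Unk.of_image_dif hD ?_
  refine neck_sum (F := fun x => G (0, Ψ x)) (u := u) (ρ := ρ) (r := r) (r₁ := r₁) (ε := ε)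
    (p := fun σ => q (t₀ + σ)) (p' := fun σ => p (t₀ + σ)) (by omega)
    (M₁ := Φ '' canalM c B p a (t₀ - ε) 0) (M₂ := Φ '' canalM c B p (t₀ + ε) b 0)
    (hG.comp hin) ?_ ?_ hMF (hc.image Φ hD.continuous.continuousOn) (neckTop_image hD hl) h.st.hu
    hε hερ hr₁ hrr (h.cn.sq.comp (contDiff_const.add contDiff_id))
    (hp.smooth.comp (contDiff_const.add contDiff_id)) ?_ ?_ ?_ ?_ ?_ ?_ ?_ ?_ ?_ ?_
    (hc1.image Φ hD.continuous.continuousOn) (hc2.image Φ hD.continuous.continuousOn) ?_ ?_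
    (h1.image_dif hD) (h2.image_dif hD)
  · -- bounded
    obtain ⟨R, hR⟩ := hGb.subset_closedBall 0
    have hK : IsCompact (Φ '' closedBall (0 : V) R) :=
      (isCompact_closedBall (0 : V) R).image hD.continuous
    refine hK.isBounded.subset fun x hx => ⟨Ψ x, ?_, hD.right x⟩
    have h3 : ((0 : ℝ), Ψ x) ∈ closedBall (0 : ℝ × V) R := hR (le_of_eq hx)
    rw [mem_closedBall_zero_iff] at h3 ⊢
    exact (norm_snd_le ((0 : ℝ), Ψ x)).trans h3
  · -- regular
    intro x hx h0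
    have hg : ContDiff ℝ ∞ (fun y => G (0, y)) := hG.comp (contDiff_const.prodMk contDiff_id)
    have h3 : fderiv ℝ (fun y => G (0, y)) (Ψ x) = 0 := by
      have h4 : HasFDerivAt (fun x => G (0, Ψ x))
          ((fderiv ℝ (fun y => G (0, y)) (Ψ x)).comp (fderiv ℝ Ψ x)) x :=
        ((hg.differentiable (by simp)) (Ψ x)).hasFDerivAt.comp x (hD.symm.has x)
      have h5 := h4.fderiv
      rw [h0] at h5
      ext v
      have h6 : fderiv ℝ Ψ x (fderiv ℝ Φ (Ψ x) v) = v := by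
        have := hD.fderiv_left (Ψ x) v
        rwa [hD.right] at this
      have h7 := DFunLike.congr_fun h5 (fderiv ℝ Φ (Ψ x) v)
      rw [ContinuousLinearMap.comp_apply, h6] at h7
      exact h7.symm
    obtain ⟨t, ht, -, h4, -⟩ := hGr 0 (Ψ x) hx h3
    have := h.cn.pos t ht
    rw [h4] at this
    norm_num at this
  · -- the box
    intro x hx
    constructor
    · rintro ⟨_, ⟨t, ht, w, hw, rfl⟩, rfl⟩
      have hw' : ‖w‖ ^ 2 = q t := by
        rw [← hw]
        ring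
      have h3 := h.neckTop_lt ht (fun _ => hw') hx
      obtain ⟨h4, h5, -⟩ := h.neckTop_near h3.le hw' le_rfl
      show _ = q (t₀ + _)
      rw [h4, h5, add_sub_cancel]
    · intro hq
      obtain ⟨w, hw, he⟩ := h.neckTop_mem hd hx
      refine ⟨_, ⟨t₀ + ⟪u, x⟫, ?_, w, ?_, rfl⟩, he⟩
      · have := abs_lt.1 hx.1
        exact ⟨by linarith, by linarith⟩
      · rw [hw, hq]
        ring
  · -- positive and small
    intro σ hσ
    have h3 := abs_lt.1 hσ
    refine ⟨h.cn.pos _ ⟨by linarith, by linarith⟩, hqr _ ?_⟩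
    rw [add_sub_cancel_left]
    exact hσ.le
  · intro σ hσ
    exact hp.eq _ (by rw [add_sub_cancel_left]; exact hσ)
  · intro σ
    exact hp.le _
  · exact hp.zp
  · exact hp.zm
  · intro σ hσ
    exact hp.neg _ (by rw [add_sub_cancel_left]; exact hσ)
  · intro σ h3 h4
    have h5 := hp.mono (t₀ + σ) (by rw [add_sub_cancel_left]; exact h3)
      (by rw [add_sub_cancel_left]; exact h4.le)
    rw [add_sub_cancel_left] at h5
    rw [deriv_comp_const_add]
    exact h5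
  · -- the two parts
    intro x
    constructor
    · intro hx
      have h3 : ∃ t ∈ Icc a b, ∃ w : E, ‖w‖ ^ 2 = p t ∧ Φ (c t + B t w) = x := by
        rcases hx with ⟨_, ⟨t, ht, w, hw, rfl⟩, rfl⟩ | ⟨_, ⟨t, ht, w, hw, rfl⟩, rfl⟩
        · exact ⟨t, ⟨ht.1, by linarith [ht.2]⟩, w, by rw [← hw]; ring, rfl⟩
        · exact ⟨t, ⟨by linarith [ht.1], ht.2⟩, w, by rw [← hw]; ring, rfl⟩
      obtain ⟨t, ht, w, hw, rfl⟩ := h3
      by_cases hB : Box u ρ r (Φ (c t + B t w))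
      · left
        have h3 := h.neckTop_lt ht (fun h4 => hw.trans (hpq t h4)) hB
        obtain ⟨h4, h5, -⟩ := h.neckTop_near h3.le hw (hp.le t)
        refine ⟨hB, ?_⟩
        show _ = p (t₀ + _)
        rw [h4, h5, add_sub_cancel]
      · right
        have h3 := h.neckTop_ge hw (hp.le t) hB
        refine ⟨hB, _, ⟨t, ht, w, ?_, rfl⟩, rfl⟩
        rw [hw, hpq t h3]
        ring
    · rintro (⟨hB, hq⟩ | ⟨hB, _, ⟨t, ht, w, hw, rfl⟩, rfl⟩)
      · obtain ⟨w, hw, he⟩ := h.neckTop_mem hd hB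
        have hq' : (0 : ℝ) ^ 2 + ‖w‖ ^ 2 = p (t₀ + ⟪u, x⟫) := by
          rw [hw, hq]
          ring
        have h3 := abs_lt.1 hB.1
        have h4 : ε ≤ |⟪u, x⟫| := by
          by_contra h5
          push Not at h5
          have h6 := hp.neg (t₀ + ⟪u, x⟫) (by rw [add_sub_cancel_left]; exact h5)
          have h7 : 0 ≤ ‖w‖ ^ 2 := sq_nonneg _
          linarith
        rcases le_abs.1 h4 with h5 | h5
        · right
          exact ⟨_, ⟨t₀ + ⟪u, x⟫, ⟨by linarith, by linarith⟩, w, hq', rfl⟩, he⟩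
        · left
          exact ⟨_, ⟨t₀ + ⟪u, x⟫, ⟨by linarith, by linarith⟩, w, hq', rfl⟩, he⟩
      · have hw' : ‖w‖ ^ 2 = q t := by
          rw [← hw]
          ring
        have h3 := h.neckTop_ge hw' le_rfl hB
        rcases le_abs.1 h3 with h5 | h5
        · right
          exact ⟨_, ⟨t, ⟨by linarith, ht.2⟩, w, by rw [hw, hpq t h3], rfl⟩, rfl⟩
        · left
          exact ⟨_, ⟨t, ⟨ht.1, by linarith⟩, w, by rw [hw, hpq t h3], rfl⟩, rfl⟩
  · -- disjoint
    rw [Set.disjoint_left]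
    rintro _ ⟨_, ⟨t, ht, w, hw, rfl⟩, rfl⟩ ⟨_, ⟨t', ht', w', hw', rfl⟩, he⟩
    have he' : c t' + B t' w' = c t + B t w := by
      rw [← hD.left (c t' + B t' w'), he, hD.left]
    have hw1 : ‖w‖ ^ 2 = p t := by
      rw [← hw]
      ring
    have hw2 : ‖w'‖ ^ 2 = p t' := by
      rw [← hw']
      ring
    have hti : t ∈ Icc a b := ⟨ht.1, by linarith [ht.2]⟩
    have hti' : t' ∈ Icc a b := ⟨by linarith [ht'.1], ht'.2⟩
    have hne : t ≠ t' := by
      have := ht.2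
      have := ht'.1
      intro h3
      linarith
    rcases lt_or_ge |t - t₀| ρ with h3 | h3
    · obtain ⟨h4, -, h5⟩ := h.neckTop_near h3.le hw1 (hp.le t)
      rcases lt_or_ge |t' - t₀| ρ with h6 | h6
      · obtain ⟨h7, -, -⟩ := h.neckTop_near h6.le hw2 (hp.le t')
        rw [he', h4] at h7
        exact hne (by linarith)
      · refine h.far t' hti' h6 w' (hw2.trans (hpq t' h6)) ?_
        rw [he', h4]
        exact ⟨h3, h5.le⟩
    · rcases lt_or_ge |t' - t₀| ρ with h6 | h6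
      · obtain ⟨h7, -, h8⟩ := h.neckTop_near h6.le hw2 (hp.le t')
        refine h.far t hti h3 w (hw1.trans (hpq t h3)) ?_
        rw [he'] at h7 h8
        rw [h7]
        exact ⟨h6, h8.le⟩
      · exact hne (h.cn.disj t hti t' hti' w w' (hw1.trans (hpq t h3)) (hw2.trans (hpq t' h6))
          he'.symm)
  · -- the point of the first part
    refine ⟨c (t₀ - ε) + B (t₀ - ε) 0, ⟨t₀ - ε, ⟨by linarith, le_rfl⟩, 0, ?_, rfl⟩, ?_⟩
    · rw [hp.zm, norm_zero]
      ring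
    · have h3 : |t₀ - ε - t₀| ≤ r := by
        rw [sub_sub_cancel_left, abs_neg, abs_of_pos hε]
        linarith [h.hρr]
      rw [h.st.str _ 0 h3 (by rw [norm_zero]; exact h.st.hr.le), map_zero, add_zero,
        sub_sub_cancel_left]
  · refine ⟨c (t₀ + ε) + B (t₀ + ε) 0, ⟨t₀ + ε, ⟨le_rfl, by linarith⟩, 0, ?_, rfl⟩, ?_⟩
    · rw [hp.zp, norm_zero]
      ring
    · have h3 : |t₀ + ε - t₀| ≤ r := by
        rw [add_sub_cancel_left, abs_of_pos hε]
        linarith [h.hρr]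
      rw [h.st.str _ 0 h3 (by rw [norm_zero]; exact h.st.hr.le), map_zero, add_zero,
        add_sub_cancel_left]

end Pool.Schoen
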