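import Pool.Agent.H.MP_6c077c_gt.Cn.Height
import Pool.Agent.H.MP_6c077c_gt.Cn.Div

/-! Canal spheres: the embedded sphere of half-spheres, parametrised. -/

set_option autoImplicit false

namespace Pool.Schoen

open Filter Set Metric
open scoped Topology RealInnerProductSpace ContDiff

variable {E V : Type*} [NormedAddCommGroup E] [InnerProductSpace ℝ E] [FiniteDimensional ℝ E]
  [NormedAddCommGroup V] [InnerProductSpace ℝ V] [FiniteDimensional ℝ V]
variable {c : ℝ → V} {B : ℝ → E →L[ℝ] V} {q : ℝ → ℝ} {a b : ℝ}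

/-- The time of the parameter `τ`. -/
noncomputable def paramT (a b τ : ℝ) : ℝ := (a + b) / 2 + (b - a) / 2 * τ

/-- The scale at the parameter `τ`. -/
noncomputable def paramK (m : ℝ → ℝ) (a b τ : ℝ) : ℝ := (b - a) / 2 * m (paramT a b τ)

/-- The displayed formula. -/
noncomputable def paramG (c : ℝ → V) (B : ℝ → E →L[ℝ] V) (m : ℝ → ℝ) (a b : ℝ)
    (y : WithLp 2 (ℝ × WithLp 2 (ℝ × E))) : WithLp 2 (ℝ × V) :=
  WithLp.toLp 2 (paramK m a b y.fst * y.snd.fst,
    c (paramT a b y.fst) + paramK m a b y.fst • B (paramT a b y.fst) y.snd.snd)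

omit [FiniteDimensional ℝ E] in
private theorem param_fst : ContDiff ℝ ∞ fun y : WithLp 2 (ℝ × WithLp 2 (ℝ × E)) => y.fst :=
  contDiff_fst.comp WithLp.contDiff_ofLp

omit [FiniteDimensional ℝ E] in
private theorem param_snd_fst :
    ContDiff ℝ ∞ fun y : WithLp 2 (ℝ × WithLp 2 (ℝ × E)) => y.snd.fst :=
  contDiff_fst.comp (WithLp.contDiff_ofLp.comp (contDiff_snd.comp WithLp.contDiff_ofLp))

omit [FiniteDimensional ℝ E] in
private theorem param_snd_snd :
    ContDiff ℝ ∞ fun y : WithLp 2 (ℝ × WithLp 2 (ℝ × E)) => y.snd.snd :=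
  contDiff_snd.comp (WithLp.contDiff_ofLp.comp (contDiff_snd.comp WithLp.contDiff_ofLp))

private theorem contDiff_paramT : ContDiff ℝ ∞ (paramT a b) := by
  unfold paramT
  fun_prop

private theorem contDiff_paramK {m : ℝ → ℝ} (hm : ContDiff ℝ ∞ m) :
    ContDiff ℝ ∞ (paramK m a b) := by
  unfold paramK
  exact contDiff_const.mul (hm.comp contDiff_paramT)

omit [FiniteDimensional ℝ E] [FiniteDimensional ℝ V] in
private theorem contDiff_paramG (hc : ContDiff ℝ ∞ c) (hB : ContDiff ℝ ∞ B) {m : ℝ → ℝ}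
    (hm : ContDiff ℝ ∞ m) : ContDiff ℝ ∞ (paramG c B m a b) := by
  unfold paramG
  refine WithLp.contDiff_toLp.comp (ContDiff.prodMk ?_ ?_)
  · exact ((contDiff_paramK hm).comp param_fst).mul param_snd_fst
  · refine (hc.comp (contDiff_paramT.comp param_fst)).add ?_
    exact ((contDiff_paramK hm).comp param_fst).smul
      ((hB.comp (contDiff_paramT.comp param_fst)).clm_apply param_snd_snd)

private theorem hasDerivAt_normalize {X : Type*} [NormedAddCommGroup X] [InnerProductSpace ℝ X]
    {p u : X} (hp : ‖p‖ = 1) (hu : ⟪u, p⟫ = 0) :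
    HasDerivAt (fun r : ℝ => ‖p + r • u‖⁻¹ • (p + r • u)) u 0 := by
  have h1 : HasDerivAt (fun r : ℝ => p + r • u) u 0 := by
    simpa using ((hasDerivAt_id (0 : ℝ)).smul_const u).const_add p
  have h2 : HasDerivAt (fun r : ℝ => ‖p + r • u‖ ^ 2) 0 0 := by
    have h0 := h1.norm_sq
    simp only [zero_smul, add_zero] at h0
    rwa [real_inner_comm, hu, mul_zero] at h0
  have h3 : HasDerivAt (fun r : ℝ => ‖p + r • u‖) 0 0 := by
    have h4 := h2.sqrt (by simp [hp])
    simpa using h4
  have h5 : HasDerivAt (fun r : ℝ => ‖p + r • u‖⁻¹) 0 0 := by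
    have h6 := h3.inv (by simp [hp])
    exact h6.congr_deriv (by simp)
  have h7 := h5.smul h1
  exact h7.congr_deriv (by simp [hp])

omit [FiniteDimensional ℝ E] [FiniteDimensional ℝ V] in
/-- The derivative of the formula. -/
private theorem param_fderiv (hc : ContDiff ℝ ∞ c) (hB : ContDiff ℝ ∞ B) {m : ℝ → ℝ}
    (hm : ContDiff ℝ ∞ m) {p u : WithLp 2 (ℝ × WithLp 2 (ℝ × E))}
    (h0 : fderiv ℝ (paramG c B m a b) p u = 0) :
    deriv (paramK m a b) p.fst * u.fst * p.snd.fst + paramK m a b p.fst * u.snd.fst = 0 ∧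
    ((b - a) / 2 * u.fst) • deriv c (paramT a b p.fst) +
      ((deriv (paramK m a b) p.fst * u.fst) • B (paramT a b p.fst) p.snd.snd +
      paramK m a b p.fst • (((b - a) / 2 * u.fst) • deriv B (paramT a b p.fst) p.snd.snd +
        B (paramT a b p.fst) u.snd.snd)) = 0 := by
  have hγ : HasDerivAt (fun r : ℝ => p + r • u) u 0 := by
    simpa using ((hasDerivAt_id (0 : ℝ)).smul_const u).const_add p
  have hG : HasFDerivAt (paramG c B m a b) (fderiv ℝ (paramG c B m a b) p) (p + (0 : ℝ) • u) := by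
    rw [zero_smul, add_zero]
    exact ((contDiff_paramG hc hB hm).differentiable (by simp)).differentiableAt.hasFDerivAt
  have h1 : HasDerivAt (fun r : ℝ => paramG c B m a b (p + r • u)) 0 0 := by
    have := hG.comp_hasDerivAt (0 : ℝ) hγ
    rwa [h0] at this
  have h2 : HasDerivAt (fun r : ℝ => (WithLp.prodContinuousLinearEquiv 2 ℝ ℝ V)
      (paramG c B m a b (p + r • u))) 0 0 := by
    have := ((WithLp.prodContinuousLinearEquiv 2 ℝ ℝ V).toContinuousLinearMap.hasFDerivAt
      (x := paramG c B m a b (p + (0 : ℝ) • u))).comp_hasDerivAt (0 : ℝ) h1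
    exact this.congr_deriv (by simp)
  have hfst : HasDerivAt (fun r : ℝ => p.fst + r * u.fst) u.fst 0 := by
    simpa using ((hasDerivAt_id (0 : ℝ)).mul_const u.fst).const_add p.fst
  have hsf : HasDerivAt (fun r : ℝ => p.snd.fst + r * u.snd.fst) u.snd.fst 0 := by
    simpa using ((hasDerivAt_id (0 : ℝ)).mul_const u.snd.fst).const_add p.snd.fst
  have hss : HasDerivAt (fun r : ℝ => p.snd.snd + r • u.snd.snd) u.snd.snd 0 := by
    simpa using ((hasDerivAt_id (0 : ℝ)).smul_const u.snd.snd).const_add p.snd.snd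
  have hT : HasDerivAt (fun r : ℝ => paramT a b (p.fst + r * u.fst)) ((b - a) / 2 * u.fst) 0 := by
    unfold paramT
    exact (hfst.const_mul _).const_add _
  have hK : HasDerivAt (fun r : ℝ => paramK m a b (p.fst + r * u.fst))
      (deriv (paramK m a b) p.fst * u.fst) 0 := by
    have h3 : HasDerivAt (paramK m a b) (deriv (paramK m a b) p.fst) (p.fst + 0 * u.fst) := by
      rw [zero_mul, add_zero]
      exact ((contDiff_paramK hm).differentiable (by simp)).differentiableAt.hasDerivAt
    have h4 := h3.comp (0 : ℝ) hfst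
    exact h4
  have hcd : HasDerivAt (fun r : ℝ => c (paramT a b (p.fst + r * u.fst)))
      (((b - a) / 2 * u.fst) • deriv c (paramT a b p.fst)) 0 := by
    have h3 : HasDerivAt c (deriv c (paramT a b p.fst)) (paramT a b (p.fst + 0 * u.fst)) := by
      rw [zero_mul, add_zero]
      exact (hc.differentiable (by simp)).differentiableAt.hasDerivAt
    exact h3.scomp (0 : ℝ) hT
  have hBd : HasDerivAt (fun r : ℝ => B (paramT a b (p.fst + r * u.fst)))
      (((b - a) / 2 * u.fst) • deriv B (paramT a b p.fst)) 0 := by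
    have h3 : HasDerivAt B (deriv B (paramT a b p.fst)) (paramT a b (p.fst + 0 * u.fst)) := by
      rw [zero_mul, add_zero]
      exact (hB.differentiable (by simp)).differentiableAt.hasDerivAt
    exact h3.scomp (0 : ℝ) hT
  have hX := hK.mul hsf
  have hY := hcd.add (hK.smul (hBd.clm_apply hss))
  have h4 : HasDerivAt (fun r : ℝ => ((WithLp.prodContinuousLinearEquiv 2 ℝ ℝ V)
      (paramG c B m a b (p + r • u))).1) 0 0 := by
    have h3 := (hasFDerivAt_fst (𝕜 := ℝ) (E := ℝ) (F := V)
      (p := (WithLp.prodContinuousLinearEquiv 2 ℝ ℝ V)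
      (paramG c B m a b (p + (0 : ℝ) • u)))).comp_hasDerivAt (0 : ℝ) h2
    exact h3.congr_deriv (by simp)
  have h5 : HasDerivAt (fun r : ℝ => ((WithLp.prodContinuousLinearEquiv 2 ℝ ℝ V)
      (paramG c B m a b (p + r • u))).2) 0 0 := by
    have h3 := (hasFDerivAt_snd (𝕜 := ℝ) (E := ℝ) (F := V)
      (p := (WithLp.prodContinuousLinearEquiv 2 ℝ ℝ V)
      (paramG c B m a b (p + (0 : ℝ) • u)))).comp_hasDerivAt (0 : ℝ) h2
    exact h3.congr_deriv (by simp)
  have h6 := h4.unique hX
  have h7 := h5.unique hY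
  constructor
  · rw [h6]
    simp
  · rw [h7]
    simp
    abel

/-- PROOF. `m` from `canal_div`; `k = (b - a) / 2`, `T τ = (a + b) / 2 + k τ`, so
`q (T τ) = (1 - τ ^ 2) (k m (T τ)) ^ 2` for `|τ| ≤ 1`. `f y` is the displayed formula at `y / ‖y‖`:
smooth off zero, constant on rays. With `t = T τ`, `S = k m s`, `w₁ = k m w` one has
`S ^ 2 + ‖w₁‖ ^ 2 = q t` on the unit sphere. INJECTIVE: `CanalD.disj_height` gives equal `t`, hence
equal `τ`, then `s` and `w` (`B t` injective, `k m > 0`). IMMERSION: a tangent vector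
`(τ', s', w')` with `τ τ' + s s' + ⟪w, w'⟫ = 0` in the kernel; `fderiv` of `y / ‖y‖` at a unit
vector is the identity on its orthogonal complement. If `τ' = 0`: the image is
`(k m s', k m B t w')`, so `s' = 0`, `w' = 0`. If `τ' ≠ 0` divide by `k τ'`: `S' = 0` and
`c' + B' w₁ + B w₁' = 0`, where `S'`, `w₁'` are the derivatives of `S` and `w₁` with respect to `t`
along the vector, and `2 S S' + 2 ⟪w₁, w₁'⟫ = deriv q t` (differentiate the identity
`(k m (T τ)) ^ 2 (1 - τ ^ 2) = q (T τ)`; at `τ = ± 1` tangent vectors with `τ' ≠ 0` do not exist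
because there `s = 0`, `w = 0`; inside `(-1, 1)` the identity holds near `τ`). This contradicts
`CanalD.imm_height`. -/
theorem canal_param (h : CanalD c B q a b) (hE : 3 ≤ Module.finrank ℝ E)
    (hd : Module.finrank ℝ V = Module.finrank ℝ E + 1) :
    ∃ (f : WithLp 2 (ℝ × WithLp 2 (ℝ × E)) → WithLp 2 (ℝ × V)) (m : ℝ → ℝ),
      ContDiffOn ℝ ∞ f {0}ᶜ ∧ (∀ t : ℝ, 0 < t → ∀ x, x ≠ 0 → f (t • x) = f x) ∧
      InjOn f (sphere 0 1) ∧
      (∀ p ∈ sphere (0 : WithLp 2 (ℝ × WithLp 2 (ℝ × E))) 1, ∀ u, ⟪u, p⟫ = 0 →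
        fderiv ℝ f p u = 0 → u = 0) ∧
      ContDiff ℝ ∞ m ∧ (∀ t, 0 < m t) ∧ (∀ t ∈ Icc a b, q t = (t - a) * (b - t) * m t ^ 2) ∧
      ∀ (τ s : ℝ) (w : E), τ ^ 2 + s ^ 2 + ‖w‖ ^ 2 = 1 →
        f (WithLp.toLp 2 (τ, WithLp.toLp 2 (s, w))) =
          WithLp.toLp 2 ((b - a) / 2 * m ((a + b) / 2 + (b - a) / 2 * τ) * s,
            c ((a + b) / 2 + (b - a) / 2 * τ) +
              ((b - a) / 2 * m ((a + b) / 2 + (b - a) / 2 * τ)) •
                B ((a + b) / 2 + (b - a) / 2 * τ) w) := by
  obtain ⟨m, hm, hmp, hq⟩ := canal_div h.lt h.sq h.za h.zb h.da h.db h.pos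
  have hk : 0 < (b - a) / 2 := by linarith [h.lt]
  have hKp : ∀ τ, 0 < paramK m a b τ := fun τ => mul_pos hk (hmp _)
  have hGc := contDiff_paramG (a := a) (b := b) h.sc h.sB hm
  have hT : ∀ τ : ℝ, τ ^ 2 ≤ 1 → paramT a b τ ∈ Icc a b := by
    intro τ hτ
    have h1 := abs_le.1 (abs_le_one_iff_mul_self_le_one.2 (by linarith [sq τ]) : |τ| ≤ 1)
    unfold paramT
    constructor <;> nlinarith [h1.1, h1.2]
  have hqT : ∀ τ : ℝ, τ ^ 2 ≤ 1 → q (paramT a b τ) = (1 - τ ^ 2) * paramK m a b τ ^ 2 := by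
    intro τ hτ
    rw [hq _ (hT τ hτ)]
    unfold paramK paramT
    ring
  have hN : ∀ p : WithLp 2 (ℝ × WithLp 2 (ℝ × E)), p ∈ sphere (0 : WithLp 2 (ℝ × WithLp 2 (ℝ × E))) 1 →
      p.fst ^ 2 + (p.snd.fst ^ 2 + ‖p.snd.snd‖ ^ 2) = 1 := by
    intro p hp
    have h1 : ‖p‖ = 1 := by simpa using hp
    have h2 := WithLp.prod_norm_sq_eq_of_L2 p
    have h3 := WithLp.prod_norm_sq_eq_of_L2 p.snd
    rw [h1, h3] at h2
    simp only [Real.norm_eq_abs, sq_abs] at h2
    linarith
  have hval : ∀ p : WithLp 2 (ℝ × WithLp 2 (ℝ × E)), p ∈ sphere (0 : WithLp 2 (ℝ × WithLp 2 (ℝ × E))) 1 →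
      (paramK m a b p.fst * p.snd.fst) ^ 2 + ‖paramK m a b p.fst • p.snd.snd‖ ^ 2 =
        q (paramT a b p.fst) := by
    intro p hp
    have h1 := hN p hp
    rw [hqT _ (by nlinarith [sq_nonneg p.snd.fst, sq_nonneg ‖p.snd.snd‖]), norm_smul, mul_pow,
      mul_pow, Real.norm_eq_abs, sq_abs, ← h1]
    ring
  have hfp : ∀ p : WithLp 2 (ℝ × WithLp 2 (ℝ × E)), ‖p‖ = 1 →
      paramG c B m a b (‖p‖⁻¹ • p) = paramG c B m a b p := by
    intro p hp
    rw [hp, inv_one, one_smul]
  refine ⟨fun y => paramG c B m a b (‖y‖⁻¹ • y), m, ?_, ?_, ?_, ?_, hm, hmp, hq, ?_⟩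
  · refine hGc.comp_contDiffOn ?_
    refine ContDiffOn.smul (ContDiffOn.inv ?_ fun x hx => norm_ne_zero_iff.2 hx) contDiffOn_id
    exact contDiffOn_id.norm ℝ fun x hx => hx
  · intro t ht x hx
    simp only
    congr 1
    rw [norm_smul, Real.norm_eq_abs, abs_of_pos ht, smul_smul]
    congr 1
    field_simp
  · intro p hp p' hp' he
    simp only at he
    have h1 : ‖p‖ = 1 := by simpa using hp
    have h1' : ‖p'‖ = 1 := by simpa using hp'
    rw [hfp p h1, hfp p' h1'] at he
    have he1 : paramK m a b p.fst * p.snd.fst = paramK m a b p'.fst * p'.snd.fst :=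
      congrArg WithLp.fst he
    have he2 : c (paramT a b p.fst) + paramK m a b p.fst • B (paramT a b p.fst) p.snd.snd =
        c (paramT a b p'.fst) + paramK m a b p'.fst • B (paramT a b p'.fst) p'.snd.snd :=
      congrArg WithLp.snd he
    have hn := hN p hp
    have hn' := hN p' hp'
    have ht := hT p.fst (by nlinarith [sq_nonneg p.snd.fst, sq_nonneg ‖p.snd.snd‖])
    have ht' := hT p'.fst (by nlinarith [sq_nonneg p'.snd.fst, sq_nonneg ‖p'.snd.snd‖])
    rw [← map_smul, ← map_smul] at he2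
    have hv := hval p hp
    have hv' := hval p' hp'
    rw [← he1] at hv'
    have h2 := h.disj_height hE hd ht ht' hv hv' he2
    have h3 : p.fst = p'.fst := by
      unfold paramT at h2
      have h4 : (b - a) / 2 * (p.fst - p'.fst) = 0 := by linarith
      rcases mul_eq_zero.1 h4 with h5 | h5
      · exact absurd h5 hk.ne'
      · linarith
    have h4 : p.snd.fst = p'.snd.fst := by
      rw [← h3] at he1
      exact mul_left_cancel₀ (hKp _).ne' he1
    have h5 : p.snd.snd = p'.snd.snd := by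
      rw [← h3] at he2
      have h6 : B (paramT a b p.fst) (paramK m a b p.fst • p.snd.snd - paramK m a b p.fst • p'.snd.snd) = 0 := by
        rw [map_sub, sub_eq_zero]
        exact add_left_cancel he2
      have h7 := h.iso _ ht (paramK m a b p.fst • p.snd.snd - paramK m a b p.fst • p'.snd.snd)
      rw [h6, norm_zero] at h7
      have h8 := sub_eq_zero.1 (norm_eq_zero.1 h7.symm)
      exact smul_right_injective _ (hKp _).ne' h8
    have h6 : p.snd = p'.snd := by
      apply (WithLp.equiv 2 (ℝ × E)).injective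
      exact Prod.ext h4 h5
    apply (WithLp.equiv 2 (ℝ × WithLp 2 (ℝ × E))).injective
    exact Prod.ext h3 h6
  · intro p hp u hu hf
    have h1 : ‖p‖ = 1 := by simpa using hp
    have hp0 : p ≠ 0 := by
      rintro rfl
      simp at h1
    have hγ : HasDerivAt (fun r : ℝ => p + r • u) u 0 := by
      simpa using ((hasDerivAt_id (0 : ℝ)).smul_const u).const_add p
    have hn := hasDerivAt_normalize h1 hu
    have hfd : HasFDerivAt (fun y => paramG c B m a b (‖y‖⁻¹ • y))
        (fderiv ℝ (fun y => paramG c B m a b (‖y‖⁻¹ • y)) p) (p + (0 : ℝ) • u) := by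
      rw [zero_smul, add_zero]
      refine DifferentiableAt.hasFDerivAt ?_
      refine ((hGc.differentiable (by simp)).differentiableAt).comp p ?_
      refine DifferentiableAt.smul (DifferentiableAt.inv ?_ (norm_ne_zero_iff.2 hp0))
        differentiableAt_id
      exact differentiableAt_id.norm ℝ hp0
    have h2 := hfd.comp_hasDerivAt (0 : ℝ) hγ
    rw [hf] at h2
    have hGd : HasFDerivAt (paramG c B m a b) (fderiv ℝ (paramG c B m a b) p)
        (‖p + (0 : ℝ) • u‖⁻¹ • (p + (0 : ℝ) • u)) := by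
      rw [zero_smul, add_zero, h1, inv_one, one_smul]
      exact ((hGc.differentiable (by simp)).differentiableAt).hasFDerivAt
    have h3 := hGd.comp_hasDerivAt (0 : ℝ) hn
    have h4 : fderiv ℝ (paramG c B m a b) p u = 0 := h3.unique h2
    obtain ⟨hX, hY⟩ := param_fderiv h.sc h.sB hm h4
    have hs := hN p hp
    have hor : u.fst * p.fst + (u.snd.fst * p.snd.fst + ⟪u.snd.snd, p.snd.snd⟫) = 0 := by
      have h5 := hu
      rw [WithLp.prod_inner_apply, WithLp.prod_inner_apply] at h5
      simp only [WithLp.ofLp_fst, WithLp.ofLp_snd] at h5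
      have h6 : ∀ x y : ℝ, ⟪x, y⟫ = x * y := by
        intro x y
        simp [mul_comm]
      rw [h6, h6] at h5
      exact h5
    have hp1 : p.fst ^ 2 ≤ 1 := by nlinarith [sq_nonneg p.snd.fst, sq_nonneg ‖p.snd.snd‖]
    have ht := hT p.fst hp1
    have hK := hKp p.fst
    have hu0 : u.fst = 0 := by
      by_contra hne
      have hlt : p.fst ^ 2 < 1 := by
        rcases hp1.lt_or_eq with h5 | h5
        · exact h5
        · exfalso
          have h6 : p.snd.fst = 0 := by
            have : p.snd.fst ^ 2 = 0 := by nlinarith [sq_nonneg p.snd.fst, sq_nonneg ‖p.snd.snd‖]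
            exact pow_eq_zero_iff (two_ne_zero) |>.1 this
          have h7 : p.snd.snd = 0 := by
            have : ‖p.snd.snd‖ ^ 2 = 0 := by
              nlinarith [sq_nonneg p.snd.fst, sq_nonneg ‖p.snd.snd‖]
            exact norm_eq_zero.1 (pow_eq_zero_iff (two_ne_zero) |>.1 this)
          rw [h6, h7, inner_zero_right, mul_zero, add_zero, add_zero] at hor
          rcases mul_eq_zero.1 hor with h8 | h8
          · exact hne h8
          · rw [h8] at h5
            norm_num at h5
      set K := paramK m a b p.fst with hKdef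
      set K' := deriv (paramK m a b) p.fst with hK'def
      set k := (b - a) / 2 with hkdef
      have hkne : k ≠ 0 := hk.ne'
      -- derivative of the identity
      have hid : 2 * K * K' * (1 - p.fst ^ 2) - 2 * K ^ 2 * p.fst =
          k * deriv q (paramT a b p.fst) := by
        have e1 : HasDerivAt (fun τ : ℝ => (1 - τ ^ 2) * paramK m a b τ ^ 2)
            (-(2 * p.fst) * K ^ 2 + (1 - p.fst ^ 2) * (2 * K * K')) p.fst := by
          have e2 : HasDerivAt (paramK m a b) K' p.fst :=
            ((contDiff_paramK hm).differentiable (by simp)).differentiableAt.hasDerivAt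
          have e3 : HasDerivAt (fun τ : ℝ => 1 - τ ^ 2) (-(2 * p.fst)) p.fst := by
            simpa using (hasDerivAt_pow 2 p.fst).const_sub 1
          have e4 := e3.mul (e2.pow 2)
          refine e4.congr_deriv ?_
          simp only [Nat.cast_ofNat, Nat.add_one_sub_one, pow_one, Pi.pow_apply]
          rw [← hKdef]
        have e5 : HasDerivAt (fun τ : ℝ => q (paramT a b τ))
            (deriv q (paramT a b p.fst) * k) p.fst := by
          have e6 : HasDerivAt (paramT a b) k p.fst := by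
            unfold paramT
            simpa using ((hasDerivAt_id p.fst).const_mul ((b - a) / 2)).const_add ((a + b) / 2)
          exact ((h.sq.differentiable (by simp)).differentiableAt.hasDerivAt).comp p.fst e6
        have e7 : (fun τ : ℝ => (1 - τ ^ 2) * paramK m a b τ ^ 2) =ᶠ[𝓝 p.fst]
            fun τ : ℝ => q (paramT a b τ) := by
          have e8 : ∀ᶠ τ : ℝ in 𝓝 p.fst, τ ^ 2 < 1 :=
            (continuous_pow 2).continuousAt.eventually (Iio_mem_nhds hlt)
          filter_upwards [e8] with τ hτ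
          exact (hqT τ hτ.le).symm
        have e9 := (e1.congr_of_eventuallyEq e7.symm).unique e5
        linarith
      refine h.imm_height hE hd (s := K * p.snd.fst) (w := K • p.snd.snd)
        (w' := (k * u.fst)⁻¹ • ((K' * u.fst) • p.snd.snd + K • u.snd.snd)) ht (hval p hp) ?_ ?_
      · rw [real_inner_smul_left, real_inner_smul_right, inner_add_right, real_inner_smul_right,
          real_inner_smul_right, real_inner_self_eq_norm_sq]
        have e1 : deriv q (paramT a b p.fst) =
            (2 * K * K' * (1 - p.fst ^ 2) - 2 * K ^ 2 * p.fst) / k := by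
          rw [hid]
          field_simp
        rw [e1]
        rw [real_inner_comm] at hor
        have e4 : ⟪p.snd.snd, u.snd.snd⟫ = -(u.fst * p.fst) - u.snd.fst * p.snd.fst := by
          linarith
        have e2 : K * ⟪p.snd.snd, u.snd.snd⟫ =
            -(K * (u.fst * p.fst)) + K' * u.fst * p.snd.fst ^ 2 := by
          rw [e4]
          linear_combination (-p.snd.fst) * hX
        have e5 : ‖p.snd.snd‖ ^ 2 = 1 - p.fst ^ 2 - p.snd.fst ^ 2 := by linarith
        field_simp
        rw [e5]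
        linear_combination e2
      · have e1 : (k * u.fst)⁻¹ • ((k * u.fst) • deriv c (paramT a b p.fst) +
            ((K' * u.fst) • B (paramT a b p.fst) p.snd.snd +
            K • ((k * u.fst) • deriv B (paramT a b p.fst) p.snd.snd +
              B (paramT a b p.fst) u.snd.snd))) = 0 := by
          rw [hY, smul_zero]
        rw [← e1]
        have e2 : k * u.fst ≠ 0 := mul_ne_zero hkne hne
        simp only [map_smul, map_add, smul_add]
        rw [smul_smul ((k * u.fst)⁻¹) (k * u.fst), inv_mul_cancel₀ e2, one_smul,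
          smul_comm K (k * u.fst), smul_smul ((k * u.fst)⁻¹) (k * u.fst), inv_mul_cancel₀ e2, one_smul]
        abel
    rw [hu0] at hX hY
    simp only [mul_zero, zero_mul, zero_add, zero_smul] at hX hY
    have h5 : u.snd.fst = 0 := (mul_eq_zero.1 hX).resolve_left hK.ne'
    have h6 : u.snd.snd = 0 := by
      have h7 := (smul_eq_zero.1 hY).resolve_left hK.ne'
      have h8 := h.iso _ ht u.snd.snd
      rw [h7, norm_zero] at h8
      exact norm_eq_zero.1 h8.symm
    have h7 : u.snd = 0 := by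
      apply (WithLp.equiv 2 (ℝ × E)).injective
      exact Prod.ext h5 h6
    apply (WithLp.equiv 2 (ℝ × WithLp 2 (ℝ × E))).injective
    exact Prod.ext hu0 h7
  · intro τ s w hτ
    have h1 : ‖(WithLp.toLp 2 (τ, WithLp.toLp 2 (s, w)) : WithLp 2 (ℝ × WithLp 2 (ℝ × E)))‖ = 1 := by
      have h2 := WithLp.prod_norm_sq_eq_of_L2
        (WithLp.toLp 2 (τ, WithLp.toLp 2 (s, w)) : WithLp 2 (ℝ × WithLp 2 (ℝ × E)))
      have h3 := WithLp.prod_norm_sq_eq_of_L2 (WithLp.toLp 2 (s, w) : WithLp 2 (ℝ × E))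
      simp only [WithLp.toLp_fst, WithLp.toLp_snd, Real.norm_eq_abs, sq_abs] at h2 h3
      rw [h3] at h2
      have h4 : ‖(WithLp.toLp 2 (τ, WithLp.toLp 2 (s, w)) : WithLp 2 (ℝ × WithLp 2 (ℝ × E)))‖ ^ 2 = 1 := by
        rw [h2]
        linarith
      exact (pow_eq_one_iff_of_nonneg (norm_nonneg _) two_ne_zero).1 h4
    simp only
    rw [hfp _ h1]
    rfl

end Pool.Schoen
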