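import Pool.Agent.H.MP_6c077c_gt.Cn.Frame

/-! Canal spheres: the union of a one-parameter family of round 2-spheres of Euclidean 4-space. -/

set_option autoImplicit false

namespace Pool.Schoen

open Filter Set Metric
open scoped Topology RealInnerProductSpace ContDiff

/-- If a smooth function is constant on `[a, b]`, `a < b`, its derivative vanishes at interior
points. -/
private theorem Sph_deriv {f : ℝ → ℝ} {a b r t : ℝ} (ht : t ∈ Ioo a b)
    (h : ∀ t ∈ Icc a b, f t = r) : deriv f t = 0 := by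
  have h1 : f =ᶠ[𝓝 t] fun _ => r := by
    filter_upwards [Ioo_mem_nhds ht.1 ht.2] with s hs
    exact h s ⟨hs.1.le, hs.2.le⟩
  rw [h1.deriv_eq, deriv_const]

/-- The 2-spheres with centre `c t`, squared radius `q t`, in the hyperplane orthogonal to `n t`. -/
theorem spheres_unk (c n : ℝ → EuclideanSpace ℝ (Fin 4)) (q : ℝ → ℝ) (sc : ContDiff ℝ ∞ c)
    (sn : ContDiff ℝ ∞ n) (sq : ContDiff ℝ ∞ q) (a b : ℝ) (hab : a < b)
    (hn : ∀ t ∈ Icc a b, ‖n t‖ = 1) (za : q a = 0) (zb : q b = 0) (da : 0 < deriv q a)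
    (db : deriv q b < 0) (pos : ∀ t ∈ Ioo a b, 0 < q t)
    (disj : ∀ t ∈ Icc a b, ∀ t' ∈ Icc a b, ∀ x, ⟪n t, x - c t⟫ = 0 → ‖x - c t‖ ^ 2 = q t →
      ⟪n t', x - c t'⟫ = 0 → ‖x - c t'‖ ^ 2 = q t' → t = t')
    (imm : ∀ t ∈ Ioo a b, ∀ x, ⟪n t, x - c t⟫ = 0 → ‖x - c t‖ ^ 2 = q t →
      deriv (fun s => ⟪n s, x - c s⟫) t ≠ 0 ∨ deriv (fun s => ‖x - c s‖ ^ 2 - q s) t ≠ 0) :
    Unk {x | ∃ t ∈ Icc a b, ⟪n t, x - c t⟫ = 0 ∧ ‖x - c t‖ ^ 2 = q t} := by
  have dc : Differentiable ℝ c := sc.differentiable (by simp)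
  have dn : Differentiable ℝ n := sn.differentiable (by simp)
  have dq : Differentiable ℝ q := sq.differentiable (by simp)
  have hsq : ∀ t ∈ Icc a b, ∀ w : EuclideanSpace ℝ (Fin 3), ‖qmul (n t) w‖ ^ 2 = ‖w‖ ^ 2 := by
    intro t ht w
    rw [qmul_norm, hn t ht, one_pow, one_mul]
  have D : CanalD c (fun t => qmulL (n t)) q a b := by
    refine ⟨hab, sc, qmulL.contDiff.comp sn, sq, ?_, za, zb, da, db, pos, ?_, ?_⟩
    · intro t ht w
      rw [qmulL_apply]
      exact (sq_eq_sq₀ (norm_nonneg _) (norm_nonneg _)).1 (hsq t ht w)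
    · intro t ht t' ht' w w' hw hw' he
      simp only [qmulL_apply] at he
      refine disj t ht t' ht' (c t + qmul (n t) w) ?_ ?_ ?_ ?_
      · rw [add_sub_cancel_left, qmul_orth']
      · rw [add_sub_cancel_left, hsq t ht, hw]
      · rw [he, add_sub_cancel_left, qmul_orth']
      · rw [he, add_sub_cancel_left, hsq t' ht', hw']
    · intro t ht w w' hw hw' he
      have hB : deriv (fun t => qmulL (n t)) t = qmulL (deriv n t) :=
        (qmulL.hasFDerivAt.comp_hasDerivAt t (dn t).hasDerivAt).deriv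
      rw [hB] at he
      simp only [qmulL_apply] at he
      -- the endpoints
      rcases ht.1.eq_or_lt with h1 | h1
      · rw [← h1] at hw hw'
        rw [za] at hw
        have h2 : w = 0 := norm_eq_zero.1 (pow_eq_zero_iff (two_ne_zero) |>.1 hw)
        rw [h2, inner_zero_left, mul_zero] at hw'
        exact absurd hw'.symm da.ne'
      rcases ht.2.eq_or_lt with h2 | h2
      · rw [h2] at hw hw'
        rw [zb] at hw
        have h2 : w = 0 := norm_eq_zero.1 (pow_eq_zero_iff (two_ne_zero) |>.1 hw)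
        rw [h2, inner_zero_left, mul_zero] at hw'
        exact absurd hw'.symm db.ne
      have hnn : ⟪n t, deriv n t⟫ = 0 := by
        have h3 : deriv (fun t => ‖n t‖ ^ 2) t = 0 := Sph_deriv ⟨h1, h2⟩ (r := 1) fun s hs => by
          rw [hn s hs, one_pow]
        rw [((dn t).hasDerivAt.norm_sq).deriv] at h3
        linarith
      have hx : ∀ s, HasDerivAt (fun s => (c t + qmul (n t) w) - c s) (-deriv c s) s := fun s =>
        (dc s).hasDerivAt.const_sub _
      have hc : deriv c t = -(qmul (deriv n t) w + qmul (n t) w') := by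
        rw [eq_neg_iff_add_eq_zero, ← add_assoc]
        exact he
      rcases imm t ⟨h1, h2⟩ (c t + qmul (n t) w) (by rw [add_sub_cancel_left, qmul_orth'])
        (by rw [add_sub_cancel_left, hsq t ht, hw]) with h3 | h3
      · refine h3 ?_
        rw [((dn t).hasDerivAt.inner ℝ (hx t)).deriv, add_sub_cancel_left, hc, neg_neg,
          inner_add_right, qmul_orth', add_zero, add_comm]
        exact qmul_orth _ _ _
      · refine h3 ?_
        have h4 : HasDerivAt (fun s => ‖(c t + qmul (n t) w) - c s‖ ^ 2 - q s)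
            (2 * ⟪(c t + qmul (n t) w) - c t, -deriv c t⟫ - deriv q t) t :=
          (hx t).norm_sq.sub (dq t).hasDerivAt
        rw [h4.deriv, add_sub_cancel_left, hc, neg_neg,
          inner_add_right, qmul_inner, qmul_inner', hnn, zero_mul, zero_add, hn t ht, one_pow,
          one_mul, hw', sub_self]
  have hU := D.unk (by simp) (by simp)
  have he : canalM c (fun t => qmulL (n t)) q a b 0 =
      {x | ∃ t ∈ Icc a b, ⟪n t, x - c t⟫ = 0 ∧ ‖x - c t‖ ^ 2 = q t} := by
    ext x
    constructor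
    · rintro ⟨t, ht, w, hw, rfl⟩
      refine ⟨t, ht, ?_, ?_⟩
      · rw [add_sub_cancel_left, qmulL_apply, qmul_orth']
      · rw [add_sub_cancel_left, qmulL_apply, hsq t ht, ← hw]
        ring
    · rintro ⟨t, ht, h1, h2⟩
      obtain ⟨w, hw⟩ := qmul_surj (hn t ht) h1
      refine ⟨t, ht, w, ?_, ?_⟩
      · rw [← h2, ← hw, hsq t ht]
        ring
      · rw [qmulL_apply, hw, add_sub_cancel]
  rw [← he]
  exact hU

end Pool.Schoen
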