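import Pool.Agent.H.MP_6c077c_gt.Cn.Height
import Pool.Agent.H.MP_6c077c_gt.Small
import Pool.Agent.H.MP_6c077c_gt.Ix.ModB

/-! Canal spheres: straight coordinates near a sphere; the other spheres stay away. -/

set_option autoImplicit false

namespace Pool.Schoen

open Filter Set Metric
open scoped Topology RealInnerProductSpace ContDiff

variable {E V : Type*} [NormedAddCommGroup E] [InnerProductSpace ℝ E] [FiniteDimensional ℝ E]
  [NormedAddCommGroup V] [InnerProductSpace ℝ V] [FiniteDimensional ℝ V]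
variable {c : ℝ → V} {B : ℝ → E →L[ℝ] V} {q : ℝ → ℝ} {a b : ℝ}

omit [FiniteDimensional ℝ V] in
/-- The remainder of the first order expansion. -/
private theorem Straight_rem {g : V → V} (hg : ContDiff ℝ ∞ g) (h0 : g 0 = 0)
    (h1 : fderiv ℝ g 0 = 0) : ∃ K r0 : ℝ, 0 < K ∧ 0 < r0 ∧ ∀ x, ‖x‖ < r0 →
      ‖fderiv ℝ g x‖ ≤ K * ‖x‖ ∧ ‖g x‖ ≤ K * ‖x‖ ^ 2 := by
  have hg' : ContDiff ℝ ∞ (fderiv ℝ g) := hg.fderiv_right (by simp)
  have h2 : HasFDerivAt (fderiv ℝ g) (fderiv ℝ (fderiv ℝ g) 0) 0 :=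
    ((hg'.differentiable (by simp)) 0).hasFDerivAt
  obtain ⟨K, hK⟩ := h2.isBigO_sub.isBigOWith
  rw [Asymptotics.isBigOWith_iff] at hK
  obtain ⟨r0, hr0, hr⟩ := Metric.eventually_nhds_iff.1 hK
  have key : ∀ x, ‖x‖ < r0 → ‖fderiv ℝ g x‖ ≤ max K 1 * ‖x‖ := by
    intro x hx
    have h3 := hr (show dist x 0 < r0 by rwa [dist_zero_right])
    rw [h1, sub_zero, sub_zero] at h3
    exact h3.trans (mul_le_mul_of_nonneg_right (le_max_left _ _) (norm_nonneg _))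
  refine ⟨max K 1, r0, by positivity, hr0, fun x hx => ⟨key x hx, ?_⟩⟩
  have h3 := (convex_closedBall (0 : V) ‖x‖).norm_image_sub_le_of_norm_hasFDerivWithin_le
    (f := g) (f' := fun y => fderiv ℝ g y) (C := max K 1 * ‖x‖)
    (fun y _ => ((hg.differentiable (by simp)) y).hasFDerivAt.hasFDerivWithinAt)
    (fun y hy => by
      rw [Metric.mem_closedBall, dist_zero_right] at hy
      exact (key y (lt_of_le_of_lt hy hx)).trans (mul_le_mul_of_nonneg_left hy (by positivity)))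
    (show (0 : V) ∈ Metric.closedBall 0 ‖x‖ from Metric.mem_closedBall_self (norm_nonneg _))
    (show x ∈ Metric.closedBall 0 ‖x‖ by rw [Metric.mem_closedBall, dist_zero_right])
  rw [h0, sub_zero, sub_zero] at h3
  calc ‖g x‖ ≤ max K 1 * ‖x‖ * ‖x‖ := h3
    _ = max K 1 * ‖x‖ ^ 2 := by ring

/-- A smooth map which vanishes to second order agrees near `0` with one of small derivative. -/
private theorem Straight_cut {g : V → V} (hg : ContDiff ℝ ∞ g) (h0 : g 0 = 0)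
    (h1 : fderiv ℝ g 0 = 0) : ∃ (k : V → V) (δ : ℝ), 0 < δ ∧ ContDiff ℝ ∞ k ∧
      (∀ x, ‖fderiv ℝ k x‖ ≤ 1 / 2) ∧ ∀ x, ‖x‖ ≤ δ → k x = g x := by
  obtain ⟨C, hC, hcut⟩ := cutoff_exists V 0
  obtain ⟨K, r0, hK, hr0, hrem⟩ := Straight_rem hg h0 h1
  obtain ⟨r, hr, hrr0, hrK⟩ : ∃ r : ℝ, 0 < r ∧ r < r0 ∧ K * (1 + C) * r ≤ 1 / 2 := by
    refine ⟨min (r0 / 2) (1 / (2 * (K * (1 + C)))), by positivity, ?_, ?_⟩
    · exact lt_of_le_of_lt (min_le_left _ _) (by linarith)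
    · have h2 : 0 < K * (1 + C) := by positivity
      calc K * (1 + C) * min (r0 / 2) (1 / (2 * (K * (1 + C))))
          ≤ K * (1 + C) * (1 / (2 * (K * (1 + C)))) :=
            mul_le_mul_of_nonneg_left (min_le_right _ _) h2.le
        _ = 1 / 2 := by field_simp
  obtain ⟨χ, hχ, hχ01, hχ1, hχ0, hχd⟩ := hcut r hr
  have hgd : Differentiable ℝ g := hg.differentiable (by simp)
  have hχdd : Differentiable ℝ χ := hχ.differentiable (by simp)
  refine ⟨fun x => χ x • g x, r / 4, by positivity, hχ.smul hg, ?_, ?_⟩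
  · intro x
    rcases lt_or_ge (r / 2) ‖x‖ with h2 | h2
    · have h3 : (fun x => χ x • g x) =ᶠ[𝓝 x] fun _ => 0 := by
        filter_upwards [continuous_norm.continuousAt.eventually (lt_mem_nhds h2)] with y hy
        rw [hχ0 y (by rw [sub_zero]; exact hy.le), zero_smul]
      rw [h3.fderiv_eq]
      simp
    · have h3 : HasFDerivAt (fun x => χ x • g x)
          (χ x • fderiv ℝ g x + (fderiv ℝ χ x).smulRight (g x)) x :=
        (hχdd x).hasFDerivAt.smul (hgd x).hasFDerivAt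
      rw [h3.fderiv]
      obtain ⟨h4, h5⟩ := hrem x (by linarith)
      have hxr : ‖x‖ ≤ r := by linarith
      have h6 : ‖χ x • fderiv ℝ g x‖ ≤ K * r := by
        rw [norm_smul, Real.norm_of_nonneg (hχ01 x).1]
        calc χ x * ‖fderiv ℝ g x‖ ≤ 1 * (K * r) := by
              refine mul_le_mul (hχ01 x).2 (h4.trans ?_) (norm_nonneg _) zero_le_one
              exact mul_le_mul_of_nonneg_left hxr hK.le
          _ = K * r := one_mul _
      have h7 : ‖(fderiv ℝ χ x).smulRight (g x)‖ ≤ K * C * r := by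
        rw [ContinuousLinearMap.norm_smulRight_apply]
        have h8 : ‖g x‖ ≤ K * r ^ 2 := by
          refine h5.trans (mul_le_mul_of_nonneg_left ?_ hK.le)
          exact pow_le_pow_left₀ (norm_nonneg _) hxr 2
        calc ‖fderiv ℝ χ x‖ * ‖g x‖ ≤ (C / r) * (K * r ^ 2) :=
              mul_le_mul (hχd x) h8 (norm_nonneg _) (by positivity)
          _ = K * C * r := by field_simp
      refine (norm_add_le _ _).trans ?_
      nlinarith
  · intro x hx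
    show χ x • g x = g x
    rw [hχ1 x (by rw [sub_zero]; exact hx), one_smul]

/-- The unit normal of a hyperplane given by an isometry. -/
private theorem Straight_normal (J : E →L[ℝ] V) (iso : ∀ w : E, ‖J w‖ = ‖w‖)
    (hd : Module.finrank ℝ V = Module.finrank ℝ E + 1) :
    ∃ (u : V) (A : V →L[ℝ] E), ‖u‖ = 1 ∧ (∀ w, ⟪u, J w⟫ = 0) ∧ A u = 0 ∧ (∀ w, A (J w) = w) ∧
      ∀ x, x = ⟪u, x⟫ • u + J (A x) := by
  let I : E →ₗᵢ[ℝ] V := ⟨(J : E →ₗ[ℝ] V), iso⟩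
  have hI : ∀ w, I w = J w := fun w => rfl
  have hin : ∀ v w : E, ⟪J v, J w⟫ = ⟪v, w⟫ := fun v w => I.inner_map_map v w
  let K : Submodule ℝ V := LinearMap.range (J : E →ₗ[ℝ] V)
  have hK : Module.finrank ℝ K = Module.finrank ℝ E :=
    LinearMap.finrank_range_of_inj (f := (J : E →ₗ[ℝ] V)) I.injective
  have hKo : Module.finrank ℝ Kᗮ = 1 := by
    have := K.finrank_add_finrank_orthogonal
    omega
  have : Nontrivial Kᗮ := Module.nontrivial_of_finrank_pos (R := ℝ) (by omega)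
  obtain ⟨⟨v, hv⟩, hv0⟩ := exists_ne (0 : Kᗮ)
  have hv0' : v ≠ 0 := fun h => hv0 (Subtype.ext h)
  have hvn : 0 < ‖v‖ := norm_pos_iff.2 hv0'
  have hvJ : ∀ w, ⟪v, J w⟫ = 0 := by
    intro w
    rw [Submodule.mem_orthogonal'] at hv
    exact hv (J w) ⟨w, rfl⟩
  obtain ⟨u, hu⟩ : ∃ u : V, u = ‖v‖⁻¹ • v := ⟨_, rfl⟩
  have hu1 : ‖u‖ = 1 := by
    rw [hu, norm_smul, norm_inv, norm_norm]
    exact inv_mul_cancel₀ hvn.ne'
  have huJ : ∀ w, ⟪u, J w⟫ = 0 := by
    intro w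
    rw [hu, real_inner_smul_left, hvJ, mul_zero]
  have hspan : ∀ y ∈ Kᗮ, ∃ c : ℝ, c • v = y := by
    intro y hy
    obtain ⟨c, hc⟩ := (finrank_eq_one_iff_of_nonzero' (⟨v, hv⟩ : Kᗮ) hv0).1 hKo ⟨y, hy⟩
    exact ⟨c, congrArg Subtype.val hc⟩
  obtain ⟨A, hA⟩ : ∃ A : V →L[ℝ] E, A = ContinuousLinearMap.adjoint J := ⟨_, rfl⟩
  have hAi : ∀ (x : V) (w : E), ⟪A x, w⟫ = ⟪x, J w⟫ := by
    intro x w
    rw [hA, ContinuousLinearMap.adjoint_inner_left]
  refine ⟨u, A, hu1, huJ, ?_, ?_, ?_⟩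
  · refine ext_inner_right ℝ (fun w => ?_)
    rw [hAi, huJ, inner_zero_left]
  · intro x
    refine ext_inner_right ℝ (fun w => ?_)
    rw [hAi, hin]
  · intro x
    obtain ⟨y, hy⟩ : ∃ y : V, y = x - ⟪u, x⟫ • u - J (A x) := ⟨_, rfl⟩
    have hyK : y ∈ Kᗮ := by
      rw [Submodule.mem_orthogonal']
      rintro _ ⟨w, rfl⟩
      show ⟪y, J w⟫ = 0
      rw [hy, inner_sub_left, inner_sub_left, real_inner_smul_left, huJ, hin, hAi]
      ring
    obtain ⟨c, hc⟩ := hspan y hyK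
    have h1 : ⟪u, y⟫ = 0 := by
      rw [hy, inner_sub_right, inner_sub_right, huJ, real_inner_smul_right,
        real_inner_self_eq_norm_sq, hu1]
      ring
    have h2 : c = 0 := by
      rw [← hc, hu, real_inner_smul_left, real_inner_smul_right, real_inner_self_eq_norm_sq] at h1
      have : ‖v‖⁻¹ * (c * ‖v‖ ^ 2) = c * ‖v‖ := by field_simp
      rw [this] at h1
      exact (mul_eq_zero.1 h1).resolve_right hvn.ne'
    rw [h2, zero_smul] at hc
    rw [hy] at hc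
    have h3 : x - ⟪u, x⟫ • u - J (A x) = 0 := hc.symm
    rw [sub_sub, sub_eq_zero] at h3
    exact h3

/-- PROOF. Let `u` be a unit normal of the hyperplane `range (B t₀)`. By `hn`,
`c' t₀ = α u + B t₀ w₀` with `α ≠ 0`. Let `Λ : V ≃ V` be the linear isomorphism with
`Λ (B t₀ w) = B t₀ w`, `Λ (c' t₀) = u`. For `x : V` let `σ = ⟪u, x⟫` and `w = (B t₀)^* x` (adjoint;
`x = σ u + B t₀ w`), `g x = Λ (c (t₀ + σ) + B (t₀ + σ) w - c t₀) - x`: smooth, `g 0 = 0`,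
`fderiv g 0 = 0`. With a smooth bump function `χ` (one near `0`) the function
`χ (x / δ) • g x` has derivative of norm `≤ 1 / 2` for small `δ` (`‖g x‖ ≤ C ‖x‖ ^ 2`,
`‖Dg x‖ ≤ C ‖x‖` near `0`), so by `small_diffeo` `θ x = x + χ (x / δ) • g x` is a diffeomorphism;
`Φ = θ⁻¹ ∘ (fun y => Λ (y - c t₀))`, `Ψ` its inverse. -/
theorem exists_strt {t₀ : ℝ} (sc : ContDiff ℝ ∞ c) (sB : ContDiff ℝ ∞ B)
    (iso : ∀ w : E, ‖B t₀ w‖ = ‖w‖) (hd : Module.finrank ℝ V = Module.finrank ℝ E + 1)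
    (hn : ∀ w' : E, deriv c t₀ + B t₀ w' ≠ 0) :
    ∃ (Φ Ψ : V → V) (u : V) (r : ℝ), Strt0 c B t₀ Φ Ψ u r := by
  obtain ⟨u, A, hu, huB, hAu, hAB, hdec⟩ := Straight_normal (B t₀) iso hd
  have hσ : HasFDerivAt (fun x : V => t₀ + ⟪u, x⟫) (innerSL ℝ u) 0 :=
    (innerSL ℝ u).hasFDerivAt.const_add t₀
  have hσs : ContDiff ℝ ∞ (fun x : V => t₀ + ⟪u, x⟫) :=
    contDiff_const.add (innerSL ℝ u).contDiff
  have hσ0 : t₀ + ⟪u, (0 : V)⟫ = t₀ := by rw [inner_zero_right, add_zero]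
  obtain ⟨G, hG⟩ : ∃ G : V → V, G = fun x => c (t₀ + ⟪u, x⟫) + B (t₀ + ⟪u, x⟫) (A x) := ⟨_, rfl⟩
  have hGs : ContDiff ℝ ∞ G := by
    rw [hG]
    exact (sc.comp hσs).add ((sB.comp hσs).clm_apply A.contDiff)
  have hG0 : G 0 = c t₀ := by
    rw [hG]
    simp only
    rw [hσ0, map_zero, map_zero, add_zero]
  obtain ⟨L, hL⟩ : ∃ L : V →L[ℝ] V, L = (innerSL ℝ u).smulRight (deriv c t₀) +
      (B t₀).comp A := ⟨_, rfl⟩
  have hLx : ∀ x, L x = ⟪u, x⟫ • deriv c t₀ + B t₀ (A x) := by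
    intro x
    rw [hL]
    rfl
  have hGd : HasFDerivAt G L 0 := by
    have h1 : HasFDerivAt (fun x : V => c (t₀ + ⟪u, x⟫)) ((innerSL ℝ u).smulRight (deriv c t₀)) 0 := by
      have h2 : HasDerivAt c (deriv c t₀) (t₀ + ⟪u, (0 : V)⟫) := by
        rw [hσ0]
        exact ((sc.differentiable (by simp)) t₀).hasDerivAt
      refine (h2.hasFDerivAt.comp (0 : V) hσ).congr_fderiv ?_
      ext x
      simp
    have h2 : HasFDerivAt (fun x : V => B (t₀ + ⟪u, x⟫))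
        ((innerSL ℝ u).smulRight (deriv B t₀)) 0 := by
      have h2 : HasDerivAt B (deriv B t₀) (t₀ + ⟪u, (0 : V)⟫) := by
        rw [hσ0]
        exact ((sB.differentiable (by simp)) t₀).hasDerivAt
      refine (h2.hasFDerivAt.comp (0 : V) hσ).congr_fderiv ?_
      ext x
      simp
    have h3 := h1.add (h2.clm_apply A.hasFDerivAt)
    rw [hG, hL]
    refine h3.congr_fderiv ?_
    ext x
    simp
  have hinj : Function.Injective (L : V →ₗ[ℝ] V) := by
    refine (injective_iff_map_eq_zero (L : V →ₗ[ℝ] V)).2 ?_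
    intro x hx
    have h1 : L x = 0 := hx
    rw [hLx] at h1
    have h2 : ⟪u, x⟫ = 0 := by
      by_contra h3
      apply hn (⟪u, x⟫⁻¹ • A x)
      have h4 : ⟪u, x⟫ • (deriv c t₀ + B t₀ (⟪u, x⟫⁻¹ • A x)) = 0 := by
        rw [smul_add, map_smul, smul_smul, mul_inv_cancel₀ h3, one_smul]
        exact h1
      exact (smul_eq_zero.1 h4).resolve_left h3
    rw [h2, zero_smul, zero_add] at h1
    rw [hdec x, h2, zero_smul, zero_add]
    exact h1
  let Λ : V ≃L[ℝ] V := (LinearEquiv.ofInjectiveEndo (L : V →ₗ[ℝ] V) hinj).toContinuousLinearEquiv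
  have hΛ : ∀ x, Λ x = L x := fun x => rfl
  obtain ⟨g, hg⟩ : ∃ g : V → V, g = fun x => Λ.symm (G x - c t₀) - x := ⟨_, rfl⟩
  have hgs : ContDiff ℝ ∞ g := by
    rw [hg]
    exact (Λ.symm.contDiff.comp (hGs.sub contDiff_const)).sub contDiff_id
  have hg0 : g 0 = 0 := by
    rw [hg]
    simp only
    rw [hG0, sub_self, map_zero, sub_self]
  have hgd : fderiv ℝ g 0 = 0 := by
    have h1 : HasFDerivAt (fun x => Λ.symm (G x - c t₀))
        ((Λ.symm : V →L[ℝ] V).comp L) 0 :=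
      (Λ.symm : V →L[ℝ] V).hasFDerivAt.comp (0 : V) (hGd.sub_const (c t₀))
    have h2 : HasFDerivAt g ((Λ.symm : V →L[ℝ] V).comp L - ContinuousLinearMap.id ℝ V) 0 := by
      rw [hg]
      exact h1.sub (hasFDerivAt_id 0)
    rw [h2.fderiv, sub_eq_zero]
    ext x
    show Λ.symm (L x) = x
    rw [← hΛ, Λ.symm_apply_apply]
  obtain ⟨k, δ, hδ, hks, hkn, hk⟩ := Straight_cut hgs hg0 hgd
  obtain ⟨ψ, hψ, hψ1, hψ2⟩ := small_diffeo k hks hkn
  refine ⟨fun y => ψ (Λ.symm (y - c t₀)), fun x => Λ (x + k x) + c t₀, u, δ / 2, ?_, by positivity,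
    hu, huB, iso, ?_⟩
  · refine ⟨hψ.comp (Λ.symm.contDiff.comp (contDiff_id.sub contDiff_const)),
      (Λ.contDiff.comp (contDiff_id.add hks)).add contDiff_const, ?_, ?_⟩
    · intro y
      show Λ (ψ (Λ.symm (y - c t₀)) + k (ψ (Λ.symm (y - c t₀)))) + c t₀ = y
      rw [hψ2, Λ.apply_symm_apply, sub_add_cancel]
    · intro x
      show ψ (Λ.symm (Λ (x + k x) + c t₀ - c t₀)) = x
      rw [add_sub_cancel_right, Λ.symm_apply_apply, hψ1]
  · intro t w ht hw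
    obtain ⟨x, hx⟩ : ∃ x : V, x = (t - t₀) • u + B t₀ w := ⟨_, rfl⟩
    have hx1 : ⟪u, x⟫ = t - t₀ := by
      rw [hx, inner_add_right, huB, real_inner_smul_right, real_inner_self_eq_norm_sq, hu]
      ring
    have hx2 : A x = w := by
      rw [hx, map_add, map_smul, hAu, smul_zero, zero_add, hAB]
    have hx3 : ‖x‖ ≤ δ := by
      rw [hx]
      refine (norm_add_le _ _).trans ?_
      rw [norm_smul, hu, mul_one, Real.norm_eq_abs, iso]
      linarith
    have hx4 : G x = c t + B t w := by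
      rw [hG]
      simp only
      rw [hx1, hx2, add_sub_cancel]
    have hx5 : x + k x = Λ.symm (G x - c t₀) := by
      rw [hk x hx3, hg]
      simp only
      abel
    show ψ (Λ.symm (c t + B t w - c t₀)) = (t - t₀) • u + B t₀ w
    rw [← hx4, ← hx5, hψ1, hx]

/-- PROOF. Otherwise there are `t_n`, `s_n`, `w_n` with `r ≤ |t_n - t₀|`, `|s_n ^ 2 - q t₀| → 0`,
`s_n ^ 2 + ‖w_n‖ ^ 2 = q t_n`, `c t_n + B t_n w_n → c t₀`. Compactness (`[a, b]`, bounded `s_n`,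
`w_n`): limits `t ≠ t₀`, `s`, `w` with `s ^ 2 = q t₀`, `s ^ 2 + ‖w‖ ^ 2 = q t` and
`c t + B t w = c t₀ + B t₀ 0`, `s ^ 2 + ‖0‖ ^ 2 = q t₀`: contradiction to `disj_height`. -/
theorem CanalD.loc (h : CanalD c B q a b) (hE : 3 ≤ Module.finrank ℝ E)
    (hd : Module.finrank ℝ V = Module.finrank ℝ E + 1) {t₀ r : ℝ} (ht₀ : t₀ ∈ Ioo a b)
    (hr : 0 < r) : ∃ δ : ℝ, 0 < δ ∧ ∀ t ∈ Icc a b, r ≤ |t - t₀| → ∀ (s : ℝ) (w : E),
      |s ^ 2 - q t₀| < δ → s ^ 2 + ‖w‖ ^ 2 = q t → δ ≤ ‖c t + B t w - c t₀‖ := by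
  have hcc : Continuous c := h.sc.continuous
  have hBc : Continuous B := h.sB.continuous
  have hqc : Continuous q := h.sq.continuous
  obtain ⟨Q, hQ⟩ := (isCompact_Icc (a := a) (b := b)).bddAbove_image hqc.continuousOn
  have hQ' : ∀ t ∈ Icc a b, q t ≤ Q := fun t ht => hQ ⟨t, ht, rfl⟩
  obtain ⟨R, hR⟩ : ∃ R : ℝ, R = |Q| + 1 := ⟨_, rfl⟩
  have hR1 : Q ≤ R ^ 2 := by
    have h1 := le_abs_self Q
    have h2 := abs_nonneg Q
    nlinarith
  have hR0 : 0 ≤ R := by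
    have h2 := abs_nonneg Q
    linarith
  obtain ⟨K, hK⟩ : ∃ K : Set (ℝ × ℝ × E), K = (Icc a b ×ˢ (closedBall (0 : ℝ) R ×ˢ
      closedBall (0 : E) R)) ∩ {p | r ≤ |p.1 - t₀| ∧ p.2.1 ^ 2 + ‖p.2.2‖ ^ 2 = q p.1} := ⟨_, rfl⟩
  have hKc : IsCompact K := by
    rw [hK]
    refine (isCompact_Icc.prod ((isCompact_closedBall _ _).prod (isCompact_closedBall _ _))).inter_right
      ?_
    have h1 : IsClosed {p : ℝ × ℝ × E | r ≤ |p.1 - t₀|} :=
      isClosed_le continuous_const (by fun_prop)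
    have h2 : IsClosed {p : ℝ × ℝ × E | p.2.1 ^ 2 + ‖p.2.2‖ ^ 2 = q p.1} :=
      isClosed_eq (by fun_prop) (by fun_prop)
    exact h1.inter h2
  have hKm : ∀ t ∈ Icc a b, r ≤ |t - t₀| → ∀ (s : ℝ) (w : E), s ^ 2 + ‖w‖ ^ 2 = q t →
      (t, s, w) ∈ K := by
    intro t ht htr s w hsw
    have h1 := hQ' t ht
    rw [hK]
    refine ⟨⟨ht, ?_, ?_⟩, htr, hsw⟩
    · rw [mem_closedBall, dist_zero_right, Real.norm_eq_abs]
      refine abs_le_of_sq_le_sq ?_ hR0
      nlinarith [sq_nonneg ‖w‖]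
    · rw [mem_closedBall, dist_zero_right]
      refine le_of_sq_le_sq ?_ hR0
      nlinarith [sq_nonneg s]
  obtain ⟨f, hf⟩ : ∃ f : ℝ × ℝ × E → ℝ, f = fun p => max |p.2.1 ^ 2 - q t₀|
      ‖c p.1 + B p.1 p.2.2 - c t₀‖ := ⟨_, rfl⟩
  have hfc : Continuous f := by
    rw [hf]
    have h1 : Continuous fun p : ℝ × ℝ × E => B p.1 p.2.2 :=
      (hBc.comp continuous_fst).clm_apply (continuous_snd.comp continuous_snd)
    have h2 : Continuous fun p : ℝ × ℝ × E => c p.1 := hcc.comp continuous_fst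
    exact (by fun_prop : Continuous fun p : ℝ × ℝ × E => |p.2.1 ^ 2 - q t₀|).max
      ((h2.add h1).sub continuous_const).norm
  have hfp : ∀ p ∈ K, 0 < f p := by
    rintro ⟨t, s, w⟩ hp
    rw [hK] at hp
    obtain ⟨⟨ht, -, -⟩, htr, hsw⟩ := hp
    simp only at ht htr hsw
    by_contra hcon
    push Not at hcon
    rw [hf] at hcon
    simp only at hcon
    have h1 : |s ^ 2 - q t₀| ≤ 0 := (le_max_left _ _).trans hcon
    have h2 : ‖c t + B t w - c t₀‖ ≤ 0 := (le_max_right _ _).trans hcon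
    have h3 : s ^ 2 = q t₀ := sub_eq_zero.1 (abs_nonpos_iff.1 h1)
    have h4 : c t + B t w = c t₀ := sub_eq_zero.1 (norm_le_zero_iff.1 h2)
    have h5 := h.disj_height hE hd (t := t) (t' := t₀) (s := s) (w := w) (w' := 0) ht
      ⟨ht₀.1.le, ht₀.2.le⟩ hsw (by rw [norm_zero]; linarith) (by rw [map_zero, add_zero]; exact h4)
    rw [h5, sub_self, abs_zero] at htr
    linarith
  rcases K.eq_empty_or_nonempty with hKe | hKn
  · refine ⟨1, one_pos, ?_⟩
    intro t ht htr s w _ hsw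
    have := hKm t ht htr s w hsw
    rw [hKe] at this
    exact absurd this (Set.notMem_empty _)
  · obtain ⟨p, hpK, hpm⟩ := hKc.exists_isMinOn hKn hfc.continuousOn
    refine ⟨f p, hfp p hpK, ?_⟩
    intro t ht htr s w hs hsw
    have h1 : f p ≤ f (t, s, w) := hpm (hKm t ht htr s w hsw)
    by_contra hcon
    push Not at hcon
    have h2 : f (t, s, w) < f p := by
      conv_lhs => rw [hf]
      exact max_lt hs hcon
    linarith

end Pool.Schoen
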