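import Pool.Agent.H.MP_6c077c_gt.Cn.UnkL
import Pool.Agent.H.MP_6c077c_gt.Ix.HomB

/-! Canal spheres: changing the profile of a rotationally symmetric part. -/

set_option autoImplicit false

namespace Pool.Schoen

open Filter Set Metric
open scoped Topology RealInnerProductSpace ContDiff

variable {V : Type*} [NormedAddCommGroup V] [InnerProductSpace ℝ V] [FiniteDimensional ℝ V]
variable {F : V → ℝ} {u : V} {ρ ρ₁ ρ₂ r r₁ : ℝ} {p p₂ : ℝ → ℝ}

/-- The box `|⟪u, x⟫| < ρ`, `‖orth u x‖ < r`. -/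
def Box (u : V) (ρ r : ℝ) (x : V) : Prop := |⟪u, x⟫| < ρ ∧ ‖orth u x‖ < r

/-- The linear part of `orth u`. -/
private noncomputable def TubeCh_L (u : V) : V →L[ℝ] V :=
  ContinuousLinearMap.id ℝ V - (innerSL ℝ u).smulRight u

omit [FiniteDimensional ℝ V] in
private theorem TubeCh_L_apply (u x : V) : TubeCh_L u x = orth u x := by
  simp [TubeCh_L, orth]

omit [FiniteDimensional ℝ V] in
private theorem TubeCh_smooth_orth (u : V) : ContDiff ℝ ∞ (orth u) :=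
  (contDiff_orth u).of_le le_top

omit [FiniteDimensional ℝ V] in
private theorem TubeCh_smooth (u : V) {p : ℝ → ℝ} (hp : ContDiff ℝ ∞ p) :
    ContDiff ℝ ∞ (fun x : V => ‖orth u x‖ ^ 2 - p ⟪u, x⟫) :=
  ((TubeCh_smooth_orth u).norm_sq ℝ).sub (hp.comp (contDiff_const.inner ℝ contDiff_id))

omit [FiniteDimensional ℝ V] in
private theorem TubeCh_deriv (hu : ‖u‖ = 1) {p : ℝ → ℝ} (hp : ContDiff ℝ ∞ p) (x v : V) :
    fderiv ℝ (fun x : V => ‖orth u x‖ ^ 2 - p ⟪u, x⟫) x v =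
      2 * ⟪orth u x, v⟫ - deriv p ⟪u, x⟫ * ⟪u, v⟫ := by
  have h1 : HasFDerivAt (fun y : V => orth u y) (TubeCh_L u) x := by
    have h4 : (fun y : V => orth u y) = (TubeCh_L u) := by
      funext y
      exact (TubeCh_L_apply u y).symm
    rw [h4]
    exact (TubeCh_L u).hasFDerivAt
  have h2 := h1.norm_sq
  have h3 : HasFDerivAt (fun y : V => p ⟪u, y⟫) (deriv p ⟪u, x⟫ • innerSL ℝ u) x := by
    have h5 : HasDerivAt p (deriv p ⟪u, x⟫) ⟪u, x⟫ :=
      (hp.differentiable (by simp) _).hasDerivAt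
    have h6 : HasFDerivAt (fun y : V => ⟪u, y⟫) (innerSL ℝ u) x := (innerSL ℝ u).hasFDerivAt
    exact h5.comp_hasFDerivAt x h6
  have h7 := h2.sub h3
  have h8 : fderiv ℝ (fun x : V => ‖orth u x‖ ^ 2 - p ⟪u, x⟫) x =
      2 • (innerSL ℝ (orth u x)).comp (TubeCh_L u) - deriv p ⟪u, x⟫ • innerSL ℝ u := h7.fderiv
  rw [h8]
  have h9 : ⟪orth u x, orth u v⟫ = ⟪orth u x, v⟫ := by
    have h9 : ⟪orth u x, u⟫ = 0 := by rw [real_inner_comm]; exact inner_orth hu x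
    conv_lhs => rw [orth.eq_1 u v]
    rw [inner_sub_right, real_inner_smul_right, h9, mul_zero, sub_zero]
  simp [TubeCh_L_apply, two_smul, two_mul, h9]

omit [FiniteDimensional ℝ V] in
/-- Two functions with the same zeros and a common descent direction have the same sign. -/
private theorem TubeCh_loc {F g : V → ℝ} {x v : V} (hF : ContDiff ℝ ∞ F) (hg : ContDiff ℝ ∞ g)
    (h0 : g x = 0) (hv : fderiv ℝ F x v < 0) (hv' : fderiv ℝ g x v < 0)
    (hz : ∀ᶠ y in 𝓝 x, F y = 0 ↔ g y = 0) : ∀ᶠ y in 𝓝 x, F y = 0 ∨ 0 < F y * g y := by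
  have hF1 : ContDiffAt ℝ 1 F x := hF.contDiffAt.of_le (by exact_mod_cast le_top)
  have hg1 : ContDiffAt ℝ 1 g x := hg.contDiffAt.of_le (by exact_mod_cast le_top)
  obtain ⟨c, hc, d, hd, h1⟩ := (desc1_smooth hF1 hv).unif
  obtain ⟨c', hc', d', hd', h2⟩ := (desc1_smooth hg1 hv').unif
  obtain ⟨η, hη, h3⟩ := Metric.eventually_nhds_iff.1 hz
  obtain ⟨m, hm⟩ : ∃ m, m = min (min d d') η := ⟨_, rfl⟩
  have hm0 : 0 < m := by
    rw [hm]
    exact lt_min (lt_min hd hd') hη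
  have hmd : m ≤ d := by
    rw [hm]
    exact (min_le_left _ _).trans (min_le_left _ _)
  have hmd' : m ≤ d' := by
    rw [hm]
    exact (min_le_left _ _).trans (min_le_right _ _)
  have hmη : m ≤ η := by
    rw [hm]
    exact min_le_right _ _
  have hv0 : 0 ≤ ‖v‖ := norm_nonneg v
  obtain ⟨s₀, hs₀⟩ : ∃ s₀, s₀ = m / (2 * (‖v‖ + 1)) := ⟨_, rfl⟩
  have hs0 : 0 < s₀ := by
    rw [hs₀]
    positivity
  have hs1 : s₀ * (‖v‖ + 1) = m / 2 := by
    rw [hs₀]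
    field_simp
  have hsm : s₀ < m := by nlinarith
  have hsv : s₀ * ‖v‖ ≤ m / 2 := by nlinarith
  -- distances
  have hdist : ∀ y, ‖y - x‖ < m / 2 → ∀ s, |s| ≤ s₀ → ‖y + s • v - x‖ < m := by
    intro y hy s hs
    have e1 : y + s • v - x = (y - x) + s • v := by abel
    rw [e1]
    refine (norm_add_le _ _).trans_lt ?_
    rw [norm_smul, Real.norm_eq_abs]
    have : |s| * ‖v‖ ≤ s₀ * ‖v‖ := mul_le_mul_of_nonneg_right hs hv0
    linarith
  -- descent along `v`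
  have k1 : ∀ y, ‖y - x‖ < m → ∀ s, 0 < s → s ≤ s₀ → F (y + s • v) ≤ F y - c * s := by
    intro y hy s hs hs'
    exact h1 y (by linarith) v (by rw [sub_self, norm_zero]; exact hd) s hs (by linarith)
  have k2 : ∀ y, ‖y - x‖ < m → ∀ s, 0 < s → s ≤ s₀ → g (y + s • v) ≤ g y - c' * s := by
    intro y hy s hs hs'
    exact h2 y (by linarith) v (by rw [sub_self, norm_zero]; exact hd') s hs (by linarith)
  have k3 : g (x + s₀ • v) < 0 := by
    have h4 := k2 x (by rw [sub_self, norm_zero]; exact hm0) s₀ hs0 le_rfl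
    have : 0 < c' * s₀ := by positivity
    linarith
  have k4 : 0 < g (x + (-s₀) • v) := by
    have h4 := k2 (x + (-s₀) • v) (hdist x (by rw [sub_self, norm_zero]; linarith) (-s₀)
      (by rw [abs_neg, abs_of_pos hs0])) s₀ hs0 le_rfl
    have e1 : x + (-s₀) • v + s₀ • v = x := by
      rw [neg_smul, neg_add_cancel_right]
    rw [e1, h0] at h4
    have : 0 < c' * s₀ := by positivity
    linarith
  have hgc : Continuous g := hg.continuous
  have c1 : ∀ᶠ y in 𝓝 x, g (y + s₀ • v) < 0 := by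
    have : Continuous fun y => g (y + s₀ • v) := by fun_prop
    exact this.continuousAt.eventually_lt continuousAt_const k3
  have c2 : ∀ᶠ y in 𝓝 x, 0 < g (y + (-s₀) • v) := by
    have : Continuous fun y => g (y + (-s₀) • v) := by fun_prop
    exact continuousAt_const.eventually_lt this.continuousAt k4
  have c3 : ∀ᶠ y in 𝓝 x, ‖y - x‖ < m / 2 := by
    filter_upwards [Metric.ball_mem_nhds x (by linarith : 0 < m / 2)] with y hy
    rwa [Metric.mem_ball, dist_eq_norm] at hy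
  filter_upwards [c1, c2, c3] with y y1 y2 y3
  by_cases hy0 : F y = 0
  · exact Or.inl hy0
  right
  have hzz : ∀ s, |s| ≤ s₀ → (F (y + s • v) = 0 ↔ g (y + s • v) = 0) := by
    intro s hs
    refine h3 ?_
    rw [dist_eq_norm]
    exact (hdist y y3 s hs).trans_le hmη
  have hgy : g y ≠ 0 := by
    have h4 := hzz 0 (by rw [abs_zero]; exact hs0.le)
    rw [zero_smul, add_zero] at h4
    exact fun h5 => hy0 (h4.2 h5)
  have hcont : Continuous fun s : ℝ => g (y + s • v) := by fun_prop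
  rcases lt_or_gt_of_ne hgy with h5 | h5
  · -- `g y < 0`
    have h6 : (0 : ℝ) ∈ Icc (g (y + (0 : ℝ) • v)) (g (y + (-s₀) • v)) := by
      rw [zero_smul, add_zero]
      exact ⟨h5.le, y2.le⟩
    obtain ⟨s, hs, hs'⟩ := intermediate_value_Icc' (by linarith : -s₀ ≤ 0) hcont.continuousOn h6
    have hs' : g (y + s • v) = 0 := hs'
    have hsne : s ≠ 0 := by
      intro h7
      rw [h7, zero_smul, add_zero] at hs'
      exact hgy hs'
    have hslt : s < 0 := lt_of_le_of_ne hs.2 hsne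
    have hsa : |s| ≤ s₀ := by
      rw [abs_of_neg hslt]
      linarith [hs.1]
    have h8 := (hzz s hsa).2 hs'
    have h9 := k1 (y + s • v) (hdist y y3 s hsa) (-s) (by linarith) (by linarith [hs.1])
    have e1 : y + s • v + (-s) • v = y := by
      rw [neg_smul, add_neg_cancel_right]
    rw [e1, h8] at h9
    have : 0 < c * -s := mul_pos hc (by linarith)
    exact mul_pos_of_neg_of_neg (by linarith) h5
  · -- `0 < g y`
    have h6 : (0 : ℝ) ∈ Icc (g (y + s₀ • v)) (g (y + (0 : ℝ) • v)) := by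
      rw [zero_smul, add_zero]
      exact ⟨y1.le, h5.le⟩
    obtain ⟨s, hs, hs'⟩ := intermediate_value_Icc' hs0.le hcont.continuousOn h6
    have hs' : g (y + s • v) = 0 := hs'
    have hsne : s ≠ 0 := by
      intro h7
      rw [h7, zero_smul, add_zero] at hs'
      exact hgy hs'
    have hslt : 0 < s := lt_of_le_of_ne hs.1 (Ne.symm hsne)
    have hsa : |s| ≤ s₀ := by
      rw [abs_of_pos hslt]
      exact hs.2
    have h8 := (hzz s hsa).2 hs'
    have h9 := k1 y (by linarith) s hslt hs.2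
    rw [h8] at h9
    have : 0 < c * s := mul_pos hc hslt
    exact mul_pos (by linarith) h5

omit [FiniteDimensional ℝ V] in
private theorem TubeCh_dir {a b : V →L[ℝ] ℝ} (ha : a ≠ 0) (hb : b ≠ 0) :
    ∃ v, a v < 0 ∧ b v ≠ 0 := by
  have h1 : ∃ v, a v ≠ 0 := by
    by_contra h
    push Not at h
    exact ha (ContinuousLinearMap.ext h)
  have h2 : ∃ v, b v ≠ 0 := by
    by_contra h
    push Not at h
    exact hb (ContinuousLinearMap.ext h)
  have h3 : ∃ v, a v ≠ 0 ∧ b v ≠ 0 := by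
    obtain ⟨v, hv⟩ := h1
    obtain ⟨w, hw⟩ := h2
    by_cases h3 : b v = 0
    · by_cases h4 : a w = 0
      · refine ⟨v + w, ?_, ?_⟩
        · rw [map_add, h4, add_zero]
          exact hv
        · rw [map_add, h3, zero_add]
          exact hw
      · exact ⟨w, h4, hw⟩
    · exact ⟨v, hv, h3⟩
  obtain ⟨v, hv, hw⟩ := h3
  rcases lt_or_gt_of_ne hv with h | h
  · exact ⟨v, h, hw⟩
  · refine ⟨-v, ?_, ?_⟩
    · rw [map_neg]
      linarith
    · rw [map_neg]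
      exact neg_ne_zero.2 hw

omit [FiniteDimensional ℝ V] in
private theorem TubeCh_fderiv_neg (F : V → ℝ) (x : V) :
    fderiv ℝ (fun y => -F y) x = -fderiv ℝ F x := fderiv_fun_neg

/-- The same zeros and the same signs in `B`, with common descent directions. -/
private def TubeCh_P (B : Set V) (F g : V → ℝ) : Prop :=
  (∀ x ∈ B, F x = 0 ∨ 0 < F x * g x) ∧
    ∀ x ∈ B, F x = 0 → ∃ v, fderiv ℝ g x v < 0 ∧ fderiv ℝ F x v < 0

omit [FiniteDimensional ℝ V] in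
private theorem TubeCh_P_of {B : Set V} {F g : V → ℝ} (hB : IsOpen B) (hF : ContDiff ℝ ∞ F)
    (hg : ContDiff ℝ ∞ g) (hrF : ∀ x, F x = 0 → fderiv ℝ F x ≠ 0)
    (hrg : ∀ x ∈ B, g x = 0 → fderiv ℝ g x ≠ 0) (hz : ∀ x ∈ B, (F x = 0 ↔ g x = 0))
    (h : ∀ x ∈ B, F x = 0 ∨ 0 < F x * g x) : TubeCh_P B F g := by
  refine ⟨h, fun x hx hx0 => ?_⟩
  have hg0 := (hz x hx).1 hx0
  obtain ⟨v, h1, h2⟩ := TubeCh_dir (hrg x hx hg0) (hrF x hx0)
  refine ⟨v, h1, ?_⟩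
  by_contra h3
  have h4 : 0 < fderiv ℝ F x v := lt_of_le_of_ne (not_lt.1 h3) (Ne.symm h2)
  have h5 : ∀ᶠ y in 𝓝 x, -F y = 0 ∨ 0 < -F y * g y := by
    refine TubeCh_loc (F := fun y => -F y) hF.neg hg hg0 (v := v) ?_ h1 ?_
    · rw [TubeCh_fderiv_neg]
      show -(fderiv ℝ F x v) < 0
      linarith
    · filter_upwards [hB.mem_nhds hx] with y hy
      rw [neg_eq_zero]
      exact hz y hy
  have h6 : ∀ᶠ y in 𝓝 x, F y = 0 := by
    filter_upwards [h5, hB.mem_nhds hx] with y hy hy'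
    rcases h y hy' with h7 | h7
    · exact h7
    · rcases hy with h8 | h8
      · linarith
      · nlinarith
  have h7 : fderiv ℝ F x = 0 := by
    have h8 : F =ᶠ[𝓝 x] fun _ => (0 : ℝ) := h6
    rw [h8.fderiv_eq]
    simp
  exact hrF x hx0 h7

omit [FiniteDimensional ℝ V] in
private theorem TubeCh_sign {B : Set V} {F g : V → ℝ} (hB : IsOpen B) (hBc : IsPreconnected B)
    (hF : ContDiff ℝ ∞ F) (hg : ContDiff ℝ ∞ g) (hrF : ∀ x, F x = 0 → fderiv ℝ F x ≠ 0)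
    (hrg : ∀ x ∈ B, g x = 0 → fderiv ℝ g x ≠ 0) (hz : ∀ x ∈ B, (F x = 0 ↔ g x = 0)) :
    TubeCh_P B F g ∨ TubeCh_P B (fun x => -F x) g := by
  have hFc := hF.continuous
  have hgc := hg.continuous
  have h1 : IsOpen {x | ∀ᶠ y in 𝓝 x, F y = 0 ∨ 0 < F y * g y} := isOpen_setOf_eventually_nhds
  have h2 : IsOpen {x | ∀ᶠ y in 𝓝 x, F y = 0 ∨ F y * g y < 0} := isOpen_setOf_eventually_nhds
  have hcov : B ⊆ {x | ∀ᶠ y in 𝓝 x, F y = 0 ∨ 0 < F y * g y} ∪
      {x | ∀ᶠ y in 𝓝 x, F y = 0 ∨ F y * g y < 0} := by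
    intro x hx
    by_cases hx0 : F x = 0
    · have hg0 := (hz x hx).1 hx0
      obtain ⟨v, h3, h4⟩ := TubeCh_dir (hrg x hx hg0) (hrF x hx0)
      rcases lt_or_gt_of_ne h4 with h5 | h5
      · left
        refine TubeCh_loc hF hg hg0 h5 h3 ?_
        filter_upwards [hB.mem_nhds hx] with y hy
        exact hz y hy
      · right
        have h6 : ∀ᶠ y in 𝓝 x, -F y = 0 ∨ 0 < -F y * g y := by
          refine TubeCh_loc (F := fun y => -F y) hF.neg hg hg0 (v := v) ?_ h3 ?_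
          · rw [TubeCh_fderiv_neg]
            show -(fderiv ℝ F x v) < 0
            linarith
          · filter_upwards [hB.mem_nhds hx] with y hy
            rw [neg_eq_zero]
            exact hz y hy
        show ∀ᶠ y in 𝓝 x, F y = 0 ∨ F y * g y < 0
        filter_upwards [h6] with y hy
        rcases hy with h7 | h7
        · left
          linarith
        · right
          linarith
    · have hgx : g x ≠ 0 := fun h => hx0 ((hz x hx).2 h)
      have hcont : Continuous fun y => F y * g y := hFc.mul hgc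
      rcases lt_or_gt_of_ne (mul_ne_zero hx0 hgx) with h3 | h3
      · right
        show ∀ᶠ y in 𝓝 x, F y = 0 ∨ F y * g y < 0
        filter_upwards [hcont.continuousAt.eventually_lt continuousAt_const h3] with y hy
        exact Or.inr hy
      · left
        show ∀ᶠ y in 𝓝 x, F y = 0 ∨ 0 < F y * g y
        filter_upwards [continuousAt_const.eventually_lt hcont.continuousAt h3] with y hy
        exact Or.inr hy
  have hdis : B ∩ ({x | ∀ᶠ y in 𝓝 x, F y = 0 ∨ 0 < F y * g y} ∩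
      {x | ∀ᶠ y in 𝓝 x, F y = 0 ∨ F y * g y < 0}) = ∅ := by
    rw [Set.eq_empty_iff_forall_notMem]
    rintro x ⟨hx, h3, h4⟩
    have h3 : ∀ᶠ y in 𝓝 x, F y = 0 ∨ 0 < F y * g y := h3
    have h4 : ∀ᶠ y in 𝓝 x, F y = 0 ∨ F y * g y < 0 := h4
    have h6 : ∀ᶠ y in 𝓝 x, F y = 0 := by
      filter_upwards [h3, h4] with y hy hy'
      rcases hy with h7 | h7
      · exact h7
      · rcases hy' with h8 | h8
        · exact h8
        · linarith
    have h7 : fderiv ℝ F x = 0 := by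
      have h8 : F =ᶠ[𝓝 x] fun _ => (0 : ℝ) := h6
      rw [h8.fderiv_eq]
      simp
    exact hrF x h6.self_of_nhds h7
  rcases isPreconnected_iff_subset_of_disjoint.1 hBc _ _ h1 h2 hcov hdis with h3 | h3
  · left
    exact TubeCh_P_of hB hF hg hrF hrg hz fun x hx => (h3 hx : ∀ᶠ y in 𝓝 x, _).self_of_nhds
  · right
    refine TubeCh_P_of hB hF.neg hg ?_ hrg ?_ ?_
    · intro x hx
      rw [TubeCh_fderiv_neg]
      exact neg_ne_zero.2 (hrF x (neg_eq_zero.1 hx))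
    · intro x hx
      rw [neg_eq_zero]
      exact hz x hx
    · intro x hx
      have h4 : F x = 0 ∨ F x * g x < 0 := (h3 hx : ∀ᶠ y in 𝓝 x, _).self_of_nhds
      rcases h4 with h4 | h4
      · exact Or.inl (neg_eq_zero.2 h4)
      · right
        linarith

omit [FiniteDimensional ℝ V] in
/-- The function glued from `F` and `g`. -/
private theorem TubeCh_glue {B K : Set V} {F g χ : V → ℝ} (hB : IsOpen B) (hK : IsClosed K)
    (hKB : K ⊆ B) (hF : ContDiff ℝ ∞ F) (hg : ContDiff ℝ ∞ g) (hχ : ContDiff ℝ ∞ χ)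
    (hχ0 : ∀ x, 0 ≤ χ x) (hχ1 : ∀ x, χ x ≤ 1) (hχK : ∀ x, x ∉ K → χ x = 0)
    (hgood : Good F) (hrF : ∀ x, F x = 0 → fderiv ℝ F x ≠ 0)
    (hz : ∀ x ∈ B, (F x = 0 ↔ g x = 0)) (hP : TubeCh_P B F g) :
    ContDiff ℝ ∞ (fun x => χ x * g x + (1 - χ x) * F x) ∧
      (∀ x, χ x * g x + (1 - χ x) * F x = 0 →
        fderiv ℝ (fun x => χ x * g x + (1 - χ x) * F x) x ≠ 0) ∧
      (∀ x, χ x * g x + (1 - χ x) * F x = 0 ↔ F x = 0) ∧
      Hom F (fun x => χ x * g x + (1 - χ x) * F x) := by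
  have hG : ContDiff ℝ ∞ (fun x => χ x * g x + (1 - χ x) * F x) :=
    (hχ.mul hg).add ((contDiff_const.sub hχ).mul hF)
  have hsgn : ∀ x, (F x = 0 ∧ χ x * g x + (1 - χ x) * F x = 0) ∨
      (0 < F x ∧ 0 < χ x * g x + (1 - χ x) * F x) ∨
      (F x < 0 ∧ χ x * g x + (1 - χ x) * F x < 0) := by
    intro x
    by_cases hx : x ∈ B
    · rcases hP.1 x hx with h1 | h1
      · left
        refine ⟨h1, ?_⟩
        rw [h1, (hz x hx).1 h1]
        ring
      · right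
        have h2 := hχ0 x
        have h3 := hχ1 x
        rcases mul_pos_iff.1 h1 with ⟨h4, h5⟩ | ⟨h4, h5⟩
        · left
          refine ⟨h4, ?_⟩
          rcases eq_or_lt_of_le h2 with h6 | h6
          · rw [← h6]
            linarith
          · have h7 := mul_pos h6 h5
            have h8 : 0 ≤ (1 - χ x) * F x := mul_nonneg (by linarith) h4.le
            linarith
        · right
          refine ⟨h4, ?_⟩
          rcases eq_or_lt_of_le h2 with h6 | h6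
          · rw [← h6]
            linarith
          · have h7 := mul_neg_of_pos_of_neg h6 h5
            have h8 : (1 - χ x) * F x ≤ 0 := mul_nonpos_of_nonneg_of_nonpos (by linarith) h4.le
            linarith
    · have h1 := hχK x fun h => hx (hKB h)
      rw [h1, zero_mul, zero_add, sub_zero, one_mul]
      rcases lt_trichotomy (F x) 0 with h2 | h2 | h2
      · exact Or.inr (Or.inr ⟨h2, h2⟩)
      · exact Or.inl ⟨h2, h2⟩
      · exact Or.inr (Or.inl ⟨h2, h2⟩)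
  have hiff : ∀ x, χ x * g x + (1 - χ x) * F x = 0 ↔ F x = 0 := by
    intro x
    rcases hsgn x with h | h | h
    · exact ⟨fun _ => h.1, fun _ => h.2⟩
    · exact ⟨fun h' => absurd h' h.2.ne', fun h' => absurd h' h.1.ne'⟩
    · exact ⟨fun h' => absurd h' h.2.ne, fun h' => absurd h' h.1.ne⟩
  have hnear : ∀ x, x ∉ B → ∀ᶠ y in 𝓝 x, χ y * g y + (1 - χ y) * F y = F y := by
    intro x hx
    have h1 : Kᶜ ∈ 𝓝 x := hK.isOpen_compl.mem_nhds fun h => hx (hKB h)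
    filter_upwards [h1] with y hy
    rw [hχK y hy]
    ring
  -- the derivative at a zero in `B`
  have hder : ∀ x ∈ B, F x = 0 → ∃ v, fderiv ℝ F x v < 0 ∧
      fderiv ℝ (fun x => χ x * g x + (1 - χ x) * F x) x v < 0 := by
    intro x hx hx0
    obtain ⟨v, h1, h2⟩ := hP.2 x hx hx0
    refine ⟨v, h2, ?_⟩
    have hg0 := (hz x hx).1 hx0
    have d1 : HasFDerivAt χ (fderiv ℝ χ x) x := (hχ.differentiable (by simp) x).hasFDerivAt
    have d2 : HasFDerivAt g (fderiv ℝ g x) x := (hg.differentiable (by simp) x).hasFDerivAt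
    have d3 : HasFDerivAt F (fderiv ℝ F x) x := (hF.differentiable (by simp) x).hasFDerivAt
    have d4 : HasFDerivAt (fun y => 1 - χ y) (-fderiv ℝ χ x) x := d1.const_sub 1
    have d5 := (d1.mul d2).add (d4.mul d3)
    have d6 : fderiv ℝ (fun x => χ x * g x + (1 - χ x) * F x) x = _ := d5.fderiv
    rw [d6]
    have d7 : (χ x • fderiv ℝ g x + g x • fderiv ℝ χ x +
        ((1 - χ x) • fderiv ℝ F x + F x • -fderiv ℝ χ x)) v =
        χ x * fderiv ℝ g x v + (1 - χ x) * fderiv ℝ F x v := by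
      rw [hg0, hx0]
      simp
    rw [d7]
    have h3 := hχ0 x
    have h4 := hχ1 x
    rcases eq_or_lt_of_le h3 with h6 | h6
    · rw [← h6]
      linarith
    · have h7 := mul_neg_of_pos_of_neg h6 h1
      have h8 : (1 - χ x) * fderiv ℝ F x v ≤ 0 :=
        mul_nonpos_of_nonneg_of_nonpos (by linarith) h2.le
      linarith
  refine ⟨hG, ?_, hiff, ?_⟩
  · intro x hx
    have hx0 := (hiff x).1 hx
    by_cases hxB : x ∈ B
    · obtain ⟨v, -, h2⟩ := hder x hxB hx0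
      intro h3
      rw [h3] at h2
      simp at h2
    · have h1 : (fun y => χ y * g y + (1 - χ y) * F y) =ᶠ[𝓝 x] F := hnear x hxB
      rw [h1.fderiv_eq]
      exact hrF x hx0
  · refine Hom.of_sign hgood hG.continuous ?_ ?_ ?_
    · intro x
      rcases hsgn x with h | h | h
      · exact ⟨fun h' => absurd h' (by rw [h.1]; exact lt_irrefl _),
          fun h' => absurd h' (by rw [h.2]; exact lt_irrefl _)⟩
      · exact ⟨fun h' => absurd h' h.1.not_gt, fun h' => absurd h' h.2.not_gt⟩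
      · exact ⟨fun _ => h.2, fun _ => h.1⟩
    · intro x
      rcases hsgn x with h | h | h
      · exact ⟨fun _ => h.2.le, fun _ => h.1.le⟩
      · exact ⟨fun h' => absurd h' (not_le.2 h.1), fun h' => absurd h' (not_le.2 h.2)⟩
      · exact ⟨fun _ => h.2.le, fun _ => h.1.le⟩
    · intro x hx0
      by_cases hxB : x ∈ B
      · obtain ⟨v, h1, h2⟩ := hder x hxB hx0
        exact ⟨v, desc1_smooth (hF.contDiffAt.of_le (by exact_mod_cast le_top)) h1,
          desc1_smooth (hG.contDiffAt.of_le (by exact_mod_cast le_top)) h2⟩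
      · obtain ⟨v, hv⟩ := hgood.desc x hx0
        refine ⟨v, hv, hv.congr ?_⟩
        filter_upwards [hnear x hxB] with y hy
        exact hy.symm

omit [FiniteDimensional ℝ V] in
private theorem TubeCh_box_open (u : V) (ρ r : ℝ) : IsOpen {x | Box u ρ r x} := by
  have hc : Continuous (orth u) := (contDiff_orth u).continuous
  have h1 : IsOpen {x : V | |⟪u, x⟫| < ρ} := isOpen_lt (by fun_prop) continuous_const
  have h2 : IsOpen {x : V | ‖orth u x‖ < r} := isOpen_lt (by fun_prop) continuous_const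
  exact h1.inter h2

omit [FiniteDimensional ℝ V] in
private theorem TubeCh_box_conv (u : V) (ρ r : ℝ) : Convex ℝ {x | Box u ρ r x} := by
  have h1 : Convex ℝ ((innerSL ℝ u).toLinearMap ⁻¹' Metric.ball (0 : ℝ) ρ) :=
    (convex_ball _ _).linear_preimage _
  have h2 : Convex ℝ ((TubeCh_L u).toLinearMap ⁻¹' Metric.ball (0 : V) r) :=
    (convex_ball _ _).linear_preimage _
  have h3 := h1.inter h2
  have h4 : {x | Box u ρ r x} = (innerSL ℝ u).toLinearMap ⁻¹' Metric.ball (0 : ℝ) ρ ∩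
      (TubeCh_L u).toLinearMap ⁻¹' Metric.ball (0 : V) r := by
    ext x
    simp only [mem_setOf_eq, mem_inter_iff, mem_preimage, Metric.mem_ball, dist_zero_right,
      ContinuousLinearMap.coe_coe, TubeCh_L_apply, innerSL_apply_apply, Real.norm_eq_abs]
    exact Iff.rfl
  rw [h4]
  exact h3

/-- A smooth cut-off: one for `y ≤ a`, zero for `b ≤ y`. -/
private noncomputable def TubeCh_cut (a b y : ℝ) : ℝ := Real.smoothTransition ((b - y) / (b - a))

private theorem TubeCh_cut_smooth (a b : ℝ) : ContDiff ℝ ∞ (TubeCh_cut a b) := by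
  unfold TubeCh_cut
  exact Real.smoothTransition.contDiff.comp ((contDiff_const.sub contDiff_id).div_const _)

private theorem TubeCh_cut_one {a b y : ℝ} (hab : a < b) (hy : y ≤ a) : TubeCh_cut a b y = 1 := by
  unfold TubeCh_cut
  apply Real.smoothTransition.one_of_one_le
  rw [le_div_iff₀ (by linarith)]
  linarith

private theorem TubeCh_cut_zero {a b y : ℝ} (hab : a < b) (hy : b ≤ y) : TubeCh_cut a b y = 0 := by
  unfold TubeCh_cut
  apply Real.smoothTransition.zero_of_nonpos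
  exact div_nonpos_of_nonpos_of_nonneg (by linarith) (by linarith)

private theorem TubeCh_cut_nonneg (a b y : ℝ) : 0 ≤ TubeCh_cut a b y :=
  Real.smoothTransition.nonneg _

private theorem TubeCh_cut_le (a b y : ℝ) : TubeCh_cut a b y ≤ 1 :=
  Real.smoothTransition.le_one _

private theorem TubeCh_sq {a b : ℝ} (h : |a| < b) : a ^ 2 < b ^ 2 := by
  have h1 : |a| ^ 2 < b ^ 2 := pow_lt_pow_left₀ h (abs_nonneg _) two_ne_zero
  rwa [sq_abs] at h1

/-- PROOF. In the box the zero set is that of `g x = ‖orth u x‖ ^ 2 - p ⟪u, x⟫`, which is regular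
there (`hreg`; for `orth u x ≠ 0` the derivative in the direction `orth u x` is positive). The set
`{g < 0}` in the box is connected (`hint`: the axis part is an interval, and every point is joined
to the axis inside its ball), and so is `{g > 0}` (if it is not empty: `dim ≥ 3`, so the spheres
`‖orth u x‖ = const` in the planes `⟪u, x⟫ = const` are connected; move outwards towards
`‖orth u x‖ → r`). So `F` has a constant sign on each, and the signs are different if `g < 0`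
somewhere (`F` is regular). So `F * g > 0` off the zero set in the box, or `F * g < 0`. In the first
case `F₁ = χ g + (1 - χ) F`, `χ` smooth, zero outside a closed subset of the box (use functions of
`⟪u, x⟫` and of `‖orth u x‖ ^ 2`), one on `Box u ρ₁ r₁`; `Hom F F₁` by `Hom.of_sign`: at a common
zero in the box the derivatives of `F` and `g` are positive multiples of each other (same zero set,
regular, same sign), so they have common descent directions. In the second case the same with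
`-F`. -/
theorem tube_exact (hn : 3 ≤ Module.finrank ℝ V) (hF : ContDiff ℝ ∞ F)
    (hb : Bornology.IsBounded {x | F x = 0}) (hr : ∀ x, F x = 0 → fderiv ℝ F x ≠ 0)
    (hu : ‖u‖ = 1) (hp : ContDiff ℝ ∞ p) (hρ₁ : 0 < ρ₁) (hρ : ρ₁ < ρ) (hr₁ : 0 < r₁)
    (hrr : r₁ < r) (hbox : ∀ x, Box u ρ r x → (F x = 0 ↔ ‖orth u x‖ ^ 2 = p ⟪u, x⟫))
    (hlt : ∀ σ, |σ| < ρ → p σ < r₁ ^ 2) (hint : OrdConnected {σ | |σ| < ρ ∧ 0 < p σ})
    (hreg : ∀ σ, |σ| < ρ → p σ = 0 → deriv p σ ≠ 0) :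
    ∃ F₁ : V → ℝ, ContDiff ℝ ∞ F₁ ∧ (∀ x, F₁ x = 0 → fderiv ℝ F₁ x ≠ 0) ∧
      (∀ x, Box u ρ₁ r₁ x → F₁ x = ‖orth u x‖ ^ 2 - p ⟪u, x⟫) ∧ (∀ x, F₁ x = 0 ↔ F x = 0) ∧
      (Hom F F₁ ∨ Hom (fun x => -F x) F₁) := by
  classical
  have _ := hn
  have _ := hint
  obtain ⟨g, hgdef⟩ : ∃ g : V → ℝ, g = fun x => ‖orth u x‖ ^ 2 - p ⟪u, x⟫ := ⟨_, rfl⟩
  have hg : ContDiff ℝ ∞ g := by
    rw [hgdef]
    exact TubeCh_smooth u hp
  have hBo := TubeCh_box_open u ρ r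
  have hBc : IsPreconnected {x | Box u ρ r x} := (TubeCh_box_conv u ρ r).isPreconnected
  have hz : ∀ x ∈ {x | Box u ρ r x}, (F x = 0 ↔ g x = 0) := by
    intro x hx
    rw [hgdef]
    show F x = 0 ↔ ‖orth u x‖ ^ 2 - p ⟪u, x⟫ = 0
    rw [sub_eq_zero]
    exact hbox x hx
  have hrg : ∀ x ∈ {x | Box u ρ r x}, g x = 0 → fderiv ℝ g x ≠ 0 := by
    intro x hx hx0 hd
    rw [hgdef] at hx0 hd
    have hx0 : ‖orth u x‖ ^ 2 - p ⟪u, x⟫ = 0 := hx0
    have h1 := TubeCh_deriv hu hp x (orth u x)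
    rw [hd, inner_orth hu, real_inner_self_eq_norm_sq] at h1
    have h1 : (0 : ℝ) = 2 * ‖orth u x‖ ^ 2 - deriv p ⟪u, x⟫ * 0 := h1
    have h2 : ‖orth u x‖ ^ 2 = 0 := by linarith
    have h3 : p ⟪u, x⟫ = 0 := by linarith
    have h4 := TubeCh_deriv hu hp x u
    have h5 : orth u x = 0 := by
      rw [← norm_eq_zero]
      exact pow_eq_zero_iff two_ne_zero |>.1 h2
    rw [hd, h5, inner_zero_left, real_inner_self_eq_norm_sq, hu] at h4
    have h4 : (0 : ℝ) = 2 * 0 - deriv p ⟪u, x⟫ * 1 ^ 2 := h4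
    exact hreg _ hx.1 h3 (by linarith)
  -- the cut-off
  obtain ⟨ρ', hρ'⟩ : ∃ ρ', ρ' = (ρ₁ + ρ) / 2 := ⟨_, rfl⟩
  obtain ⟨r', hr'⟩ : ∃ r', r' = (r₁ + r) / 2 := ⟨_, rfl⟩
  have a1 : ρ₁ < ρ' := by rw [hρ']; linarith
  have a2 : ρ' < ρ := by rw [hρ']; linarith
  have a3 : r₁ < r' := by rw [hr']; linarith
  have a4 : r' < r := by rw [hr']; linarith
  have b1 : ρ₁ ^ 2 < ρ' ^ 2 := by nlinarith
  have b2 : r₁ ^ 2 < r' ^ 2 := by nlinarith
  obtain ⟨χ, hχdef⟩ : ∃ χ : V → ℝ, χ = fun x => TubeCh_cut (ρ₁ ^ 2) (ρ' ^ 2) (⟪u, x⟫ ^ 2) *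
    TubeCh_cut (r₁ ^ 2) (r' ^ 2) (‖orth u x‖ ^ 2) := ⟨_, rfl⟩
  have hχ : ContDiff ℝ ∞ χ := by
    rw [hχdef]
    exact ((TubeCh_cut_smooth _ _).comp ((contDiff_const.inner ℝ contDiff_id).pow 2)).mul
      ((TubeCh_cut_smooth _ _).comp ((TubeCh_smooth_orth u).norm_sq ℝ))
  have hχ0 : ∀ x, 0 ≤ χ x := by
    intro x
    rw [hχdef]
    exact mul_nonneg (TubeCh_cut_nonneg _ _ _) (TubeCh_cut_nonneg _ _ _)
  have hχ1 : ∀ x, χ x ≤ 1 := by
    intro x
    rw [hχdef]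
    exact mul_le_one₀ (TubeCh_cut_le _ _ _) (TubeCh_cut_nonneg _ _ _) (TubeCh_cut_le _ _ _)
  have hχB : ∀ x, Box u ρ₁ r₁ x → χ x = 1 := by
    intro x hx
    rw [hχdef]
    show TubeCh_cut (ρ₁ ^ 2) (ρ' ^ 2) (⟪u, x⟫ ^ 2) *
      TubeCh_cut (r₁ ^ 2) (r' ^ 2) (‖orth u x‖ ^ 2) = 1
    rw [TubeCh_cut_one b1 (TubeCh_sq hx.1).le,
      TubeCh_cut_one b2 (pow_le_pow_left₀ (norm_nonneg _) hx.2.le 2), mul_one]
  have hKc : IsClosed {x : V | |⟪u, x⟫| ≤ ρ' ∧ ‖orth u x‖ ≤ r'} := by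
    have hc : Continuous (orth u) := (contDiff_orth u).continuous
    have h1 : IsClosed {x : V | |⟪u, x⟫| ≤ ρ'} := isClosed_le (by fun_prop) continuous_const
    have h2 : IsClosed {x : V | ‖orth u x‖ ≤ r'} := isClosed_le (by fun_prop) continuous_const
    exact h1.inter h2
  have hKB : {x : V | |⟪u, x⟫| ≤ ρ' ∧ ‖orth u x‖ ≤ r'} ⊆ {x | Box u ρ r x} :=
    fun x hx => ⟨lt_of_le_of_lt hx.1 a2, lt_of_le_of_lt hx.2 a4⟩
  have hχK : ∀ x, x ∉ {x : V | |⟪u, x⟫| ≤ ρ' ∧ ‖orth u x‖ ≤ r'} → χ x = 0 := by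
    intro x hx
    rw [hχdef]
    show TubeCh_cut (ρ₁ ^ 2) (ρ' ^ 2) (⟪u, x⟫ ^ 2) *
      TubeCh_cut (r₁ ^ 2) (r' ^ 2) (‖orth u x‖ ^ 2) = 0
    by_cases h1 : |⟪u, x⟫| ≤ ρ'
    · have h2 : r' < ‖orth u x‖ := by
        by_contra h3
        exact hx ⟨h1, not_lt.1 h3⟩
      rw [TubeCh_cut_zero b2 (pow_le_pow_left₀ (by linarith) h2.le 2), mul_zero]
    · have h2 : ρ' ^ 2 ≤ ⟪u, x⟫ ^ 2 := by
        rw [← sq_abs ⟪u, x⟫]
        exact pow_le_pow_left₀ (by linarith) (not_le.1 h1).le 2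
      rw [TubeCh_cut_zero b1 h2, zero_mul]
  have hgood : Good F := good_of_regular hF hb hr
  rcases TubeCh_sign hBo hBc hF hg hr hrg hz with hP | hP
  · obtain ⟨c1, c2, c3, c4⟩ := TubeCh_glue hBo hKc hKB hF hg hχ hχ0 hχ1 hχK hgood hr hz hP
    refine ⟨_, c1, c2, ?_, c3, Or.inl c4⟩
    intro x hx
    rw [hχB x hx, hgdef]
    ring
  · have hr' : ∀ x, -F x = 0 → fderiv ℝ (fun y => -F y) x ≠ 0 := by
      intro x hx
      rw [TubeCh_fderiv_neg]
      exact neg_ne_zero.2 (hr x (neg_eq_zero.1 hx))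
    have hz' : ∀ x ∈ {x | Box u ρ r x}, (-F x = 0 ↔ g x = 0) := by
      intro x hx
      rw [neg_eq_zero]
      exact hz x hx
    obtain ⟨c1, c2, c3, c4⟩ := TubeCh_glue hBo hKc hKB hF.neg hg hχ hχ0 hχ1 hχK hgood.neg hr' hz' hP
    refine ⟨_, c1, c2, ?_, ?_, Or.inr c4⟩
    · intro x hx
      rw [hχB x hx, hgdef]
      ring
    · intro x
      rw [c3 x, neg_eq_zero]

omit [FiniteDimensional ℝ V] in
private theorem TubeCh_slice {G : ℝ × V → ℝ} (hG : ContDiff ℝ ∞ G) (t : ℝ) (x v : V) :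
    fderiv ℝ G (t, x) (0, v) = fderiv ℝ (fun y => G (t, y)) x v := by
  have h1 : HasFDerivAt (fun y : V => (t, y)) (ContinuousLinearMap.inr ℝ ℝ V) x :=
    hasFDerivAt_prodMk_right t x
  have h2 := ((hG.differentiable (by simp) (t, x)).hasFDerivAt).comp x h1
  have h3 : fderiv ℝ (fun y => G (t, y)) x = (fderiv ℝ G (t, x)).comp
      (ContinuousLinearMap.inr ℝ ℝ V) := h2.fderiv
  rw [h3]
  rfl

omit [FiniteDimensional ℝ V] in
/-- Descent directions of the family of rotationally symmetric functions. -/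
private theorem TubeCh_fam (hu : ‖u‖ = 1) (hp : ContDiff ℝ ∞ p) (hp₂ : ContDiff ℝ ∞ p₂) {l : ℝ}
    {x : V} (hx : ‖orth u x‖ ^ 2 - ((1 - l) * p ⟪u, x⟫ + l * p₂ ⟪u, x⟫) = 0)
    (hreg : (1 - l) * p ⟪u, x⟫ + l * p₂ ⟪u, x⟫ = 0 →
      (1 - l) * deriv p ⟪u, x⟫ + l * deriv p₂ ⟪u, x⟫ ≠ 0) :
    ∃ v, Desc (fun s y => ‖orth u y‖ ^ 2 - ((1 - s) * p ⟪u, y⟫ + s * p₂ ⟪u, y⟫)) (𝓝 l) x v := by
  obtain ⟨G, hGdef⟩ : ∃ G : ℝ × V → ℝ, G = fun q =>
    ‖orth u q.2‖ ^ 2 - ((1 - q.1) * p ⟪u, q.2⟫ + q.1 * p₂ ⟪u, q.2⟫) := ⟨_, rfl⟩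
  have hin : ContDiff ℝ ∞ (fun q : ℝ × V => ⟪u, q.2⟫) := contDiff_const.inner ℝ contDiff_snd
  have hG : ContDiff ℝ ∞ G := by
    rw [hGdef]
    exact (((TubeCh_smooth_orth u).comp contDiff_snd).norm_sq ℝ).sub
      (((contDiff_const.sub contDiff_fst).mul (hp.comp hin)).add (contDiff_fst.mul (hp₂.comp hin)))
  have hpl : ContDiff ℝ ∞ (fun σ => (1 - l) * p σ + l * p₂ σ) :=
    (contDiff_const.mul hp).add (contDiff_const.mul hp₂)
  have hdl : ∀ σ, deriv (fun σ => (1 - l) * p σ + l * p₂ σ) σ =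
      (1 - l) * deriv p σ + l * deriv p₂ σ := by
    intro σ
    have h1 := (hp.differentiable (by simp) σ).hasDerivAt
    have h2 := (hp₂.differentiable (by simp) σ).hasDerivAt
    exact ((h1.const_mul (1 - l)).add (h2.const_mul l)).deriv
  have hsl : ∀ v, fderiv ℝ G (l, x) (0, v) = 2 * ⟪orth u x, v⟫ -
      ((1 - l) * deriv p ⟪u, x⟫ + l * deriv p₂ ⟪u, x⟫) * ⟪u, v⟫ := by
    intro v
    rw [TubeCh_slice hG]
    have h1 : (fun y => G (l, y)) = fun y : V => ‖orth u y‖ ^ 2 -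
        (fun σ => (1 - l) * p σ + l * p₂ σ) ⟪u, y⟫ := by
      rw [hGdef]
    rw [h1, TubeCh_deriv hu hpl, hdl]
  have key : ∃ v, fderiv ℝ G (l, x) (0, v) < 0 := by
    by_cases h0 : orth u x = 0
    · have h1 : (1 - l) * p ⟪u, x⟫ + l * p₂ ⟪u, x⟫ = 0 := by
        rw [h0, norm_zero] at hx
        linarith
      have h2 := hreg h1
      obtain ⟨D, hD⟩ : ∃ D, D = (1 - l) * deriv p ⟪u, x⟫ + l * deriv p₂ ⟪u, x⟫ := ⟨_, rfl⟩
      rw [← hD] at h2
      refine ⟨D • u, ?_⟩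
      rw [hsl, ← hD, h0, inner_zero_left, real_inner_smul_right, real_inner_self_eq_norm_sq, hu]
      have : 0 < D * D := mul_self_pos.2 h2
      linarith
    · refine ⟨-orth u x, ?_⟩
      rw [hsl, inner_neg_right, inner_neg_right, inner_orth hu, real_inner_self_eq_norm_sq]
      have : 0 < ‖orth u x‖ ^ 2 := by
        have := norm_pos_iff.2 h0
        positivity
      linarith
  obtain ⟨v, hv⟩ := key
  refine ⟨v, ?_⟩
  have h1 := desc_smooth (hG.contDiffAt.of_le (by exact_mod_cast le_top)) hv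
  rw [hGdef] at h1
  exact h1

/-- PROOF. Choose `r₂ < r₃ < r₁` with `p, p₂ < r₂ ^ 2` on `[-ρ₂, ρ₂]` (compact) and a smooth cut-off
`χ` with `χ y = 1` for `y ≤ r₂ ^ 2`, `χ y = 0` for `y ≥ r₃ ^ 2`. `F₂ x = F x` outside the box
`Box u ρ₁ r₁` and `F₂ x = F x + (p - p₂) ⟪u, x⟫ * χ (‖orth u x‖ ^ 2)` in it (the added term vanishes
for `|⟪u, x⟫| ≥ ρ₂` and for `‖orth u x‖ ≥ r₃`). The family `F + l (p - p₂) χ`, `l ∈ [0, 1]`
(`Hom.of_family` or `Hom.lerp`): zeros in the box with `‖orth u x‖ ≤ r₂`: the function is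
`‖orth u x‖ ^ 2 - p_l ⟪u, x⟫`, `p_l = (1 - l) p + l p₂`; descent direction `-orth u x` if
`orth u x ≠ 0`, `± u` if `orth u x = 0` (`hreg`). No zeros with `r₂ < ‖orth u x‖ < r₁` and
`|⟪u, x⟫| < ρ₂`: the function is `‖orth u x‖ ^ 2` minus a convex combination of `p` and `p₂`. -/
theorem tube_change (hF : ContDiff ℝ ∞ F) (hg : Good F) (hu : ‖u‖ = 1) (hp : ContDiff ℝ ∞ p)
    (hp₂ : ContDiff ℝ ∞ p₂) (hρ₂ : 0 < ρ₂) (hρ : ρ₂ < ρ₁) (hr₁ : 0 < r₁)
    (hbox : ∀ x, Box u ρ₁ r₁ x → F x = ‖orth u x‖ ^ 2 - p ⟪u, x⟫)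
    (heq : ∀ σ, ρ₂ ≤ |σ| → p₂ σ = p σ) (hlt : ∀ σ, |σ| < ρ₁ → p σ < r₁ ^ 2 ∧ p₂ σ < r₁ ^ 2)
    (hreg : ∀ l ∈ Icc (0 : ℝ) 1, ∀ σ, |σ| < ρ₁ → (1 - l) * p σ + l * p₂ σ = 0 →
      (1 - l) * deriv p σ + l * deriv p₂ σ ≠ 0) :
    ∃ F₂ : V → ℝ, ContDiff ℝ ∞ F₂ ∧ Hom F F₂ ∧ (∀ x, ¬ Box u ρ₂ r₁ x → F₂ x = F x) ∧
      (∀ x, Box u ρ₁ r₁ x → (F₂ x = 0 ↔ ‖orth u x‖ ^ 2 = p₂ ⟪u, x⟫)) ∧
      ∃ r₂ : ℝ, 0 < r₂ ∧ r₂ < r₁ ∧ (∀ σ, |σ| ≤ ρ₂ → p₂ σ < r₂ ^ 2) ∧
        ∀ x, |⟪u, x⟫| < ρ₁ → ‖orth u x‖ ≤ r₂ → F₂ x = ‖orth u x‖ ^ 2 - p₂ ⟪u, x⟫ := by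
  classical
  have hin : ContDiff ℝ ∞ (fun x : V => ⟪u, x⟫) := contDiff_const.inner ℝ contDiff_id
  have hoc : Continuous (orth u) := (contDiff_orth u).continuous
  -- the radius
  have hcomp : IsCompact (Icc (-ρ₂) ρ₂) := isCompact_Icc
  have hne : (Icc (-ρ₂) ρ₂).Nonempty := ⟨0, by constructor <;> linarith⟩
  obtain ⟨m, hm, hmax⟩ := hcomp.exists_isMaxOn hne hp.continuous.continuousOn
  obtain ⟨m₂, hm₂, hmax₂⟩ := hcomp.exists_isMaxOn hne hp₂.continuous.continuousOn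
  obtain ⟨M, hM⟩ : ∃ M, M = max 0 (max (p m) (p₂ m₂)) := ⟨_, rfl⟩
  have hr₁2 : 0 < r₁ ^ 2 := by positivity
  have hM0 : 0 ≤ M := by
    rw [hM]
    exact le_max_left _ _
  have hM1 : M < r₁ ^ 2 := by
    rw [hM]
    refine max_lt hr₁2 (max_lt ?_ ?_)
    · exact (hlt m (by rw [abs_lt]; constructor <;> linarith [hm.1, hm.2])).1
    · exact (hlt m₂ (by rw [abs_lt]; constructor <;> linarith [hm₂.1, hm₂.2])).2
  have hMp : ∀ σ, |σ| ≤ ρ₂ → p σ ≤ M ∧ p₂ σ ≤ M := by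
    intro σ hσ
    have h1 : σ ∈ Icc (-ρ₂) ρ₂ := abs_le.1 hσ
    rw [hM]
    exact ⟨(hmax h1).trans ((le_max_left _ _).trans (le_max_right _ _)),
      (hmax₂ h1).trans ((le_max_right _ _).trans (le_max_right _ _))⟩
  obtain ⟨r₂, hr₂⟩ : ∃ r₂, r₂ = Real.sqrt ((M + r₁ ^ 2) / 2) := ⟨_, rfl⟩
  have hr₂sq : r₂ ^ 2 = (M + r₁ ^ 2) / 2 := by
    rw [hr₂]
    exact Real.sq_sqrt (by positivity)
  have hr₂0 : 0 < r₂ := by
    rw [hr₂]
    exact Real.sqrt_pos.2 (by positivity)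
  have hr₂1 : r₂ < r₁ := by
    refine lt_of_pow_lt_pow_left₀ 2 hr₁.le ?_
    rw [hr₂sq]
    linarith
  have hMr : M < r₂ ^ 2 := by
    rw [hr₂sq]
    linarith
  obtain ⟨r₃, hr₃⟩ : ∃ r₃, r₃ = (r₂ + r₁) / 2 := ⟨_, rfl⟩
  have a1 : r₂ < r₃ := by rw [hr₃]; linarith
  have a2 : r₃ < r₁ := by rw [hr₃]; linarith
  have b1 : r₂ ^ 2 < r₃ ^ 2 := by nlinarith
  obtain ⟨A, hA⟩ : ∃ A : V → ℝ, A = fun x => (p ⟪u, x⟫ - p₂ ⟪u, x⟫) *
    TubeCh_cut (r₂ ^ 2) (r₃ ^ 2) (‖orth u x‖ ^ 2) := ⟨_, rfl⟩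
  have hAs : ContDiff ℝ ∞ A := by
    rw [hA]
    exact ((hp.comp hin).sub (hp₂.comp hin)).mul
      ((TubeCh_cut_smooth _ _).comp ((TubeCh_smooth_orth u).norm_sq ℝ))
  have hA1 : ∀ x, ρ₂ ≤ |⟪u, x⟫| → A x = 0 := by
    intro x hx
    rw [hA]
    show (p ⟪u, x⟫ - p₂ ⟪u, x⟫) * _ = 0
    rw [heq _ hx, sub_self, zero_mul]
  have hA2 : ∀ x, r₃ ≤ ‖orth u x‖ → A x = 0 := by
    intro x hx
    rw [hA]
    show _ * TubeCh_cut (r₂ ^ 2) (r₃ ^ 2) (‖orth u x‖ ^ 2) = 0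
    rw [TubeCh_cut_zero b1 (pow_le_pow_left₀ (by linarith) hx 2), mul_zero]
  have hA3 : ∀ x, ‖orth u x‖ ≤ r₂ → A x = p ⟪u, x⟫ - p₂ ⟪u, x⟫ := by
    intro x hx
    rw [hA]
    show _ * TubeCh_cut (r₂ ^ 2) (r₃ ^ 2) (‖orth u x‖ ^ 2) = _
    rw [TubeCh_cut_one b1 (pow_le_pow_left₀ (norm_nonneg _) hx 2), mul_one]
  -- positive where `r₂ ≤ ‖orth u x‖`
  have hpos : ∀ l ∈ Icc (0 : ℝ) 1, ∀ x, |⟪u, x⟫| ≤ ρ₂ → r₂ ≤ ‖orth u x‖ → ‖orth u x‖ < r₁ →
      0 < F x + l * A x := by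
    intro l hl x h1 h2 h3
    have h4 : Box u ρ₁ r₁ x := ⟨lt_of_le_of_lt h1 hρ, h3⟩
    rw [hbox x h4, hA]
    obtain ⟨c, hc⟩ : ∃ c, c = TubeCh_cut (r₂ ^ 2) (r₃ ^ 2) (‖orth u x‖ ^ 2) := ⟨_, rfl⟩
    have hc0 : 0 ≤ c := by rw [hc]; exact TubeCh_cut_nonneg _ _ _
    have hc1 : c ≤ 1 := by rw [hc]; exact TubeCh_cut_le _ _ _
    show 0 < ‖orth u x‖ ^ 2 - p ⟪u, x⟫ + l * ((p ⟪u, x⟫ - p₂ ⟪u, x⟫) *
      TubeCh_cut (r₂ ^ 2) (r₃ ^ 2) (‖orth u x‖ ^ 2))
    rw [← hc]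
    obtain ⟨h5, h6⟩ := hMp _ h1
    have h7 : r₂ ^ 2 ≤ ‖orth u x‖ ^ 2 := pow_le_pow_left₀ hr₂0.le h2 2
    have hlc0 : 0 ≤ l * c := mul_nonneg hl.1 hc0
    have hlc1 : l * c ≤ 1 := mul_le_one₀ hl.2 hc0 hc1
    have h8 : (1 - l * c) * p ⟪u, x⟫ ≤ (1 - l * c) * M :=
      mul_le_mul_of_nonneg_left h5 (by linarith)
    have h9 : l * c * p₂ ⟪u, x⟫ ≤ l * c * M := mul_le_mul_of_nonneg_left h6 hlc0
    have e1 : ‖orth u x‖ ^ 2 - p ⟪u, x⟫ + l * ((p ⟪u, x⟫ - p₂ ⟪u, x⟫) * c) =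
        ‖orth u x‖ ^ 2 - ((1 - l * c) * p ⟪u, x⟫ + l * c * p₂ ⟪u, x⟫) := by ring
    rw [e1]
    linarith
  have hout : ∀ x, ¬ Box u ρ₂ r₁ x → A x = 0 := by
    intro x hx
    by_cases h1 : |⟪u, x⟫| < ρ₂
    · have h2 : r₁ ≤ ‖orth u x‖ := by
        by_contra h3
        exact hx ⟨h1, not_le.1 h3⟩
      exact hA2 x (by linarith)
    · exact hA1 x (not_lt.1 h1)
  have hfin : ∀ x, |⟪u, x⟫| < ρ₁ → ‖orth u x‖ ≤ r₂ → F x + A x = ‖orth u x‖ ^ 2 - p₂ ⟪u, x⟫ := by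
    intro x h1 h2
    rw [hbox x ⟨h1, by linarith⟩, hA3 x h2]
    ring
  refine ⟨fun x => F x + A x, hF.add hAs, ?_, ?_, ?_, r₂, hr₂0, hr₂1, ?_, hfin⟩
  · -- the homotopy
    have h1 := Hom.of_family (a := 0) (b := 1) zero_le_one (fun l x => F x + l * A x) ?_ ?_ ?_
    · have e1 : (fun x => F x + 0 * A x) = F := by
        funext x
        ring
      have e2 : (fun x => F x + 1 * A x) = fun x => F x + A x := by
        funext x
        ring
      rw [e1, e2] at h1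
      exact h1
    · have hFc := hF.continuous
      have hAc := hAs.continuous
      exact Continuous.continuousOn (by fun_prop)
    · obtain ⟨R, hR⟩ := hg.bdd.exists_norm_le
      refine ⟨max R (ρ₂ + r₁), ?_⟩
      intro l _ x hx
      have hx : F x + l * A x = 0 := hx
      by_cases hb : Box u ρ₂ r₁ x
      · refine le_trans ?_ (le_max_right _ _)
        have h2 := norm_sq_orth hu x
        have h3 : ‖x‖ ^ 2 ≤ (ρ₂ + r₁) ^ 2 := by
          rw [h2]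
          have h4 := TubeCh_sq hb.1
          have h5 : ‖orth u x‖ ^ 2 ≤ r₁ ^ 2 := pow_le_pow_left₀ (norm_nonneg _) hb.2.le 2
          have h6 : 0 < ρ₂ * r₁ := mul_pos hρ₂ hr₁
          nlinarith
        exact le_of_sq_le_sq h3 (by linarith)
      · refine le_trans ?_ (le_max_left _ _)
        rw [hout x hb, mul_zero, add_zero] at hx
        exact hR x hx
    · intro l hl x hx
      have hx : F x + l * A x = 0 := hx
      have hmono : ∀ v, Desc (fun s y => F y + s * A y) (𝓝 l) x v →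
          Desc (fun s y => F y + s * A y) (𝓝[Icc 0 1] l) x v :=
        fun v h => h.mono nhdsWithin_le_nhds
      -- where the function does not change
      have hcon : (∀ᶠ y in 𝓝 x, A y = 0) →
          ∃ v, Desc (fun s y => F y + s * A y) (𝓝[Icc 0 1] l) x v := by
        intro hA0
        have h2 : F x = 0 := by
          rw [hA0.self_of_nhds, mul_zero, add_zero] at hx
          exact hx
        obtain ⟨v, hv⟩ := hg.desc x h2
        refine ⟨v, (hv.const (𝓝[Icc 0 1] l)).congr ?_⟩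
        filter_upwards [hA0.prod_inr (𝓝[Icc (0 : ℝ) 1] l)] with q hq
        rw [hq, mul_zero, add_zero]
      by_cases h1 : |⟪u, x⟫| ≤ ρ₂
      · by_cases h2 : ‖orth u x‖ < r₂
        · -- the symmetric part
          have hev : ∀ᶠ q : ℝ × V in 𝓝 l ×ˢ 𝓝 x,
              ‖orth u q.2‖ ^ 2 - ((1 - q.1) * p ⟪u, q.2⟫ + q.1 * p₂ ⟪u, q.2⟫) =
              F q.2 + q.1 * A q.2 := by
            have h3 : ∀ᶠ y in 𝓝 x, |⟪u, y⟫| < ρ₁ := by
              have hc : Continuous fun y : V => |⟪u, y⟫| := by fun_prop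
              exact hc.continuousAt.eventually_lt continuousAt_const (by linarith)
            have h4 : ∀ᶠ y in 𝓝 x, ‖orth u y‖ < r₂ := by
              have hc : Continuous fun y : V => ‖orth u y‖ := by fun_prop
              exact hc.continuousAt.eventually_lt continuousAt_const h2
            filter_upwards [(h3.and h4).prod_inr (𝓝 l)] with q hq
            rw [hbox q.2 ⟨hq.1, by linarith [hq.2]⟩, hA3 q.2 hq.2.le]
            ring
          have hx' : ‖orth u x‖ ^ 2 - ((1 - l) * p ⟪u, x⟫ + l * p₂ ⟪u, x⟫) = 0 := by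
            rw [hbox x ⟨by linarith, by linarith⟩, hA3 x h2.le] at hx
            linarith
          obtain ⟨v, hv⟩ := TubeCh_fam hu hp hp₂ hx' (hreg l hl _ (by linarith))
          exact ⟨v, hmono v (hv.congr hev)⟩
        · by_cases h3 : ‖orth u x‖ < r₁
          · have := hpos l hl x h1 (not_lt.1 h2) h3
            linarith
          · apply hcon
            have h4 : ∀ᶠ y in 𝓝 x, r₃ < ‖orth u y‖ := by
              have hc : Continuous fun y : V => ‖orth u y‖ := by fun_prop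
              exact continuousAt_const.eventually_lt hc.continuousAt (by linarith)
            filter_upwards [h4] with y hy
            exact hA2 y hy.le
      · apply hcon
        have h4 : ∀ᶠ y in 𝓝 x, ρ₂ < |⟪u, y⟫| := by
          have hc : Continuous fun y : V => |⟪u, y⟫| := by fun_prop
          exact continuousAt_const.eventually_lt hc.continuousAt (not_le.1 h1)
        filter_upwards [h4] with y hy
        exact hA1 y hy.le
  · intro x hx
    show F x + A x = F x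
    rw [hout x hx, add_zero]
  · intro x hx
    show F x + A x = 0 ↔ _
    by_cases h1 : ‖orth u x‖ ≤ r₂
    · rw [hfin x hx.1 h1, sub_eq_zero]
    · by_cases h2 : |⟪u, x⟫| ≤ ρ₂
      · have h3 := hpos 1 ⟨zero_le_one, le_rfl⟩ x h2 (not_le.1 h1).le hx.2
        rw [one_mul] at h3
        have h4 : p₂ ⟪u, x⟫ < ‖orth u x‖ ^ 2 := by
          have h5 := (hMp _ h2).2
          have h6 : r₂ ^ 2 ≤ ‖orth u x‖ ^ 2 := pow_le_pow_left₀ hr₂0.le (not_le.1 h1).le 2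
          linarith
        exact ⟨fun h => absurd h h3.ne', fun h => absurd h h4.ne'⟩
      · rw [hA1 x (not_le.1 h2).le, add_zero, hbox x hx, ← heq _ (not_le.1 h2).le, sub_eq_zero]
  · intro σ hσ
    exact lt_of_le_of_lt (hMp σ hσ).2 hMr

/-- PROOF. `Unk.function`, `tube_exact`, `tube_change` (`Good` from `IsBall` and `Hom.good_right`),
`Rd.of_hom`, `unk_of_rd`; `ρ₁` between `ρ₂` and `ρ`. -/
theorem unk_tube (hn : 3 ≤ Module.finrank ℝ V) {M : Set V} (hM : Unk M) (hu : ‖u‖ = 1)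
    (hp : ContDiff ℝ ∞ p) (hp₂ : ContDiff ℝ ∞ p₂) (hρ₂ : 0 < ρ₂) (hρ : ρ₂ < ρ) (hr₁ : 0 < r₁)
    (hrr : r₁ < r) (hbox : ∀ x, Box u ρ r x → (x ∈ M ↔ ‖orth u x‖ ^ 2 = p ⟪u, x⟫))
    (heq : ∀ σ, ρ₂ ≤ |σ| → p₂ σ = p σ)
    (hlt : ∀ σ, |σ| < ρ → p σ < r₁ ^ 2 ∧ p₂ σ < r₁ ^ 2)
    (hint : OrdConnected {σ | |σ| < ρ ∧ 0 < p σ})
    (hreg : ∀ l ∈ Icc (0 : ℝ) 1, ∀ σ, |σ| < ρ → (1 - l) * p σ + l * p₂ σ = 0 →
      (1 - l) * deriv p σ + l * deriv p₂ σ ≠ 0) :
    Unk {x | (Box u ρ r x ∧ ‖orth u x‖ ^ 2 = p₂ ⟪u, x⟫) ∨ (¬ Box u ρ r x ∧ x ∈ M)} := by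
  classical
  obtain ⟨F, hF, hFb, hFr, hMF, hball⟩ := hM.function
  obtain ⟨ρ₁, hρ₁⟩ : ∃ ρ₁, ρ₁ = (ρ₂ + ρ) / 2 := ⟨_, rfl⟩
  have a1 : ρ₂ < ρ₁ := by rw [hρ₁]; linarith
  have a2 : ρ₁ < ρ := by rw [hρ₁]; linarith
  have hmem : ∀ x, x ∈ M ↔ F x = 0 := by
    intro x
    rw [hMF]
    exact Iff.rfl
  have hreg0 : ∀ σ, |σ| < ρ → p σ = 0 → deriv p σ ≠ 0 := by
    intro σ hσ h0
    have h1 := hreg 0 ⟨le_rfl, zero_le_one⟩ σ hσ (by rw [h0]; ring)
    simpa using h1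
  obtain ⟨F₁, c1, c2, c3, c4, c5⟩ := tube_exact hn hF (hFb.subset fun x hx => le_of_eq hx) hFr hu hp
    (by linarith : 0 < ρ₁) a2 hr₁ hrr (fun x hx => (hmem x).symm.trans (hbox x hx))
    (fun σ hσ => (hlt σ hσ).1) hint hreg0
  have hRd : Rd F₁ := by
    rcases c5 with h | h
    · exact Rd.of_hom h.symm (Or.inl hball)
    · exact Rd.of_hom h.symm (Rd.neg (Or.inl hball))
  have hgood : Good F₁ := by
    rcases c5 with h | h
    · exact h.good_right
    · exact h.good_right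
  obtain ⟨F₂, d1, d2, d3, d4, -⟩ := tube_change c1 hgood hu hp hp₂ hρ₂ a1 hr₁ c3 heq
    (fun σ hσ => hlt σ (by linarith)) (fun l hl σ hσ => hreg l hl σ (by linarith))
  have hU := unk_of_rd d1 (Rd.of_hom d2.symm hRd)
  have hset : {x | F₂ x = 0} = {x | (Box u ρ r x ∧ ‖orth u x‖ ^ 2 = p₂ ⟪u, x⟫) ∨
      (¬ Box u ρ r x ∧ x ∈ M)} := by
    ext x
    show F₂ x = 0 ↔ (Box u ρ r x ∧ ‖orth u x‖ ^ 2 = p₂ ⟪u, x⟫) ∨ (¬ Box u ρ r x ∧ x ∈ M)
    by_cases h1 : Box u ρ₁ r₁ x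
    · have h2 : Box u ρ r x := ⟨h1.1.trans a2, h1.2.trans hrr⟩
      rw [d4 x h1]
      exact ⟨fun h => Or.inl ⟨h2, h⟩, fun h => h.elim (fun h => h.2) fun h => absurd h2 h.1⟩
    · have h2 : ¬ Box u ρ₂ r₁ x := fun h => h1 ⟨h.1.trans a1, h.2⟩
      rw [d3 x h2, c4 x, ← hmem x]
      by_cases h3 : Box u ρ r x
      · have h4 : x ∈ M ↔ ‖orth u x‖ ^ 2 = p₂ ⟪u, x⟫ := by
          rw [hbox x h3]
          by_cases h5 : |⟪u, x⟫| < ρ₁
          · have h6 : r₁ ≤ ‖orth u x‖ := by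
              by_contra h7
              exact h1 ⟨h5, not_le.1 h7⟩
            have h7 : r₁ ^ 2 ≤ ‖orth u x‖ ^ 2 := pow_le_pow_left₀ hr₁.le h6 2
            obtain ⟨h8, h9⟩ := hlt _ h3.1
            exact ⟨fun h => by linarith, fun h => by linarith⟩
          · rw [heq _ (by linarith [not_lt.1 h5])]
        rw [h4]
        exact ⟨fun h => Or.inl ⟨h3, h⟩, fun h => h.elim (fun h => h.2) fun h => absurd h3 h.1⟩
      · exact ⟨fun h => Or.inr ⟨h3, h⟩, fun h => h.elim (fun h => absurd h.1 h3) fun h => h.2⟩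
  rw [← hset]
  exact hU

end Pool.Schoen
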